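import Mathlib

set_option autoImplicit false
open Finset

namespace Pool.Agent.Helper155.Gil

/-- convolution square -/
def cv (f : ℕ → ℕ) (n : ℕ) : ℕ := ∑ k ∈ range (n + 1), f k * f (n - k)

/-- packed initial segment in base `B` -/
def Xs (B : ℕ) (f : ℕ → ℕ) (n : ℕ) : ℕ := ∑ k ∈ range n, f k * B ^ k

namespace MConv

theorem cv_congr {f g : ℕ → ℕ} {n : ℕ} (h : ∀ k ≤ n, f k = g k) : cv f n = cv g n := by
  unfold cv
  refine Finset.sum_congr rfl fun k hk => ?_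
  rw [mem_range] at hk
  rw [h k (by omega), h (n - k) (by omega)]

theorem cv_bound {f : ℕ → ℕ} {n C : ℕ} (h : ∀ k ≤ n, f k ≤ C) : cv f n ≤ (n + 1) * (C * C) := by
  unfold cv
  calc ∑ k ∈ range (n + 1), f k * f (n - k) ≤ ∑ _k ∈ range (n + 1), C * C := by
        refine Finset.sum_le_sum fun k hk => ?_
        rw [mem_range] at hk
        exact Nat.mul_le_mul (h k (by omega)) (h (n - k) (by omega))
    _ = (n + 1) * (C * C) := by rw [Finset.sum_const, card_range, smul_eq_mul]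

open Polynomial in
theorem sq_expand (B : ℕ) (f : ℕ → ℕ) (n : ℕ) :
    ∃ T, Xs B f (n + 1) ^ 2 = ∑ m ∈ range (n + 1), cv f m * B ^ m + B ^ (n + 1) * T := by
  obtain ⟨p, hp⟩ : ∃ p : Polynomial ℕ, p = ∑ k ∈ range (n + 1), C (f k) * X ^ k := ⟨_, rfl⟩
  have hev : p.eval B = Xs B f (n + 1) := by
    rw [hp, Polynomial.eval_finsetSum]
    unfold Xs
    refine Finset.sum_congr rfl fun k _ => ?_
    simp
  have hco : ∀ i ≤ n, p.coeff i = f i := by
    intro i hi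
    rw [hp, Polynomial.finsetSum_coeff]
    rw [Finset.sum_eq_single i]
    · simp
    · intro b _ hb
      rw [Polynomial.coeff_C_mul, Polynomial.coeff_X_pow, if_neg (Ne.symm hb), mul_zero]
    · intro h
      exact absurd (mem_range.2 (by omega)) h
  have hcc : ∀ m ≤ n, (p * p).coeff m = cv f m := by
    intro m hm
    rw [Polynomial.coeff_mul, Finset.Nat.sum_antidiagonal_eq_sum_range_succ_mk]
    unfold cv
    refine Finset.sum_congr rfl fun k hk => ?_
    rw [mem_range] at hk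
    show p.coeff k * p.coeff (m - k) = _
    rw [hco k (by omega), hco (m - k) (by omega)]
  have h1 : (p * p).eval B = Xs B f (n + 1) ^ 2 := by
    rw [Polynomial.eval_mul, hev, sq]
  have h2 := Polynomial.eval_eq_sum_range' (p := p * p) (n := (n + 1) + ((p * p).natDegree + 1))
    (by omega) B
  rw [h1, Finset.sum_range_add] at h2
  refine ⟨∑ x ∈ range ((p * p).natDegree + 1), (p * p).coeff (n + 1 + x) * B ^ x, ?_⟩
  have e1 : ∑ x ∈ range (n + 1), (p * p).coeff x * B ^ x = ∑ m ∈ range (n + 1), cv f m * B ^ m := by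
    refine Finset.sum_congr rfl fun m hm => ?_
    rw [mem_range] at hm
    rw [hcc m (by omega)]
  have e2 : ∑ x ∈ range ((p * p).natDegree + 1), (p * p).coeff (n + 1 + x) * B ^ (n + 1 + x)
      = B ^ (n + 1) * ∑ x ∈ range ((p * p).natDegree + 1), (p * p).coeff (n + 1 + x) * B ^ x := by
    rw [Finset.mul_sum]
    refine Finset.sum_congr rfl fun m _ => ?_
    rw [pow_add]
    ring
  rw [h2, e1, e2]

theorem low_lt (B : ℕ) (f : ℕ → ℕ) (n : ℕ) (hB : 0 < B) (hd : ∀ m < n, cv f m < B) :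
    ∑ m ∈ range n, cv f m * B ^ m < B ^ n := by
  induction n with
  | zero => simp
  | succ n ih =>
    rw [Finset.sum_range_succ]
    have h1 := ih fun m hm => hd m (by omega)
    have h2 : cv f n + 1 ≤ B := hd n (by omega)
    calc ∑ m ∈ range n, cv f m * B ^ m + cv f n * B ^ n < B ^ n + cv f n * B ^ n := by omega
      _ = (cv f n + 1) * B ^ n := by ring
      _ ≤ B * B ^ n := Nat.mul_le_mul_right _ h2
      _ = B ^ (n + 1) := by ring

theorem digit (B : ℕ) (hB : 0 < B) (f : ℕ → ℕ) (n : ℕ) (hd : ∀ m ≤ n, cv f m < B) (U : ℕ)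
    (hU : U ≡ Xs B f (n + 1) ^ 2 [MOD B ^ (n + 1)]) : U / B ^ n % B = cv f n := by
  obtain ⟨T, hT⟩ := sq_expand B f n
  have h1 : U / B ^ n % B = (Xs B f (n + 1) ^ 2) / B ^ n % B := by
    rw [← Nat.mod_mul_right_div_self U (B ^ n) B, ← Nat.mod_mul_right_div_self (Xs B f (n + 1) ^ 2) (B ^ n) B]
    have : B ^ n * B = B ^ (n + 1) := by ring
    rw [this]
    have h2 : U % B ^ (n + 1) = Xs B f (n + 1) ^ 2 % B ^ (n + 1) := hU
    rw [h2]
  rw [h1, hT, Finset.sum_range_succ]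
  have hlow := low_lt B f n hB fun m hm => hd m (by omega)
  have e : ∑ m ∈ range n, cv f m * B ^ m + cv f n * B ^ n + B ^ (n + 1) * T
      = ∑ m ∈ range n, cv f m * B ^ m + B ^ n * (cv f n + B * T) := by ring
  rw [e, Nat.add_mul_div_left _ _ (pow_pos hB n), Nat.div_eq_of_lt hlow, zero_add, Nat.add_mul_mod_self_left,
    Nat.mod_eq_of_lt (hd n le_rfl)]

theorem Xs_split (B : ℕ) (f : ℕ → ℕ) (a b : ℕ) :
    Xs B f (a + b) = Xs B f a + B ^ a * Xs B (fun i => f (a + i)) b := by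
  unfold Xs
  rw [Finset.sum_range_add, Finset.mul_sum]
  congr 1
  refine Finset.sum_congr rfl fun k _ => ?_
  rw [pow_add]; ring

theorem Xs_succ (B : ℕ) (f : ℕ → ℕ) (n : ℕ) : Xs B f (n + 1) = Xs B f n + f n * B ^ n := by
  unfold Xs
  rw [Finset.sum_range_succ]

/-- digit extraction inside a block -/
theorem digit_block (B : ℕ) (hB : 0 < B) (f : ℕ → ℕ) (b n0 i : ℕ) (hb : b ≤ n0) (hi : i < b)
    (hd : ∀ m ≤ n0 + i, cv f m < B) :
    ((Xs B f n0 ^ 2 / B ^ n0) % B ^ b + 2 * Xs B f b * Xs B (fun j => f (n0 + j)) (i + 1)) / B ^ i % B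
      = cv f (n0 + i) := by
  set R := Xs B f n0 ^ 2 / B ^ n0 with hR
  set A := Xs B f b with hA
  set Y := Xs B (fun j => f (n0 + j)) (i + 1) with hY
  have h1 : (R % B ^ b + 2 * A * Y) / B ^ i % B = (R + 2 * A * Y) / B ^ i % B := by
    rw [← Nat.mod_mul_right_div_self _ (B ^ i) B, ← Nat.mod_mul_right_div_self (R + 2 * A * Y) (B ^ i) B]
    have e : B ^ i * B = B ^ (i + 1) := by ring
    rw [e]
    have h2 : R % B ^ b + 2 * A * Y ≡ R + 2 * A * Y [MOD B ^ (i + 1)] := by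
      refine Nat.ModEq.add_right _ ?_
      exact (Nat.mod_modEq R (B ^ b)).of_dvd (pow_dvd_pow B (by omega))
    rw [show (R % B ^ b + 2 * A * Y) % B ^ (i + 1) = (R + 2 * A * Y) % B ^ (i + 1) from h2]
  rw [h1]
  have h3 : (R + 2 * A * Y) / B ^ i = (Xs B f n0 ^ 2 + B ^ n0 * (2 * A * Y)) / B ^ (n0 + i) := by
    rw [pow_add, ← Nat.div_div_eq_div_mul, Nat.add_mul_div_left _ _ (pow_pos hB n0)]
  rw [h3]
  refine digit B hB f (n0 + i) hd _ ?_
  have hX : Xs B f (n0 + i + 1) = Xs B f n0 + B ^ n0 * Y := by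
    rw [show n0 + i + 1 = n0 + (i + 1) by ring, Xs_split]
  rw [hX]
  have hXA : Xs B f n0 ≡ A [MOD B ^ b] := by
    obtain ⟨c, rfl⟩ : ∃ c, n0 = b + c := ⟨n0 - b, by omega⟩
    rw [Xs_split]
    show (A + B ^ b * _) % B ^ b = A % B ^ b
    rw [Nat.add_mul_mod_self_left]
  have e2 : (Xs B f n0 + B ^ n0 * Y) ^ 2 = Xs B f n0 ^ 2 + B ^ n0 * (2 * Xs B f n0 * Y) + B ^ (n0 + n0) * Y ^ 2 := by
    rw [pow_add]; ring
  rw [e2]
  have h4 : B ^ (n0 + n0) * Y ^ 2 ≡ 0 [MOD B ^ (n0 + i + 1)] := by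
    refine (Nat.modEq_zero_iff_dvd.2 ?_)
    exact Dvd.dvd.mul_right (pow_dvd_pow B (by omega)) _
  have h5 : B ^ n0 * (2 * A * Y) ≡ B ^ n0 * (2 * Xs B f n0 * Y) [MOD B ^ (n0 + i + 1)] := by
    have h6 : 2 * A * Y ≡ 2 * Xs B f n0 * Y [MOD B ^ b] := (hXA.symm.mul_left 2).mul_right Y
    have h7 := h6.mul_left' (B ^ n0)
    rw [← pow_add] at h7
    exact h7.of_dvd (pow_dvd_pow B (by omega))
  have h8 := (Nat.ModEq.add_left (Xs B f n0 ^ 2) h5).add h4.symm
  simpa using h8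

theorem block_update (B : ℕ) (hB : 0 < B) (f : ℕ → ℕ) (b n0 : ℕ) :
    (Xs B f n0 ^ 2 / B ^ n0 + 2 * Xs B f n0 * Xs B (fun j => f (n0 + j)) b
      + B ^ n0 * (Xs B (fun j => f (n0 + j)) b * Xs B (fun j => f (n0 + j)) b)) / B ^ b
      = Xs B f (n0 + b) ^ 2 / B ^ (n0 + b) := by
  set X := Xs B f n0
  set Y := Xs B (fun j => f (n0 + j)) b with hY
  rw [pow_add B n0 b, ← Nat.div_div_eq_div_mul]
  congr 1
  rw [Xs_split, ← hY]
  have : (X + B ^ n0 * Y) ^ 2 = X ^ 2 + B ^ n0 * (2 * X * Y + B ^ n0 * (Y * Y)) := by ring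
  rw [this, Nat.add_mul_div_left _ _ (pow_pos hB n0)]
  ring

end MConv
end Pool.Agent.Helper155.Gil
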