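import Pool.Agent.Helper155.Gil.Defs
import Pool.Agent.Helper155.Gil.Conv

set_option autoImplicit false
open Finset

namespace Pool.Agent.Helper155.Gil

/-- evaluate the argument first -/
def seqN {α : Type} (x : ℕ) (f : ℕ → α) : α := Nat.rec (f 0) (fun n _ => f (Nat.succ n)) x

theorem seqN_eq {α : Type} (x : ℕ) (f : ℕ → α) : seqN x f = f x := by cases x <;> rfl

/-- fixed point approximation of `log ((y+1)/y)`, scale `3^40` -/
def incL (y : ℕ) : ℕ :=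
  (3 ^ 40 * (60 * (y + 1) ^ 4 + 30 * (y + 1) ^ 3 + 20 * (y + 1) ^ 2 + 15 * (y + 1) + 12)) / (60 * (y + 1) ^ 5)

/-- numerator of `zz` with denominator `75000000000 * y^4 * 3^160`, `θ = T / 3^40` -/
def zN (T y : ℤ) : ℤ :=
  75000000000 * T * 3 ^ 120 * y ^ 4 + (37500000000 * T * 3 ^ 120 + 25993019271 * 3 ^ 160) * y ^ 3
  + (-6250000000 * T ^ 2 * 3 ^ 80 + 19697547000 * T * 3 ^ 120 + 12214495725 * 3 ^ 160) * y ^ 2
  + (-13562062500 * T ^ 2 * 3 ^ 80 + 9792225000 * T * 3 ^ 120 + 6524722500 * 3 ^ 160) * y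
  + (625000000 * T ^ 4 + 637500000 * T ^ 3 * 3 ^ 40 - 20155500000 * T ^ 2 * 3 ^ 80
      + 3953250000 * T * 3 ^ 120 + 4032750000 * 3 ^ 160)

/-- numerator of the Taylor polynomial of `cos v` of degree 16, `w = (3^15 v)^2`, denominator `16! * 3^240` -/
def cosN (w : ℤ) : ℤ :=
  20922789888000 * 3 ^ 240 - w * (10461394944000 * 3 ^ 210 - w * (871782912000 * 3 ^ 180 - w * (29059430400 * 3 ^ 150
    - w * (518918400 * 3 ^ 120 - w * (5765760 * 3 ^ 90 - w * (43680 * 3 ^ 60 - w * (240 * 3 ^ 30 - w)))))))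

/-- check at `y = n+1`; `l` approximates `3^40 log y`, `V` approximates `3^40 V(n)` -/
def chkB (y l V : ℕ) : Bool :=
  seqN (l - 4108904881472577300) fun T =>
  seqN ((7680434244127 * l) / 3 ^ 50) fun a =>
  seqN (if y < 2048 then 946646837 else 1036803679) fun p =>
  seqN ((a - p) + (p - a)) fun v =>
  seqN (v * v) fun w =>
  seqN (75000000000 * y ^ 4 * 3 ^ 160) fun Ky =>
  Nat.ble
    (((((8427051535136343405 * V * 3 ^ 80 * 75000000000 * y ^ 4 : ℕ) : ℤ) - zN (T : ℤ) (y : ℤ)) * 10 ^ 12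
        * (20922789888000 * 3 ^ 240) - 230 * cosN (w : ℤ) * (Ky : ℤ)).natAbs
      + (23000 * (T + 3 ^ 40) * 75000000000 * y ^ 3 * 3 ^ 120 + Ky) * (20922789888000 * 3 ^ 240))
    (207 * Ky * (20922789888000 * 3 ^ 240))

def inner0 : ℕ → ℕ → ℕ → ℕ → ℕ → ℕ → ℕ → ℕ →
    (ℕ → ℕ → ℕ → ℕ → ℕ → ℕ → Bool) → Bool
  | 0, _, Y, E, S1, S0, V1, V0, k => k Y E S1 S0 V1 V0
  | f + 1, i, Y, E, S1, S0, V1, V0, k =>
    seqN (3 ^ 40 + (3 ^ 40 * 10 * S0) / S1) fun V =>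
    seqN (E * (10 * 3 ^ 40) / V) fun E' =>
    seqN (Y + E' * 2 ^ (1024 * i)) fun Y' =>
    seqN (((Y' * Y') >>> (1024 * i)) % 2 ^ 1024) fun S =>
    seqN (i + 1) fun i' =>
    Nat.ble V1 V && Nat.ble (V + V0) (2 * V1) && Nat.ble (2 ^ 96) E' && Nat.ble E' (2 ^ 500)
      && inner0 f i' Y' E' S S1 V V1 k

def inner : ℕ → ℕ → ℕ → ℕ → ℕ → ℕ → ℕ → ℕ → ℕ → ℕ → ℕ → ℕ →
    (ℕ → ℕ → ℕ → ℕ → ℕ → ℕ → ℕ → ℕ → Bool) → Bool
  | 0, _, n, _, _, Y, E, S1, S0, V1, V0, l, k => k n Y E S1 S0 V1 V0 l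
  | f + 1, i, n, Rl, A, Y, E, S1, S0, V1, V0, l, k =>
    seqN (3 ^ 40 + (3 ^ 40 * 10 * S0) / S1) fun V =>
    seqN (E * (10 * 3 ^ 40) / V) fun E' =>
    seqN (Y + E' * 2 ^ (1024 * i)) fun Y' =>
    seqN (((Rl + 2 * A * Y') >>> (1024 * i)) % 2 ^ 1024) fun S =>
    seqN (if n ≤ 1023 then 84270515351363434051 else l + incL n) fun l' =>
    seqN (i + 1) fun i' =>
    seqN (n + 1) fun n' =>
    Nat.ble V1 V && Nat.ble (V + V0) (2 * V1) && Nat.ble (2 ^ 96) E' && Nat.ble E' (2 ^ 500)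
      && (Nat.ble n 1023 || chkB n' l' V) && inner f i' n' Rl A Y' E' S S1 V V1 l' k

/-- `n` is the first index of the block -/
def outer : ℕ → ℕ → ℕ → ℕ → ℕ → ℕ → ℕ → ℕ → ℕ → ℕ → ℕ → Bool
  | 0, _, _, _, _, _, _, _, _, _, _ => true
  | f + 1, n, A, X, R, E, S1, S0, V1, V0, l =>
    seqN (R % 2 ^ 32768) fun Rl =>
    inner 32 0 n Rl A 0 E S1 S0 V1 V0 l fun n' Y E' S1' S0' V1' V0' l' =>
    seqN (2 ^ (1024 * n)) fun B =>
    seqN (X + B * Y) fun X' =>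
    seqN ((R + 2 * X * Y + B * (Y * Y)) >>> 32768) fun R' =>
    outer f n' A X' R' E' S1' S0' V1' V0' l'

def start (blocks : ℕ) : Bool :=
  inner0 30 2 (2 ^ 96 + 10 * 2 ^ 96 * 2 ^ 1024) (10 * 2 ^ 96) (2 * (2 ^ 96 * (10 * 2 ^ 96))) (2 ^ 192) (3 ^ 40) 0
    fun Y E S1 S0 V1 V0 => seqN ((Y * Y) >>> 32768) fun R =>
      outer blocks 32 Y Y R E S1 S0 V1 V0 84270515351363434051

/-- approximation of `3^40 log (n+1)` -/
def lq : ℕ → ℕ
  | 0 => 84270515351363434051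
  | n + 1 => if n + 1 ≤ 1023 then 84270515351363434051 else lq n + incL (n + 1)

end Pool.Agent.Helper155.Gil
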