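import Pool.Agent.Helper155.Gil.Defs
import Pool.Agent.Helper155.Gil.Prog

set_option autoImplicit false
open Finset Filter Topology

namespace Pool.Agent.Helper155.Gil
namespace MLQ
/-! TARGETS -/


theorem log_two_close : |Real.log 2 - 8427051535136343405 / 3 ^ 40| ≤ 1 / 10 ^ 18 := by
  have h := Real.abs_log_sub_add_sum_range_le (x := 1/2) (by rw [abs_of_pos] <;> norm_num) 64
  have h2 : Real.log (1 - 1/2) = - Real.log 2 := by
    rw [show (1 - 1/2 : ℝ) = 2⁻¹ by norm_num, Real.log_inv]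
  rw [h2, abs_of_pos (show (0:ℝ) < 1/2 by norm_num)] at h
  simp only [Finset.sum_range_succ, Finset.sum_range_zero] at h
  rw [abs_le] at h ⊢
  obtain ⟨ha, hb⟩ := h
  norm_num at ha hb ⊢
  constructor <;> linarith

theorem h170_inc (n : ℕ) (h1 : 1023 ≤ n) :
    |(Real.log ((n : ℝ) + 1 + 1) - Real.log ((n : ℝ) + 1)) - (incL (n + 1) : ℝ) / 3 ^ 40| ≤ 2 / 10 ^ 18 := by
  have hn : (1023:ℝ) ≤ (n:ℝ) := by exact_mod_cast h1
  set Y : ℝ := (n:ℝ) + 1 + 1 with hY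
  have hY0 : (1025:ℝ) ≤ Y := by rw [hY]; linarith
  have hYp : (0:ℝ) < Y := by linarith
  set x : ℝ := 1 / Y with hx
  have hx0 : 0 < x := by positivity
  have hx1 : x ≤ 1 / 1025 := by
    rw [hx]; exact one_div_le_one_div_of_le (by norm_num) hY0
  have hlog : Real.log Y - Real.log ((n:ℝ)+1) = - Real.log (1 - x) := by
    have : 1 - x = ((n:ℝ)+1) / Y := by
      rw [hx]; field_simp; rw [hY]; ring
    rw [this, Real.log_div (by positivity) hYp.ne']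
    ring
  have h := Real.abs_log_sub_add_sum_range_le (x := x) (by rw [abs_of_pos hx0]; linarith) 5
  rw [abs_of_pos hx0] at h
  simp only [Finset.sum_range_succ, Finset.sum_range_zero] at h
  have hbd : x ^ (5 + 1) / (1 - x) ≤ 1 / 10 ^ 18 := by
    have h3 : x ^ 6 ≤ (1/1025) ^ 6 := pow_le_pow_left₀ hx0.le hx1 6
    have h4 : (1024/1025 : ℝ) ≤ 1 - x := by linarith
    calc x ^ (5 + 1) / (1 - x) ≤ (1/1025) ^ 6 / (1024/1025) := by
          exact div_le_div₀ (by positivity) h3 (by norm_num) h4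
      _ ≤ 1 / 10 ^ 18 := by norm_num
  have h5 := h.trans hbd
  -- floor
  have hfl : ∀ A B : ℕ, 0 < B → |((A / B : ℕ) : ℝ) - (A:ℝ) / B| ≤ 1 := by
    intro A B hB
    have hB' : (0:ℝ) < B := by exact_mod_cast hB
    have e1 : ((A / B : ℕ) : ℝ) ≤ (A:ℝ) / B := Nat.cast_div_le
    have e2 : (A:ℝ) / B < ((A / B : ℕ) : ℝ) + 1 := by
      rw [div_lt_iff₀ hB']
      have := Nat.lt_div_mul_add (a := A) hB
      have h6 : (A:ℝ) < ((A / B : ℕ) : ℝ) * B + B := by exact_mod_cast this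
      linarith
    rw [abs_le]; constructor <;> linarith
  have hinc : |(incL (n + 1) : ℝ) - 3 ^ 40 * (x + x ^ 2 / 2 + x ^ 3 / 3 + x ^ 4 / 4 + x ^ 5 / 5)| ≤ 1 := by
    have h7 := hfl (3 ^ 40 * (60 * (n + 1 + 1) ^ 4 + 30 * (n + 1 + 1) ^ 3 + 20 * (n + 1 + 1) ^ 2 + 15 * (n + 1 + 1) + 12))
      (60 * (n + 1 + 1) ^ 5) (by positivity)
    have h8 : (incL (n+1) : ℝ) = ((3 ^ 40 * (60 * (n + 1 + 1) ^ 4 + 30 * (n + 1 + 1) ^ 3 + 20 * (n + 1 + 1) ^ 2 + 15 * (n + 1 + 1) + 12) / (60 * (n + 1 + 1) ^ 5) : ℕ) : ℝ) := rfl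
    rw [← h8] at h7
    have h9 : ((3 ^ 40 * (60 * (n + 1 + 1) ^ 4 + 30 * (n + 1 + 1) ^ 3 + 20 * (n + 1 + 1) ^ 2 + 15 * (n + 1 + 1) + 12) : ℕ) : ℝ) / ((60 * (n + 1 + 1) ^ 5 : ℕ) : ℝ) =
        3 ^ 40 * (x + x ^ 2 / 2 + x ^ 3 / 3 + x ^ 4 / 4 + x ^ 5 / 5) := by
      push_cast
      rw [← hY, hx]
      field_simp
      ring
    rw [h9] at h7
    exact h7
  rw [hlog]
  push_cast at h5
  rw [abs_le] at h5 hinc ⊢
  obtain ⟨a1, a2⟩ := h5
  obtain ⟨b1, b2⟩ := hinc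
  have e3 : (0:ℝ) < 3 ^ 40 := by positivity
  have c1 : (incL (n + 1) : ℝ) / 3 ^ 40 ≤ (x + x ^ 2 / 2 + x ^ 3 / 3 + x ^ 4 / 4 + x ^ 5 / 5) + 1 / 3 ^ 40 := by
    rw [div_le_iff₀ e3]
    have : (x + x ^ 2 / 2 + x ^ 3 / 3 + x ^ 4 / 4 + x ^ 5 / 5 + 1 / 3 ^ 40) * 3 ^ 40 =
      3 ^ 40 * (x + x ^ 2 / 2 + x ^ 3 / 3 + x ^ 4 / 4 + x ^ 5 / 5) + 1 := by
      field_simp
    rw [this]; linarith
  have c2 : (x + x ^ 2 / 2 + x ^ 3 / 3 + x ^ 4 / 4 + x ^ 5 / 5) - 1 / 3 ^ 40 ≤ (incL (n + 1) : ℝ) / 3 ^ 40 := by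
    rw [le_div_iff₀ e3]
    have : (x + x ^ 2 / 2 + x ^ 3 / 3 + x ^ 4 / 4 + x ^ 5 / 5 - 1 / 3 ^ 40) * 3 ^ 40 =
      3 ^ 40 * (x + x ^ 2 / 2 + x ^ 3 / 3 + x ^ 4 / 4 + x ^ 5 / 5) - 1 := by
      field_simp
    rw [this]; linarith
  have c3 : (1:ℝ) / 3 ^ 40 ≤ 1 / 10 ^ 18 := by norm_num
  norm_num at a1 a2 c1 c2 c3 ⊢
  constructor <;> linarith

theorem lq_err (n : ℕ) (h1 : 1023 ≤ n) (h2 : n ≤ 4095) :
    |Real.log ((n : ℝ) + 1) - (lq n : ℝ) / 3 ^ 40| ≤ 1 / 10 ^ 14 := by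
  have key : ∀ m : ℕ, |Real.log (((1023 + m : ℕ) : ℝ) + 1) - (lq (1023 + m) : ℝ) / 3 ^ 40| ≤
      (m : ℝ) * (2 / 10 ^ 18) + 2 / 10 ^ 17 := by
    intro m
    induction m with
    | zero =>
      have hl : lq (1023 + 0) = 84270515351363434051 := rfl
      rw [hl]
      have hlog : Real.log (((1023 + 0 : ℕ) : ℝ) + 1) = 10 * Real.log 2 := by
        rw [show (((1023 + 0 : ℕ) : ℝ) + 1) = 2 ^ 10 by norm_num, Real.log_pow]
        norm_num
      rw [hlog]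
      have h := log_two_close
      rw [abs_le] at h ⊢
      obtain ⟨a, b⟩ := h
      norm_num at a b ⊢
      constructor <;> linarith
    | succ m ih =>
      have hs : lq (1023 + (m + 1)) = lq (1023 + m) + incL (1023 + m + 1) := by
        show (if 1023 + m + 1 ≤ 1023 then 84270515351363434051 else lq (1023 + m) + incL (1023 + m + 1)) = _
        rw [if_neg (by omega)]
      have hi := h170_inc (1023 + m) (by omega)
      rw [hs]
      have e1 : (((1023 + (m + 1) : ℕ) : ℝ) + 1) = ((1023 + m : ℕ) : ℝ) + 1 + 1 := by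
        push_cast; ring
      rw [e1]
      push_cast at ih hi ⊢
      have e2 : ((lq (1023 + m) : ℝ) + (incL (1023 + m + 1) : ℝ)) / 3 ^ 40 =
        (lq (1023 + m) : ℝ) / 3 ^ 40 + (incL (1023 + m + 1) : ℝ) / 3 ^ 40 := by ring
      rw [e2]
      rw [abs_le] at ih hi ⊢
      constructor <;> linarith [ih.1, ih.2, hi.1, hi.2]
  obtain ⟨m, rfl⟩ := Nat.exists_eq_add_of_le h1
  refine (key m).trans ?_
  have hm : (m:ℝ) ≤ 3072 := by
    have : m ≤ 3072 := by omega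
    exact_mod_cast this
  norm_num
  linarith

end MLQ
end Pool.Agent.Helper155.Gil
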