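import Pool.Agent.Helper155.Gil.Defs
import Pool.Agent.Helper155.Gil.Prog
import Pool.Agent.Helper155.Gil.LQ

set_option autoImplicit false
open Finset Filter Topology

namespace Pool.Agent.Helper155.Gil
namespace MBase
open MLQ
/-! GIVEN -/


/-! TARGET -/

noncomputable def cosT (u : ℝ) : ℝ := 1 - u^2/2 + u^4/24 - u^6/720 + u^8/40320 - u^10/3628800 +
  u^12/479001600 - u^14/87178291200 + u^16/20922789888000

theorem cos_taylor (u : ℝ) (hu : |u| ≤ 16/5) : |Real.cos u - cosT u| ≤ 1/10^4 := by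
  unfold cosT
  have hn : ‖(u : ℂ) * Complex.I‖ = |u| := by simp
  have h := Complex.exp_bound' (x := (u : ℂ) * Complex.I) (n := 18)
    (by rw [hn]; norm_num; linarith)
  rw [hn] at h
  have hre : Real.cos u - (1 - u^2/2 + u^4/24 - u^6/720 + u^8/40320 - u^10/3628800 +
      u^12/479001600 - u^14/87178291200 + u^16/20922789888000)
      = (Complex.exp (u*Complex.I) -
        ∑ m ∈ range 18, ((u:ℂ)*Complex.I)^m / (Nat.factorial m : ℂ)).re := by
    rw [Complex.sub_re, Complex.exp_ofReal_mul_I_re, Complex.re_sum]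
    congr 1
    simp only [Finset.sum_range_succ, Finset.sum_range_zero, Complex.div_natCast_re]
    simp [pow_succ, Complex.mul_re, Complex.mul_im, Nat.factorial]
    ring
  rw [hre]
  refine (Complex.abs_re_le_norm _).trans (h.trans ?_)
  have h18 : |u|^18 ≤ (16/5)^18 := pow_le_pow_left₀ (abs_nonneg _) hu 18
  have : (Nat.factorial 18 : ℝ) = 6402373705728000 := by norm_num [Nat.factorial]
  rw [this]
  norm_num at h18 ⊢
  linarith

noncomputable def Zf (θ y : ℝ) : ℝ := θ + P1 θ / y + P2 θ / y ^ 2 + P3 θ / y ^ 3 + P4 θ / y ^ 4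

theorem Zf_lip (θ θ' y : ℝ) (h1 : 0 ≤ θ) (h2 : θ ≤ 10) (h1' : 0 ≤ θ') (h2' : θ' ≤ 10)
    (hy : 1000 ≤ y) : |Zf θ y - Zf θ' y| ≤ 2 * |θ - θ'| := by
  have y0 : 0 < y := by linarith
  set r : ℝ := 1 / y with hr
  have r0 : 0 ≤ r := by positivity
  have r1 : r ≤ 1 / 1000 := by
    rw [hr]; exact one_div_le_one_div_of_le (by norm_num) hy
  have e : Zf θ y - Zf θ' y = (θ - θ') * (1 + 1 / 2 * r +
      (-(θ + θ') / 12 + 6565849 / 25000000) * r ^ 2 +
      (-(72331 / 400000) * (θ + θ') + 130563 / 1000000) * r ^ 3 +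
      ((θ ^ 3 + θ ^ 2 * θ' + θ * θ' ^ 2 + θ' ^ 3) / 120 + 17 / 2000 * (θ ^ 2 + θ * θ' + θ' ^ 2)
        - 13437 / 50000 * (θ + θ') + 5271 / 100000) * r ^ 4) := by
    rw [hr]
    unfold Zf P1 P2 P3 P4
    field_simp
    ring
  rw [e, abs_mul, mul_comm 2]
  apply mul_le_mul_of_nonneg_left _ (abs_nonneg _)
  have rr1 : r ≤ 1 := by linarith
  have r2 : r ^ 2 ≤ 1 / 1000 * r := by
    rw [pow_two]; exact mul_le_mul_of_nonneg_right r1 r0
  have r3 : r ^ 3 ≤ 1 / 1000 * r :=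
    (pow_le_pow_of_le_one r0 rr1 (by norm_num : 2 ≤ 3)).trans r2
  have r4 : r ^ 4 ≤ 1 / 1000 * r :=
    (pow_le_pow_of_le_one r0 rr1 (by norm_num : 2 ≤ 4)).trans r2
  have p2 : 0 ≤ r ^ 2 := by positivity
  have p3 : 0 ≤ r ^ 3 := by positivity
  have p4 : 0 ≤ r ^ 4 := by positivity
  have a2 : |(-(θ + θ') / 12 + 6565849 / 25000000)| ≤ 2 := by
    rw [abs_le]; constructor <;> linarith
  have a3 : |(-(72331 / 400000) * (θ + θ') + 130563 / 1000000)| ≤ 4 := by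
    rw [abs_le]; constructor <;> linarith
  have q2 : θ ^ 2 ≤ 100 := (pow_le_pow_left₀ h1 h2 2).trans (by norm_num)
  have q2' : θ' ^ 2 ≤ 100 := (pow_le_pow_left₀ h1' h2' 2).trans (by norm_num)
  have qq' : θ * θ' ≤ 100 := (mul_le_mul h2 h2' h1' (by norm_num)).trans (by norm_num)
  have n2 : 0 ≤ θ ^ 2 := by positivity
  have n2' : 0 ≤ θ' ^ 2 := by positivity
  have nn' : 0 ≤ θ * θ' := by positivity
  have b1 : θ ^ 3 ≤ 1000 := (pow_le_pow_left₀ h1 h2 3).trans (by norm_num)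
  have b2 : θ ^ 2 * θ' ≤ 1000 := (mul_le_mul q2 h2' h1' (by norm_num)).trans (by norm_num)
  have b3 : θ * θ' ^ 2 ≤ 1000 := (mul_le_mul h2 q2' n2' (by norm_num)).trans (by norm_num)
  have b4 : θ' ^ 3 ≤ 1000 := (pow_le_pow_left₀ h1' h2' 3).trans (by norm_num)
  have c1 : 0 ≤ θ ^ 3 := by positivity
  have c2 : 0 ≤ θ ^ 2 * θ' := by positivity
  have c3 : 0 ≤ θ * θ' ^ 2 := by positivity
  have c4 : 0 ≤ θ' ^ 3 := by positivity
  have a4 : |((θ ^ 3 + θ ^ 2 * θ' + θ * θ' ^ 2 + θ' ^ 3) / 120 +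
      17 / 2000 * (θ ^ 2 + θ * θ' + θ' ^ 2)
        - 13437 / 50000 * (θ + θ') + 5271 / 100000)| ≤ 42 := by
    rw [abs_le]; constructor <;> linarith
  have t2 : |(-(θ + θ') / 12 + 6565849 / 25000000) * r ^ 2| ≤ 2 * r ^ 2 := by
    rw [abs_mul, abs_of_nonneg p2]; exact mul_le_mul_of_nonneg_right a2 p2
  have t3 : |(-(72331 / 400000) * (θ + θ') + 130563 / 1000000) * r ^ 3| ≤ 4 * r ^ 3 := by
    rw [abs_mul, abs_of_nonneg p3]; exact mul_le_mul_of_nonneg_right a3 p3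
  have t4 : |((θ ^ 3 + θ ^ 2 * θ' + θ * θ' ^ 2 + θ' ^ 3) / 120 +
      17 / 2000 * (θ ^ 2 + θ * θ' + θ' ^ 2)
        - 13437 / 50000 * (θ + θ') + 5271 / 100000) * r ^ 4| ≤ 42 * r ^ 4 := by
    rw [abs_mul, abs_of_nonneg p4]; exact mul_le_mul_of_nonneg_right a4 p4
  rw [abs_le] at t2 t3 t4
  rw [abs_le]
  constructor <;> linarith [t2.1, t2.2, t3.1, t3.2, t4.1, t4.2]

theorem cosN_eq (w : ℤ) (u : ℝ) (h : (w : ℝ) = 3 ^ 30 * u ^ 2) :
    (cosN w : ℝ) = 20922789888000 * 3 ^ 240 * cosT u := by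
  unfold cosN cosT
  push_cast
  rw [h]
  ring

theorem zN_eq (T y : ℤ) (hy : (y : ℝ) ≠ 0) :
    (zN T y : ℝ) = 75000000000 * (y : ℝ) ^ 4 * 3 ^ 160 * Zf ((T : ℝ) / 3 ^ 40) y := by
  unfold zN Zf P1 P2 P3 P4
  simp only [Int.cast_add, Int.cast_sub, Int.cast_mul, Int.cast_pow, Int.cast_neg, Int.cast_ofNat]
  obtain ⟨M, hM⟩ : ∃ M : ℝ, M = 3 ^ 40 := ⟨_, rfl⟩
  have M0 : M ≠ 0 := by rw [hM]; positivity
  have e80 : (3 : ℝ) ^ 80 = M ^ 2 := by rw [hM, ← pow_mul]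
  have e120 : (3 : ℝ) ^ 120 = M ^ 3 := by rw [hM, ← pow_mul]
  have e160 : (3 : ℝ) ^ 160 = M ^ 4 := by rw [hM, ← pow_mul]
  rw [e80, e120, e160, ← hM]
  field_simp
  ring

theorem log2_lo : (69314718055 : ℝ) / 10 ^ 11 ≤ Real.log 2 := by
  have := log_two_close
  rw [abs_le] at this
  have h := this.1
  norm_num at h ⊢
  linarith

theorem log2_hi : Real.log 2 ≤ (69314718056 : ℝ) / 10 ^ 11 := by
  have := log_two_close
  rw [abs_le] at this
  have h := this.2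
  norm_num at h ⊢
  linarith

theorem omega_close : |2 * Real.pi / Real.log 2 - 7680434244127 / 3 ^ 25| ≤ 1 / 10 ^ 8 := by
  have h1 := log2_lo
  have h2 := log2_hi
  have h := log_two_close
  have p1 := Real.pi_gt_d20
  have p2 := Real.pi_lt_d20
  have l0 : 0 < Real.log 2 := by
    have : (0 : ℝ) < 69314718055 / 10 ^ 11 := by norm_num
    linarith
  have e : 2 * Real.pi / Real.log 2 - 7680434244127 / 3 ^ 25 =
      (2 * Real.pi - 7680434244127 / 3 ^ 25 * Real.log 2) / Real.log 2 := by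
    field_simp
  rw [e, abs_div, abs_of_pos l0, div_le_iff₀ l0]
  rw [abs_le] at h ⊢
  obtain ⟨ha, hb⟩ := h
  norm_num at ha hb h1 h2 p1 p2 ⊢
  constructor <;> linarith

theorem V_bound (k x q : ℝ) (g1 : 2 * k * q ≤ x) (g2 : x ≤ 2 * (k + 1) * q) :
    |x - (2 * k + 1) * q| ≤ q := by
  rw [abs_le]
  constructor <;> linarith

theorem Zf_zero (y : ℝ) (hy : 1000 ≤ y) : |Zf 0 y| ≤ 1 := by
  have y0 : 0 < y := by linarith
  set r : ℝ := 1 / y with hr
  have r0 : 0 ≤ r := by positivity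
  have r1 : r ≤ 1 / 1000 := by
    rw [hr]; exact one_div_le_one_div_of_le (by norm_num) hy
  have e : Zf 0 y = 8664339757 / 25000000000 * r + 162859943 / 1000000000 * r ^ 2
      + 869963 / 10000000 * r ^ 3 + 5377 / 100000 * r ^ 4 := by
    rw [hr]; unfold Zf P1 P2 P3 P4; field_simp; ring
  have rr1 : r ≤ 1 := by linarith
  have r2 : r ^ 2 ≤ r := pow_le_of_le_one r0 rr1 (by norm_num)
  have r3 : r ^ 3 ≤ r := pow_le_of_le_one r0 rr1 (by norm_num)
  have r4 : r ^ 4 ≤ r := pow_le_of_le_one r0 rr1 (by norm_num)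
  have : 0 ≤ Zf 0 y := by rw [e]; positivity
  rw [abs_of_nonneg this, e]
  linarith

theorem final_arith (l2 L0 v x z zT qv cu cT th tT a0 ep kp Y : ℝ)
    (hL : |l2 - L0| ≤ 1 / 10 ^ 18) (hL1 : 69 / 100 ≤ L0) (hL2 : L0 ≤ 1)
    (hv : |v - x| ≤ 1 / 10 ^ 14) (hx : 0 ≤ x) (ha0 : 0 ≤ a0) (ha1 : a0 ≤ 3 / 10 ^ 10)
    (hq : |qv + cu| ≤ 1 / 10 ^ 4) (hc : |cu - cT| ≤ 1 / 10 ^ 4) (hcu : |cu| ≤ 1)
    (hz : |z - zT| ≤ 4 / 10 ^ 14) (hzT : |zT| ≤ 21) (hth : |tT - th| ≤ 2 / 10 ^ 14)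
    (hY : 1 ≤ Y) (hkp0 : 0 ≤ kp) (hkp : kp ≤ 1) (hep : ep ≤ 1)
    (chk : |L0 * x - zT - a0 * cT| + kp * (tT + 1) / Y + 1 / 10 ^ 12 ≤ ep)
    (hk : 0 ≤ kp * (tT + 1) / Y) :
    |l2 * v - z + a0 * qv| ≤ ep - kp * (th + 1) / Y := by
  have Y0 : 0 < Y := by linarith
  -- bound for x
  have cT2 : |cT| ≤ 2 := by
    have : cT = cu - (cu - cT) := by ring
    rw [this]
    refine (abs_sub _ _).trans ?_
    have : (1 : ℝ) / 10 ^ 4 ≤ 1 := by norm_num
    linarith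
  have hLx : L0 * x ≤ 23 := by
    have h1 : L0 * x - zT - a0 * cT ≤ ep := by
      have := le_abs_self (L0 * x - zT - a0 * cT)
      have h0 : (0 : ℝ) ≤ 1 / 10 ^ 12 := by positivity
      linarith
    have h2 : a0 * cT ≤ 1 := by
      calc a0 * cT ≤ a0 * 2 := mul_le_mul_of_nonneg_left ((le_abs_self _).trans cT2) ha0
        _ ≤ 3 / 10 ^ 10 * 2 := mul_le_mul_of_nonneg_right ha1 (by norm_num)
        _ ≤ 1 := by norm_num
    have h3 := (le_abs_self zT).trans hzT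
    linarith
  have hx2 : x ≤ 50 := by
    by_contra hcon
    push Not at hcon
    have : L0 * x ≥ 69 / 100 * 50 := mul_le_mul hL1 hcon.le (by norm_num) (by linarith)
    norm_num at this
    linarith
  have hv2 : |v| ≤ 51 := by
    have : v = (v - x) + x := by ring
    rw [this]
    refine (abs_add_le _ _).trans ?_
    rw [abs_of_nonneg hx]
    have : (1 : ℝ) / 10 ^ 14 ≤ 1 := by norm_num
    linarith
  have E1 : |l2 * v - L0 * x| ≤ 2 / 10 ^ 14 := by
    have e : l2 * v - L0 * x = (l2 - L0) * v + L0 * (v - x) := by ring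
    rw [e]
    refine (abs_add_le _ _).trans ?_
    rw [abs_mul, abs_mul, abs_of_nonneg (by linarith : 0 ≤ L0)]
    have k1 : |l2 - L0| * |v| ≤ 1 / 10 ^ 18 * 51 := mul_le_mul hL hv2 (abs_nonneg _) (by positivity)
    have k2 : L0 * |v - x| ≤ 1 * (1 / 10 ^ 14) := mul_le_mul hL2 hv (abs_nonneg _) (by norm_num)
    norm_num at k1 k2 ⊢
    linarith
  have E4 : |a0 * (qv + cu) - a0 * (cu - cT)| ≤ 6 / 10 ^ 14 := by
    refine (abs_sub _ _).trans ?_
    rw [abs_mul, abs_mul, abs_of_nonneg ha0]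
    have k1 : a0 * |qv + cu| ≤ 3 / 10 ^ 10 * (1 / 10 ^ 4) :=
      mul_le_mul ha1 hq (abs_nonneg _) (by positivity)
    have k2 : a0 * |cu - cT| ≤ 3 / 10 ^ 10 * (1 / 10 ^ 4) :=
      mul_le_mul ha1 hc (abs_nonneg _) (by positivity)
    norm_num at k1 k2 ⊢
    linarith
  have E5 : kp * (th + 1) / Y ≤ kp * (tT + 1) / Y + 2 / 10 ^ 14 := by
    have h1 : kp * (th + 1) / Y - kp * (tT + 1) / Y = kp * (th - tT) / Y := by ring
    have h2 : kp * (th - tT) / Y ≤ 2 / 10 ^ 14 := by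
      rw [div_le_iff₀ Y0]
      have h3 : th - tT ≤ 2 / 10 ^ 14 := by
        have := neg_abs_le (tT - th)
        linarith
      calc kp * (th - tT) ≤ kp * (2 / 10 ^ 14) := mul_le_mul_of_nonneg_left h3 hkp0
        _ ≤ 1 * (2 / 10 ^ 14) := mul_le_mul_of_nonneg_right hkp (by positivity)
        _ ≤ 2 / 10 ^ 14 * Y := by
          rw [one_mul]; exact le_mul_of_one_le_right (by positivity) hY
    linarith
  have dec : l2 * v - z + a0 * qv = (l2 * v - L0 * x) + (L0 * x - zT - a0 * cT) - (z - zT)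
      + (a0 * (qv + cu) - a0 * (cu - cT)) := by ring
  rw [dec]
  have s1 := abs_add_le ((l2 * v - L0 * x) + (L0 * x - zT - a0 * cT) - (z - zT))
    (a0 * (qv + cu) - a0 * (cu - cT))
  have s2 := abs_sub ((l2 * v - L0 * x) + (L0 * x - zT - a0 * cT)) (z - zT)
  have s3 := abs_add_le (l2 * v - L0 * x) (L0 * x - zT - a0 * cT)
  norm_num at E1 E4 E5 hz chk ⊢
  linarith

theorem qq_close (y l : ℕ) (hy : 1025 ≤ y) (hy2 : y ≤ 4096)
    (hl : |Real.log y - (l : ℝ) / 3 ^ 40| ≤ 1 / 10 ^ 14) (a p : ℕ)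
    (ha : a = 7680434244127 * l / 3 ^ 50) (hp : p = if y < 2048 then 946646837 else 1036803679)
    (u : ℝ) (hu : u = |(a : ℝ) / 3 ^ 15 - (p : ℝ) / 3 ^ 15|) :
    |u| ≤ 16 / 5 ∧ |qq y + Real.cos u| ≤ 1 / 10 ^ 4 := by
  have l0 := log2_lo
  have l1 := log2_hi
  have om := omega_close
  have hπ1 := Real.pi_gt_d20
  have hπ2 := Real.pi_lt_d20
  have lpos : 0 < Real.log 2 := by
    have : (0 : ℝ) < 69314718055 / 10 ^ 11 := by norm_num
    linarith
  obtain ⟨t, ht⟩ : ∃ t : ℝ, t = Real.log y := ⟨_, rfl⟩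
  obtain ⟨ω, hω⟩ : ∃ ω : ℝ, ω = 2 * Real.pi / Real.log 2 := ⟨_, rfl⟩
  rw [← hω] at om
  rw [← ht] at hl
  have yR : (1025 : ℝ) ≤ y := by exact_mod_cast hy
  have yR2 : (y : ℝ) ≤ 4096 := by exact_mod_cast hy2
  -- bounds for t
  have lk : ∀ k : ℕ, Real.log ((2 : ℝ) ^ k) = k * Real.log 2 := fun k => Real.log_pow 2 k
  have t_hi : t ≤ 12 * Real.log 2 := by
    have := lk 12
    rw [ht]
    calc Real.log y ≤ Real.log ((2 : ℝ) ^ 12) :=
          Real.log_le_log (by linarith) (by norm_num; linarith)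
      _ = 12 * Real.log 2 := by rw [this]; norm_num
  have t_lo : 10 * Real.log 2 ≤ t := by
    have := lk 10
    rw [ht]
    calc 10 * Real.log 2 = Real.log ((2 : ℝ) ^ 10) := by rw [this]; norm_num
      _ ≤ Real.log y := Real.log_le_log (by norm_num) (by norm_num; linarith)
  have t0 : 0 ≤ t := by linarith
  have t9 : t ≤ 9 := by
    have : (12 : ℝ) * (69314718056 / 10 ^ 11) ≤ 9 := by norm_num
    linarith
  obtain ⟨lam, hlam⟩ : ∃ lam : ℝ, lam = (l : ℝ) / 3 ^ 40 := ⟨_, rfl⟩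
  rw [← hlam] at hl
  -- a / 3 ^ 15
  have hX : |(a : ℝ) / 3 ^ 15 - 7680434244127 / 3 ^ 25 * lam| ≤ 1 / 3 ^ 15 := by
    have e : 7680434244127 / 3 ^ 25 * lam = ((7680434244127 * l : ℕ) : ℝ) / ((3 ^ 50 : ℕ) : ℝ) / 3 ^ 15 := by
      rw [hlam]; push_cast; ring
    rw [e, ← sub_div, abs_div, abs_of_pos (by positivity : (0 : ℝ) < 3 ^ 15)]
    apply div_le_div_of_nonneg_right _ (by positivity)
    rw [ha]
    have h1 : ((7680434244127 * l / 3 ^ 50 : ℕ) : ℝ) ≤ ((7680434244127 * l : ℕ) : ℝ) / ((3 ^ 50 : ℕ) : ℝ) :=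
      Nat.cast_div_le
    have h2 : ((7680434244127 * l : ℕ) : ℝ) / ((3 ^ 50 : ℕ) : ℝ) < ((7680434244127 * l / 3 ^ 50 : ℕ) : ℝ) + 1 := by
      rw [div_lt_iff₀ (by positivity)]
      have := Nat.lt_mul_div_succ (7680434244127 * l) (b := 3 ^ 50) (by positivity)
      have h3 : 7680434244127 * l < (7680434244127 * l / 3 ^ 50 + 1) * 3 ^ 50 := by
        rw [mul_comm (7680434244127 * l / 3 ^ 50 + 1)]; exact this
      exact_mod_cast h3
    rw [abs_le]
    constructor <;> linarith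
  have hωt : |ω * t - 7680434244127 / 3 ^ 25 * lam| ≤ 1 / 10 ^ 6 := by
    have e : ω * t - 7680434244127 / 3 ^ 25 * lam =
        (ω - 7680434244127 / 3 ^ 25) * t + 7680434244127 / 3 ^ 25 * (t - lam) := by ring
    rw [e]
    refine (abs_add_le _ _).trans ?_
    rw [abs_mul, abs_mul, abs_of_nonneg t0]
    have k1 : |ω - 7680434244127 / 3 ^ 25| * t ≤ 1 / 10 ^ 8 * 9 :=
      mul_le_mul om t9 t0 (by positivity)
    have k2 : |(7680434244127 : ℝ) / 3 ^ 25| * |t - lam| ≤ 10 * (1 / 10 ^ 14) := by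
      apply mul_le_mul _ hl (abs_nonneg _) (by norm_num)
      rw [abs_of_pos (by positivity)]; norm_num
    norm_num at k1 k2 ⊢
    linarith
  have hA : |ω * t - (a : ℝ) / 3 ^ 15| ≤ 1 / 10 ^ 5 := by
    rw [abs_le] at hωt hX ⊢
    obtain ⟨x1, x2⟩ := hωt
    obtain ⟨x3, x4⟩ := hX
    norm_num at x1 x2 x3 x4 ⊢
    constructor <;> linarith
  have qe : qq y = Real.cos (ω * t) := by
    unfold qq
    rw [hω, ht]
    congr 1
    ring
  -- main claim for k
  have main : ∀ k : ℕ, (k : ℝ) * Real.log 2 ≤ t → t ≤ (k + 1) * Real.log 2 →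
      |(2 * k + 1 : ℝ) * Real.pi - (p : ℝ) / 3 ^ 15| ≤ 1 / 10 ^ 5 →
      |u| ≤ 16 / 5 ∧ |qq y + Real.cos u| ≤ 1 / 10 ^ 4 := by
    intro k hk1 hk2 hk
    obtain ⟨V, hV⟩ : ∃ V : ℝ, V = ω * t - (2 * k + 1) * Real.pi := ⟨_, rfl⟩
    have hcos : qq y = -Real.cos V := by
      rw [qe]
      have : ω * t = V + ((2 * k + 1 : ℕ) : ℝ) * Real.pi := by rw [hV]; push_cast; ring
      rw [this, Real.cos_add_nat_mul_pi, pow_succ, pow_mul]
      norm_num
    have hωl : ω * Real.log 2 = 2 * Real.pi := by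
      rw [hω]; field_simp
    have ω0 : 0 ≤ ω := by rw [hω]; positivity
    have hVπ : |V| ≤ Real.pi := by
      have g1 : ω * (k * Real.log 2) ≤ ω * t := mul_le_mul_of_nonneg_left hk1 ω0
      have g2 : ω * t ≤ ω * ((k + 1) * Real.log 2) := mul_le_mul_of_nonneg_left hk2 ω0
      have g3 : ω * (k * Real.log 2) = 2 * k * Real.pi := by
        rw [show ω * (k * Real.log 2) = k * (ω * Real.log 2) by ring, hωl]; ring
      have g4 : ω * ((k + 1) * Real.log 2) = 2 * (k + 1) * Real.pi := by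
        rw [show ω * ((k + 1) * Real.log 2) = (k + 1) * (ω * Real.log 2) by ring, hωl]; ring
      rw [g3] at g1
      rw [g4] at g2
      rw [hV]
      exact V_bound _ _ _ g1 g2
    have hd : |V - ((a : ℝ) / 3 ^ 15 - (p : ℝ) / 3 ^ 15)| ≤ 2 / 10 ^ 5 := by
      have e : V - ((a : ℝ) / 3 ^ 15 - (p : ℝ) / 3 ^ 15) =
        (ω * t - (a : ℝ) / 3 ^ 15) - ((2 * k + 1) * Real.pi - (p : ℝ) / 3 ^ 15) := by
        rw [hV]; ring
      rw [e]
      refine (abs_sub _ _).trans ?_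
      linarith
    have hdu : abs (|V| - u) ≤ 2 / 10 ^ 5 := by
      rw [hu]; exact (abs_abs_sub_abs_le _ _).trans hd
    have u0 : 0 ≤ u := by rw [hu]; exact abs_nonneg _
    constructor
    · rw [abs_of_nonneg u0]
      rw [abs_le] at hdu
      have := hdu.1
      have h5 : (2 : ℝ) / 10 ^ 5 ≤ 1 / 100 := by norm_num
      norm_num at hπ2
      linarith
    · rw [hcos, ← Real.cos_abs V]
      have := Real.abs_cos_sub_cos_le u |V|
      rw [abs_sub_comm u] at this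
      have e : -Real.cos |V| + Real.cos u = Real.cos u - Real.cos |V| := by ring
      rw [e]
      have h5 : (2 : ℝ) / 10 ^ 5 ≤ 1 / 10 ^ 4 := by norm_num
      linarith
  by_cases hlt : y < 2048
  · have yR3 : (y : ℝ) ≤ 2048 := by exact_mod_cast hlt.le
    refine main 10 (by push_cast; exact t_lo) ?_ ?_
    · have := lk 11
      rw [ht]
      calc Real.log y ≤ Real.log ((2 : ℝ) ^ 11) :=
            Real.log_le_log (by linarith) (by norm_num; linarith)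
        _ = _ := by rw [this]; norm_num
    · rw [hp, if_pos hlt, abs_le]
      push_cast
      norm_num at hπ1 hπ2 ⊢
      constructor <;> linarith
  · have yR3 : (2048 : ℝ) ≤ y := by exact_mod_cast (not_lt.1 hlt)
    refine main 11 ?_ ?_ ?_
    · have := lk 11
      rw [ht]
      calc ((11 : ℕ) : ℝ) * Real.log 2 = Real.log ((2 : ℝ) ^ 11) := by rw [this]
        _ ≤ Real.log y := Real.log_le_log (by norm_num) (by norm_num; linarith)
    · push_cast
      norm_num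
      exact t_hi
    · rw [hp, if_neg hlt, abs_le]
      push_cast
      norm_num at hπ1 hπ2 ⊢
      constructor <;> linarith

theorem base_sound (y l Vn : ℕ) (hy : 1025 ≤ y) (hy2 : y ≤ 4096)
    (hl : |Real.log y - (l : ℝ) / 3 ^ 40| ≤ 1 / 10 ^ 14) (v : ℝ)
    (hv : |v - (Vn : ℝ) / 3 ^ 40| ≤ 1 / 10 ^ 14) (hc : chkB y l Vn = true) :
    |Real.log 2 * v - zz y + A0 * qq y| ≤ mm y := by
  have l0 := log2_lo
  have l1 := log2_hi
  have lpos : 0 < Real.log 2 := by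
    have : (0 : ℝ) < 69314718055 / 10 ^ 11 := by norm_num
    linarith
  have yR : (1025 : ℝ) ≤ y := by exact_mod_cast hy
  have yR2 : (y : ℝ) ≤ 4096 := by exact_mod_cast hy2
  have y0 : (0 : ℝ) < y := by linarith
  obtain ⟨M, hM⟩ : ∃ M : ℝ, M = 3 ^ 40 := ⟨_, rfl⟩
  have hMv : M = 12157665459056928801 := by rw [hM]; norm_num
  have M0 : 0 < M := by rw [hM]; positivity
  have t_hi : Real.log y ≤ 12 * Real.log 2 := by
    calc Real.log y ≤ Real.log ((2 : ℝ) ^ 12) :=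
          Real.log_le_log (by linarith) (by norm_num; linarith)
      _ = 12 * Real.log 2 := by rw [Real.log_pow 2 12]; norm_num
  have t_lo : 10 * Real.log 2 ≤ Real.log y := by
    calc 10 * Real.log 2 = Real.log ((2 : ℝ) ^ 10) := by rw [Real.log_pow 2 10]; norm_num
      _ ≤ Real.log y := Real.log_le_log (by norm_num) (by norm_num; linarith)
  have tl : (69 / 10 : ℝ) ≤ Real.log y := by
    have : (69 / 10 : ℝ) ≤ 10 * (69314718055 / 10 ^ 11) := by norm_num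
    linarith
  have tu : Real.log y ≤ 84 / 10 := by
    have : 12 * ((69314718056 : ℝ) / 10 ^ 11) ≤ 84 / 10 := by norm_num
    linarith
  have hl2 := hl
  rw [← hM, abs_le] at hl2
  have tiny : (1 : ℝ) / 10 ^ 14 ≤ 1 / 1000 := by norm_num
  have lR1 : (68 / 10 : ℝ) ≤ (l : ℝ) / M := by linarith [hl2.1, hl2.2]
  have lR2 : (l : ℝ) / M ≤ 85 / 10 := by linarith [hl2.1, hl2.2]
  have lbig : 4108904881472577300 ≤ l := by
    rw [le_div_iff₀ M0, hMv] at lR1
    have : (4108904881472577300 : ℝ) ≤ (l : ℝ) := by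
      refine le_trans ?_ lR1
      norm_num
    exact_mod_cast this
  -- unfold the check
  obtain ⟨T, hT⟩ : ∃ T : ℕ, T = l - 4108904881472577300 := ⟨_, rfl⟩
  obtain ⟨a, ha⟩ : ∃ a : ℕ, a = 7680434244127 * l / 3 ^ 50 := ⟨_, rfl⟩
  obtain ⟨p, hp⟩ : ∃ p : ℕ, p = if y < 2048 then 946646837 else 1036803679 := ⟨_, rfl⟩
  obtain ⟨vr, hvr⟩ : ∃ vr : ℕ, vr = (a - p) + (p - a) := ⟨_, rfl⟩
  unfold chkB at hc
  simp only [seqN_eq] at hc
  rw [← hT, ← ha, ← hp, ← hvr, Nat.ble_eq] at hc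
  have hR := (Nat.cast_le (α := ℝ)).2 hc
  clear hc
  -- T
  have hTR : (T : ℝ) / M = (l : ℝ) / M - 4108904881472577300 / M := by
    rw [hT, Nat.cast_sub lbig, sub_div]; norm_num
  have hTc : |(T : ℝ) / M - th y| ≤ 2 / 10 ^ 14 := by
    have c : |(4108904881472577300 : ℝ) / M + c1| ≤ 1 / 10 ^ 15 := by
      rw [hMv]; unfold c1; rw [abs_le]; constructor <;> norm_num
    have e : (T : ℝ) / M - th y = -(Real.log y - (l : ℝ) / M) - (4108904881472577300 / M + c1) := by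
      rw [hTR]; unfold th; ring
    rw [e]
    refine (abs_sub _ _).trans ?_
    rw [abs_neg, hM]
    rw [hM] at c
    have : (1 : ℝ) / 10 ^ 14 + 1 / 10 ^ 15 ≤ 2 / 10 ^ 14 := by norm_num
    linarith
  have th1 : 6 ≤ th y := by
    unfold th c1
    have : (6 : ℝ) ≤ 69 / 10 + -33796824689 / 10 ^ 11 := by norm_num
    linarith
  have th2 : th y ≤ 9 := by
    unfold th c1
    have : (84 / 10 : ℝ) + -33796824689 / 10 ^ 11 ≤ 9 := by norm_num
    linarith
  have hTc2 := hTc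
  rw [abs_le] at hTc2
  have tiny2 : (2 : ℝ) / 10 ^ 14 ≤ 1 / 1000 := by norm_num
  have T1 : 0 ≤ (T : ℝ) / M := by linarith [hTc2.1, hTc2.2]
  have T2 : (T : ℝ) / M ≤ 10 := by linarith [hTc2.1, hTc2.2]
  -- u
  obtain ⟨u, hu⟩ : ∃ u : ℝ, u = |(a : ℝ) / 3 ^ 15 - (p : ℝ) / 3 ^ 15| := ⟨_, rfl⟩
  have huvr : (vr : ℝ) = 3 ^ 15 * u := by
    rw [hu, ← sub_div, abs_div, abs_of_pos (by positivity : (0 : ℝ) < 3 ^ 15),
      mul_div_cancel₀ _ (by positivity), hvr]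
    rcases le_total a p with h | h
    · rw [Nat.sub_eq_zero_of_le h, zero_add, Nat.cast_sub h, abs_sub_comm, abs_of_nonneg]
      have : (a : ℝ) ≤ p := by exact_mod_cast h
      linarith
    · rw [Nat.sub_eq_zero_of_le h, add_zero, Nat.cast_sub h, abs_of_nonneg]
      have : (p : ℝ) ≤ a := by exact_mod_cast h
      linarith
  obtain ⟨hu1, hu2⟩ := qq_close y l hy hy2 hl a p ha hp u hu
  have hcu := cos_taylor u hu1
  have hcos : ((cosN ((vr * vr : ℕ) : ℤ) : ℤ) : ℝ) = 20922789888000 * 3 ^ 240 * cosT u := by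
    apply cosN_eq
    rw [Int.cast_natCast, Nat.cast_mul, huvr]
    ring
  have hz : ((zN (T : ℤ) (y : ℤ) : ℤ) : ℝ)
      = 75000000000 * (y : ℝ) ^ 4 * 3 ^ 160 * Zf ((T : ℝ) / 3 ^ 40) y := by
    have := zN_eq (T : ℤ) (y : ℤ) (by rw [Int.cast_natCast]; exact y0.ne')
    rwa [Int.cast_natCast, Int.cast_natCast] at this
  -- the check in real form
  have chk : |8427051535136343405 / 3 ^ 40 * ((Vn : ℝ) / M) - Zf ((T : ℝ) / M) y - A0 * cosT u|
      + kap * ((T : ℝ) / M + 1) / y + 1 / 10 ^ 12 ≤ ep0 := by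
    obtain ⟨D, hD⟩ : ∃ D : ℝ, D = 20922789888000 * 3 ^ 240 := ⟨_, rfl⟩
    have D0 : 0 < D := by rw [hD]; positivity
    obtain ⟨Ky, hKy⟩ : ∃ Ky : ℝ, Ky = 75000000000 * (y : ℝ) ^ 4 * 3 ^ 160 := ⟨_, rfl⟩
    have Ky0 : 0 < Ky := by rw [hKy]; positivity
    rw [Nat.cast_add, Nat.cast_natAbs, Int.cast_abs] at hR
    simp only [Int.cast_sub, Int.cast_mul, Int.cast_pow, Int.cast_ofNat, Int.cast_natCast,
      Nat.cast_mul, Nat.cast_add, Nat.cast_pow, Nat.cast_ofNat] at hR hcos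
    rw [hcos, hz] at hR
    rw [← hD, ← hKy] at hR
    have e1 : (8427051535136343405 * (Vn : ℝ) * 3 ^ 80 * 75000000000 * (y : ℝ) ^ 4
        - Ky * Zf ((T : ℝ) / 3 ^ 40) y) * 10 ^ 12 * D - 230 * (D * cosT u) * Ky
        = (Ky * D * 10 ^ 12) * (8427051535136343405 / 3 ^ 40 * ((Vn : ℝ) / M)
          - Zf ((T : ℝ) / M) y - A0 * cosT u) := by
      have e2 : Ky * (8427051535136343405 / 3 ^ 40 * ((Vn : ℝ) / M)) =
          8427051535136343405 * (Vn : ℝ) * 3 ^ 80 * 75000000000 * (y : ℝ) ^ 4 := by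
        rw [hKy, hM]
        ring
      have e3 : A0 * 10 ^ 12 = 230 := by unfold A0; norm_num
      rw [← e2, ← e3, ← hM]
      ring
    rw [e1, abs_mul, abs_of_pos (by positivity : 0 < Ky * D * 10 ^ 12)] at hR
    have e4 : 23000 * ((T : ℝ) + 3 ^ 40) * 75000000000 * (y : ℝ) ^ 3 * 3 ^ 120
        = Ky * 10 ^ 12 * (kap * ((T : ℝ) / M + 1) / y) := by
      have e5 : kap * 10 ^ 12 = 23000 := by unfold kap; norm_num
      have e6 : (3 : ℝ) ^ 160 = 3 ^ 120 * M := by rw [hM, ← pow_add]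
      rw [← e5, hKy, e6, ← hM]
      field_simp
    rw [e4] at hR
    have e7 : ep0 * 10 ^ 12 = 207 := by unfold ep0; norm_num
    rw [← e7] at hR
    have pos : 0 < Ky * D * 10 ^ 12 := by positivity
    refine le_of_mul_le_mul_left ?_ pos
    refine le_trans (le_of_eq ?_) (hR.trans (le_of_eq ?_))
    · ring
    · ring
  have L0v : (8427051535136343405 : ℝ) / 3 ^ 40 = 8427051535136343405 / 12157665459056928801 := by
    norm_num
  have hzz : zz y = Zf (th y) y := rfl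
  have hzl := Zf_lip (th y) ((T : ℝ) / M) y (by linarith) (by linarith) T1 T2 (by linarith)
  have hz0 := Zf_lip ((T : ℝ) / M) 0 y T1 T2 le_rfl (by norm_num) (by linarith)
  have hz00 := Zf_zero y (by linarith)
  unfold mm
  rw [hzz]
  refine final_arith (Real.log 2) (8427051535136343405 / 3 ^ 40) v ((Vn : ℝ) / M) (Zf (th y) y)
    (Zf ((T : ℝ) / M) y) (qq y) (Real.cos u) (cosT u) (th y) ((T : ℝ) / M) A0 ep0 kap y
    log_two_close ?_ ?_ (by rw [hM]; exact hv) (div_nonneg (Nat.cast_nonneg _) M0.le) (by unfold A0; norm_num) ?_ hu2 hcu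
    (Real.abs_cos_le_one u) ?_ ?_ hTc (by linarith) (by unfold kap; norm_num) ?_ ?_ chk ?_
  · rw [L0v]; norm_num
  · rw [L0v]; norm_num
  · unfold A0; norm_num
  · refine hzl.trans ?_
    rw [abs_sub_comm]
    have : 2 * ((2 : ℝ) / 10 ^ 14) ≤ 4 / 10 ^ 14 := by norm_num
    linarith
  · have e : Zf ((T : ℝ) / M) y = (Zf ((T : ℝ) / M) y - Zf 0 y) + Zf 0 y := by ring
    rw [e]
    refine (abs_add_le _ _).trans ?_
    rw [sub_zero, abs_of_nonneg T1] at hz0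
    linarith
  · unfold kap; norm_num
  · unfold ep0; norm_num
  · have h1 : 0 ≤ (T : ℝ) / M + 1 := by linarith
    have hk : 0 ≤ kap := by unfold kap; norm_num
    exact div_nonneg (mul_nonneg hk h1) y0.le

end MBase
end Pool.Agent.Helper155.Gil
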