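import Pool.Agent.Helper155.Gil.Defs

set_option autoImplicit false
open Finset Filter Topology

namespace Pool.Agent.Helper155.Gil
namespace MKern
/-! TARGETS -/
theorem kw_symm (W : ℕ → ℝ) (N k0 k : ℕ) (hk : k ≤ N) : kw W N k0 (N - k) = kw W N k0 k := by
  unfold kw
  rw [Nat.sub_sub_self hk, mul_comm]

theorem kw_pos (W : ℕ → ℝ) (N k0 k : ℕ) (hW : ∀ k ∈ Ioc k0 (N - k0), 0 < W k)
    (hk : k ∈ Icc k0 (N - k0)) : 0 < kw W N k0 k := by
  rw [Finset.mem_Icc] at hk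
  unfold kw ew
  refine mul_pos (Finset.prod_pos fun j hj => ?_) (Finset.prod_pos fun j hj => ?_)
  · rw [Finset.mem_Ioc] at hj
    exact inv_pos.2 (hW j (Finset.mem_Ioc.2 ⟨hj.1, hj.2.trans hk.2⟩))
  · rw [Finset.mem_Ioc] at hj
    refine inv_pos.2 (hW j (Finset.mem_Ioc.2 ⟨hj.1, ?_⟩))
    omega

theorem ew_succ_aux (W : ℕ → ℝ) (k0 m : ℕ) (h : k0 ≤ m) :
    ew W k0 (m + 1) = ew W k0 m * (W (m + 1))⁻¹ := by
  unfold ew
  rw [Finset.prod_Ioc_succ_top h]

theorem kw_balance (W : ℕ → ℝ) (N k0 k : ℕ) (hW : ∀ k ∈ Ioc k0 (N - k0), 0 < W k)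
    (hk : k ∈ Ioc k0 (N - k0)) : kw W N k0 k * W k = kw W N k0 (k - 1) * W (N + 1 - k) := by
  have hk1 := hk
  rw [Finset.mem_Ioc] at hk1
  obtain ⟨h1, h2⟩ := hk1
  have e1 : ew W k0 k = ew W k0 (k - 1) * (W k)⁻¹ := by
    have := ew_succ_aux W k0 (k - 1) (by omega)
    rwa [Nat.sub_add_cancel (by omega)] at this
  have e2 : ew W k0 (N - (k - 1)) = ew W k0 (N - k) * (W (N + 1 - k))⁻¹ := by
    have h3 := ew_succ_aux W k0 (N - k) (by omega)
    have h4 : N - k + 1 = N + 1 - k := by omega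
    have h5 : N - (k - 1) = N + 1 - k := by omega
    rw [h4] at h3
    rw [h5, h3]
  have hWk : W k ≠ 0 := (hW k hk).ne'
  have hWk' : W (N + 1 - k) ≠ 0 := by
    refine (hW _ ?_).ne'
    rw [Finset.mem_Ioc]
    omega
  unfold kw
  rw [e1, e2]
  field_simp

theorem stein (W : ℕ → ℝ) (N k0 : ℕ) (h2 : 2 * k0 ≤ N)
    (hW : ∀ k ∈ Ioc k0 (N - k0), 0 < W k) (g : ℕ → ℝ)
    (hg : ∀ k ∈ Ioc k0 (N - k0), g (N + 1 - k) = - g k) :
    ∑ k ∈ Ioc k0 (N - k0), kw W N k0 k * W k * g k = 0 := by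
  have h3 : ∑ k ∈ Ioc k0 (N - k0), kw W N k0 k * W k * g k =
      ∑ k ∈ Ioc k0 (N - k0), -(kw W N k0 k * W k * g k) := by
    refine Finset.sum_bij' (fun k _ => N + 1 - k) (fun k _ => N + 1 - k) ?_ ?_ ?_ ?_ ?_
    · intro k hk
      rw [Finset.mem_Ioc] at hk ⊢
      omega
    · intro k hk
      rw [Finset.mem_Ioc] at hk ⊢
      omega
    · intro k hk
      rw [Finset.mem_Ioc] at hk
      show N + 1 - (N + 1 - k) = k
      omega
    · intro k hk
      rw [Finset.mem_Ioc] at hk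
      show N + 1 - (N + 1 - k) = k
      omega
    · intro k hk
      rw [kw_balance W N k0 k hW hk]
      rw [hg k hk]
      rw [Finset.mem_Ioc] at hk
      have h5 : N + 1 - k = N - (k - 1) := by omega
      have h4 : kw W N k0 (N + 1 - k) = kw W N k0 (k - 1) := by
        rw [h5]
        exact kw_symm W N k0 (k - 1) (by omega)
      rw [h4]
      ring
  rw [Finset.sum_neg_distrib] at h3
  linarith

end MKern
end Pool.Agent.Helper155.Gil
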