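import Pool.Agent.Helper155.Gil.Defs
import Pool.Agent.Helper155.Gil.Kern

set_option autoImplicit false
open Finset Filter Topology

namespace Pool.Agent.Helper155.Gil
namespace MBlue
open MKern
theorem bl_slope (W : ℕ → ℝ) (N k0 : ℕ)
    (hconc : ∀ k, k0 < k → k < N - k0 → W (k + 1) + W (k - 1) ≤ 2 * W k)
    (i : ℕ) (hi : k0 < i) : ∀ j, i ≤ j → j ≤ N - k0 → W j - W (j - 1) ≤ W i - W (i - 1) := by
  intro j hij
  induction j, hij using Nat.le_induction with
  | base => intro _; exact le_refl _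
  | succ j hj ih =>
    intro hjN
    have h1 := ih (by omega)
    have h2 := hconc j (by omega) (by omega)
    simp only [Nat.add_sub_cancel]
    linarith

theorem bl_mono (W : ℕ → ℝ) (N k0 : ℕ)
    (hmono : ∀ k, k0 ≤ k → k < N - k0 → W k ≤ W (k + 1))
    (i : ℕ) (hi : k0 ≤ i) : ∀ j, i ≤ j → j ≤ N - k0 → W i ≤ W j := by
  intro j hij
  induction j, hij using Nat.le_induction with
  | base => intro _; exact le_refl _
  | succ j hj ih =>
    intro hjN
    have h1 := ih (by omega)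
    have h2 := hmono j (by omega) (by omega)
    linarith

/-- `2 z0` -/
noncomputable def bz (W : ℕ → ℝ) (N : ℕ) : ℝ := W (N / 2) + W (N - N / 2)

theorem bl_C (W : ℕ → ℝ) (N k0 : ℕ) (h2 : 2 * k0 < N)
    (hconc : ∀ k, k0 < k → k < N - k0 → W (k + 1) + W (k - 1) ≤ 2 * W k)
    (t : ℕ) : t ≤ N / 2 - k0 → W (N / 2 - t) + W (N - N / 2 + t) ≤ bz W N := by
  induction t with
  | zero => intro _; simp [bz]
  | succ t ih =>
    intro ht
    have h1 := ih (by omega)
    have h3 := bl_slope W N k0 hconc (N / 2 - t) (by omega) (N - N / 2 + t + 1) (by omega) (by omega)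
    simp only [Nat.add_sub_cancel] at h3
    have e1 : N / 2 - t - 1 = N / 2 - (t + 1) := by omega
    have e2 : N - N / 2 + (t + 1) = N - N / 2 + t + 1 := by omega
    rw [e1] at h3
    rw [e2]
    linarith

theorem bl_A (W : ℕ → ℝ) (N k0 : ℕ) (h2 : 2 * k0 < N)
    (hconc : ∀ k, k0 < k → k < N - k0 → W (k + 1) + W (k - 1) ≤ 2 * W k)
    (t : ℕ) : t ≤ N / 2 - k0 →
    (2 * (t : ℝ) + ((N % 2 : ℕ) : ℝ)) * (W (N - N / 2 + t) - W (N - N / 2 + t - 1)) ≤
      2 * W (N - N / 2 + t) - bz W N := by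
  induction t with
  | zero =>
    intro _
    rcases Nat.mod_two_eq_zero_or_one N with h | h
    · have e : N - N / 2 = N / 2 := by omega
      simp [h, bz, e]
      linarith
    · have e : N - N / 2 - 1 = N / 2 := by omega
      simp only [h, bz, Nat.add_zero, e]
      push_cast
      linarith
  | succ t ih =>
    intro ht
    have h1 := ih (by omega)
    have h3 := hconc (N - N / 2 + t) (by omega) (by omega)
    have e2 : N - N / 2 + (t + 1) = N - N / 2 + t + 1 := by omega
    rw [e2]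
    simp only [Nat.add_sub_cancel]
    push_cast
    have h4 : 0 ≤ (2 * (t : ℝ) + ((N % 2 : ℕ) : ℝ)) := by positivity
    have h5 := mul_le_mul_of_nonneg_left (show W (N - N / 2 + t + 1) - W (N - N / 2 + t) ≤
      W (N - N / 2 + t) - W (N - N / 2 + t - 1) by linarith) h4
    push_cast at h5 h1
    nlinarith

theorem bl_B (W : ℕ → ℝ) (N k0 : ℕ) (h2 : 2 * k0 < N)
    (hconc : ∀ k, k0 < k → k < N - k0 → W (k + 1) + W (k - 1) ≤ 2 * W k)
    (t : ℕ) : t ≤ N / 2 - k0 →
      bz W N - 2 * W (N / 2 - t) ≤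
    (2 * (t : ℝ) + ((N % 2 : ℕ) : ℝ)) * (W (N / 2 - t + 1) - W (N / 2 - t)) := by
  induction t with
  | zero =>
    intro _
    rcases Nat.mod_two_eq_zero_or_one N with h | h
    · have e : N - N / 2 = N / 2 := by omega
      simp [h, bz, e]
      linarith
    · have e : N - N / 2 = N / 2 + 1 := by omega
      simp only [h, bz, Nat.sub_zero, e]
      push_cast
      linarith
  | succ t ih =>
    intro ht
    have h1 := ih (by omega)
    have h3 := hconc (N / 2 - t) (by omega) (by omega)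
    have e1 : N / 2 - t - 1 = N / 2 - (t + 1) := by omega
    have e2 : N / 2 - (t + 1) + 1 = N / 2 - t := by omega
    rw [e2]
    rw [e1] at h3
    push_cast
    have h4 : 0 ≤ (2 * (t : ℝ) + ((N % 2 : ℕ) : ℝ)) := by positivity
    have h5 := mul_le_mul_of_nonneg_left (show W (N / 2 - t + 1) - W (N / 2 - t) ≤
      W (N / 2 - t) - W (N / 2 - (t + 1)) by linarith) h4
    push_cast at h5 h1
    nlinarith

/-- key inequality -/
theorem bl_key (W : ℕ → ℝ) (N k0 : ℕ) (h2 : 2 * k0 < N)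
    (hmono : ∀ k, k0 ≤ k → k < N - k0 → W k ≤ W (k + 1))
    (hconc : ∀ k, k0 < k → k < N - k0 → W (k + 1) + W (k - 1) ≤ 2 * W k)
    (c : ℝ) (hc : 2 * c ≤ bz W N)
    (g : ℕ) (hg : k0 < g) (hgN : 2 * g ≤ N) :
    c * ((W (N + 1 - g) - W (N - g)) + (W g - W (g - 1))) ≤
      W (N + 1 - g) * (W g - W (g - 1)) + W (g - 1) * (W (N + 1 - g) - W (N - g)) := by
  have hA := bl_A W N k0 h2 hconc (N / 2 - (g - 1)) (by omega)
  have hB := bl_B W N k0 h2 hconc (N / 2 - (g - 1)) (by omega)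
  have e1 : N - N / 2 + (N / 2 - (g - 1)) = N + 1 - g := by omega
  have e2 : N + 1 - g - 1 = N - g := by omega
  have e3 : N / 2 - (N / 2 - (g - 1)) = g - 1 := by omega
  have e4 : g - 1 + 1 = g := by omega
  rw [e1, e2] at hA
  rw [e3, e4] at hB
  set s : ℝ := (2 * ((N / 2 - (g - 1) : ℕ) : ℝ) + ((N % 2 : ℕ) : ℝ)) with hs
  have hda : 0 ≤ W (N + 1 - g) - W (N - g) := by
    have := hmono (N - g) (by omega) (by omega)
    have e : N - g + 1 = N + 1 - g := by omega
    rw [e] at this; linarith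
  have hdb : 0 ≤ W g - W (g - 1) := by
    have := hmono (g - 1) (by omega) (by omega)
    rw [e4] at this; linarith
  have h1 := mul_le_mul_of_nonneg_right hA hdb
  have h3 := mul_le_mul_of_nonneg_right hB hda
  have h4 := mul_le_mul_of_nonneg_right hc (add_nonneg hda hdb)
  nlinarith



/-- the level -/
noncomputable def bc (W : ℕ → ℝ) (N k0 : ℕ) : ℝ :=
  (∑ k ∈ Ioc k0 (N - k0), kw W N k0 k * W k) / Sw W N k0

theorem bl_Spos (W : ℕ → ℝ) (N k0 : ℕ) (h2 : 2 * k0 < N)
    (hW : ∀ k ∈ Ioc k0 (N - k0), 0 < W k) : 0 < Sw W N k0 := by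
  unfold Sw
  apply Finset.sum_pos
  · intro k hk
    exact kw_pos W N k0 k hW hk
  · exact ⟨k0, by simp; omega⟩

theorem bl_cz (W : ℕ → ℝ) (N k0 : ℕ) (h2 : 2 * k0 < N)
    (hW : ∀ k ∈ Ioc k0 (N - k0), 0 < W k) (hW0 : 0 ≤ W k0)
    (hconc : ∀ k, k0 < k → k < N - k0 → W (k + 1) + W (k - 1) ≤ 2 * W k) :
    2 * bc W N k0 ≤ bz W N := by
  have hS := bl_Spos W N k0 h2 hW
  have h1 : ∑ k ∈ Ioc k0 (N - k0), kw W N k0 k * W k ≤
      ∑ k ∈ Icc k0 (N - k0), kw W N k0 k * W k := by
    apply Finset.sum_le_sum_of_subset_of_nonneg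
    · exact Ioc_subset_Icc_self
    · intro k hk hk'
      have : k = k0 := by
        simp only [mem_Icc, mem_Ioc] at hk hk'
        omega
      subst this
      exact mul_nonneg (kw_pos W N k k hW hk).le hW0
  have h3 : ∑ k ∈ Icc k0 (N - k0), kw W N k0 k * W k =
      ∑ k ∈ Icc k0 (N - k0), kw W N k0 k * W (N - k) := by
    apply Finset.sum_bij' (fun k _ => N - k) (fun k _ => N - k)
    · intro k hk; simp only [mem_Icc] at hk ⊢; omega
    · intro k hk; simp only [mem_Icc] at hk ⊢; omega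
    · intro k hk; simp only [mem_Icc] at hk ⊢; omega
    · intro k hk; simp only [mem_Icc] at hk ⊢; omega
    · intro k hk
      simp only [mem_Icc] at hk
      rw [kw_symm W N k0 k (by omega)]
      have : N - (N - k) = k := by omega
      rw [this]
  have h4 : ∑ k ∈ Icc k0 (N - k0), (kw W N k0 k * W k + kw W N k0 k * W (N - k)) ≤
      ∑ k ∈ Icc k0 (N - k0), kw W N k0 k * bz W N := by
    apply Finset.sum_le_sum
    intro k hk
    have hp := kw_pos W N k0 k hW hk
    simp only [mem_Icc] at hk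
    rw [← mul_add]
    apply mul_le_mul_of_nonneg_left _ hp.le
    rcases le_total k (N / 2) with h | h
    · have := bl_C W N k0 h2 hconc (N / 2 - k) (by omega)
      have e1 : N / 2 - (N / 2 - k) = k := by omega
      have e2 : N - N / 2 + (N / 2 - k) = N - k := by omega
      rwa [e1, e2] at this
    · have hh : N - k ≤ N / 2 ∨ (k = N / 2) := by omega
      rcases hh with h' | h'
      · have := bl_C W N k0 h2 hconc (N / 2 - (N - k)) (by omega)
        have e1 : N / 2 - (N / 2 - (N - k)) = N - k := by omega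
        have e2 : N - N / 2 + (N / 2 - (N - k)) = k := by omega
        rw [e1, e2] at this
        linarith
      · rw [h']; exact le_refl _
  rw [Finset.sum_add_distrib, ← h3, ← Finset.sum_mul] at h4
  unfold bc
  have h5 : ∑ k ∈ Icc k0 (N - k0), kw W N k0 k = Sw W N k0 := rfl
  rw [h5] at h4
  rw [← mul_div_assoc, div_le_iff₀ hS]
  linarith

/-- partial sums -/
noncomputable def bx (W : ℕ → ℝ) (N k0 g : ℕ) : ℝ :=
  ∑ j ∈ Ioc k0 g, (kw W N k0 j * W j - bc W N k0 * kw W N k0 (j - 1))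

/-- distribution function of the hider -/
noncomputable def br (W : ℕ → ℝ) (N k0 g : ℕ) : ℝ :=
  if g ≤ k0 then 0 else if N + 1 - k0 ≤ g then 1 else bx W N k0 g / (kw W N k0 g * W g)

theorem bx_succ (W : ℕ → ℝ) (N k0 g : ℕ) (hg : k0 < g) :
    bx W N k0 g = bx W N k0 (g - 1) + (kw W N k0 g * W g - bc W N k0 * kw W N k0 (g - 1)) := by
  obtain ⟨m, rfl⟩ : ∃ m, g = m + 1 := ⟨g - 1, by omega⟩
  unfold bx
  rw [Nat.add_sub_cancel, Finset.sum_Ioc_succ_top (by omega), Nat.add_sub_cancel]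

theorem bx_last (W : ℕ → ℝ) (N k0 : ℕ) (h2 : 2 * k0 < N)
    (hW : ∀ k ∈ Ioc k0 (N - k0), 0 < W k) :
    bx W N k0 (N - k0) = bc W N k0 * kw W N k0 (N - k0) := by
  have hS := bl_Spos W N k0 h2 hW
  unfold bx
  rw [Finset.sum_sub_distrib, ← Finset.mul_sum]
  have h1 : ∑ k ∈ Ioc k0 (N - k0), kw W N k0 k * W k = bc W N k0 * Sw W N k0 := by
    unfold bc
    field_simp
  have h3 : ∑ j ∈ Ioc k0 (N - k0), kw W N k0 (j - 1) = Sw W N k0 - kw W N k0 (N - k0) := by
    have h4 : ∑ j ∈ Ioc k0 (N - k0), kw W N k0 (j - 1) = ∑ k ∈ Ico k0 (N - k0), kw W N k0 k := by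
      refine Finset.sum_bij' (fun k _ => k - 1) (fun k _ => k + 1) ?_ ?_ ?_ ?_ ?_
      · intro k hk; simp only [mem_Ioc, mem_Ico] at hk ⊢; omega
      · intro k hk; simp only [mem_Ioc, mem_Ico] at hk ⊢; omega
      · intro k hk; simp only [mem_Ioc] at hk; omega
      · intro k hk; simp
      · intro k hk; rfl
    rw [h4]
    unfold Sw
    have h5 : Icc k0 (N - k0) = Ico k0 (N - k0 + 1) := by
      ext k; simp only [mem_Icc, mem_Ico]; omega
    rw [h5, Finset.sum_Ico_succ_top (by omega)]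
    ring
  rw [h1, h3]
  ring

theorem br_mul (W : ℕ → ℝ) (N k0 : ℕ) (h2 : 2 * k0 < N)
    (hW : ∀ k ∈ Ioc k0 (N - k0), 0 < W k) (g : ℕ) (hg : k0 ≤ g) (hg' : g ≤ N - k0) :
    br W N k0 g * W g = bx W N k0 g / kw W N k0 g := by
  have hk := kw_pos W N k0 g hW (by simp; omega)
  rcases eq_or_lt_of_le hg with h | h
  · subst h
    simp [br, bx]
  · have hw := hW g (by simp; omega)
    unfold br
    rw [if_neg (by omega), if_neg (by omega)]
    field_simp

/-- equalisation -/
theorem br_eq (W : ℕ → ℝ) (N k0 : ℕ) (h2 : 2 * k0 < N)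
    (hW : ∀ k ∈ Ioc k0 (N - k0), 0 < W k) (g : ℕ) (hg : k0 < g) (hg' : g ≤ N + 1 - k0) :
    br W N k0 (g - 1) * W (g - 1) + (1 - br W N k0 g) * W (N + 1 - g) = bc W N k0 := by
  rw [br_mul W N k0 h2 hW (g - 1) (by omega) (by omega)]
  rcases eq_or_lt_of_le hg' with h | h
  · have e : br W N k0 g = 1 := by
      unfold br
      rw [if_neg (by omega), if_pos (by omega)]
    rw [e]
    have e2 : g - 1 = N - k0 := by omega
    rw [e2, bx_last W N k0 h2 hW]
    have hk := kw_pos W N k0 (N - k0) hW (by simp; omega)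
    field_simp
    ring
  · have hw := hW g (by simp; omega)
    have hk := kw_pos W N k0 g hW (by simp; omega)
    have hk1 := kw_pos W N k0 (g - 1) hW (by simp; omega)
    have hb := kw_balance W N k0 g hW (by simp; omega)
    have e : br W N k0 g = bx W N k0 g / (kw W N k0 g * W g) := by
      unfold br
      rw [if_neg (by omega), if_neg (by omega)]
    have hx := bx_succ W N k0 g hg
    have hw2 := hW (N + 1 - g) (by simp; omega)
    have e3 : (1 - br W N k0 g) * W (N + 1 - g) =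
        (kw W N k0 g * W g - bx W N k0 g) / kw W N k0 (g - 1) := by
      rw [e, hb]
      field_simp
    rw [e3, ← add_div, div_eq_iff hk1.ne']
    rw [hx]
    ring

/-- symmetry -/
theorem br_symm (W : ℕ → ℝ) (N k0 : ℕ) (h2 : 2 * k0 < N)
    (hW : ∀ k ∈ Ioc k0 (N - k0), 0 < W k) (g : ℕ) (hg : k0 ≤ g) :
    g ≤ N + 1 - k0 → br W N k0 g + br W N k0 (N + 1 - g) = 1 := by
  induction g, hg using Nat.le_induction with
  | base =>
    intro _
    unfold br
    rw [if_pos (le_refl _), if_neg (by omega), if_pos (le_refl _)]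
    ring
  | succ g hg ih =>
    intro hg'
    have ih' := ih (by omega)
    rcases eq_or_lt_of_le hg' with h | h
    · have e : N + 1 - (g + 1) = k0 := by omega
      rw [e, h]
      unfold br
      rw [if_pos (le_refl k0), if_neg (by omega), if_pos (le_refl _)]
      ring
    · have h1 := br_eq W N k0 h2 hW (g + 1) (by omega) (by omega)
      have h3 := br_eq W N k0 h2 hW (N + 1 - g) (by omega) (by omega)
      have e1 : N + 1 - g - 1 = N + 1 - (g + 1) := by omega
      have e2 : N + 1 - (N + 1 - g) = g := by omega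
      rw [e1, e2] at h3
      simp only [Nat.add_sub_cancel] at h1
      have hw := hW (N + 1 - (g + 1)) (by simp; omega)
      have h4 : (br W N k0 (g + 1) + br W N k0 (N + 1 - (g + 1)) - 1) * W (N + 1 - (g + 1)) = 0 := by
        have h5 : br W N k0 g = 1 - br W N k0 (N + 1 - g) := by linarith
        rw [h5] at h1
        linarith
      rcases mul_eq_zero.1 h4 with h5 | h5
      · linarith
      · exact absurd h5 hw.ne'

/-- `(*)` -/
theorem br_star (W : ℕ → ℝ) (N k0 : ℕ) (h2 : 2 * k0 < N)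
    (hW : ∀ k ∈ Ioc k0 (N - k0), 0 < W k) (hW0 : 0 ≤ W k0)
    (hmono : ∀ k, k0 ≤ k → k < N - k0 → W k ≤ W (k + 1))
    (hconc : ∀ k, k0 < k → k < N - k0 → W (k + 1) + W (k - 1) ≤ 2 * W k)
    (g : ℕ) (hg : k0 + 1 ≤ g) : 2 * g ≤ N + 2 →
    br W N k0 (g - 1) * (W (N + 1 - g) - W (g - 1)) ≤ W (N + 1 - g) - bc W N k0 := by
  have hcz := bl_cz W N k0 h2 hW hW0 hconc
  -- values to the right of the centre are at least the level
  have hright : ∀ v, N - N / 2 ≤ v → v ≤ N - k0 → bc W N k0 ≤ W v := by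
    intro v hv hv'
    have h1 := bl_mono W N k0 hmono (N - N / 2) (by omega) v hv hv'
    have h3 := bl_mono W N k0 hmono (N / 2) (by omega) v (by omega) hv'
    unfold bz at hcz
    linarith
  have hnn : ∀ v, k0 ≤ v → v ≤ N - k0 → 0 ≤ W v := by
    intro v hv hv'
    have h1 := bl_mono W N k0 hmono k0 le_rfl v hv hv'
    linarith
  induction g, hg using Nat.le_induction with
  | base =>
    intro _
    have e : k0 + 1 - 1 = k0 := rfl
    have e1 : br W N k0 k0 = 0 := by
      unfold br; rw [if_pos (le_refl _)]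
    rw [e, e1]
    have := hright (N + 1 - (k0 + 1)) (by omega) (by omega)
    linarith
  | succ g hg ih =>
    intro hgN
    have ih' := ih (by omega)
    have h1 := br_eq W N k0 h2 hW g (by omega) (by omega)
    simp only [Nat.add_sub_cancel]
    have e : N + 1 - (g + 1) = N - g := by omega
    rw [e]
    have hwn := hW (N + 1 - g) (by simp; omega)
    have hE : 0 ≤ W (N + 1 - g) - W (g - 1) := by
      have := bl_mono W N k0 hmono (g - 1) (by omega) (N + 1 - g) (by omega) (by omega)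
      linarith
    have hE' : 0 ≤ W (N - g) - W g := by
      have := bl_mono W N k0 hmono g (by omega) (N - g) (by omega) (by omega)
      linarith
    have hda : 0 ≤ W (N + 1 - g) - W (N - g) := by
      have := bl_mono W N k0 hmono (N - g) (by omega) (N + 1 - g) (by omega) (by omega)
      linarith
    have hdb : 0 ≤ W g - W (g - 1) := by
      have := bl_mono W N k0 hmono (g - 1) (by omega) g (by omega) (by omega)
      linarith
    have hb := hnn (g - 1) (by omega) (by omega)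
    have hkey := bl_key W N k0 h2 hmono hconc (bc W N k0) hcz g (by omega) (by omega)
    have hcen := hright (N - g) (by omega) (by omega)
    -- rho_g E_g ≤ D_g
    have h3 : br W N k0 g * W (N + 1 - g) =
        (W (N + 1 - g) - bc W N k0) + br W N k0 (g - 1) * W (g - 1) := by linarith
    have h4 : (br W N k0 g * (W (N + 1 - g) - W (g - 1))) * W (N + 1 - g) ≤
        (W (N + 1 - g) - bc W N k0) * W (N + 1 - g) := by
      have h5 := mul_le_mul_of_nonneg_right ih' hb
      calc (br W N k0 g * (W (N + 1 - g) - W (g - 1))) * W (N + 1 - g)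
          = (br W N k0 g * W (N + 1 - g)) * (W (N + 1 - g) - W (g - 1)) := by ring
        _ = (W (N + 1 - g) - bc W N k0) * (W (N + 1 - g) - W (g - 1)) +
            br W N k0 (g - 1) * (W (N + 1 - g) - W (g - 1)) * W (g - 1) := by rw [h3]; ring
        _ ≤ (W (N + 1 - g) - bc W N k0) * (W (N + 1 - g) - W (g - 1)) +
            (W (N + 1 - g) - bc W N k0) * W (g - 1) := by linarith
        _ = _ := by ring
    have h6 := le_of_mul_le_mul_right h4 hwn
    rcases eq_or_lt_of_le hE with h7 | h7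
    · have h8 : W (N - g) - W g = 0 := by linarith
      rw [h8]
      linarith
    · have h9 : (br W N k0 g * (W (N - g) - W g)) * (W (N + 1 - g) - W (g - 1)) ≤
          (W (N - g) - bc W N k0) * (W (N + 1 - g) - W (g - 1)) := by
        have h10 := mul_le_mul_of_nonneg_right h6 hE'
        nlinarith
      exact le_of_mul_le_mul_right h9 h7

/-- increments are nonnegative, left half -/
theorem br_incl (W : ℕ → ℝ) (N k0 : ℕ) (h2 : 2 * k0 < N)
    (hW : ∀ k ∈ Ioc k0 (N - k0), 0 < W k) (hW0 : 0 ≤ W k0)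
    (hmono : ∀ k, k0 ≤ k → k < N - k0 → W k ≤ W (k + 1))
    (hconc : ∀ k, k0 < k → k < N - k0 → W (k + 1) + W (k - 1) ≤ 2 * W k)
    (g : ℕ) (hg : k0 + 1 ≤ g) (hgN : 2 * g ≤ N + 2) : br W N k0 (g - 1) ≤ br W N k0 g := by
  have h1 := br_star W N k0 h2 hW hW0 hmono hconc g hg hgN
  have h3 := br_eq W N k0 h2 hW g (by omega) (by omega)
  have hw := hW (N + 1 - g) (by simp; omega)
  have h4 : 0 ≤ (br W N k0 g - br W N k0 (g - 1)) * W (N + 1 - g) := by nlinarith
  have h5 := nonneg_of_mul_nonneg_left h4 hw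
  linarith

theorem br_inc (W : ℕ → ℝ) (N k0 : ℕ) (h2 : 2 * k0 < N)
    (hW : ∀ k ∈ Ioc k0 (N - k0), 0 < W k) (hW0 : 0 ≤ W k0)
    (hmono : ∀ k, k0 ≤ k → k < N - k0 → W k ≤ W (k + 1))
    (hconc : ∀ k, k0 < k → k < N - k0 → W (k + 1) + W (k - 1) ≤ 2 * W k)
    (g : ℕ) : br W N k0 g ≤ br W N k0 (g + 1) := by
  rcases lt_or_ge g k0 with h | h
  · unfold br
    rw [if_pos (by omega), if_pos (by omega)]
  rcases lt_or_ge g (N + 1 - k0) with h' | h'
  · rcases le_total (2 * (g + 1)) (N + 2) with h3 | h3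
    · have := br_incl W N k0 h2 hW hW0 hmono hconc (g + 1) (by omega) h3
      simpa using this
    · have h4 := br_incl W N k0 h2 hW hW0 hmono hconc (N + 1 - g) (by omega) (by omega)
      have s1 := br_symm W N k0 h2 hW g h (by omega)
      have s2 := br_symm W N k0 h2 hW (g + 1) (by omega) (by omega)
      have e : N + 1 - g - 1 = N + 1 - (g + 1) := by omega
      rw [e] at h4
      linarith
  · unfold br
    rw [if_neg (by omega), if_pos (by omega), if_neg (by omega), if_pos (by omega)]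



/-- the mixed strategy -/
noncomputable def bq (W : ℕ → ℝ) (N k0 g : ℕ) : ℝ := br W N k0 g - br W N k0 (g - 1)

theorem bq_sum (W : ℕ → ℝ) (N k0 m : ℕ) :
    ∑ h ∈ Ioc 0 m, bq W N k0 h = br W N k0 m := by
  induction m with
  | zero => simp [br]
  | succ m ih =>
    rw [Finset.sum_Ioc_succ_top (by omega), ih]
    simp [bq]

theorem bq_sum2 (W : ℕ → ℝ) (N k0 m M : ℕ) (h : m ≤ M) :
    ∑ h ∈ Ioc m M, bq W N k0 h = br W N k0 M - br W N k0 m := by
  have := Finset.sum_Ioc_consecutive (fun h => bq W N k0 h) (Nat.zero_le m) h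
  rw [bq_sum, bq_sum] at this
  linarith

theorem bq_pay (V : ℕ → ℝ) (W : ℕ → ℝ) (N k0 : ℕ) (g : ℕ) (hg : 1 ≤ g) (hg' : g ≤ N + 1)
    (h1 : br W N k0 (N + 1) = 1) :
    ∑ h ∈ Icc 1 (N + 1), bq W N k0 h * pay V (N + 1) g h =
      1 + br W N k0 (g - 1) * V (g - 1) + (1 - br W N k0 g) * V (N + 1 - g) := by
  have e1 : Icc 1 (N + 1) = Ioc 0 (N + 1) := by ext k; simp only [mem_Icc, mem_Ioc]; omega
  rw [e1, ← Finset.sum_Ioc_consecutive _ (Nat.zero_le g) hg']
  have e2 : ∑ h ∈ Ioc 0 g, bq W N k0 h * pay V (N + 1) g h =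
      ∑ h ∈ Ioc 0 (g - 1), bq W N k0 h * pay V (N + 1) g h + bq W N k0 g := by
    obtain ⟨m, rfl⟩ : ∃ m, g = m + 1 := ⟨g - 1, by omega⟩
    rw [Finset.sum_Ioc_succ_top (by omega)]
    simp [pay]
  have e3 : ∑ h ∈ Ioc 0 (g - 1), bq W N k0 h * pay V (N + 1) g h =
      br W N k0 (g - 1) * (1 + V (g - 1)) := by
    rw [← bq_sum W N k0 (g - 1), Finset.sum_mul]
    apply Finset.sum_congr rfl
    intro h hh
    simp only [mem_Ioc] at hh
    unfold pay
    rw [if_neg (by omega), if_pos (by omega)]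
  have e4 : ∑ h ∈ Ioc g (N + 1), bq W N k0 h * pay V (N + 1) g h =
      (1 - br W N k0 g) * (1 + V (N + 1 - g)) := by
    have := bq_sum2 W N k0 g (N + 1) hg'
    rw [h1] at this
    rw [← this, Finset.sum_mul]
    apply Finset.sum_congr rfl
    intro h hh
    simp only [mem_Ioc] at hh
    unfold pay
    rw [if_neg (by omega), if_neg (by omega)]
  rw [e2, e3, e4]
  unfold bq
  ring

theorem blue_lemma (V : ℕ → ℝ) (N k0 : ℕ) (h2 : 2 * k0 < N)
    (hV : ∀ r ∈ Mixed (N + 1), ∀ M : ℝ,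
      (∀ g ∈ Icc 1 (N + 1), M ≤ ∑ h ∈ Icc 1 (N + 1), r h * pay V (N + 1) g h) → M ≤ V (N + 1))
    (W : ℕ → ℝ) (δ : ℝ) (hδ : 0 ≤ δ)
    (hW : ∀ k ∈ Ioc k0 (N - k0), 0 < W k) (hW0 : 0 ≤ W k0)
    (hmono : ∀ k, k0 ≤ k → k < N - k0 → W k ≤ W (k + 1))
    (hconc : ∀ k, k0 < k → k < N - k0 → W (k + 1) + W (k - 1) ≤ 2 * W k)
    (hVW : ∀ k ∈ Icc k0 (N - k0), W k - δ ≤ V k)
    (hout : ∀ k ∈ Ioc (N - k0) N, W (N - k0) - δ ≤ V k) :
    1 - δ + (∑ k ∈ Ioc k0 (N - k0), kw W N k0 k * W k) / Sw W N k0 ≤ V (N + 1) := by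
  have hmon : Monotone (br W N k0) := monotone_nat_of_le_succ
    (br_inc W N k0 h2 hW hW0 hmono hconc)
  have h0 : ∀ g, g ≤ k0 → br W N k0 g = 0 := by
    intro g hg; unfold br; rw [if_pos hg]
  have h1 : ∀ g, N + 1 - k0 ≤ g → br W N k0 g = 1 := by
    intro g hg; unfold br; rw [if_neg (by omega), if_pos hg]
  have hnn : ∀ g, 0 ≤ br W N k0 g := by
    intro g
    have := hmon (Nat.zero_le g)
    rwa [h0 0 (by omega)] at this
  have hle : ∀ g, br W N k0 g ≤ 1 := by
    intro g
    rcases le_total g (N + 1 - k0) with h | h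
    · have := hmon h
      rwa [h1 (N + 1 - k0) le_rfl] at this
    · rw [h1 g h]
  have hcz := bl_cz W N k0 h2 hW hW0 hconc
  have hcmax : bc W N k0 ≤ W (N - k0) := by
    have h3 := bl_mono W N k0 hmono (N - N / 2) (by omega) (N - k0) (by omega) le_rfl
    have h4 := bl_mono W N k0 hmono (N / 2) (by omega) (N - k0) (by omega) le_rfl
    unfold bz at hcz
    linarith
  have hmix : bq W N k0 ∈ Mixed (N + 1) := by
    constructor
    · intro i
      unfold bq
      have := hmon (Nat.sub_le i 1)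
      linarith
    · have e1 : Icc 1 (N + 1) = Ioc 0 (N + 1) := by
        ext k; simp only [mem_Icc, mem_Ioc]; omega
      rw [e1, bq_sum]
      exact h1 _ (by omega)
  apply hV (bq W N k0) hmix
  intro g hg
  simp only [mem_Icc] at hg
  rw [bq_pay V W N k0 g hg.1 hg.2 (h1 _ (by omega))]
  change 1 - δ + bc W N k0 ≤ _
  rcases le_or_gt g k0 with ha | ha
  · rw [h0 g ha, h0 (g - 1) (by omega)]
    have := hout (N + 1 - g) (by simp only [mem_Ioc]; omega)
    linarith
  rcases lt_or_ge (N + 1 - k0) g with hb | hb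
  · rw [h1 g (by omega), h1 (g - 1) (by omega)]
    have := hout (g - 1) (by simp only [mem_Ioc]; omega)
    linarith
  · have heq := br_eq W N k0 h2 hW g ha hb
    have v1 := hVW (g - 1) (by simp only [mem_Icc]; omega)
    have v2 := hVW (N + 1 - g) (by simp only [mem_Icc]; omega)
    have u1 := mul_le_mul_of_nonneg_left v1 (hnn (g - 1))
    have u2 := mul_le_mul_of_nonneg_left v2 (sub_nonneg.2 (hle g))
    have u3 : br W N k0 (g - 1) ≤ br W N k0 g := hmon (Nat.sub_le g 1)
    have u4 := mul_nonneg hδ (sub_nonneg.2 u3)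
    nlinarith

end MBlue
end Pool.Agent.Helper155.Gil
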