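import Mathlib

set_option autoImplicit false
open Finset Filter Topology

namespace Pool.Agent.Helper155.Gil

/-! ### the game -/

/-- Payoff to Blue when Red guesses `g` and Blue hides at `h`, continuation values `V`. -/
noncomputable def pay (V : ℕ → ℝ) (n g h : ℕ) : ℝ :=
  if h = g then 1 else if h < g then 1 + V (g - 1) else 1 + V (n - g)

/-- Mixed strategies on `{1, …, n}`. -/
def Mixed (n : ℕ) : Set (ℕ → ℝ) := {p | (∀ i, 0 ≤ p i) ∧ ∑ i ∈ Icc 1 n, p i = 1}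

/-- `v` is the value of the `n × n` matrix game `A` (row player minimises, column player maximises). -/
def IsValue (A : ℕ → ℕ → ℝ) (n : ℕ) (v : ℝ) : Prop :=
  (∃ p ∈ Mixed n, ∀ h ∈ Icc 1 n, ∑ g ∈ Icc 1 n, p g * A g h ≤ v) ∧
  (∃ r ∈ Mixed n, ∀ g ∈ Icc 1 n, v ≤ ∑ h ∈ Icc 1 n, r h * A g h)

/-- the recursion for the value of the game -/
def IsGilbert (V : ℕ → ℝ) : Prop := V 0 = 0 ∧ ∀ n, 1 ≤ n → IsValue (pay V n) n (V n)

/-! ### the kernel -/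

noncomputable def ew (W : ℕ → ℝ) (k0 m : ℕ) : ℝ := ∏ j ∈ Ioc k0 m, (W j)⁻¹

/-- unnormalised kernel weights on the window `[k0, N - k0]` -/
noncomputable def kw (W : ℕ → ℝ) (N k0 k : ℕ) : ℝ := ew W k0 k * ew W k0 (N - k)

noncomputable def Sw (W : ℕ → ℝ) (N k0 : ℕ) : ℝ := ∑ k ∈ Icc k0 (N - k0), kw W N k0 k

/-! ### explicit functions -/

noncomputable def c1 : ℝ := -33796824689 / 10 ^ 11
noncomputable def A0 : ℝ := 23 / 10 ^ 11
noncomputable def kap : ℝ := 23 / 10 ^ 9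
noncomputable def ep0 : ℝ := 207 / 10 ^ 12

/-- `θ(y)` -/
noncomputable def th (y : ℝ) : ℝ := Real.log y + c1

noncomputable def P1 (θ : ℝ) : ℝ := θ / 2 + 8664339757 / 25000000000
noncomputable def P2 (θ : ℝ) : ℝ := -θ ^ 2 / 12 + 6565849 / 25000000 * θ + 162859943 / 1000000000
noncomputable def P3 (θ : ℝ) : ℝ := -(72331 / 400000) * θ ^ 2 + 130563 / 1000000 * θ + 869963 / 10000000
noncomputable def P4 (θ : ℝ) : ℝ :=
  θ ^ 4 / 120 + 17 / 2000 * θ ^ 3 - 13437 / 50000 * θ ^ 2 + 5271 / 100000 * θ + 5377 / 100000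

noncomputable def zz (y : ℝ) : ℝ :=
  th y + P1 (th y) / y + P2 (th y) / y ^ 2 + P3 (th y) / y ^ 3 + P4 (th y) / y ^ 4

/-- `cos (2 π log₂ y)` -/
noncomputable def qq (y : ℝ) : ℝ := Real.cos (2 * Real.pi * (Real.log y / Real.log 2))

noncomputable def mm (y : ℝ) : ℝ := ep0 - kap * (th y + 1) / y

/-- the super- (`σ = 1`) and sub- (`σ = -1`) solution, multiplied by `log 2` -/
noncomputable def Wf (σ y : ℝ) : ℝ := zz y + σ * mm y - A0 * qq y

/-- an odd polynomial in `τ` -/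
noncomputable def GG (u θ τ : ℝ) : ℝ :=
  (-(1 / 2) + (θ / 8 - 40342641 / 200000000) * u + (1061407 / 5000000 * θ - 8147 / 100000) * u ^ 2
    + (-(781 / 50000) * θ ^ 3 - 33 / 12500 * θ ^ 2 + 4911 / 20000 * θ - 787 / 50000) * u ^ 3) * τ
  + (-(1 / 12) + (5 / 72 * θ - 2050233 / 10000000) * u
    + (347 / 100000 * θ ^ 2 + 7143 / 25000 * θ - 16989 / 50000) * u ^ 2) * τ ^ 3
  + (-(7 / 180) + (2847 / 50000 * θ - 19719 / 100000) * u) * τ ^ 5
  - 181 / 7560 * τ ^ 7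

/-! ### symmetric probability weights with moment bounds -/

/-- constants of the moment bounds -/
noncomputable def Mc : ℕ → ℝ
  | 0 => 1
  | 1 => 502 / 1000
  | 2 => 756 / 1000
  | 3 => 1898 / 1000
  | 4 => 667 / 100
  | 5 => 3013 / 100
  | 6 => 1664 / 10
  | _ => 0

/-- `w` is a finite probability, `|t| ≤ 1/2`, all odd moments of `t` vanish, even moments are bounded -/
def MomOK {ι : Type} (s : Finset ι) (w t : ι → ℝ) (x : ℝ) : Prop :=
  (∀ i ∈ s, 0 ≤ w i) ∧ (∑ i ∈ s, w i = 1) ∧ (∀ i ∈ s, |t i| ≤ 1 / 2) ∧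
  (∀ k : ℕ, Odd k → ∑ i ∈ s, w i * t i ^ k = 0) ∧
  (∀ j : ℕ, 1 ≤ j → j ≤ 6 → ∑ i ∈ s, w i * t i ^ (2 * j) ≤ Mc j * (th x / x) ^ j)

/-- half of `N + 2` -/
noncomputable def xc (N : ℕ) : ℝ := ((N : ℝ) + 2) / 2

/-- relative position of `k + 1` with respect to the centre `xc N` -/
noncomputable def tk (N k : ℕ) : ℝ := ((k : ℝ) - (N : ℝ) / 2) / xc N

/-- truncated series of `log (1+t)` -/
noncomputable def ls (n : ℕ) (t : ℝ) : ℝ := ∑ j ∈ range n, (-1) ^ j * t ^ (j + 1) / (j + 1)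

/-- truncated series of `1/(1+t)` -/
noncomputable def rs (n : ℕ) (t : ℝ) : ℝ := ∑ j ∈ range (n + 1), (-t) ^ j

/-- polynomial approximation of `zz (x (1+t))` in terms of `u = 1/x`, `θ = th x` -/
noncomputable def Zp (u θ t : ℝ) : ℝ :=
  θ + ls 15 t + u * rs 9 t * P1 (θ + ls 9 t) + u ^ 2 * rs 7 t ^ 2 * P2 (θ + ls 7 t)
    + u ^ 3 * rs 5 t ^ 3 * P3 (θ + ls 5 t) + u ^ 4 * rs 3 t ^ 4 * P4 (θ + ls 3 t)

end Pool.Agent.Helper155.Gil
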