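import Pool.Agent.Helper155.Gil.Defs
import Pool.Agent.Helper155.Gil.Kern

set_option autoImplicit false
open Finset Filter Topology

namespace Pool.Agent.Helper155.Gil
namespace MEdge
open MKern
theorem edge_core (x E : ℝ) (hx : 2048 ≤ x) (hE : 247 / 1000 * x / (th x + 1) ≤ E) :
    (th x + 1) * Real.exp (-E) ≤ A0 / 10 * (th x / x) := by
  have hx0 : (0 : ℝ) < x := by linarith
  have hl2 := Real.log_two_lt_d9
  have hl2' := Real.log_two_gt_d9
  set r := Real.sqrt (x / 2048) with hr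
  have hr2 : r ^ 2 = x / 2048 := Real.sq_sqrt (by positivity)
  have hr1 : 1 ≤ r := by
    rw [hr]
    apply Real.one_le_sqrt.2
    rw [le_div_iff₀ (by norm_num)]
    linarith
  have hxr : x = 2048 * r ^ 2 := by rw [hr2]; ring
  have hlog2048 : Real.log 2048 = 11 * Real.log 2 := by
    rw [show (2048 : ℝ) = 2 ^ 11 by norm_num, Real.log_pow]
    norm_num
  have hlogx : Real.log x = 11 * Real.log 2 + 2 * Real.log r := by
    rw [hxr, Real.log_mul (by norm_num) (by positivity), Real.log_pow, hlog2048]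
    norm_num
  have hlogr : Real.log r ≤ r - 1 := Real.log_le_sub_one_of_pos (by linarith)
  have hlogr0 : 0 ≤ Real.log r := Real.log_nonneg hr1
  have hc1 : c1 = -33796824689 / 10 ^ 11 := rfl
  have hth : th x = Real.log x + c1 := rfl
  have hth7 : 7 ≤ th x := by
    rw [hth, hlogx, hc1]
    linarith
  have hthu : th x + 1 ≤ 6288 / 1000 + 2 * r := by
    rw [hth, hlogx, hc1]
    linarith
  have hlx : Real.log x ≤ 5625 / 1000 + 2 * r := by
    rw [hlogx]; linarith
  have hlx0 : 0 ≤ Real.log x := Real.log_nonneg (by linarith)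
  have hmain : 25 + Real.log x ≤ 247 / 1000 * x / (th x + 1) := by
    rw [le_div_iff₀ (by linarith)]
    calc (25 + Real.log x) * (th x + 1) ≤ (25 + (5625 / 1000 + 2 * r)) * (6288 / 1000 + 2 * r) := by
          apply mul_le_mul (by linarith) hthu (by linarith) (by linarith)
      _ ≤ 247 / 1000 * x := by
          rw [hxr]
          nlinarith
  have hEL : 25 + Real.log x ≤ E := hmain.trans hE
  have hexp : Real.exp (-E) ≤ Real.exp (-25) / x := by
    calc Real.exp (-E) ≤ Real.exp (-(25 + Real.log x)) := Real.exp_le_exp.2 (by linarith)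
      _ = Real.exp (-25) / x := by
        rw [neg_add, Real.exp_add, Real.exp_neg (Real.log x), Real.exp_log hx0]
        rfl
  have h25 : Real.exp (-25) ≤ 2 / 10 ^ 11 := by
    have h1 := Real.exp_one_gt_d9
    have h2 : (5 * 10 ^ 10 : ℝ) ≤ Real.exp 25 := by
      have : Real.exp 25 = Real.exp 1 ^ 25 := by
        rw [← Real.exp_nat_mul]; norm_num
      rw [this]
      calc (5 * 10 ^ 10 : ℝ) ≤ (2.7182818283 : ℝ) ^ 25 := by norm_num
        _ ≤ Real.exp 1 ^ 25 := pow_le_pow_left₀ (by norm_num) h1.le 25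
    rw [Real.exp_neg]
    rw [inv_le_comm₀ (Real.exp_pos _) (by norm_num)]
    refine le_trans ?_ h2
    norm_num
  have hA : A0 = 23 / 10 ^ 11 := rfl
  calc (th x + 1) * Real.exp (-E) ≤ (th x + 1) * (2 / 10 ^ 11 / x) := by
        apply mul_le_mul_of_nonneg_left _ (by linarith)
        exact hexp.trans (div_le_div_of_nonneg_right h25 hx0.le)
    _ = (th x + 1) * (2 / 10 ^ 11) / x := by ring
    _ ≤ (A0 / 10 * th x) / x := by
        apply div_le_div_of_nonneg_right _ hx0.le
        rw [hA]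
        linarith
    _ = A0 / 10 * (th x / x) := by ring

/-! TARGET -/
theorem edge_small (N : ℕ) (hN : 4094 ≤ N) (W : ℕ → ℝ)
    (hpos : ∀ k ∈ Icc (N / 4 + 1) (N - (N / 4 + 1)), 0 < W k)
    (hmono : ∀ k, N / 4 + 1 ≤ k → k < N - (N / 4 + 1) → W k ≤ W (k + 1))
    (F1 : ∀ k ∈ Icc (N / 4 + 1) (N - (N / 4 + 1)), N ≤ 2 * k →
      2 * (997 / 1000) * tk N k ≤ W k - W (N - k))
    (hub : ∀ k ∈ Icc (N / 4 + 1) (N - (N / 4 + 1)), W k ≤ th (xc N) + 1) :
    kw W N (N / 4 + 1) (N / 4 + 1) * (th (xc N) + 1)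
      ≤ A0 / 10 * (th (xc N) / xc N) * Sw W N (N / 4 + 1) := by
  obtain ⟨k0, hk0⟩ : ∃ k0, k0 = N / 4 + 1 := ⟨_, rfl⟩
  rw [← hk0] at hpos hmono F1 hub ⊢
  obtain ⟨x, hxdef⟩ : ∃ x, x = xc N := ⟨_, rfl⟩
  have hxN : x = ((N : ℝ) + 2) / 2 := hxdef
  rw [← hxdef] at hub ⊢
  have hNr : (4094 : ℝ) ≤ N := by exact_mod_cast hN
  have hx : 2048 ≤ x := by rw [hxN]; linarith
  have hx0 : 0 < x := by linarith
  have hW : ∀ k ∈ Ioc k0 (N - k0), 0 < W k := fun k hk => by
    rw [mem_Ioc] at hk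
    exact hpos k (mem_Icc.2 ⟨hk.1.le, hk.2⟩)
  obtain ⟨c, hc⟩ : ∃ c, c = N / 2 := ⟨_, rfl⟩
  have hkwpos : ∀ k ∈ Icc k0 (N - k0), 0 < kw W N k0 k := fun k hk => kw_pos W N k0 k hW hk
  have hcmem : c ∈ Icc k0 (N - k0) := by rw [mem_Icc]; omega
  have hθ1 : 0 < th x + 1 := lt_of_lt_of_le (hpos c hcmem) (hub c hcmem)
  obtain ⟨a, ha⟩ : ∃ a, a = 2 * (997 / 1000) / (x * (th x + 1)) := ⟨_, rfl⟩
  have ha0 : 0 < a := by rw [ha]; positivity
  have hstep : ∀ k ∈ Ioc k0 c, kw W N k0 (k - 1) ≤ kw W N k0 k * Real.exp (-(a * ((c : ℝ) - k))) := by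
    intro k hk
    rw [mem_Ioc] at hk
    have hkwin : k ∈ Icc k0 (N - k0) := by rw [mem_Icc]; omega
    have hb := kw_balance W N k0 k hW (by rw [mem_Ioc]; omega)
    have hk'win : N + 1 - k ∈ Icc k0 (N - k0) := by rw [mem_Icc]; omega
    have hWk' : 0 < W (N + 1 - k) := hpos _ hk'win
    have hWk : 0 < W k := hpos _ hkwin
    have hm : W (N - k) ≤ W (N + 1 - k) := by
      have := hmono (N - k) (by omega) (by omega)
      rwa [show N - k + 1 = N + 1 - k by omega] at this
    have hF := F1 (N - k) (by rw [mem_Icc]; omega) (by omega)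
    rw [show N - (N - k) = k by omega] at hF
    have htk : ((c : ℝ) - k) / x ≤ tk N (N - k) := by
      unfold tk
      rw [← hxdef]
      apply div_le_div_of_nonneg_right _ hx0.le
      rw [Nat.cast_sub (by omega)]
      have : (2 : ℝ) * c ≤ N := by
        have : 2 * c ≤ N := by omega
        exact_mod_cast this
      linarith
    have hdiff : 2 * (997 / 1000) * (((c : ℝ) - k) / x) ≤ W (N + 1 - k) - W k := by
      linarith
    have hck : (0 : ℝ) ≤ (c : ℝ) - k := by
      have : (k : ℝ) ≤ c := by exact_mod_cast hk.2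
      linarith
    have hratio : W k ≤ W (N + 1 - k) * Real.exp (-(a * ((c : ℝ) - k))) := by
      have h1 : 1 - a * ((c : ℝ) - k) ≤ Real.exp (-(a * ((c : ℝ) - k))) := by
        have := Real.add_one_le_exp (-(a * ((c : ℝ) - k)))
        linarith
      have h2 : W (N + 1 - k) * (a * ((c : ℝ) - k)) ≤ 2 * (997 / 1000) * (((c : ℝ) - k) / x) := by
        have h3 : W (N + 1 - k) ≤ th x + 1 := hub _ hk'win
        calc W (N + 1 - k) * (a * ((c : ℝ) - k)) ≤ (th x + 1) * (a * ((c : ℝ) - k)) :=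
              mul_le_mul_of_nonneg_right h3 (by positivity)
          _ = 2 * (997 / 1000) * (((c : ℝ) - k) / x) := by
              rw [ha]; field_simp
      calc W k ≤ W (N + 1 - k) * (1 - a * ((c : ℝ) - k)) := by
            rw [mul_sub, mul_one]
            linarith
        _ ≤ _ := mul_le_mul_of_nonneg_left h1 hWk'.le
    have hkwk : 0 < kw W N k0 k := hkwpos k hkwin
    have h5 : kw W N k0 (k - 1) * W (N + 1 - k) ≤
        (kw W N k0 k * Real.exp (-(a * ((c : ℝ) - k)))) * W (N + 1 - k) := by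
      rw [← hb]
      calc kw W N k0 k * W k ≤ kw W N k0 k * (W (N + 1 - k) * Real.exp (-(a * ((c : ℝ) - k)))) :=
            mul_le_mul_of_nonneg_left hratio hkwk.le
        _ = _ := by ring
    exact le_of_mul_le_mul_right h5 hWk'
  have hprod : ∀ i : ℕ, i ≤ c - k0 →
      kw W N k0 (c - i) ≤ kw W N k0 c * Real.exp (-(a * ((i : ℝ) * (i - 1) / 2))) := by
    intro i
    induction i with
    | zero => intro _; simp
    | succ i ih =>
      intro hi
      have h1 := ih (by omega)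
      have h2 := hstep (c - i) (by rw [mem_Ioc]; omega)
      rw [show c - i - 1 = c - (i + 1) by omega] at h2
      have h3 : ((c : ℝ) - ((c - i : ℕ) : ℝ)) = i := by
        rw [Nat.cast_sub (by omega)]; ring
      rw [h3] at h2
      calc kw W N k0 (c - (i + 1)) ≤ kw W N k0 (c - i) * Real.exp (-(a * i)) := h2
        _ ≤ (kw W N k0 c * Real.exp (-(a * ((i : ℝ) * (i - 1) / 2)))) * Real.exp (-(a * i)) :=
            mul_le_mul_of_nonneg_right h1 (Real.exp_pos _).le
        _ = kw W N k0 c * Real.exp (-(a * (((i + 1 : ℕ) : ℝ) * (((i + 1 : ℕ) : ℝ) - 1) / 2))) := by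
            rw [mul_assoc, ← Real.exp_add]
            congr 2
            push_cast
            ring
  have hfin := hprod (c - k0) le_rfl
  rw [show c - (c - k0) = k0 by omega] at hfin
  obtain ⟨j, hj⟩ : ∃ j : ℝ, j = ((c - k0 : ℕ) : ℝ) := ⟨_, rfl⟩
  rw [← hj] at hfin
  have hjlb : x / 2 - 2 ≤ j := by
    rw [hj, hxN, Nat.cast_sub (by omega)]
    have h1 : (N : ℝ) ≤ 2 * c + 1 := by
      have : N ≤ 2 * c + 1 := by omega
      exact_mod_cast this
    have h2 : (4 : ℝ) * k0 ≤ N + 4 := by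
      have : 4 * k0 ≤ N + 4 := by omega
      exact_mod_cast this
    linarith
  have hjj : 2479 / 10000 * x ^ 2 ≤ 997 / 1000 * (j * (j - 1)) := by
    have h1 : (x / 2 - 2) * (x / 2 - 3) ≤ j * (j - 1) :=
      mul_le_mul hjlb (by linarith) (by linarith) (by linarith)
    nlinarith
  have hE : 247 / 1000 * x / (th x + 1) ≤ a * (j * (j - 1) / 2) := by
    rw [ha]
    have : 2 * (997 / 1000) / (x * (th x + 1)) * (j * (j - 1) / 2) =
        (997 / 1000 * (j * (j - 1))) / x / (th x + 1) := by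
      field_simp
    rw [this]
    apply div_le_div_of_nonneg_right _ hθ1.le
    rw [le_div_iff₀ hx0]
    nlinarith
  have hcore := edge_core x (a * (j * (j - 1) / 2)) hx hE
  have hcS : kw W N k0 c ≤ Sw W N k0 := by
    unfold Sw
    exact Finset.single_le_sum (f := fun k => kw W N k0 k) (fun k hk => (hkwpos k hk).le) hcmem
  have hS0 : 0 ≤ kw W N k0 c := (hkwpos c hcmem).le
  calc kw W N k0 k0 * (th x + 1)
      ≤ (kw W N k0 c * Real.exp (-(a * (j * (j - 1) / 2)))) * (th x + 1) :=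
        mul_le_mul_of_nonneg_right hfin hθ1.le
    _ = ((th x + 1) * Real.exp (-(a * (j * (j - 1) / 2)))) * kw W N k0 c := by ring
    _ ≤ (A0 / 10 * (th x / x)) * kw W N k0 c := mul_le_mul_of_nonneg_right hcore hS0
    _ ≤ (A0 / 10 * (th x / x)) * Sw W N k0 := by
        apply mul_le_mul_of_nonneg_left hcS
        exact le_trans (by positivity) hcore

end MEdge
end Pool.Agent.Helper155.Gil
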