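import Pool.Agent.Helper155.Gil.Defs

set_option autoImplicit false
open Finset Filter Topology

namespace Pool.Agent.Helper155.Gil
namespace MFin
theorem T_aux (k : ℕ) : Tendsto (fun y : ℝ => th y ^ k / y) atTop (𝓝 0) := by
  have h1 : Tendsto (fun x : ℝ => Real.log x ^ k / x) atTop (𝓝 0) :=
    (Real.isLittleO_pow_log_id_atTop (n := k)).tendsto_div_nhds_zero
  have h2 : Tendsto (fun y : ℝ => Real.exp c1 * y) atTop atTop :=
    tendsto_id.const_mul_atTop (Real.exp_pos c1)
  have h3 := (h1.comp h2).const_mul (Real.exp c1)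
  rw [mul_zero] at h3
  refine h3.congr' ?_
  filter_upwards [eventually_gt_atTop 0] with y hy
  simp only [Function.comp]
  have he := Real.exp_pos c1
  rw [Real.log_mul he.ne' hy.ne', Real.log_exp]
  unfold th
  rw [add_comm c1]
  field_simp

theorem lim_congr {f g : ℝ → ℝ} {a : ℝ} (h : Tendsto f atTop (𝓝 a)) (h0 : a = 0)
    (hfg : ∀ y, f y = g y) : Tendsto g atTop (𝓝 0) := by
  subst h0
  exact h.congr hfg

theorem zz_lim : Tendsto (fun y : ℝ => zz y - Real.log y - c1) atTop (𝓝 0) := by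
  have hi : Tendsto (fun y : ℝ => y⁻¹) atTop (𝓝 0) := tendsto_inv_atTop_zero
  have e1 : Tendsto (fun y : ℝ => P1 (th y) / y) atTop (𝓝 0) :=
    lim_congr (((T_aux 1).const_mul (1 / 2)).add
      ((T_aux 0).const_mul (8664339757 / 25000000000))) (by ring) (fun y => by unfold P1; ring)
  have e2 : Tendsto (fun y : ℝ => P2 (th y) / y ^ 2) atTop (𝓝 0) :=
    lim_congr (((((T_aux 2).const_mul (-1 / 12)).add
      ((T_aux 1).const_mul (6565849 / 25000000))).add
      ((T_aux 0).const_mul (162859943 / 1000000000))).mul hi) (by ring)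
      (fun y => by unfold P2; ring)
  have e3 : Tendsto (fun y : ℝ => P3 (th y) / y ^ 3) atTop (𝓝 0) :=
    lim_congr ((((((T_aux 2).const_mul (-(72331 / 400000))).add
      ((T_aux 1).const_mul (130563 / 1000000))).add
      ((T_aux 0).const_mul (869963 / 10000000))).mul hi).mul hi) (by ring)
      (fun y => by unfold P3; ring)
  have e4 : Tendsto (fun y : ℝ => P4 (th y) / y ^ 4) atTop (𝓝 0) :=
    lim_congr (((((((((T_aux 4).const_mul (1 / 120)).add
      ((T_aux 3).const_mul (17 / 2000))).add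
      ((T_aux 2).const_mul (-(13437 / 50000)))).add
      ((T_aux 1).const_mul (5271 / 100000))).add
      ((T_aux 0).const_mul (5377 / 100000))).mul hi).mul hi).mul hi) (by ring)
      (fun y => by unfold P4; ring)
  refine lim_congr (((e1.add e2).add e3).add e4) (by ring) (fun y => ?_)
  unfold zz th
  ring

theorem mm_lim : Tendsto (fun y : ℝ => mm y - ep0) atTop (𝓝 0) :=
  lim_congr (((T_aux 1).add (T_aux 0)).const_mul (-kap)) (by ring) (fun y => by unfold mm; ring)

/-- limit along a subsequence on which `qq` is constant -/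
theorem W_lim (σ q : ℝ) (φ : ℕ → ℕ) (hφ : Tendsto φ atTop atTop)
    (hq : ∀ j, qq ((φ j : ℝ) + 1) = q) :
    Tendsto (fun j => Wf σ ((φ j : ℝ) + 1) - Real.log (φ j)) atTop
      (𝓝 (c1 + σ * ep0 - A0 * q)) := by
  have h0 : Tendsto (fun j => ((φ j : ℝ) + 1)) atTop atTop :=
    tendsto_atTop_add_const_right _ _ (tendsto_natCast_atTop_atTop.comp hφ)
  have h1 := zz_lim.comp h0
  have h2 := mm_lim.comp h0
  have h3 := Real.tendsto_log_nat_add_one_sub_log.comp hφ
  have h4 := (((h1.add (h2.const_mul σ)).add h3).add_const (c1 + σ * ep0 - A0 * q))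
  have e : (0 : ℝ) + σ * 0 + 0 + (c1 + σ * ep0 - A0 * q) = c1 + σ * ep0 - A0 * q := by ring
  rw [e] at h4
  refine h4.congr fun j => ?_
  simp only [Function.comp]
  unfold Wf
  rw [hq j]
  ring

theorem qq_two_pow (j : ℕ) : qq ((2 : ℝ) ^ j) = 1 := by
  unfold qq
  have hL : Real.log 2 ≠ 0 := (Real.log_pos (by norm_num)).ne'
  rw [Real.log_pow, mul_div_assoc, div_self hL, mul_one, mul_comm]
  exact Real.cos_nat_mul_two_pi j

theorem qq_three_mul (j : ℕ) : qq (3 * (2 : ℝ) ^ j) = qq 3 := by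
  unfold qq
  have hL : Real.log 2 ≠ 0 := (Real.log_pos (by norm_num)).ne'
  rw [Real.log_mul (by norm_num) (by positivity), Real.log_pow, add_div, mul_div_assoc,
    div_self hL, mul_one, mul_add, mul_comm (2 * Real.pi) (j : ℝ)]
  exact Real.cos_add_nat_mul_two_pi _ j

theorem qq_three : qq 3 ≤ -(857 / 1000) := by
  unfold qq
  have hL : 0 < Real.log 2 := Real.log_pos (by norm_num)
  set r : ℝ := Real.log 3 / Real.log 2 with hr
  have h1 : 3 / 2 ≤ r := by
    rw [hr, le_div_iff₀ hL]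
    have h : Real.log ((2 : ℝ) ^ 3) ≤ Real.log ((3 : ℝ) ^ 2) :=
      Real.log_le_log (by norm_num) (by norm_num)
    rw [Real.log_pow, Real.log_pow] at h
    push_cast at h
    linarith
  have h2 : r ≤ 1585 / 1000 := by
    rw [hr, div_le_iff₀ hL]
    have h : Real.log ((3 : ℝ) ^ 200) ≤ Real.log ((2 : ℝ) ^ 317) :=
      Real.log_le_log (by norm_num) (by
        rw [show (317 : ℕ) = 200 + 117 from rfl, pow_add]; norm_num)
    rw [Real.log_pow, Real.log_pow] at h
    push_cast at h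
    linarith
  have h3 : Real.cos (2 * Real.pi * r) = -Real.cos (2 * Real.pi * (r - 3 / 2)) := by
    have e : 2 * Real.pi * (r - 3 / 2) = 2 * Real.pi * r - Real.pi - 2 * Real.pi := by ring
    rw [e, Real.cos_sub_two_pi, Real.cos_sub_pi]
    ring
  rw [h3]
  have h4 := Real.one_sub_sq_div_two_le_cos (x := 2 * Real.pi * (r - 3 / 2))
  have h5 : 2 * Real.pi * (r - 3 / 2) ≤ 5342 / 10000 := by
    have hpi := Real.pi_lt_d4
    have hpi0 := Real.pi_pos
    nlinarith
  have h6 : 0 ≤ 2 * Real.pi * (r - 3 / 2) := by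
    have hpi0 := Real.pi_pos
    have : 0 ≤ r - 3 / 2 := by linarith
    positivity
  nlinarith

/-! TARGET -/
theorem final_limit (V : ℕ → ℝ)
    (hup : ∀ n : ℕ, 1024 ≤ n → Real.log 2 * V n ≤ Wf 1 ((n : ℝ) + 1))
    (hlo : ∀ n : ℕ, 1024 ≤ n → Wf (-1) ((n : ℝ) + 1) ≤ Real.log 2 * V n) :
    ¬ ∃ c : ℝ, Tendsto (fun n : ℕ => V n - Real.logb 2 n) atTop (𝓝 c) := by
  rintro ⟨c, hc⟩
  have hL : 0 < Real.log 2 := Real.log_pos (by norm_num)
  have hV : Tendsto (fun n : ℕ => Real.log 2 * V n - Real.log n) atTop (𝓝 (Real.log 2 * c)) := by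
    refine (hc.const_mul (Real.log 2)).congr fun n => ?_
    unfold Real.logb
    field_simp
  have hφ1 : Tendsto (fun j : ℕ => 2 ^ j - 1) atTop atTop := by
    refine tendsto_atTop_mono (fun j => ?_) tendsto_id
    have : j < 2 ^ j := Nat.lt_two_pow_self
    simp only [id]
    omega
  have hφ2 : Tendsto (fun j : ℕ => 3 * 2 ^ j - 1) atTop atTop := by
    refine tendsto_atTop_mono (fun j => ?_) tendsto_id
    have : j < 2 ^ j := Nat.lt_two_pow_self
    simp only [id]
    omega
  have hc1 : ∀ j : ℕ, (((2 ^ j - 1 : ℕ) : ℝ) + 1) = 2 ^ j := by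
    intro j
    have h : (2 ^ j - 1) + 1 = 2 ^ j := Nat.sub_add_cancel Nat.one_le_two_pow
    exact_mod_cast h
  have hc2 : ∀ j : ℕ, (((3 * 2 ^ j - 1 : ℕ) : ℝ) + 1) = 3 * 2 ^ j := by
    intro j
    have h0 : 1 ≤ 2 ^ j := Nat.one_le_two_pow
    have h : (3 * 2 ^ j - 1) + 1 = 3 * 2 ^ j := by omega
    exact_mod_cast h
  have w1 := W_lim 1 1 _ hφ1 (fun j => by rw [hc1 j]; exact qq_two_pow j)
  have w2 := W_lim (-1) (qq 3) _ hφ2 (fun j => by rw [hc2 j]; exact qq_three_mul j)
  have k1 : Real.log 2 * c ≤ c1 + 1 * ep0 - A0 * 1 := by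
    refine le_of_tendsto_of_tendsto (hV.comp hφ1) w1 ?_
    filter_upwards [hφ1.eventually (eventually_ge_atTop 1024)] with j hj
    simp only [Function.comp]
    have := hup _ hj
    linarith
  have k2 : c1 + (-1) * ep0 - A0 * qq 3 ≤ Real.log 2 * c := by
    refine le_of_tendsto_of_tendsto w2 (hV.comp hφ2) ?_
    filter_upwards [hφ2.eventually (eventually_ge_atTop 1024)] with j hj
    simp only [Function.comp]
    have := hlo _ hj
    linarith
  have k3 := qq_three
  unfold ep0 A0 at k1 k2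
  linarith

end MFin
end Pool.Agent.Helper155.Gil
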