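import Pool.Agent.Helper155.Gil.Step

set_option autoImplicit false
open Finset Filter Topology

namespace Pool.Agent.Helper155.Gil
namespace MInd
open MKern MRed MBlue MStep

theorem two_xc (N : ℕ) : 2 * xc N = ((N + 1 : ℕ) : ℝ) + 1 := by
  unfold xc
  push_cast
  ring

theorem mono_chain (σ : ℝ) (hσ : |σ| ≤ 1) (a b : ℕ) (ha : 1000 ≤ a) (hab : a ≤ b) : Wn σ a ≤ Wn σ b := by
  induction b, hab using Nat.le_induction with
  | base => exact le_rfl
  | succ b hb ih => exact ih.trans (Wn_mono σ hσ (4094) (by norm_num) b (by omega))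

theorem bounds (V : ℕ → ℝ)
    (hU : ∀ n, 1 ≤ n → ∀ p ∈ Mixed n, ∀ M : ℝ,
      (∀ h ∈ Icc 1 n, ∑ g ∈ Icc 1 n, p g * pay V n g h ≤ M) → V n ≤ M)
    (hL : ∀ n, 1 ≤ n → ∀ r ∈ Mixed n, ∀ M : ℝ,
      (∀ g ∈ Icc 1 n, M ≤ ∑ h ∈ Icc 1 n, r h * pay V n g h) → M ≤ V n)
    (base : ∀ n : ℕ, 1024 ≤ n → n ≤ 4094 →
      Wf (-1) ((n : ℝ) + 1) ≤ Real.log 2 * V n ∧ Real.log 2 * V n ≤ Wf 1 ((n : ℝ) + 1)) :
    ∀ n : ℕ, 1024 ≤ n →
      Wf (-1) ((n : ℝ) + 1) ≤ Real.log 2 * V n ∧ Real.log 2 * V n ≤ Wf 1 ((n : ℝ) + 1) := by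
  have hlog : 0 < Real.log 2 := Real.log_pos (by norm_num)
  have hσ1 : |(1 : ℝ)| ≤ 1 := by simp
  have hσ2 : |(-1 : ℝ)| ≤ 1 := by simp
  intro n
  induction n using Nat.strong_induction_on with
  | _ n ih =>
    intro hn
    by_cases hb : n ≤ 4094
    · exact base n hn hb
    obtain ⟨N, rfl⟩ : ∃ N, n = N + 1 := ⟨n - 1, by omega⟩
    have hN : 4094 ≤ N := by omega
    have h2 : 2 * (N / 4 + 1) ≤ N := by omega
    have hlow : ∀ k, N / 4 + 1 ≤ k → 1024 ≤ k := by intro k hk; omega
    have hposn : ∀ (σ : ℝ), |σ| ≤ 1 → ∀ k ∈ Icc (N / 4 + 1) (N - (N / 4 + 1)), 0 < Wn σ k / Real.log 2 := by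
      intro σ hσ k hk
      have := (Wn_F3 σ hσ N hN k hk).1
      exact div_pos (by linarith) hlog
    constructor
    · -- lower bound
      rw [← two_xc]
      refine (sub N hN).trans ?_
      have hbl := blue_lemma V N (N / 4 + 1) (by omega) (hL (N + 1) (by omega))
        (fun k => Wn (-1) k / Real.log 2) 0 le_rfl
        (by
          intro k hk
          rw [mem_Ioc] at hk
          exact hposn (-1) hσ2 k (by rw [mem_Icc]; omega))
        (hposn (-1) hσ2 _ (by rw [mem_Icc]; omega)).le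
        (by
          intro k hk1 hk2
          exact div_le_div_of_nonneg_right (Wn_mono (-1) hσ2 N hN k (by omega)) hlog.le)
        (by
          intro k hk1 hk2
          have := Wn_conc (-1) hσ2 N hN k (by omega)
          rw [← add_div, ← mul_div_assoc]
          exact div_le_div_of_nonneg_right this hlog.le)
        (by
          intro k hk
          rw [mem_Icc] at hk
          have := (ih k (by omega) (hlow k hk.1)).1
          rw [sub_zero, div_le_iff₀ hlog]
          unfold Wn
          linarith)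
        (by
          intro k hk
          rw [mem_Ioc] at hk
          have h1 := (ih k (by omega) (by omega)).1
          have h3 := mono_chain (-1) hσ2 (N - (N / 4 + 1)) k (by omega) (by omega)
          rw [sub_zero, div_le_iff₀ hlog]
          unfold Wn at h3 ⊢
          linarith)
      have hc : (0 : ℝ) < Real.log 2 ^ (N - 2 * (N / 4 + 1)) := pow_pos hlog _
      have e1 : (∑ k ∈ Ioc (N / 4 + 1) (N - (N / 4 + 1)),
          kw (fun k => Wn (-1) k / Real.log 2) N (N / 4 + 1) k * (Wn (-1) k / Real.log 2))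
            / Sw (fun k => Wn (-1) k / Real.log 2) N (N / 4 + 1)
          = (∑ k ∈ Ioc (N / 4 + 1) (N - (N / 4 + 1)), kw (Wn (-1)) N (N / 4 + 1) k * Wn (-1) k)
            / Sw (Wn (-1)) N (N / 4 + 1) / Real.log 2 := by
        rw [Sw_scale (Wn (-1)) (Real.log 2) N (N / 4 + 1) h2]
        have : ∑ k ∈ Ioc (N / 4 + 1) (N - (N / 4 + 1)),
          kw (fun k => Wn (-1) k / Real.log 2) N (N / 4 + 1) k * (Wn (-1) k / Real.log 2)
          = Real.log 2 ^ (N - 2 * (N / 4 + 1)) * ((∑ k ∈ Ioc (N / 4 + 1) (N - (N / 4 + 1)),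
            kw (Wn (-1)) N (N / 4 + 1) k * Wn (-1) k) / Real.log 2) := by
          rw [Finset.sum_div, Finset.mul_sum]
          refine Finset.sum_congr rfl fun k hk => ?_
          rw [kw_scale (Wn (-1)) (Real.log 2) N (N / 4 + 1) k (by rw [mem_Ioc] at hk; rw [mem_Icc]; omega) h2]
          ring
        rw [this, mul_div_mul_left _ _ hc.ne']
        ring
      rw [e1] at hbl
      have := mul_le_mul_of_nonneg_left hbl hlog.le
      refine le_trans (le_of_eq ?_) this
      field_simp
      ring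
    · -- upper bound
      rw [← two_xc]
      refine le_trans ?_ (super N hN)
      have hrl := red_lemma V N (N / 4 + 1) h2 (hU (N + 1) (by omega))
        (fun k => Wn 1 k / Real.log 2) 0 le_rfl
        (by
          intro k hk
          rw [mem_Ioc] at hk
          exact hposn 1 hσ1 k (by rw [mem_Icc]; omega))
        (hposn 1 hσ1 _ (by rw [mem_Icc]; omega)).le
        (by
          intro k hk
          rw [mem_Icc] at hk
          have := (ih k (by omega) (hlow k hk.1)).2
          rw [add_zero, le_div_iff₀ hlog]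
          unfold Wn
          linarith)
      have hc : (0 : ℝ) < Real.log 2 ^ (N - 2 * (N / 4 + 1)) := pow_pos hlog _
      have e1 : (∑ k ∈ Icc (N / 4 + 1) (N - (N / 4 + 1)),
          kw (fun k => Wn 1 k / Real.log 2) N (N / 4 + 1) k * (Wn 1 k / Real.log 2))
            / Sw (fun k => Wn 1 k / Real.log 2) N (N / 4 + 1)
          = (∑ k ∈ Icc (N / 4 + 1) (N - (N / 4 + 1)), kw (Wn 1) N (N / 4 + 1) k * Wn 1 k)
            / Sw (Wn 1) N (N / 4 + 1) / Real.log 2 := by
        rw [Sw_scale (Wn 1) (Real.log 2) N (N / 4 + 1) h2]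
        have : ∑ k ∈ Icc (N / 4 + 1) (N - (N / 4 + 1)),
          kw (fun k => Wn 1 k / Real.log 2) N (N / 4 + 1) k * (Wn 1 k / Real.log 2)
          = Real.log 2 ^ (N - 2 * (N / 4 + 1)) * ((∑ k ∈ Icc (N / 4 + 1) (N - (N / 4 + 1)),
            kw (Wn 1) N (N / 4 + 1) k * Wn 1 k) / Real.log 2) := by
          rw [Finset.sum_div, Finset.mul_sum]
          refine Finset.sum_congr rfl fun k hk => ?_
          rw [kw_scale (Wn 1) (Real.log 2) N (N / 4 + 1) k hk h2]
          ring
        rw [this, mul_div_mul_left _ _ hc.ne']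
        ring
      rw [e1] at hrl
      have := mul_le_mul_of_nonneg_left hrl hlog.le
      refine this.trans (le_of_eq ?_)
      field_simp
      ring

end MInd
end Pool.Agent.Helper155.Gil
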