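import Pool.Agent.Helper155.Gil.Defs

set_option autoImplicit false
open Finset Filter Topology

namespace Pool.Agent.Helper155.Gil
namespace MMK
/-! auxiliary facts -/
lemma aux_log (x : ℝ) (hx : 2048 ≤ x) :
    7 ≤ th x ∧ (1 / x) * th x ≤ 3600 / 10 ^ 6 ∧ 0 < 1 / x ∧ 1 / x ≤ 1 / 2048 := by
  have hx0 : 0 < x := by linarith
  have hl1 := Real.log_two_gt_d9
  have hl2 := Real.log_two_lt_d9
  have h2048 : Real.log 2048 = 11 * Real.log 2 := by
    rw [show (2048 : ℝ) = 2 ^ (11 : ℕ) by norm_num, Real.log_pow]; norm_num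
  have hlo : Real.log 2048 ≤ Real.log x := Real.log_le_log (by norm_num) hx
  have hup : Real.log x ≤ x / 2048 - 1 + Real.log 2048 := by
    have h1 : Real.log (x / 2048) ≤ x / 2048 - 1 := Real.log_le_sub_one_of_pos (by positivity)
    rw [Real.log_div hx0.ne' (by norm_num)] at h1
    linarith
  have hu : 1 / x ≤ 1 / 2048 := one_div_le_one_div_of_le (by norm_num) hx
  have hu0 : 0 < 1 / x := by positivity
  refine ⟨?_, ?_, hu0, hu⟩
  · unfold th c1; linarith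
  · have h3 : th x ≤ x / 2048 + 629 / 100 := by
      unfold th c1; linarith
    have h4 : (1 / x) * th x ≤ (1 / x) * (x / 2048 + 629 / 100) :=
      mul_le_mul_of_nonneg_left h3 hu0.le
    have h5 : (1 / x) * (x / 2048 + 629 / 100) = 1 / 2048 + 629 / 100 * (1 / x) := by
      field_simp
    rw [h5] at h4
    linarith

/-- coefficients -/
noncomputable def B1 (u s : ℝ) : ℝ :=
  (1 / 2) - (s / 8 - 40342641 / 200000000 * u) - (1061407 / 5000000 * s * u - 8147 / 100000 * u ^ 2)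
    - (-(781 / 50000) * s ^ 3 - 33 / 12500 * s ^ 2 * u + 4911 / 20000 * s * u ^ 2 - 787 / 50000 * u ^ 3)

noncomputable def B3 (u s : ℝ) : ℝ :=
  (1 / 12) - (5 / 72 * s - 2050233 / 10000000 * u)
    - (347 / 100000 * s ^ 2 + 7143 / 25000 * s * u - 16989 / 50000 * u ^ 2)

noncomputable def B5 (u s : ℝ) : ℝ :=
  (7 / 180) - (2847 / 50000 * s - 19719 / 100000 * u)

lemma GG_eq (u θ τ : ℝ) :
    GG u θ τ = -(B1 u (u * θ) * τ + B3 u (u * θ) * τ ^ 3 + B5 u (u * θ) * τ ^ 5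
      + 181 / 7560 * τ ^ 7) := by
  unfold GG B1 B3 B5; ring

lemma coef (u s : ℝ) (hu0 : 0 < u) (hu : u ≤ 1 / 2048) (hs0 : 0 ≤ s) (hs : s ≤ 3600 / 10 ^ 6) :
    (499 / 1000 ≤ B1 u s ∧ B1 u s ≤ 501 / 1000) ∧
    (82 / 1000 ≤ B3 u s ∧ B3 u s ≤ 85 / 1000) ∧
    (38 / 1000 ≤ B5 u s ∧ B5 u s ≤ 40 / 1000) := by
  have hsu : s * u ≤ 1 / 100000 := by nlinarith
  have hsu0 : 0 ≤ s * u := by positivity
  have huu : u ^ 2 ≤ 1 / 1000000 := by nlinarith
  have huu0 : 0 ≤ u ^ 2 := by positivity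
  have hss : s ^ 2 ≤ 2 / 100000 := by nlinarith
  have hss0 : 0 ≤ s ^ 2 := by positivity
  have hs3 : s ^ 3 ≤ 1 / 1000000 := by
    have : s ^ 3 = s ^ 2 * s := by ring
    rw [this]; nlinarith
  have hs30 : 0 ≤ s ^ 3 := by positivity
  have hs2u : s ^ 2 * u ≤ 1 / 1000000 := by nlinarith
  have hs2u0 : 0 ≤ s ^ 2 * u := by positivity
  have hsu2 : s * u ^ 2 ≤ 1 / 1000000 := by nlinarith
  have hsu20 : 0 ≤ s * u ^ 2 := by positivity
  have hu3 : u ^ 3 ≤ 1 / 1000000 := by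
    have : u ^ 3 = u ^ 2 * u := by ring
    rw [this]; nlinarith
  have hu30 : 0 ≤ u ^ 3 := by positivity
  unfold B1 B3 B5
  refine ⟨⟨?_, ?_⟩, ⟨?_, ?_⟩, ?_, ?_⟩ <;> linarith

/-- two-sided bound of the odd tail -/
lemma tail_bd (b3 b5 τ : ℝ) (h3 : 82 / 1000 ≤ b3 ∧ b3 ≤ 85 / 1000)
    (h5 : 38 / 1000 ≤ b5 ∧ b5 ≤ 40 / 1000) (hτ : |τ| ≤ 501 / 1000) :
    |b3 * τ ^ 3 + b5 * τ ^ 5 + 181 / 7560 * τ ^ 7| ≤ 5 / 100 * τ ^ 2 := by
  have h2 : τ ^ 2 ≤ 252 / 1000 := by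
    rw [← sq_abs]; nlinarith [abs_nonneg τ]
  have h20 : 0 ≤ τ ^ 2 := by positivity
  have heq : b3 * τ ^ 3 + b5 * τ ^ 5 + 181 / 7560 * τ ^ 7
      = τ ^ 2 * (τ * (b3 + b5 * τ ^ 2 + 181 / 7560 * (τ ^ 2 * τ ^ 2))) := by ring
  rw [heq, abs_mul, abs_of_nonneg h20, abs_mul]
  have h4 : τ ^ 2 * τ ^ 2 ≤ 252 / 1000 * (252 / 1000) := by
    apply mul_le_mul h2 h2 h20 (by norm_num)
  have h40 : 0 ≤ τ ^ 2 * τ ^ 2 := by positivity
  have hb0 : 0 ≤ b3 + b5 * τ ^ 2 + 181 / 7560 * (τ ^ 2 * τ ^ 2) := by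
    have : 0 ≤ b5 * τ ^ 2 := by
      apply mul_nonneg _ h20; linarith [h5.1]
    linarith [h3.1]
  have hb1 : b3 + b5 * τ ^ 2 + 181 / 7560 * (τ ^ 2 * τ ^ 2) ≤ 98 / 1000 := by
    have : b5 * τ ^ 2 ≤ 40 / 1000 * (252 / 1000) :=
      mul_le_mul h5.2 h2 h20 (by norm_num)
    linarith [h3.2]
  rw [abs_of_nonneg hb0]
  have : |τ| * (b3 + b5 * τ ^ 2 + 181 / 7560 * (τ ^ 2 * τ ^ 2)) ≤ 501 / 1000 * (98 / 1000) :=
    mul_le_mul hτ hb1 hb0 (by norm_num)
  nlinarith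

/-- pointwise lower bound -/
lemma pt_low (u s θ t : ℝ) (hu0 : 0 < u) (hu : u ≤ 1 / 2048) (hs0 : 0 ≤ s)
    (hs : s ≤ 3600 / 10 ^ 6) (hθ : 7 ≤ θ) (ht : |t| ≤ 1 / 2) (p : ℝ)
    (hp : p = 1 + (B1 u s * (t - u / 2) + B3 u s * (t - u / 2) ^ 3 + B5 u s * (t - u / 2) ^ 5
      + 181 / 7560 * (t - u / 2) ^ 7)) :
    (θ + 1) * (1 + (B1 u s - 1 + 1 / (θ + 1)) * t - t ^ 2 - u)
      ≤ (θ + 1 + Real.log (1 + t)) / (1 + t) * p := by
  obtain ⟨h1, h3, h5⟩ := coef u s hu0 hu hs0 hs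
  obtain ⟨ht1, ht2⟩ := abs_le.mp ht
  set b := B1 u s with hb
  have hτ : |t - u / 2| ≤ 501 / 1000 := by
    rw [abs_le]; constructor <;> linarith
  have htail := (abs_le.mp (tail_bd _ _ _ h3 h5 hτ)).1
  have htt : (t - u / 2) ^ 2 ≤ t ^ 2 + 51 / 100 * u := by nlinarith
  have hbu : b * (u / 2) ≤ 501 / 1000 * (u / 2) :=
    mul_le_mul_of_nonneg_right h1.2 (by linarith)
  have hp1 : 1 + b * t - 5 / 100 * t ^ 2 - 28 / 100 * u ≤ p := by
    rw [hp]; nlinarith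
  have hppos : 0 < p := by nlinarith
  have h1t : 0 < 1 + t := by linarith
  have hlog : t / (1 + t) ≤ Real.log (1 + t) := by
    have := Real.one_sub_inv_le_log_of_pos h1t
    have h2 : t / (1 + t) = 1 - (1 + t)⁻¹ := by field_simp; ring
    rw [h2]; exact this
  have hstep1 : (θ + 1 + t / (1 + t)) / (1 + t) * p ≤ (θ + 1 + Real.log (1 + t)) / (1 + t) * p := by
    apply mul_le_mul_of_nonneg_right _ hppos.le
    apply div_le_div_of_nonneg_right _ h1t.le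
    linarith
  refine le_trans ?_ hstep1
  set l := 1 / (θ + 1) with hl
  have hl0 : 0 < l := by positivity
  have hl1 : l ≤ 1 / 8 := by
    rw [hl]; apply one_div_le_one_div_of_le (by norm_num); linarith
  have hθl : (θ + 1) * l = 1 := by
    rw [hl]; field_simp
  have heq : (θ + 1 + t / (1 + t)) / (1 + t) * p = (θ + 1) * ((1 + (1 + l) * t) * p / (1 + t) ^ 2) := by
    have : (θ + 1) * ((1 + (1 + l) * t) * p / (1 + t) ^ 2)
        = ((θ + 1) * (1 + t) + (θ + 1) * l * t) * p / (1 + t) ^ 2 := by ring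
    rw [this, hθl]
    field_simp
  rw [heq]
  apply mul_le_mul_of_nonneg_left _ (by linarith)
  rw [le_div_iff₀ (by positivity)]
  have hA : 0 < 1 + (1 + l) * t := by nlinarith
  have hB : (1 + (1 + l) * t) * (1 + b * t - 5 / 100 * t ^ 2 - 28 / 100 * u)
      ≤ (1 + (1 + l) * t) * p := mul_le_mul_of_nonneg_left hp1 hA.le
  refine le_trans ?_ hB
  have hC : 0 ≤ u * ((1 + t) ^ 2 - 28 / 100 * (1 + (1 + l) * t)) := by
    apply mul_nonneg hu0.le
    -- (1+t)^2 - 0.28 (1 + (1+l) t)  = (1+t)^2 - 0.28(1+t) - 0.28 l t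
    have z1 : l * t ≤ 1 / 8 * (1 / 2) := by
      have : l * t ≤ l * (1 / 2) := mul_le_mul_of_nonneg_left ht2 hl0.le
      linarith
    have z2 : 0 ≤ (t + 1 / 2) * (1 + t + 1 / 2 - 28 / 100) := by
      apply mul_nonneg <;> linarith
    have z3 : (1 + t) ^ 2 - 28 / 100 * (1 + (1 + l) * t)
      = (t + 1 / 2) * (1 + t + 1 / 2 - 28 / 100) + (1 / 4 - 28 / 100 / 2) - 28 / 100 * (l * t) := by ring
    rw [z3]
    linarith
  have hD : 0 ≤ t ^ 2 * ((2 - 5 / 100 - b - 2 * l + b * l) + (3 - b - l - 5 / 100 - 5 / 100 * l) * t + t ^ 2) := by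
    apply mul_nonneg (by positivity)
    have z1 : 0 ≤ (t + 1 / 2) * ((3 - b - l - 5 / 100 - 5 / 100 * l) + t - 1 / 2) := by
      apply mul_nonneg (by linarith)
      linarith [h1.2]
    have z2 : 0 ≤ b * l := mul_nonneg (by linarith [h1.1]) hl0.le
    have z3 : (2 - 5 / 100 - b - 2 * l + b * l) + (3 - b - l - 5 / 100 - 5 / 100 * l) * t + t ^ 2
      = (t + 1 / 2) * ((3 - b - l - 5 / 100 - 5 / 100 * l) + t - 1 / 2)
        + (2 - 5 / 100 - b - 2 * l + b * l - (3 - b - l - 5 / 100 - 5 / 100 * l) / 2 + 1 / 4) := by ring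
    rw [z3]
    linarith [h1.2]
  have hE : (1 + (1 + l) * t) * (1 + b * t - 5 / 100 * t ^ 2 - 28 / 100 * u)
      - (1 + (b - 1 + l) * t - t ^ 2 - u) * (1 + t) ^ 2
      = u * ((1 + t) ^ 2 - 28 / 100 * (1 + (1 + l) * t)) +
        t ^ 2 * ((2 - 5 / 100 - b - 2 * l + b * l) + (3 - b - l - 5 / 100 - 5 / 100 * l) * t + t ^ 2) := by
    ring
  linarith

/-! TARGETS -/
theorem m_lemma {ι : Type} (s : Finset ι) (w t : ι → ℝ) (x : ℝ) (hx : 2048 ≤ x)
    (h : MomOK s w t x) :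
    ∑ i ∈ s, w i * (mm (x * (1 + t i)) * (1 - GG (1 / x) (th x) (t i - 1 / (2 * x))))
      ≤ mm (2 * x) - 495 / 1000 * kap * (th x / x) := by
  obtain ⟨hw, hsum, ht, hodd, hmom⟩ := h
  obtain ⟨hθ, huθ, hu0, hu⟩ := aux_log x hx
  have hx0 : 0 < x := by linarith
  set u := 1 / x with hudef
  set θ := th x with hθdef
  set S := u * θ with hS
  have hS0 : 0 ≤ S := by positivity
  have h2x : 1 / (2 * x) = u / 2 := by rw [hudef]; field_simp
  set p : ι → ℝ := fun i => 1 - GG u θ (t i - u / 2) with hp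
  have hpe : ∀ i, p i = 1 + (B1 u S * (t i - u / 2) + B3 u S * (t i - u / 2) ^ 3
      + B5 u S * (t i - u / 2) ^ 5 + 181 / 7560 * (t i - u / 2) ^ 7) := by
    intro i; simp only [hp]; rw [GG_eq]; ring
  obtain ⟨h1, h3, h5⟩ := coef u S hu0 hu hS0 huθ
  -- mm at scaled point
  have hmm : ∀ i ∈ s, mm (x * (1 + t i)) = ep0 - kap * u * ((θ + 1 + Real.log (1 + t i)) / (1 + t i)) := by
    intro i hi
    obtain ⟨ha, hb⟩ := abs_le.mp (ht i hi)
    have h1t : 0 < 1 + t i := by linarith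
    unfold mm
    have : th (x * (1 + t i)) = θ + Real.log (1 + t i) := by
      rw [hθdef]; unfold th; rw [Real.log_mul hx0.ne' h1t.ne']; ring
    rw [this, hudef]
    field_simp
    ring
  have hpt : ∀ i ∈ s, w i * (mm (x * (1 + t i)) * (1 - GG u θ (t i - 1 / (2 * x))))
      ≤ w i * (ep0 * (1 + B1 u S * t i + B3 u S * t i ^ 3 + B5 u S * t i ^ 5 + 181 / 7560 * t i ^ 7)
        - kap * u * ((θ + 1) * (1 + (B1 u S - 1 + 1 / (θ + 1)) * t i - t i ^ 2 - u))) := by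
    intro i hi
    apply mul_le_mul_of_nonneg_left _ (hw i hi)
    rw [h2x, hmm i hi]
    have hlow := pt_low u S θ (t i) hu0 hu hS0 huθ hθ (ht i hi) (p i) (hpe i)
    have hpi : 1 - GG u θ (t i - u / 2) = p i := rfl
    rw [hpi]
    have hup : p i ≤ 1 + B1 u S * t i + B3 u S * t i ^ 3 + B5 u S * t i ^ 5 + 181 / 7560 * t i ^ 7 := by
      rw [hpe i]
      have e1 : t i - u / 2 ≤ t i := by linarith
      have o3 : (t i - u / 2) ^ 3 ≤ t i ^ 3 := (Odd.strictMono_pow (by decide)).monotone e1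
      have o5 : (t i - u / 2) ^ 5 ≤ t i ^ 5 := (Odd.strictMono_pow (by decide)).monotone e1
      have o7 : (t i - u / 2) ^ 7 ≤ t i ^ 7 := (Odd.strictMono_pow (by decide)).monotone e1
      have q1 := mul_le_mul_of_nonneg_left e1 (by linarith [h1.1] : 0 ≤ B1 u S)
      have q3 := mul_le_mul_of_nonneg_left o3 (by linarith [h3.1] : 0 ≤ B3 u S)
      have q5 := mul_le_mul_of_nonneg_left o5 (by linarith [h5.1] : 0 ≤ B5 u S)
      linarith
    have hep : (0:ℝ) ≤ ep0 := by unfold ep0; norm_num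
    have hk : (0:ℝ) ≤ kap * u := by unfold kap; positivity
    have r1 := mul_le_mul_of_nonneg_left hup hep
    have r2 := mul_le_mul_of_nonneg_left hlow hk
    have : (ep0 - kap * u * ((θ + 1 + Real.log (1 + t i)) / (1 + t i))) * p i
        = ep0 * p i - kap * u * ((θ + 1 + Real.log (1 + t i)) / (1 + t i) * p i) := by ring
    rw [this]
    linarith
  refine le_trans (Finset.sum_le_sum hpt) ?_
  have m1 := hodd 1 (by decide)
  have m3 := hodd 3 (by decide)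
  have m5 := hodd 5 (by decide)
  have m7 := hodd 7 (by decide)
  simp only [pow_one] at m1
  have m2 := hmom 1 le_rfl (by norm_num)
  simp only [mul_one, pow_one, Mc] at m2
  have hsplit : ∑ i ∈ s, w i * (ep0 * (1 + B1 u S * t i + B3 u S * t i ^ 3 + B5 u S * t i ^ 5 + 181 / 7560 * t i ^ 7)
        - kap * u * ((θ + 1) * (1 + (B1 u S - 1 + 1 / (θ + 1)) * t i - t i ^ 2 - u)))
      = ep0 * (∑ i ∈ s, w i + B1 u S * ∑ i ∈ s, w i * t i + B3 u S * ∑ i ∈ s, w i * t i ^ 3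
          + B5 u S * ∑ i ∈ s, w i * t i ^ 5 + 181 / 7560 * ∑ i ∈ s, w i * t i ^ 7)
        - kap * u * ((θ + 1) * ((1 - u) * ∑ i ∈ s, w i + (B1 u S - 1 + 1 / (θ + 1)) * ∑ i ∈ s, w i * t i
          - ∑ i ∈ s, w i * t i ^ 2)) := by
    simp only [Finset.mul_sum, ← Finset.sum_add_distrib, ← Finset.sum_sub_distrib]
    apply Finset.sum_congr rfl
    intro i _
    ring
  rw [hsplit, hsum, m1, m3, m5, m7]
  have hthx : θ / x = S := by rw [hS, hudef]; ring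
  have hlog2 := Real.log_two_lt_d9
  have hmm2 : mm (2 * x) = ep0 - kap * u * ((θ + 1 + Real.log 2) / 2) := by
    unfold mm
    have : th (2 * x) = θ + Real.log 2 := by
      rw [hθdef]; unfold th; rw [Real.log_mul (by norm_num) hx0.ne']; ring
    rw [this, hudef]
    field_simp
    ring
  rw [hmm2, hthx]
  have hthx' : th x / x = S := hthx
  rw [hthx'] at m2
  have hk : (0:ℝ) < kap * u := by unfold kap; positivity
  have key : (θ + 1 + Real.log 2) / 2 + 495 / 1000 * θ ≤ (θ + 1) * ((1 - u) - ∑ i ∈ s, w i * t i ^ 2) := by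
    have : (1:ℝ) - 24 / 10000 ≤ (1 - u) - ∑ i ∈ s, w i * t i ^ 2 := by linarith
    nlinarith
  have := mul_le_mul_of_nonneg_left key hk.le
  have e2 : 495 / 1000 * kap * S = kap * u * (495 / 1000 * θ) := by rw [hS]; ring
  rw [e2]
  nlinarith [this]

theorem GG_bound (x t : ℝ) (hx : 2048 ≤ x) (ht : |t| ≤ 1 / 2) :
    |GG (1 / x) (th x) (t - 1 / (2 * x))| ≤ 1 := by
  obtain ⟨hθ, huθ, hu0, hu⟩ := aux_log x hx
  have hx0 : 0 < x := by linarith
  have h2x : 1 / (2 * x) = (1 / x) / 2 := by field_simp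
  have hS0 : 0 ≤ (1 / x) * th x := by positivity
  obtain ⟨h1, h3, h5⟩ := coef (1 / x) ((1 / x) * th x) hu0 hu hS0 huθ
  rw [h2x, GG_eq, abs_neg]
  obtain ⟨ht1, ht2⟩ := abs_le.mp ht
  have hτ : |t - (1 / x) / 2| ≤ 501 / 1000 := by
    rw [abs_le]; constructor <;> linarith
  have htail := tail_bd _ _ _ h3 h5 hτ
  have h2 : (t - (1 / x) / 2) ^ 2 ≤ 1 := by
    rw [← sq_abs]; nlinarith [abs_nonneg (t - (1 / x) / 2)]
  have hlin : |B1 (1 / x) ((1 / x) * th x) * (t - (1 / x) / 2)| ≤ 501 / 1000 * (501 / 1000) := by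
    rw [abs_mul, abs_of_nonneg (by linarith [h1.1])]
    exact mul_le_mul h1.2 hτ (abs_nonneg _) (by norm_num)
  have heq : B1 (1 / x) (1 / x * th x) * (t - 1 / x / 2) + B3 (1 / x) (1 / x * th x) * (t - 1 / x / 2) ^ 3 +
      B5 (1 / x) (1 / x * th x) * (t - 1 / x / 2) ^ 5 + 181 / 7560 * (t - 1 / x / 2) ^ 7
      = B1 (1 / x) (1 / x * th x) * (t - 1 / x / 2) + (B3 (1 / x) (1 / x * th x) * (t - 1 / x / 2) ^ 3 +
      B5 (1 / x) (1 / x * th x) * (t - 1 / x / 2) ^ 5 + 181 / 7560 * (t - 1 / x / 2) ^ 7) := by ring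
  rw [heq]
  refine le_trans (abs_add_le _ _) ?_
  linarith

end MMK
end Pool.Agent.Helper155.Gil
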