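import Pool.Agent.Helper155.Gil.Defs

set_option autoImplicit false
open Finset Filter Topology

namespace Pool.Agent.Helper155.Gil
namespace MMinimax
/-! TARGETS -/

theorem isValue_weak {A : ℕ → ℕ → ℝ} {n : ℕ} {v : ℝ} (h : IsValue A n v) :
    (∀ p ∈ Mixed n, ∀ M : ℝ, (∀ h ∈ Icc 1 n, ∑ g ∈ Icc 1 n, p g * A g h ≤ M) → v ≤ M) ∧
    (∀ r ∈ Mixed n, ∀ M : ℝ, (∀ g ∈ Icc 1 n, M ≤ ∑ h ∈ Icc 1 n, r h * A g h) → M ≤ v) := by
  -- weak duality
  have key : ∀ p ∈ Mixed n, ∀ r ∈ Mixed n, ∀ M M' : ℝ,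
      (∀ h ∈ Icc 1 n, ∑ g ∈ Icc 1 n, p g * A g h ≤ M) →
      (∀ g ∈ Icc 1 n, M' ≤ ∑ h ∈ Icc 1 n, r h * A g h) → M' ≤ M := by
    intro p hp r hr M M' h1 h2
    have e1 : ∑ g ∈ Icc 1 n, p g * ∑ h ∈ Icc 1 n, r h * A g h =
        ∑ h ∈ Icc 1 n, r h * ∑ g ∈ Icc 1 n, p g * A g h := by
      simp_rw [Finset.mul_sum]
      rw [Finset.sum_comm]
      refine Finset.sum_congr rfl fun h _ => Finset.sum_congr rfl fun g _ => by ring
    calc M' = ∑ g ∈ Icc 1 n, p g * M' := by rw [← Finset.sum_mul, hp.2, one_mul]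
      _ ≤ ∑ g ∈ Icc 1 n, p g * ∑ h ∈ Icc 1 n, r h * A g h :=
          Finset.sum_le_sum fun g hg => mul_le_mul_of_nonneg_left (h2 g hg) (hp.1 g)
      _ = ∑ h ∈ Icc 1 n, r h * ∑ g ∈ Icc 1 n, p g * A g h := e1
      _ ≤ ∑ h ∈ Icc 1 n, r h * M :=
          Finset.sum_le_sum fun h hh => mul_le_mul_of_nonneg_left (h1 h hh) (hr.1 h)
      _ = M := by rw [← Finset.sum_mul, hr.2, one_mul]
  obtain ⟨⟨p0, hp0, hp1⟩, ⟨r0, hr0, hr1⟩⟩ := h
  exact ⟨fun p hp M hM => key p hp r0 hr0 M v hM hr1, fun r hr M hM => key p0 hp0 r hr v M hp1 hM⟩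

/-- minimax theorem for finite matrices -/
theorem minimax {ι : Type*} [Fintype ι] [DecidableEq ι] [Nonempty ι] (B : ι → ι → ℝ) :
    ∃ v : ℝ, (∃ p : ι → ℝ, (∀ i, 0 ≤ p i) ∧ ∑ i, p i = 1 ∧ ∀ h, ∑ g, p g * B g h ≤ v) ∧
      (∃ r : ι → ℝ, (∀ i, 0 ≤ r i) ∧ ∑ i, r i = 1 ∧ ∀ g, v ≤ ∑ h, r h * B g h) := by
  classical
  set φ : (ι → ℝ) → ℝ := fun p => Finset.univ.sup' Finset.univ_nonempty (fun h => ∑ g, p g * B g h)
    with hφ
  have hφc : Continuous φ := by
    apply Continuous.finset_sup'_apply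
    intro h _
    fun_prop
  have hS : (stdSimplex ℝ ι).Nonempty := ⟨Pi.single (Classical.arbitrary ι) 1, single_mem_stdSimplex ℝ _⟩
  obtain ⟨p, hp, hmin⟩ := (isCompact_stdSimplex ℝ ι).exists_isMinOn hS hφc.continuousOn
  refine ⟨φ p, ⟨p, hp.1, hp.2, fun h => ?_⟩, ?_⟩
  · exact Finset.le_sup' (fun h => ∑ g, p g * B g h) (Finset.mem_univ h)
  set v := φ p with hv
  set U : Set (ι → ℝ) := Set.pi Set.univ (fun _ => Set.Iio v) with hU
  have hUo : IsOpen U := isOpen_set_pi Set.finite_univ (fun _ _ => isOpen_Iio)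
  have hUc : Convex ℝ U := convex_pi (fun _ _ => convex_Iio v)
  set C : Set (ι → ℝ) := {y | ∃ q ∈ stdSimplex ℝ ι, ∀ h, ∑ g, q g * B g h ≤ y h} with hC
  have hCc : Convex ℝ C := by
    rintro y ⟨q, hq, hqy⟩ z ⟨q', hq', hqz⟩ a b ha hb hab
    refine ⟨a • q + b • q', convex_stdSimplex ℝ ι hq hq' ha hb hab, fun h => ?_⟩
    have e1 : ∑ g, (a • q + b • q') g * B g h = a * ∑ g, q g * B g h + b * ∑ g, q' g * B g h := by
      rw [Finset.mul_sum, Finset.mul_sum, ← Finset.sum_add_distrib]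
      refine Finset.sum_congr rfl fun g _ => ?_
      simp only [Pi.add_apply, Pi.smul_apply, smul_eq_mul]
      ring
    rw [e1]
    show _ ≤ (a • y + b • z) h
    simp only [Pi.add_apply, Pi.smul_apply, smul_eq_mul]
    exact add_le_add (mul_le_mul_of_nonneg_left (hqy h) ha) (mul_le_mul_of_nonneg_left (hqz h) hb)
  have hdisj : Disjoint U C := by
    rw [Set.disjoint_left]
    rintro y hyU ⟨q, hq, hqy⟩
    have h1 : v ≤ φ q := hmin hq
    have h2 : φ q < v := by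
      rw [hφ]
      apply (Finset.sup'_lt_iff _).2
      intro h _
      exact lt_of_le_of_lt (hqy h) (hyU h (Set.mem_univ h))
    exact absurd h1 (not_le.2 h2)
  obtain ⟨f, u, hfU, hfC⟩ := geometric_hahn_banach_open hUc hUo hCc hdisj
  set r : ι → ℝ := fun h => f (Pi.single h 1) with hr
  have hf : ∀ y : ι → ℝ, f y = ∑ h, r h * y h := by
    intro y
    have : y = ∑ h, y h • (Pi.single h (1:ℝ) : ι → ℝ) := by
      funext k
      rw [Finset.sum_apply, Finset.sum_eq_single k]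
      · simp
      · intro b _ hb
        simp [Pi.single_apply, Ne.symm hb]
      · intro h; exact absurd (Finset.mem_univ k) h
    conv_lhs => rw [this]
    rw [map_sum]
    refine Finset.sum_congr rfl fun h _ => ?_
    rw [map_smul, smul_eq_mul, mul_comm]
  -- rows belong to `C`
  have hrow : ∀ g, B g ∈ C := by
    intro g
    refine ⟨Pi.single g 1, single_mem_stdSimplex ℝ g, fun h => ?_⟩
    rw [Finset.sum_eq_single g]
    · simp
    · intro b _ hb
      simp [Pi.single_apply, hb]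
    · intro h; exact absurd (Finset.mem_univ g) h
  have hr0 : ∀ h, 0 ≤ r h := by
    intro h
    by_contra hneg
    push Not at hneg
    obtain ⟨g⟩ := ‹Nonempty ι›
    have h1 : ∀ t : ℝ, 0 ≤ t → u ≤ f (B g) + t * r h := by
      intro t ht
      have h2 : B g + t • (Pi.single h (1:ℝ) : ι → ℝ) ∈ C := by
        obtain ⟨q, hq, hqy⟩ := hrow g
        refine ⟨q, hq, fun k => (hqy k).trans ?_⟩
        simp only [Pi.add_apply, Pi.smul_apply, smul_eq_mul]
        have : 0 ≤ (Pi.single h (1:ℝ) : ι → ℝ) k := by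
          by_cases hk : k = h
          · subst hk; simp
          · simp [Pi.single_apply, hk]
        nlinarith
      have h3 := hfC _ h2
      rw [map_add, map_smul, smul_eq_mul] at h3
      exact h3
    have h2 := h1 0 le_rfl
    rw [zero_mul, add_zero] at h2
    have h3 := h1 ((f (B g) - u + 1) / (-r h)) (div_nonneg (by linarith) (by linarith))
    have h4 : (f (B g) - u + 1) / (-r h) * r h = -(f (B g) - u + 1) := by
      rw [div_neg, neg_mul, div_mul_cancel₀ _ hneg.ne]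
    rw [h4] at h3
    linarith
  have hUlim : v * ∑ h, r h ≤ u := by
    by_contra hneg
    push Not at hneg
    have hcont : Continuous fun t : ℝ => t * ∑ h, r h := by fun_prop
    have hlt : ∀ t < v, t * ∑ h, r h < u := by
      intro t ht
      have h1 : (fun _ => t : ι → ℝ) ∈ U := fun _ _ => ht
      have h2 := hfU _ h1
      rw [hf, ← Finset.sum_mul] at h2
      linarith [mul_comm t (∑ h, r h)]
    have h1 : v * ∑ h, r h ≤ u := by
      refine le_of_tendsto' (f := fun n : ℕ => (v - 1 / ((n:ℝ) + 1)) * ∑ h, r h) (x := atTop) ?_ ?_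
      · have h2 : Tendsto (fun n : ℕ => v - 1 / ((n:ℝ) + 1)) atTop (𝓝 (v - 0)) :=
          tendsto_const_nhds.sub tendsto_one_div_add_atTop_nhds_zero_nat
        rw [sub_zero] at h2
        exact h2.mul_const _
      · intro n
        apply (hlt _ _).le
        have : (0:ℝ) < 1 / ((n:ℝ) + 1) := by positivity
        linarith
    linarith
  have hSpos : 0 < ∑ h, r h := by
    have h0 : 0 ≤ ∑ h, r h := Finset.sum_nonneg fun h _ => hr0 h
    rcases h0.lt_or_eq with h | h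
    · exact h
    exfalso
    have hz : ∀ h, r h = 0 := by
      intro k
      exact (Finset.sum_eq_zero_iff_of_nonneg (fun h _ => hr0 h)).1 h.symm k (Finset.mem_univ k)
    have hf0 : ∀ y, f y = 0 := by
      intro y
      rw [hf]
      exact Finset.sum_eq_zero fun h _ => by rw [hz, zero_mul]
    obtain ⟨g⟩ := ‹Nonempty ι›
    have h1 := hfC _ (hrow g)
    have h2 := hfU (fun _ => v - 1) (fun _ _ => by simp)
    rw [hf0] at h1 h2
    linarith
  refine ⟨fun h => r h / ∑ h, r h, fun h => div_nonneg (hr0 h) hSpos.le, ?_, fun g => ?_⟩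
  · rw [← Finset.sum_div, div_self hSpos.ne']
  · have h1 := hfC _ (hrow g)
    rw [hf] at h1
    have h2 : ∑ h, r h / (∑ h, r h) * B g h = (∑ h, r h * B g h) / ∑ h, r h := by
      rw [Finset.sum_div]
      refine Finset.sum_congr rfl fun h _ => ?_
      rw [div_mul_eq_mul_div]
    rw [h2, le_div_iff₀ hSpos]
    linarith

theorem exists_value (A : ℕ → ℕ → ℝ) (n : ℕ) (hn : 1 ≤ n) : ∃ v, IsValue A n v := by
  classical
  have : Nonempty (Icc 1 n : Finset ℕ) := ⟨⟨1, Finset.mem_Icc.2 ⟨le_rfl, hn⟩⟩⟩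
  obtain ⟨v, ⟨p, hp0, hp1, hp2⟩, ⟨r, hr0, hr1, hr2⟩⟩ :=
    minimax (fun g h : (Icc 1 n : Finset ℕ) => A g h)
  have ext : ∀ q : (Icc 1 n : Finset ℕ) → ℝ, ∀ B : ℕ → ℝ,
      ∑ i ∈ Icc 1 n, (if h : i ∈ Icc 1 n then q ⟨i, h⟩ else 0) * B i = ∑ i, q i * B i := by
    intro q B
    rw [← Finset.sum_coe_sort]
    refine Finset.sum_congr rfl fun i _ => ?_
    rw [dif_pos i.2]
  have mixed : ∀ q : (Icc 1 n : Finset ℕ) → ℝ, (∀ i, 0 ≤ q i) → ∑ i, q i = 1 →
      (fun i : ℕ => if h : i ∈ Icc 1 n then q ⟨i, h⟩ else 0) ∈ Mixed n := by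
    intro q h0 h1
    refine ⟨fun i => ?_, ?_⟩
    · show 0 ≤ (if h : i ∈ Icc 1 n then q ⟨i, h⟩ else 0)
      by_cases h : i ∈ Icc 1 n
      · rw [dif_pos h]; exact h0 _
      · rw [dif_neg h]
    · have := ext q (fun _ => 1)
      simp only [mul_one] at this
      rw [this, h1]
  refine ⟨v, ⟨_, mixed p hp0 hp1, fun h hh => ?_⟩, ⟨_, mixed r hr0 hr1, fun g hg => ?_⟩⟩
  · rw [ext p (fun g => A g h)]
    exact hp2 ⟨h, hh⟩
  · rw [ext r (fun h => A g h)]
    exact hr2 ⟨g, hg⟩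

end MMinimax
end Pool.Agent.Helper155.Gil
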