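import Pool.Agent.Helper155.Gil.Defs
import Pool.Agent.Helper155.Gil.Kern

set_option autoImplicit false
open Finset Filter Topology

namespace Pool.Agent.Helper155.Gil
namespace MRed
open MKern
/-! TARGET -/
theorem red_lemma (V : ℕ → ℝ) (N k0 : ℕ) (h2 : 2 * k0 ≤ N)
    (hV : ∀ p ∈ Mixed (N + 1), ∀ M : ℝ,
      (∀ h ∈ Icc 1 (N + 1), ∑ g ∈ Icc 1 (N + 1), p g * pay V (N + 1) g h ≤ M) → V (N + 1) ≤ M)
    (W : ℕ → ℝ) (δ : ℝ) (hδ : 0 ≤ δ)
    (hW : ∀ k ∈ Ioc k0 (N - k0), 0 < W k) (hW0 : 0 ≤ W k0)
    (hVW : ∀ k ∈ Icc k0 (N - k0), V k ≤ W k + δ) :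
    V (N + 1) ≤ 1 + δ + (∑ k ∈ Icc k0 (N - k0), kw W N k0 k * W k) / Sw W N k0 := by
  have hpos : ∀ k ∈ Icc k0 (N - k0), 0 < kw W N k0 k := fun k hk => kw_pos W N k0 k hW hk
  have hSpos : 0 < Sw W N k0 := by
    unfold Sw
    refine sum_pos hpos ⟨k0, ?_⟩
    rw [mem_Icc]; omega
  obtain ⟨S, hS⟩ : ∃ S, S = Sw W N k0 := ⟨_, rfl⟩
  have hSe : S = ∑ k ∈ Icc k0 (N - k0), kw W N k0 k := hS
  rw [← hS] at hSpos ⊢
  obtain ⟨p, hp⟩ : ∃ p : ℕ → ℝ, p = fun g => if k0 + 1 ≤ g ∧ g ≤ N - k0 + 1 then
    kw W N k0 (g - 1) / S else 0 := ⟨_, rfl⟩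
  have hre : ∀ X : ℕ → ℝ, ∑ g ∈ Icc 1 (N + 1), p g * X g =
      ∑ k ∈ Icc k0 (N - k0), kw W N k0 k / S * X (k + 1) := by
    intro X
    have h3 : ∑ g ∈ Icc (k0 + 1) (N - k0 + 1), p g * X g = ∑ g ∈ Icc 1 (N + 1), p g * X g := by
      apply sum_subset
      · intro g hg
        rw [mem_Icc] at hg ⊢
        omega
      · intro g _ hg
        rw [mem_Icc] at hg
        rw [hp]
        simp only
        rw [if_neg hg, zero_mul]
    rw [← h3]
    apply sum_nbij' (fun g => g - 1) (fun k => k + 1)
    · intro g hg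
      rw [mem_Icc] at hg ⊢
      omega
    · intro k hk
      rw [mem_Icc] at hk ⊢
      omega
    · intro g hg
      rw [mem_Icc] at hg
      omega
    · intro k _
      omega
    · intro g hg
      rw [mem_Icc] at hg
      rw [hp]
      simp only
      rw [if_pos hg]
      have : g - 1 + 1 = g := by omega
      rw [this]
  have hmix : p ∈ Mixed (N + 1) := by
    refine ⟨?_, ?_⟩
    · intro i
      rw [hp]
      simp only
      split_ifs with h
      · have := hpos (i - 1) (by rw [mem_Icc]; omega)
        positivity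
      · exact le_rfl
    · have := hre (fun _ => 1)
      simp only [mul_one] at this
      rw [this, ← sum_div, ← hSe, div_self hSpos.ne']
  obtain ⟨a, ha⟩ : ∃ a : ℕ → ℝ, a = fun k => kw W N k0 k * W k := ⟨_, rfl⟩
  have ha0 : ∀ k ∈ Icc k0 (N - k0), 0 ≤ a k := by
    intro k hk
    rw [ha]
    have h1 := hpos k hk
    rw [mem_Icc] at hk
    rcases hk.1.eq_or_lt with h | h
    · rw [← h] at h1 ⊢
      exact mul_nonneg h1.le hW0
    · exact mul_nonneg h1.le (hW k (by rw [mem_Ioc]; exact ⟨h, hk.2⟩)).le
  have hWn : ∀ k ∈ Icc k0 (N - k0), 0 ≤ W k := by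
    intro k hk
    rw [mem_Icc] at hk
    rcases hk.1.eq_or_lt with h | h
    · rw [← h]; exact hW0
    · exact (hW k (by rw [mem_Ioc]; exact ⟨h, hk.2⟩)).le
  have hF : ∀ h : ℕ, ∑ k ∈ Icc k0 (N - k0), kw W N k0 k *
      ((if h ≤ k then W k else 0) + (if k + 1 < h then W (N - k) else 0)) ≤
      ∑ k ∈ Icc k0 (N - k0), a k := by
    intro h
    simp only [mul_add, sum_add_distrib, mul_ite, mul_zero]
    rcases Nat.lt_or_ge (N - k0 + 1) h with hh | hh
    · -- large h
      have e1 : ∑ k ∈ Icc k0 (N - k0), (if h ≤ k then kw W N k0 k * W k else 0) = 0 := by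
        refine sum_eq_zero fun k hk => ?_
        rw [mem_Icc] at hk
        rw [if_neg (by omega)]
      rw [e1, zero_add]
      apply le_of_eq
      apply sum_nbij' (fun k => N - k) (fun k => N - k)
      · intro k hk; rw [mem_Icc] at hk ⊢; omega
      · intro k hk; rw [mem_Icc] at hk ⊢; omega
      · intro k hk; rw [mem_Icc] at hk; omega
      · intro k hk; rw [mem_Icc] at hk; omega
      · intro k hk
        rw [mem_Icc] at hk
        rw [if_pos (by omega), ha]
        simp only
        rw [kw_symm W N k0 k (by omega)]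
    · have e2 : ∑ k ∈ Icc k0 (N - k0), (if k + 1 < h then kw W N k0 k * W (N - k) else 0) ≤
          ∑ k ∈ Icc k0 (N - k0), (if k < h then a k else 0) := by
        have e3 : ∑ k ∈ Icc k0 (N - k0), (if k + 1 < h then kw W N k0 k * W (N - k) else 0) =
            ∑ k ∈ Ico k0 (N - k0), (if k + 1 < h then kw W N k0 k * W (N - k) else 0) := by
          symm
          apply sum_subset
          · intro k hk; rw [mem_Ico] at hk; rw [mem_Icc]; omega
          · intro k hk hk'
            rw [mem_Icc] at hk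
            rw [mem_Ico] at hk'
            rw [if_neg (by omega)]
        have e4 : ∑ k ∈ Ico k0 (N - k0), (if k + 1 < h then kw W N k0 k * W (N - k) else 0) =
            ∑ k ∈ Ioc k0 (N - k0), (if k < h then a k else 0) := by
          apply sum_nbij' (fun k => k + 1) (fun k => k - 1)
          · intro k hk; rw [mem_Ico] at hk; rw [mem_Ioc]; omega
          · intro k hk; rw [mem_Ioc] at hk; rw [mem_Ico]; omega
          · intro k hk; omega
          · intro k hk; rw [mem_Ioc] at hk; omega
          · intro k hk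
            rw [mem_Ico] at hk
            have hb := kw_balance W N k0 (k + 1) hW (by rw [mem_Ioc]; omega)
            rw [Nat.add_sub_cancel, show N + 1 - (k + 1) = N - k by omega] at hb
            rw [ha]
            simp only
            rw [hb]
        rw [e3, e4]
        apply sum_le_sum_of_subset_of_nonneg
        · intro k hk; rw [mem_Ioc] at hk; rw [mem_Icc]; omega
        · intro k hk _
          split_ifs
          · exact ha0 k hk
          · exact le_rfl
      have e5 : ∑ k ∈ Icc k0 (N - k0), (if h ≤ k then kw W N k0 k * W k else 0) +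
          ∑ k ∈ Icc k0 (N - k0), (if k < h then a k else 0) = ∑ k ∈ Icc k0 (N - k0), a k := by
        rw [← sum_add_distrib]
        refine sum_congr rfl fun k _ => ?_
        rw [ha]
        by_cases hk : h ≤ k
        · simp [hk, not_lt.2 hk]
        · simp [hk, not_le.1 hk]
      linarith
  apply hV p hmix
  intro h hh
  rw [hre]
  have hterm : ∀ k ∈ Icc k0 (N - k0), kw W N k0 k / S * pay V (N + 1) (k + 1) h ≤
      kw W N k0 k / S * (1 + δ) + (1 / S) * (kw W N k0 k *
      ((if h ≤ k then W k else 0) + (if k + 1 < h then W (N - k) else 0))) := by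
    intro k hk
    have h1 := hpos k hk
    have hk' := mem_Icc.1 hk
    have h3 : pay V (N + 1) (k + 1) h ≤ (1 + δ) +
        ((if h ≤ k then W k else 0) + (if k + 1 < h then W (N - k) else 0)) := by
      unfold pay
      rcases lt_trichotomy h (k + 1) with h4 | h4 | h4
      · rw [if_neg (by omega), if_pos h4, if_pos (by omega), if_neg (by omega), Nat.add_sub_cancel]
        have := hVW k hk
        linarith
      · rw [if_pos h4, if_neg (by omega), if_neg (by omega)]
        linarith
      · rw [if_neg (by omega), if_neg (by omega), if_neg (by omega), if_pos h4,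
          show N + 1 - (k + 1) = N - k by omega]
        have := hVW (N - k) (by rw [mem_Icc]; omega)
        linarith
    calc kw W N k0 k / S * pay V (N + 1) (k + 1) h ≤ kw W N k0 k / S * ((1 + δ) +
        ((if h ≤ k then W k else 0) + (if k + 1 < h then W (N - k) else 0))) :=
          mul_le_mul_of_nonneg_left h3 (by positivity)
      _ = _ := by ring
  refine (sum_le_sum hterm).trans ?_
  rw [sum_add_distrib, ← mul_sum, ← sum_mul, ← sum_div, ← hSe, div_self hSpos.ne', one_mul]
  have h4 := hF h
  have h5 : (1 / S) * ∑ k ∈ Icc k0 (N - k0), kw W N k0 k *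
      ((if h ≤ k then W k else 0) + (if k + 1 < h then W (N - k) else 0)) ≤
      (∑ k ∈ Icc k0 (N - k0), kw W N k0 k * W k) / S := by
    rw [ha] at h4
    rw [one_div, inv_mul_eq_div]
    exact div_le_div_of_nonneg_right h4 hSpos.le
  linarith

end MRed
end Pool.Agent.Helper155.Gil
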