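import Pool.Agent.Helper155.Gil.Defs
import Pool.Agent.Helper155.Gil.Kern
import Pool.Agent.Helper155.Gil.Red
import Pool.Agent.Helper155.Gil.Blue
import Pool.Agent.Helper155.Gil.Conv

set_option autoImplicit false
open Finset Filter Topology

namespace Pool.Agent.Helper155.Gil
namespace MTabErr
open MKern
open MRed
open MBlue
/-! GIVEN (proved elsewhere; leave these sorries, use freely) -/












/-! TARGET -/


theorem te_ew_succ (W : ℕ → ℝ) (m : ℕ) : ew W 0 (m + 1) = ew W 0 m * (W (m + 1))⁻¹ := by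
  unfold ew
  rw [Finset.prod_Ioc_succ_top (Nat.zero_le m)]

theorem te_ew_zero (W : ℕ → ℝ) : ew W 0 0 = 1 := by
  unfold ew
  simp

theorem te_div (a b : ℕ) (hb : 0 < b) : (a : ℝ) / b - 1 ≤ ((a / b : ℕ) : ℝ) := by
  have h1 : a < b * (a / b + 1) := Nat.lt_mul_div_succ a hb
  have h2 : (a : ℝ) < b * (((a / b : ℕ) : ℝ) + 1) := by exact_mod_cast h1
  have hb' : (0 : ℝ) < b := by exact_mod_cast hb
  rw [sub_le_iff_le_add, div_le_iff₀ hb']
  linarith

/-- convolution of the exponential weights -/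
noncomputable def teSt (W : ℕ → ℝ) (n : ℕ) : ℝ := ∑ k ∈ range (n + 1), ew W 0 k * ew W 0 (n - k)

theorem te_Sw (W : ℕ → ℝ) (N : ℕ) : Sw W N 0 = teSt W N := by
  unfold Sw teSt kw
  rw [Nat.sub_zero, Nat.range_succ_eq_Icc_zero]

theorem te_sum (W : ℕ → ℝ) (m : ℕ) (h0 : W 0 = 0) (hW : ∀ k, 1 ≤ k → k ≤ m + 1 → W k ≠ 0) :
    ∑ k ∈ Icc 0 (m + 1), kw W (m + 1) 0 k * W k = teSt W m := by
  rw [← Nat.range_succ_eq_Icc_zero, Finset.sum_range_succ', h0, mul_zero, add_zero]
  unfold teSt kw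
  refine Finset.sum_congr rfl fun k hk => ?_
  rw [Finset.mem_range] at hk
  rw [te_ew_succ, show m + 1 - (k + 1) = m - k by omega]
  have := hW (k + 1) (by omega) (by omega)
  field_simp

theorem te_sum' (W : ℕ → ℝ) (m : ℕ) (h0 : W 0 = 0) (hW : ∀ k, 1 ≤ k → k ≤ m + 1 → W k ≠ 0) :
    ∑ k ∈ Ioc 0 (m + 1), kw W (m + 1) 0 k * W k = teSt W m := by
  rw [← te_sum W m h0 hW]
  apply Finset.sum_subset Finset.Ioc_subset_Icc_self
  intro x hx hx'
  simp only [Finset.mem_Icc, Finset.mem_Ioc] at hx hx'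
  have : x = 0 := by omega
  subst this
  rw [h0, mul_zero]

theorem te_pos (W : ℕ → ℝ) (n : ℕ) (hW : ∀ k, 1 ≤ k → k ≤ n → 0 < W k) : ∀ m, m ≤ n → 0 < ew W 0 m := by
  intro m
  induction m with
  | zero => intro _; rw [te_ew_zero]; norm_num
  | succ m ih =>
    intro hm
    rw [te_ew_succ]
    exact mul_pos (ih (by omega)) (inv_pos.mpr (hW _ (by omega) hm))

theorem teSt_pos (W : ℕ → ℝ) (n : ℕ) (hW : ∀ k, 1 ≤ k → k ≤ n → 0 < W k) : 0 < teSt W n := by
  unfold teSt
  apply Finset.sum_pos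
  · intro k hk
    rw [Finset.mem_range] at hk
    exact mul_pos (te_pos W n hW k (by omega)) (te_pos W n hW (n - k) (by omega))
  · exact ⟨0, by simp⟩

theorem te_ratio (W : ℕ → ℝ) (m : ℕ) (h0 : W 0 = 0) (hW : ∀ k, 1 ≤ k → k ≤ m + 1 → 0 < W k)
    (B : ℝ) (hB : ∀ k, k ≤ m + 1 → W k ≤ B) : teSt W m ≤ B * teSt W (m + 1) := by
  rw [← te_sum W m h0 (fun k h1 h2 => (hW k h1 h2).ne'), ← te_Sw, Sw, Nat.sub_zero, Finset.mul_sum]
  apply Finset.sum_le_sum
  intro k hk
  rw [Finset.mem_Icc] at hk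
  have hkw : 0 ≤ kw W (m + 1) 0 k := by
    unfold kw
    exact mul_nonneg (te_pos W _ hW k hk.2).le (te_pos W _ hW _ (by omega)).le
  rw [mul_comm]
  exact mul_le_mul_of_nonneg_right (hB k hk.2) hkw

theorem table_error (V : ℕ → ℝ) (h0 : V 0 = 0)
    (hU : ∀ n, 1 ≤ n → ∀ p ∈ Mixed n, ∀ M : ℝ,
      (∀ h ∈ Icc 1 n, ∑ g ∈ Icc 1 n, p g * pay V n g h ≤ M) → V n ≤ M)
    (hL : ∀ n, 1 ≤ n → ∀ r ∈ Mixed n, ∀ M : ℝ,
      (∀ g ∈ Icc 1 n, M ≤ ∑ h ∈ Icc 1 n, r h * pay V n g h) → M ≤ V n)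
    (E Vt : ℕ → ℕ) (hE0 : E 0 = 2 ^ 96) (hV0 : Vt 0 = 0) (hV1 : Vt 1 = 3 ^ 40)
    (hrec : ∀ n, 1 ≤ n → Vt (n + 1) = 3 ^ 40 + (3 ^ 40 * 10 * cv E (n - 1)) / cv E n)
    (hE : ∀ n, E (n + 1) = E n * (10 * 3 ^ 40) / Vt (n + 1))
    (hchk : ∀ n, 2 ≤ n → n ≤ 4095 →
      Vt (n - 1) ≤ Vt n ∧ Vt n + Vt (n - 2) ≤ 2 * Vt (n - 1) ∧ 2 ^ 96 ≤ E n) :
    ∀ n : ℕ, n ≤ 4095 → |V n - (Vt n : ℝ) / 3 ^ 40| ≤ (n : ℝ) / 10 ^ 18 := by
  -- monotonicity and size of the table
  have hVmono : ∀ k, k + 1 ≤ 4095 → Vt k ≤ Vt (k + 1) := by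
    intro k hk
    rcases Nat.eq_zero_or_pos k with rfl | hk0
    · rw [hV0]; exact Nat.zero_le _
    · exact (hchk (k + 1) (by omega) hk).1
  have hVge : ∀ k, 1 ≤ k → k ≤ 4095 → 3 ^ 40 ≤ Vt k := by
    intro k hk1
    induction k, hk1 using Nat.le_induction with
    | base => intro _; rw [hV1]
    | succ k hk ih => intro h; exact (ih (by omega)).trans (hVmono k h)
  have hVinc : ∀ k, k + 1 ≤ 4095 → Vt (k + 1) ≤ Vt k + 3 ^ 40 := by
    intro k
    induction k with
    | zero => intro _; rw [hV0, hV1]; omega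
    | succ k ih =>
      intro h
      have h1 := (hchk (k + 2) (by omega) h).2.1
      rw [show k + 2 - 2 = k by omega, show k + 2 - 1 = k + 1 by omega] at h1
      have h2 := ih (by omega)
      change Vt (k + 2) ≤ _
      omega
  have hVle : ∀ k, k ≤ 4095 → Vt k ≤ k * 3 ^ 40 := by
    intro k
    induction k with
    | zero => intro _; rw [hV0]; exact Nat.zero_le _
    | succ k ih =>
      intro h
      have h1 := ih (by omega)
      have h2 := hVinc k h
      rw [Nat.add_mul, Nat.one_mul]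
      omega
  obtain ⟨M, hM⟩ : ∃ M : ℝ, M = 3 ^ 40 := ⟨_, rfl⟩
  have hMpos : 0 < M := by rw [hM]; positivity
  rw [← hM]
  set W : ℕ → ℝ := fun k => (Vt k : ℝ) / M with hWdef
  have hW0 : W 0 = 0 := by simp [hWdef, hV0]
  have hW1 : ∀ k, 1 ≤ k → k ≤ 4095 → 1 ≤ W k := by
    intro k h1 h2
    have : (3 ^ 40 : ℝ) ≤ Vt k := by exact_mod_cast hVge k h1 h2
    simp only [hWdef]
    rw [le_div_iff₀ hMpos, one_mul, hM]
    exact this
  have hWpos : ∀ k, 1 ≤ k → k ≤ 4095 → 0 < W k := fun k h1 h2 => by linarith [hW1 k h1 h2]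
  have hWle : ∀ k, k ≤ 4095 → W k ≤ k := by
    intro k h2
    have : (Vt k : ℝ) ≤ k * 3 ^ 40 := by exact_mod_cast hVle k h2
    simp only [hWdef]
    rw [div_le_iff₀ hMpos, hM]
    exact this
  have hWmono : ∀ k, k + 1 ≤ 4095 → W k ≤ W (k + 1) := by
    intro k hk
    have : (Vt k : ℝ) ≤ Vt (k + 1) := by exact_mod_cast hVmono k hk
    simp only [hWdef]
    gcongr
  have hWconc : ∀ k, 1 ≤ k → k + 1 ≤ 4095 → W (k + 1) + W (k - 1) ≤ 2 * W k := by
    intro k hk hk2
    have h1 := (hchk (k + 1) (by omega) hk2).2.1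
    rw [show k + 1 - 2 = k - 1 by omega, show k + 1 - 1 = k by omega] at h1
    have h2 : (Vt (k + 1) : ℝ) + Vt (k - 1) ≤ 2 * Vt k := by exact_mod_cast h1
    simp only [hWdef]
    rw [← add_div, ← mul_div_assoc]
    gcongr
  -- integer weights against real weights
  obtain ⟨ε, hε⟩ : ∃ ε : ℝ, ε = 1 / 2 ^ 96 := ⟨_, rfl⟩
  have hεpos : 0 < ε := by rw [hε]; positivity
  set c : ℕ → ℝ := fun m => 2 ^ 96 * 10 ^ m * ew W 0 m with hc
  have hcpos : ∀ m, m ≤ 4095 → 0 < c m := by
    intro m hm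
    have := te_pos W 4095 hWpos m hm
    simp only [hc]
    positivity
  have hEbound : ∀ m, m ≤ 4095 → (1 - m * ε) * c m ≤ E m ∧ (E m : ℝ) ≤ c m := by
    intro m
    induction m with
    | zero =>
      intro _
      simp only [hc, te_ew_zero, hE0]
      norm_num
    | succ m ih =>
      intro hm
      obtain ⟨hlo, hhi⟩ := ih (by omega)
      have hv : 0 < Vt (m + 1) := lt_of_lt_of_le (by norm_num) (hVge (m + 1) (by omega) hm)
      have hv' : (0 : ℝ) < Vt (m + 1) := by exact_mod_cast hv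
      have hcs : c (m + 1) = c m * (10 * M) / Vt (m + 1) := by
        simp only [hc, te_ew_succ, hWdef]
        rw [pow_succ]
        field_simp
        ring
      have hup : (E (m + 1) : ℝ) ≤ E m * (10 * M) / Vt (m + 1) := by
        rw [hE m]
        refine (Nat.cast_div_le).trans (le_of_eq ?_)
        have e : ((E m * (10 * 3 ^ 40) : ℕ) : ℝ) = E m * (10 * M) := by
          rw [hM, Nat.cast_mul]; norm_num
        rw [e]
      have hdn : (E m : ℝ) * (10 * M) / Vt (m + 1) - 1 ≤ E (m + 1) := by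
        rw [hE m]
        have h5 := te_div (E m * (10 * 3 ^ 40)) (Vt (m + 1)) hv
        have e : ((E m * (10 * 3 ^ 40) : ℕ) : ℝ) = E m * (10 * M) := by
          rw [hM, Nat.cast_mul]; norm_num
        rw [e] at h5
        exact h5
      have hupper : (E (m + 1) : ℝ) ≤ c (m + 1) := by
        rw [hcs]
        refine hup.trans ?_
        gcongr
      have hbig : (2 : ℝ) ^ 96 ≤ E (m + 1) := by
        rcases Nat.eq_zero_or_pos m with rfl | hm0
        · have : E 1 = 2 ^ 96 * 10 := by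
            rw [hE 0, hE0, hV1, ← mul_assoc]
            exact Nat.mul_div_cancel _ (by norm_num)
          rw [zero_add, this]
          norm_num
        · exact_mod_cast (hchk (m + 1) (by omega) hm).2.2
      refine ⟨?_, hupper⟩
      have h1 : 1 ≤ ε * c (m + 1) := by
        rw [hε]
        rw [one_div, ← div_eq_inv_mul, le_div_iff₀ (by positivity), one_mul]
        exact hbig.trans hupper
      have h2 : (1 - m * ε) * c (m + 1) ≤ (E m : ℝ) * (10 * M) / Vt (m + 1) := by
        rw [hcs, mul_div_assoc', ← mul_assoc]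
        gcongr
      have h6 : (1 - ((m + 1 : ℕ) : ℝ) * ε) * c (m + 1) = (1 - m * ε) * c (m + 1) - ε * c (m + 1) := by
        push_cast; ring
      rw [h6]
      linarith
  -- convolutions
  set C : ℕ → ℝ := fun n => 2 ^ 192 * 10 ^ n * teSt W n with hC
  have hCsum : ∀ n, C n = ∑ k ∈ range (n + 1), c k * c (n - k) := by
    intro n
    simp only [hC, teSt, hc, Finset.mul_sum]
    refine Finset.sum_congr rfl fun k hk => ?_
    rw [Finset.mem_range] at hk
    have h10 : (10 : ℝ) ^ n = 10 ^ k * 10 ^ (n - k) := by rw [← pow_add]; congr 1; omega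
    rw [h10]
    ring
  have hcv : ∀ n, n ≤ 4095 → (1 - n * ε) * C n ≤ cv E n ∧ (cv E n : ℝ) ≤ C n := by
    intro n hn
    rw [hCsum, Finset.mul_sum]
    unfold cv
    push_cast
    constructor
    · apply Finset.sum_le_sum
      intro k hk
      rw [Finset.mem_range] at hk
      obtain ⟨a1, a2⟩ := hEbound k (by omega)
      obtain ⟨b1, b2⟩ := hEbound (n - k) (by omega)
      have hck := hcpos k (by omega)
      have hcnk := hcpos (n - k) (by omega)
      have hk1 : (k : ℝ) * ε ≤ 1 / 2 := by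
        have : (k : ℝ) ≤ 4095 := by exact_mod_cast (show k ≤ 4095 by omega)
        calc (k : ℝ) * ε ≤ 4095 * ε := by gcongr
          _ ≤ 1 / 2 := by rw [hε]; norm_num
      have hk2 : ((n - k : ℕ) : ℝ) * ε ≤ 1 / 2 := by
        have : ((n - k : ℕ) : ℝ) ≤ 4095 := by exact_mod_cast (show n - k ≤ 4095 by omega)
        calc ((n - k : ℕ) : ℝ) * ε ≤ 4095 * ε := by gcongr
          _ ≤ 1 / 2 := by rw [hε]; norm_num
      have hnk : (n : ℝ) = k + ((n - k : ℕ) : ℝ) := by
        rw [← Nat.cast_add]; congr 1; omega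
      calc (1 - n * ε) * (c k * c (n - k))
          ≤ ((1 - k * ε) * (1 - ((n - k : ℕ) : ℝ) * ε)) * (c k * c (n - k)) := by
            apply mul_le_mul_of_nonneg_right _ (by positivity)
            rw [hnk]
            have : 0 ≤ (k : ℝ) * ε * (((n - k : ℕ) : ℝ) * ε) := by positivity
            nlinarith
        _ = ((1 - k * ε) * c k) * ((1 - ((n - k : ℕ) : ℝ) * ε) * c (n - k)) := by ring
        _ ≤ E k * E (n - k) := by
            apply mul_le_mul a1 b1
            · have : 0 ≤ 1 - ((n - k : ℕ) : ℝ) * ε := by linarith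
              positivity
            · positivity
    · apply Finset.sum_le_sum
      intro k hk
      rw [Finset.mem_range] at hk
      obtain ⟨a1, a2⟩ := hEbound k (by omega)
      obtain ⟨b1, b2⟩ := hEbound (n - k) (by omega)
      have hck := hcpos k (by omega)
      apply mul_le_mul a2 b2 (by positivity) hck.le
  -- the recursion for the table
  have hstep : ∀ m, m + 2 ≤ 4095 →
      |W (m + 2) - (1 + teSt W m / teSt W (m + 1))| ≤ 1 / 10 ^ 18 := by
    intro m hm
    obtain ⟨a1, a2⟩ := hcv m (by omega)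
    obtain ⟨b1, b2⟩ := hcv (m + 1) (by omega)
    have hS1 : 0 < teSt W (m + 1) := teSt_pos W _ fun k h1 h2 => hWpos k h1 (by omega)
    have hS0 : 0 < teSt W m := teSt_pos W _ fun k h1 h2 => hWpos k h1 (by omega)
    have hC0 : 0 < C m := by simp only [hC]; positivity
    have hC1 : 0 < C (m + 1) := by simp only [hC]; positivity
    have hRle : teSt W m / teSt W (m + 1) ≤ 4095 := by
      rw [div_le_iff₀ hS1]
      apply te_ratio W m hW0 (fun k h1 h2 => hWpos k h1 (by omega))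
      intro k hk
      refine (hWle k (by omega)).trans ?_
      exact_mod_cast (show k ≤ 4095 by omega)
    set R : ℝ := teSt W m / teSt W (m + 1) with hR
    have hRpos : 0 < R := by positivity
    have hCC : 10 * C m / C (m + 1) = R := by
      simp only [hC, hR]
      field_simp
      ring
    have hmε : (m : ℝ) * ε ≤ 1 / 10 ^ 25 := by
      have : (m : ℝ) ≤ 4095 := by exact_mod_cast (show m ≤ 4095 by omega)
      calc (m : ℝ) * ε ≤ 4095 * ε := by gcongr
        _ ≤ 1 / 10 ^ 25 := by rw [hε]; norm_num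
    have hmε1 : ((m + 1 : ℕ) : ℝ) * ε ≤ 1 / 10 ^ 25 := by
      have : ((m + 1 : ℕ) : ℝ) ≤ 4095 := by exact_mod_cast (show m + 1 ≤ 4095 by omega)
      calc ((m + 1 : ℕ) : ℝ) * ε ≤ 4095 * ε := by gcongr
        _ ≤ 1 / 10 ^ 25 := by rw [hε]; norm_num
    have hcvpos : (0 : ℝ) < cv E (m + 1) := by
      refine lt_of_lt_of_le ?_ b1
      apply mul_pos _ hC1
      have : (1 : ℝ) / 10 ^ 25 < 1 := by norm_num
      linarith
    have hcvpos' : 0 < cv E (m + 1) := by exact_mod_cast hcvpos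
    set Q : ℝ := 10 * (cv E m : ℝ) / cv E (m + 1) with hQ
    have hQup : Q ≤ R * (1 + 1 / 10 ^ 24) := by
      rw [hQ, div_le_iff₀ hcvpos]
      have h1 : R * (1 + 1 / 10 ^ 24) * ((1 - ((m + 1 : ℕ) : ℝ) * ε) * C (m + 1)) ≤
          R * (1 + 1 / 10 ^ 24) * (cv E (m + 1) : ℝ) := by
        gcongr
      refine le_trans ?_ h1
      have h2 : 10 * (cv E m : ℝ) ≤ 10 * C m := by linarith
      refine h2.trans ?_
      have h3 : 10 * C m = R * C (m + 1) := by rw [← hCC]; field_simp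
      rw [h3]
      have h4 : (1 : ℝ) ≤ (1 + 1 / 10 ^ 24) * (1 - ((m + 1 : ℕ) : ℝ) * ε) := by
        have h5 : (1 : ℝ) ≤ (1 + 1 / 10 ^ 24) * (1 - 1 / 10 ^ 25) := by norm_num
        refine h5.trans ?_
        gcongr
      calc R * C (m + 1) = R * C (m + 1) * 1 := by ring
        _ ≤ R * C (m + 1) * ((1 + 1 / 10 ^ 24) * (1 - ((m + 1 : ℕ) : ℝ) * ε)) := by
          apply mul_le_mul_of_nonneg_left h4 (by positivity)
        _ = R * (1 + 1 / 10 ^ 24) * ((1 - ((m + 1 : ℕ) : ℝ) * ε) * C (m + 1)) := by ring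
    have hQdn : R * (1 - 1 / 10 ^ 24) ≤ Q := by
      rw [hQ, le_div_iff₀ hcvpos]
      have h1 : R * (1 - 1 / 10 ^ 24) * (cv E (m + 1) : ℝ) ≤ R * (1 - 1 / 10 ^ 24) * C (m + 1) := by
        apply mul_le_mul_of_nonneg_left b2
        apply mul_nonneg hRpos.le
        norm_num
      refine h1.trans ?_
      have h3 : 10 * C m = R * C (m + 1) := by rw [← hCC]; field_simp
      have h2 : 10 * ((1 - m * ε) * C m) ≤ 10 * (cv E m : ℝ) := by linarith
      refine le_trans ?_ h2
      calc R * (1 - 1 / 10 ^ 24) * C (m + 1) = (1 - 1 / 10 ^ 24) * (10 * C m) := by rw [h3]; ring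
        _ ≤ (1 - m * ε) * (10 * C m) := by
          apply mul_le_mul_of_nonneg_right _ (by positivity)
          have : (1 : ℝ) / 10 ^ 25 ≤ 1 / 10 ^ 24 := by norm_num
          linarith
        _ = 10 * ((1 - m * ε) * C m) := by ring
    -- floor
    have hrec' := hrec (m + 1) (by omega)
    rw [show m + 1 - 1 = m by omega] at hrec'
    have hWeq : W (m + 2) = 1 + (((3 ^ 40 * 10 * cv E m) / cv E (m + 1) : ℕ) : ℝ) / M := by
      simp only [hWdef]
      rw [show m + 2 = m + 1 + 1 by ring, hrec', Nat.cast_add, add_div]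
      congr 1
      rw [hM]
      norm_num
    have hfl1 : (((3 ^ 40 * 10 * cv E m) / cv E (m + 1) : ℕ) : ℝ) ≤ M * Q := by
      refine (Nat.cast_div_le).trans (le_of_eq ?_)
      push_cast
      rw [hQ, hM]
      ring
    have hfl2 : M * Q - 1 ≤ (((3 ^ 40 * 10 * cv E m) / cv E (m + 1) : ℕ) : ℝ) := by
      have h1 := te_div (3 ^ 40 * 10 * cv E m) (cv E (m + 1)) hcvpos'
      refine le_trans (le_of_eq ?_) h1
      push_cast
      rw [hQ, hM]
      ring
    have hq1 : (((3 ^ 40 * 10 * cv E m) / cv E (m + 1) : ℕ) : ℝ) / M ≤ Q := by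
      rw [div_le_iff₀ hMpos]; linarith
    have hq2 : Q - 1 / M ≤ (((3 ^ 40 * 10 * cv E m) / cv E (m + 1) : ℕ) : ℝ) / M := by
      rw [le_div_iff₀ hMpos, sub_mul, div_mul_cancel₀ _ hMpos.ne']; linarith
    have hMinv : 1 / M ≤ 1 / 10 ^ 19 := by
      rw [hM]; norm_num
    rw [hWeq, abs_le]
    have hR24 : R * (1 / 10 ^ 24) ≤ 4095 * (1 / 10 ^ 24) := by gcongr
    have hnum : (4095 : ℝ) * (1 / 10 ^ 24) + 1 / 10 ^ 19 ≤ 1 / 10 ^ 18 := by norm_num
    constructor
    · nlinarith
    · nlinarith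
  -- the main induction
  intro n
  induction n using Nat.strong_induction_on with
  | _ n ih =>
    intro hn
    match n, ih, hn with
    | 0, _, _ => simp [h0, hV0]
    | 1, _, _ =>
      have hpm : (fun i : ℕ => if i = 1 then (1 : ℝ) else 0) ∈ Mixed 1 := by
        refine ⟨fun i => ?_, by simp⟩
        simp only
        split_ifs <;> norm_num
      have h1 : V 1 ≤ 1 := by
        apply hU 1 le_rfl _ hpm
        intro h hh
        have : h = 1 := by simpa using hh
        subst this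
        simp [pay]
      have h2 : 1 ≤ V 1 := by
        apply hL 1 le_rfl _ hpm
        intro g hg
        have : g = 1 := by simpa using hg
        subst this
        simp [pay]
      have h3 : V 1 = 1 := le_antisymm h1 h2
      rw [h3, hV1, hM]
      norm_num
    | m + 2, ih, hn =>
      have hδ : (0 : ℝ) ≤ ((m + 1 : ℕ) : ℝ) / 10 ^ 18 := by positivity
      have hclose : ∀ k, k ≤ m + 1 → |V k - W k| ≤ ((m + 1 : ℕ) : ℝ) / 10 ^ 18 := by
        intro k hk
        refine (ih k (by omega) (by omega)).trans ?_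
        have : (k : ℝ) ≤ ((m + 1 : ℕ) : ℝ) := by exact_mod_cast hk
        gcongr
      have hW' : ∀ k ∈ Ioc 0 (m + 1 - 0), 0 < W k := by
        intro k hk
        rw [Nat.sub_zero, Finset.mem_Ioc] at hk
        exact hWpos k (by omega) (by omega)
      have hred := red_lemma V (m + 1) 0 (by omega) (hU (m + 1 + 1) (by omega)) W
        (((m + 1 : ℕ) : ℝ) / 10 ^ 18) hδ hW' hW0.ge (by
          intro k hk
          rw [Nat.sub_zero, Finset.mem_Icc] at hk
          have := (abs_le.mp (hclose k hk.2)).2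
          linarith)
      have hblue := blue_lemma V (m + 1) 0 (by omega) (hL (m + 1 + 1) (by omega)) W
        (((m + 1 : ℕ) : ℝ) / 10 ^ 18) hδ hW' hW0.ge
        (fun k _ hk => hWmono k (by omega))
        (fun k hk1 hk2 => hWconc k (by omega) (by omega))
        (by
          intro k hk
          rw [Nat.sub_zero, Finset.mem_Icc] at hk
          have := (abs_le.mp (hclose k hk.2)).1
          linarith)
        (by
          intro k hk
          rw [Nat.sub_zero, Finset.mem_Ioc] at hk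
          omega)
      rw [Nat.sub_zero, te_Sw, te_sum W m hW0 (fun k h1 h2 => (hWpos k h1 (by omega)).ne')] at hred
      rw [Nat.sub_zero, te_Sw, te_sum' W m hW0 (fun k h1 h2 => (hWpos k h1 (by omega)).ne')] at hblue
      have hst := abs_le.mp (hstep m hn)
      change |V (m + 2) - W (m + 2)| ≤ _
      have e1 : (((m + 2 : ℕ) : ℝ)) / 10 ^ 18 = ((m + 1 : ℕ) : ℝ) / 10 ^ 18 + 1 / 10 ^ 18 := by
        push_cast; ring
      rw [e1, abs_le]
      change V (m + 2) ≤ _ at hred
      change _ ≤ V (m + 2) at hblue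
      constructor
      · linarith
      · linarith

end MTabErr
end Pool.Agent.Helper155.Gil
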