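import Pool.Agent.Helper155.Gil.Prog

set_option autoImplicit false
open Finset

namespace Pool.Agent.Helper155.Gil
namespace MTab
open MConv

/-- the integer table: pairs (weights, values) -/
def hs : ℕ → (ℕ → ℕ) × (ℕ → ℕ)
  | 0 => (fun _ => 2 ^ 96, fun _ => 0)
  | n + 1 =>
    (Function.update (hs n).1 (n + 1) ((hs n).1 n * (10 * 3 ^ 40) /
        (if n = 0 then 3 ^ 40 else 3 ^ 40 + (3 ^ 40 * 10 * cv (hs n).1 (n - 1)) / cv (hs n).1 n)),
      Function.update (hs n).2 (n + 1)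
        (if n = 0 then 3 ^ 40 else 3 ^ 40 + (3 ^ 40 * 10 * cv (hs n).1 (n - 1)) / cv (hs n).1 n))

def Et (n : ℕ) : ℕ := (hs n).1 n
def Vt (n : ℕ) : ℕ := (hs n).2 n

theorem hs_stable (m k : ℕ) (h : k ≤ m) : (hs m).1 k = Et k ∧ (hs m).2 k = Vt k := by
  induction m with
  | zero =>
    obtain rfl : k = 0 := by omega
    exact ⟨rfl, rfl⟩
  | succ m ih =>
    rcases Nat.lt_or_ge k (m + 1) with h1 | h1
    · have h2 := ih (by omega)
      have hne : k ≠ m + 1 := by omega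
      constructor
      · show Function.update (hs m).1 (m + 1) _ k = _
        rw [Function.update_of_ne hne]; exact h2.1
      · show Function.update (hs m).2 (m + 1) _ k = _
        rw [Function.update_of_ne hne]; exact h2.2
    · obtain rfl : k = m + 1 := by omega
      exact ⟨rfl, rfl⟩

theorem cv_hs (m n : ℕ) (h : n ≤ m) : cv (hs m).1 n = cv Et n :=
  cv_congr fun k hk => (hs_stable m k (by omega)).1

theorem Vt_one : Vt 1 = 3 ^ 40 := by
  show Function.update (hs 0).2 1 _ 1 = _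
  rw [Function.update_self]; rfl

theorem Vt_succ (n : ℕ) (hn : 1 ≤ n) : Vt (n + 1) = 3 ^ 40 + (3 ^ 40 * 10 * cv Et (n - 1)) / cv Et n := by
  show Function.update (hs n).2 (n + 1) _ (n + 1) = _
  rw [Function.update_self, if_neg (by omega), cv_hs n (n - 1) (by omega), cv_hs n n le_rfl]

theorem Et_succ (n : ℕ) : Et (n + 1) = Et n * (10 * 3 ^ 40) / Vt (n + 1) := by
  show Function.update (hs n).1 (n + 1) _ (n + 1) = (hs n).1 n * (10 * 3 ^ 40) / Function.update (hs n).2 (n + 1) _ (n + 1)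
  rw [Function.update_self, Function.update_self]

theorem Et_zero : Et 0 = 2 ^ 96 := rfl
theorem Vt_zero : Vt 0 = 0 := rfl

/-- what is checked at index `n` -/
def Good (n : ℕ) : Prop :=
  Vt (n - 1) ≤ Vt n ∧ Vt n + Vt (n - 2) ≤ 2 * Vt (n - 1) ∧ 2 ^ 96 ≤ Et n ∧ Et n ≤ 2 ^ 500 ∧
    (1024 ≤ n → chkB (n + 1) (lq n) (Vt n) = true)

def BB : ℕ := 2 ^ 1024

theorem BB_pos : 0 < BB := by unfold BB; positivity

theorem shift_eq (a i : ℕ) : a >>> (1024 * i) = a / BB ^ i := by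
  rw [Nat.shiftRight_eq_div_pow]
  unfold BB
  rw [pow_mul]

theorem pow_eq (i : ℕ) : 2 ^ (1024 * i) = BB ^ i := by
  unfold BB
  rw [pow_mul]

theorem cv_lt (n : ℕ) (hn : n ≤ 4095) (h : ∀ k ≤ n, Et k ≤ 2 ^ 500) : cv Et n < BB := by
  have h1 := cv_bound (n := n) h
  have h2 : (n + 1) * (2 ^ 500 * 2 ^ 500) ≤ 4096 * (2 ^ 500 * 2 ^ 500) :=
    Nat.mul_le_mul_right _ (by omega)
  have h3 : 4096 * (2 ^ 500 * 2 ^ 500) < BB := by
    unfold BB
    have e : (4096 : ℕ) = 2 ^ 12 := by norm_num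
    rw [e, ← pow_add, ← pow_add]
    exact Nat.pow_lt_pow_right (by norm_num) (by norm_num)
  omega

theorem vstep (n : ℕ) (hn : 2 ≤ n) (S0 S1 : ℕ) (h0 : S0 = cv Et (n - 2)) (h1 : S1 = cv Et (n - 1)) :
    3 ^ 40 + (3 ^ 40 * 10 * S0) / S1 = Vt n := by
  obtain ⟨m, rfl⟩ : ∃ m, n = m + 2 := ⟨n - 2, by omega⟩
  rw [show m + 2 = (m + 1) + 1 by ring, Vt_succ (m + 1) (by omega)]
  subst h0 h1
  rfl

theorem estep (n : ℕ) (hn : 1 ≤ n) : Et (n - 1) * (10 * 3 ^ 40) / Vt n = Et n := by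
  obtain ⟨m, rfl⟩ : ∃ m, n = m + 1 := ⟨n - 1, by omega⟩
  rw [Et_succ]
  rfl

theorem inner0_spec (f : ℕ) : ∀ (i : ℕ) (k : ℕ → ℕ → ℕ → ℕ → ℕ → ℕ → Bool), 2 ≤ i → i + f ≤ 32 →
    (∀ j < i, Et j ≤ 2 ^ 500) →
    inner0 f i (Xs BB Et i) (Et (i - 1)) (cv Et (i - 1)) (cv Et (i - 2)) (Vt (i - 1)) (Vt (i - 2)) k = true →
    (∀ j, i ≤ j → j < i + f → Good j) ∧
      k (Xs BB Et (i + f)) (Et (i + f - 1)) (cv Et (i + f - 1)) (cv Et (i + f - 2)) (Vt (i + f - 1))
        (Vt (i + f - 2)) = true := by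
  induction f with
  | zero =>
    intro i k hi _ _ h
    refine ⟨fun j h1 h2 => by omega, ?_⟩
    simpa [inner0] using h
  | succ f ih =>
    intro i k hi hif hE h
    rw [inner0] at h
    simp only [seqN_eq] at h
    rw [vstep i hi _ _ rfl rfl, estep i (by omega)] at h
    have hY : Xs BB Et i + Et i * 2 ^ (1024 * i) = Xs BB Et (i + 1) := by
      rw [pow_eq, Xs_succ]
    rw [hY] at h
    simp only [Bool.and_eq_true, Nat.ble_eq] at h
    obtain ⟨⟨⟨⟨c1, c2⟩, c3⟩, c4⟩, h⟩ := h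
    have hE' : ∀ j < i + 1, Et j ≤ 2 ^ 500 := by
      intro j hj
      rcases Nat.lt_or_ge j i with h1 | h1
      · exact hE j h1
      · obtain rfl : j = i := by omega
        exact c4
    have hS : ((Xs BB Et (i + 1) * Xs BB Et (i + 1)) >>> (1024 * i)) % 2 ^ 1024 = cv Et i := by
      rw [shift_eq]
      have := digit BB BB_pos Et i (fun m hm => cv_lt m (by omega) fun k hk => hE' k (by omega))
        (Xs BB Et (i + 1) * Xs BB Et (i + 1)) (by rw [sq])
      exact this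
    rw [hS] at h
    have h' := ih (i + 1) k (by omega) (by omega) hE' (by
      have e1 : i + 1 - 1 = i := by omega
      have e2 : i + 1 - 2 = i - 1 := by omega
      rw [e1, e2]
      exact h)
    have e3 : i + 1 + f = i + (f + 1) := by ring
    rw [e3] at h'
    refine ⟨fun j h1 h2 => ?_, h'.2⟩
    rcases Nat.lt_or_ge j (i + 1) with h3 | h3
    · obtain rfl : j = i := by omega
      exact ⟨c1, c2, c3, c4, fun h => by omega⟩
    · exact h'.1 j h3 h2

theorem lstep (n : ℕ) (hn : 1 ≤ n) :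
    (if n ≤ 1023 then 84270515351363434051 else lq (n - 1) + incL n) = lq n := by
  obtain ⟨m, rfl⟩ : ∃ m, n = m + 1 := ⟨n - 1, by omega⟩
  rw [lq]
  rfl

theorem inner_spec (n0 : ℕ) (hn0 : 32 ≤ n0) (hn1 : n0 + 32 ≤ 4096) (f : ℕ) :
    ∀ (i : ℕ) (k : ℕ → ℕ → ℕ → ℕ → ℕ → ℕ → ℕ → ℕ → Bool), i + f ≤ 32 →
    (∀ j < n0 + i, Et j ≤ 2 ^ 500) →
    inner f i (n0 + i) ((Xs BB Et n0 ^ 2 / BB ^ n0) % BB ^ 32) (Xs BB Et 32) (Xs BB (fun j => Et (n0 + j)) i)
      (Et (n0 + i - 1)) (cv Et (n0 + i - 1)) (cv Et (n0 + i - 2)) (Vt (n0 + i - 1)) (Vt (n0 + i - 2))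
      (lq (n0 + i - 1)) k = true →
    (∀ j, n0 + i ≤ j → j < n0 + i + f → Good j) ∧
      k (n0 + i + f) (Xs BB (fun j => Et (n0 + j)) (i + f)) (Et (n0 + i + f - 1)) (cv Et (n0 + i + f - 1))
        (cv Et (n0 + i + f - 2)) (Vt (n0 + i + f - 1)) (Vt (n0 + i + f - 2)) (lq (n0 + i + f - 1)) = true := by
  induction f with
  | zero =>
    intro i k _ _ h
    refine ⟨fun j h1 h2 => by omega, ?_⟩
    simpa [inner] using h
  | succ f ih =>
    intro i k hif hE h
    rw [inner] at h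
    simp only [seqN_eq] at h
    rw [vstep (n0 + i) (by omega) _ _ rfl rfl, estep (n0 + i) (by omega), lstep (n0 + i) (by omega)] at h
    have hY : Xs BB (fun j => Et (n0 + j)) i + Et (n0 + i) * 2 ^ (1024 * i)
        = Xs BB (fun j => Et (n0 + j)) (i + 1) := by
      rw [pow_eq, Xs_succ]
    rw [hY] at h
    simp only [Bool.and_eq_true, Nat.ble_eq] at h
    obtain ⟨⟨⟨⟨⟨c1, c2⟩, c3⟩, c4⟩, c5⟩, h⟩ := h
    have hE' : ∀ j < n0 + i + 1, Et j ≤ 2 ^ 500 := by
      intro j hj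
      rcases Nat.lt_or_ge j (n0 + i) with h1 | h1
      · exact hE j h1
      · obtain rfl : j = n0 + i := by omega
        exact c4
    have hS : (((Xs BB Et n0 ^ 2 / BB ^ n0) % BB ^ 32 + 2 * Xs BB Et 32 * Xs BB (fun j => Et (n0 + j)) (i + 1))
        >>> (1024 * i)) % 2 ^ 1024 = cv Et (n0 + i) := by
      rw [shift_eq]
      exact digit_block BB BB_pos Et 32 n0 i hn0 (by omega)
        (fun m hm => cv_lt m (by omega) fun k hk => hE' k (by omega))
    rw [hS] at h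
    have h' := ih (i + 1) k (by omega) (by
      intro j hj; exact hE' j (by omega)) (by
      have e0 : n0 + (i + 1) = n0 + i + 1 := by ring
      have e1 : n0 + i + 1 - 1 = n0 + i := by omega
      have e2 : n0 + i + 1 - 2 = n0 + i - 1 := by omega
      rw [e0, e1, e2]
      exact h)
    have e3 : n0 + (i + 1) + f = n0 + i + (f + 1) := by ring
    have e4 : i + 1 + f = i + (f + 1) := by ring
    rw [e3, e4] at h'
    refine ⟨fun j h1 h2 => ?_, h'.2⟩
    rcases Nat.lt_or_ge j (n0 + i + 1) with h3 | h3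
    · obtain rfl : j = n0 + i := by omega
      refine ⟨c1, c2, c3, c4, fun h => ?_⟩
      rw [Bool.or_eq_true, Nat.ble_eq] at c5
      rcases c5 with c5 | c5
      · omega
      · exact c5
    · exact h'.1 j (by omega) h2

theorem outer_spec (f : ℕ) : ∀ (n0 : ℕ), 32 ≤ n0 → n0 + 32 * f ≤ 4096 →
    (∀ j < n0, Et j ≤ 2 ^ 500) →
    outer f n0 (Xs BB Et 32) (Xs BB Et n0) (Xs BB Et n0 ^ 2 / BB ^ n0) (Et (n0 - 1)) (cv Et (n0 - 1))
      (cv Et (n0 - 2)) (Vt (n0 - 1)) (Vt (n0 - 2)) (lq (n0 - 1)) = true →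
    ∀ j, n0 ≤ j → j < n0 + 32 * f → Good j := by
  induction f with
  | zero => intro n0 _ _ _ _ j h1 h2; omega
  | succ f ih =>
    intro n0 h32 hle hE h j hj1 hj2
    rw [outer] at h
    simp only [seqN_eq] at h
    have e32 : (2 : ℕ) ^ 32768 = BB ^ 32 := by
      unfold BB
      rw [← pow_mul]
    rw [e32] at h
    have h0 : Xs BB (fun j => Et (n0 + j)) 0 = 0 := by simp [Xs]
    have hi := inner_spec n0 h32 (by omega) 32 0 _ (by omega) (by simpa using hE) (by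
      rw [h0]
      simp only [Nat.add_zero]
      exact h)
    obtain ⟨hg, hk⟩ := hi
    simp only [Nat.add_zero, Nat.zero_add] at hg hk
    have hE' : ∀ j < n0 + 32, Et j ≤ 2 ^ 500 := by
      intro j hj
      rcases Nat.lt_or_ge j n0 with h1 | h1
      · exact hE j h1
      · exact (hg j h1 hj).2.2.2.1
    have hX : Xs BB Et n0 + 2 ^ (1024 * n0) * Xs BB (fun j => Et (n0 + j)) 32 = Xs BB Et (n0 + 32) := by
      rw [pow_eq, Xs_split]
    have hR : (Xs BB Et n0 ^ 2 / BB ^ n0 + 2 * Xs BB Et n0 * Xs BB (fun j => Et (n0 + j)) 32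
        + 2 ^ (1024 * n0) * (Xs BB (fun j => Et (n0 + j)) 32 * Xs BB (fun j => Et (n0 + j)) 32)) >>> 32768
        = Xs BB Et (n0 + 32) ^ 2 / BB ^ (n0 + 32) := by
      rw [show (32768 : ℕ) = 1024 * 32 by norm_num, shift_eq, pow_eq]
      exact block_update BB BB_pos Et 32 n0
    rw [hX, hR] at hk
    rcases Nat.lt_or_ge j (n0 + 32) with h1 | h1
    · exact hg j hj1 h1
    · exact ih (n0 + 32) (by omega) (by omega) hE' hk j h1 (by omega)

theorem start_spec (blocks : ℕ) (hb : blocks ≤ 127) (h : start blocks = true) :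
    ∀ j, 2 ≤ j → j < 32 + 32 * blocks → Good j := by
  have hE0 : Et 0 = 2 ^ 96 := rfl
  have hE1 : Et 1 = 10 * 2 ^ 96 := by
    rw [Et_succ, Vt_one, hE0]
    norm_num
  have hc0 : cv Et 0 = 2 ^ 192 := by
    unfold cv
    rw [Finset.sum_range_one, hE0]
    norm_num
  have hc1 : cv Et 1 = 2 * (2 ^ 96 * (10 * 2 ^ 96)) := by
    unfold cv
    rw [Finset.sum_range_succ, Finset.sum_range_one]
    show Et 0 * Et 1 + Et 1 * Et 0 = _
    rw [hE0, hE1]
    ring
  have hX2 : Xs BB Et 2 = 2 ^ 96 + 10 * 2 ^ 96 * 2 ^ 1024 := by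
    unfold Xs BB
    rw [Finset.sum_range_succ, Finset.sum_range_one, hE0, hE1]
    ring
  have hEs : ∀ j < 2, Et j ≤ 2 ^ 500 := by
    intro j hj
    interval_cases j
    · rw [hE0]; exact Nat.pow_le_pow_right (by norm_num) (by norm_num)
    · rw [hE1]
      calc 10 * 2 ^ 96 ≤ 2 ^ 4 * 2 ^ 96 := Nat.mul_le_mul_right _ (by norm_num)
        _ = 2 ^ 100 := by rw [← pow_add]
        _ ≤ 2 ^ 500 := Nat.pow_le_pow_right (by norm_num) (by norm_num)
  unfold start at h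
  have h1 := inner0_spec 30 2 _ le_rfl le_rfl hEs (by
    rw [hX2]
    simp only [Nat.reduceSub]
    rw [hE1, hc1, hc0, Vt_one, Vt_zero]
    exact h)
  obtain ⟨hg, hk⟩ := h1
  simp only [seqN_eq, Nat.reduceAdd, Nat.reduceSub] at hk hg
  have e1 : (Xs BB Et 32 * Xs BB Et 32) >>> 32768 = Xs BB Et 32 ^ 2 / BB ^ 32 := by
    rw [show (32768 : ℕ) = 1024 * 32 by norm_num, shift_eq, sq]
  rw [e1] at hk
  have hl : lq 31 = 84270515351363434051 := by
    rw [lq]; simp
  have hE' : ∀ j < 32, Et j ≤ 2 ^ 500 := by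
    intro j hj
    rcases Nat.lt_or_ge j 2 with h2 | h2
    · exact hEs j h2
    · exact (hg j h2 hj).2.2.2.1
  have ho := outer_spec blocks 32 le_rfl (by omega) hE' (by
    simp only [Nat.reduceSub]
    rw [hl]
    exact hk)
  intro j hj1 hj2
  rcases Nat.lt_or_ge j 32 with h2 | h2
  · exact hg j hj1 h2
  · exact ho j h2 (by omega)

end MTab
end Pool.Agent.Helper155.Gil
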