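import Pool.Agent.Helper155.Gil.Induct
import Pool.Agent.Helper155.Gil.TabErr
import Pool.Agent.Helper155.Gil.Table
import Pool.Agent.Helper155.Gil.Run
import Pool.Agent.Helper155.Gil.LQ
import Pool.Agent.Helper155.Gil.Base
import Pool.Agent.Helper155.Gil.Fin
import Pool.Agent.Helper155.Gil.Minimax

set_option autoImplicit false
open Finset Filter Topology

namespace Pool.Agent.Helper155.Gil
namespace MMain
open MInd MTabErr MTab MLQ MBase MFin MMinimax

/-! ### existence and uniqueness of the sequence of values -/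

theorem value_unique {A A' : ℕ → ℕ → ℝ} {n : ℕ} {v v' : ℝ} (h : IsValue A n v) (h' : IsValue A' n v')
    (hA : ∀ g ∈ Icc 1 n, ∀ h ∈ Icc 1 n, A g h = A' g h) : v = v' := by
  have w := isValue_weak h
  have w' := isValue_weak h'
  obtain ⟨⟨p, hp, hp1⟩, _⟩ := h
  obtain ⟨⟨p', hp', hp1'⟩, _⟩ := h'
  refine le_antisymm (w.1 p' hp' v' fun j hj => ?_) (w'.1 p hp v fun j hj => ?_)
  · refine le_trans (le_of_eq ?_) (hp1' j hj)
    exact Finset.sum_congr rfl fun g hg => by rw [hA g hg j hj]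
  · refine le_trans (le_of_eq ?_) (hp1 j hj)
    exact Finset.sum_congr rfl fun g hg => by rw [hA g hg j hj]

theorem pay_congr {V V' : ℕ → ℝ} {n : ℕ} (h : ∀ k < n, V k = V' k) :
    ∀ g ∈ Icc 1 n, ∀ j ∈ Icc 1 n, pay V n g j = pay V' n g j := by
  intro g hg j hj
  rw [mem_Icc] at hg hj
  unfold pay
  rw [h (g - 1) (by omega), h (n - g) (by omega)]

/-- a solution of the recursion -/
noncomputable def Vg (n : ℕ) : ℝ :=
  if hn : n = 0 then 0
  else Classical.choose (exists_value (pay (fun k => if _h : k < n then Vg k else 0) n) n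
    (Nat.one_le_iff_ne_zero.2 hn))
termination_by n

theorem Vg_isGilbert : IsGilbert Vg := by
  refine ⟨by rw [Vg]; simp, fun n hn => ?_⟩
  have h1 : Vg n = Classical.choose (exists_value (pay (fun k => if _h : k < n then Vg k else 0) n) n hn) := by
    rw [Vg, dif_neg (by omega)]
  have h2 := Classical.choose_spec (exists_value (pay (fun k => if _h : k < n then Vg k else 0) n) n hn)
  rw [← h1] at h2
  have hc : ∀ g ∈ Icc 1 n, ∀ j ∈ Icc 1 n,
      pay (fun k => if _h : k < n then Vg k else 0) n g j = pay Vg n g j :=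
    pay_congr fun k hk => by simp [hk]
  obtain ⟨⟨p, hp, hp1⟩, ⟨r, hr, hr1⟩⟩ := h2
  refine ⟨⟨p, hp, fun j hj => ?_⟩, ⟨r, hr, fun g hg => ?_⟩⟩
  · refine le_trans (le_of_eq ?_) (hp1 j hj)
    exact Finset.sum_congr rfl fun g hg => by rw [hc g hg j hj]
  · refine le_trans (hr1 g hg) (le_of_eq ?_)
    exact Finset.sum_congr rfl fun j hj => by rw [hc g hg j hj]

theorem gilbert_unique {V V' : ℕ → ℝ} (h : IsGilbert V) (h' : IsGilbert V') : V = V' := by
  funext n
  induction n using Nat.strong_induction_on with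
  | _ n ih =>
    rcases Nat.eq_zero_or_pos n with rfl | hn
    · rw [h.1, h'.1]
    · exact value_unique (h.2 n hn) (h'.2 n hn) (pay_congr ih)

theorem exists_unique_gilbert : ∃! V : ℕ → ℝ, IsGilbert V :=
  ⟨Vg, Vg_isGilbert, fun _ h => gilbert_unique h Vg_isGilbert⟩

/-! ### the two-sided bounds -/

theorem good (n : ℕ) (h1 : 2 ≤ n) (h2 : n ≤ 4095) : Good n :=
  start_spec 127 le_rfl run_ok n h1 (by omega)

theorem two_sided (V : ℕ → ℝ) (hV : IsGilbert V) : ∀ n : ℕ, 1024 ≤ n →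
      Wf (-1) ((n : ℝ) + 1) ≤ Real.log 2 * V n ∧ Real.log 2 * V n ≤ Wf 1 ((n : ℝ) + 1) := by
  have hU : ∀ n, 1 ≤ n → ∀ p ∈ Mixed n, ∀ M : ℝ,
      (∀ h ∈ Icc 1 n, ∑ g ∈ Icc 1 n, p g * pay V n g h ≤ M) → V n ≤ M :=
    fun n hn => (isValue_weak (hV.2 n hn)).1
  have hL : ∀ n, 1 ≤ n → ∀ r ∈ Mixed n, ∀ M : ℝ,
      (∀ g ∈ Icc 1 n, M ≤ ∑ h ∈ Icc 1 n, r h * pay V n g h) → M ≤ V n :=
    fun n hn => (isValue_weak (hV.2 n hn)).2
  have hT := table_error V hV.1 hU hL Et Vt Et_zero Vt_zero Vt_one Vt_succ Et_succ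
    (fun n h1 h2 => ⟨(good n h1 h2).1, (good n h1 h2).2.1, (good n h1 h2).2.2.1⟩)
  refine bounds V hU hL ?_
  intro n h1 h2
  have hv := hT n (by omega)
  have hv' : |V n - (Vt n : ℝ) / 3 ^ 40| ≤ 1 / 10 ^ 14 := by
    refine hv.trans ?_
    have : (n : ℝ) ≤ 4094 := by exact_mod_cast h2
    rw [div_le_div_iff₀ (by positivity) (by positivity)]
    nlinarith
  have hl := lq_err n (by omega) (by omega)
  have hc := (good n (by omega) (by omega)).2.2.2.2 h1
  have hb := base_sound (n + 1) (lq n) (Vt n) (by omega) (by omega) (by push_cast; exact hl) (V n) hv' hc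
  push_cast at hb
  rw [abs_le] at hb
  unfold Wf
  constructor <;> linarith [hb.1, hb.2]

theorem no_limit (V : ℕ → ℝ) (hV : IsGilbert V) :
    ¬ ∃ c : ℝ, Tendsto (fun n : ℕ => V n - Real.logb 2 n) atTop (𝓝 c) :=
  final_limit V (fun n hn => (two_sided V hV n hn).2) (fun n hn => (two_sided V hV n hn).1)

theorem near (V : ℕ → ℝ) (hV : IsGilbert V) :
    ∀ᶠ n : ℕ in atTop, |V n - Real.logb 2 n + 48758511 / 10 ^ 8| < 1 / 10 ^ 8 := by
  have hlog : 0 < Real.log 2 := Real.log_pos (by norm_num)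
  have h0 : Tendsto (fun n : ℕ => ((n : ℝ) + 1)) atTop atTop :=
    tendsto_atTop_add_const_right _ _ tendsto_natCast_atTop_atTop
  have h1 := zz_lim.comp h0
  have h2 := mm_lim.comp h0
  have h3 := Real.tendsto_log_nat_add_one_sub_log
  have e1 := (Metric.tendsto_atTop.1 h1) (1 / 10 ^ 12) (by norm_num)
  have e2 := (Metric.tendsto_atTop.1 h2) (1 / 10 ^ 12) (by norm_num)
  have e3 := (Metric.tendsto_atTop.1 h3) (1 / 10 ^ 12) (by norm_num)
  obtain ⟨N1, hN1⟩ := e1
  obtain ⟨N2, hN2⟩ := e2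
  obtain ⟨N3, hN3⟩ := e3
  filter_upwards [eventually_ge_atTop N1, eventually_ge_atTop N2, eventually_ge_atTop N3,
    eventually_ge_atTop 1024] with n g1 g2 g3 g4
  have a1 := hN1 n g1
  have a2 := hN2 n g2
  have a3 := hN3 n g3
  rw [Real.dist_eq, sub_zero, abs_lt] at a1 a2 a3
  simp only [Function.comp] at a1 a2
  obtain ⟨b1, b2⟩ := two_sided V hV n g4
  unfold Wf at b1 b2
  have hq : |qq ((n : ℝ) + 1)| ≤ 1 := by unfold qq; exact Real.abs_cos_le_one _
  rw [abs_le] at hq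
  have hA : A0 * qq ((n : ℝ) + 1) ≤ A0 := by
    have : 0 < A0 := by unfold A0; norm_num
    nlinarith [hq.2]
  have hA' : -A0 ≤ A0 * qq ((n : ℝ) + 1) := by
    have : 0 < A0 := by unfold A0; norm_num
    nlinarith [hq.1]
  have d9 := Real.log_two_gt_d9
  have d9' := Real.log_two_lt_d9
  have hlogb : Real.logb 2 n = Real.log n / Real.log 2 := rfl
  have key : V n - Real.logb 2 n + 48758511 / 10 ^ 8
      = (Real.log 2 * V n - Real.log n + 48758511 / 10 ^ 8 * Real.log 2) / Real.log 2 := by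
    rw [hlogb]; field_simp
  rw [key, abs_lt, lt_div_iff₀ hlog, div_lt_iff₀ hlog]
  have hA0 : A0 = 23 / 10 ^ 11 := rfl
  have hep : ep0 = 207 / 10 ^ 12 := rfl
  have hc1 : c1 = -33796824689 / 10 ^ 11 := rfl
  rw [hc1] at a1
  rw [hep] at a2
  rw [hA0] at b1 b2 hA hA'
  constructor
  · nlinarith [a1.1, a2.2, a3.1, b1]
  · nlinarith [a1.2, a2.2, a3.2, b2]

end MMain
end Pool.Agent.Helper155.Gil
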