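import Pool.Agent.Helper155.Gil.Defs
import Pool.Agent.Helper155.Gil.Kern

set_option autoImplicit false
open Finset Filter Topology

namespace Pool.Agent.Helper155.Gil
namespace MMom
open MKern
theorem mk_refl (N k0 : ℕ) (hk0 : k0 ≤ N) (f : ℕ → ℝ) :
    ∑ k ∈ Icc k0 (N - k0), f (N - k) = ∑ k ∈ Icc k0 (N - k0), f k := by
  apply Finset.sum_nbij' (fun k => N - k) (fun k => N - k)
  · intro k hk
    rw [Finset.mem_Icc] at hk ⊢
    omega
  · intro k hk
    rw [Finset.mem_Icc] at hk ⊢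
    omega
  · intro k hk
    rw [Finset.mem_Icc] at hk
    omega
  · intro k hk
    rw [Finset.mem_Icc] at hk
    omega
  · intro k hk
    rfl

theorem mk_stepA (W : ℕ → ℝ) (N k0 : ℕ) (h2 : 2 * k0 ≤ N)
    (hW : ∀ k ∈ Icc k0 (N - k0), 0 < W k) (m : ℕ) (hm : Odd m) :
    ∑ k ∈ Icc k0 (N - k0), kw W N k0 k * W k * (((k : ℝ) - N / 2) - 1 / 2) ^ m ≤ 0 := by
  have hW' : ∀ k ∈ Ioc k0 (N - k0), 0 < W k := by
    intro k hk
    apply hW
    rw [Finset.mem_Ioc] at hk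
    rw [Finset.mem_Icc]
    omega
  have h1 := stein W N k0 h2 hW' (fun k => (((k : ℝ) - N / 2) - 1 / 2) ^ m) (by
    intro k hk
    rw [Finset.mem_Ioc] at hk
    have : ((N + 1 - k : ℕ) : ℝ) = (N : ℝ) + 1 - k := by
      rw [Nat.cast_sub (by omega)]
      push_cast
      ring
    rw [this, ← hm.neg_pow]
    congr 1
    ring)
  have h3 : k0 ≤ N - k0 := by omega
  rw [← Finset.Ioc_insert_left h3, Finset.sum_insert (by simp), h1, add_zero]
  have hk0 : k0 ∈ Icc k0 (N - k0) := by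
    rw [Finset.mem_Icc]; omega
  have h4 := kw_pos W N k0 k0 hW' hk0
  have h5 := hW k0 hk0
  have h6 : (((k0 : ℝ) - N / 2) - 1 / 2) ^ m ≤ 0 := by
    apply hm.pow_nonpos
    have : (2 : ℝ) * k0 ≤ N := by exact_mod_cast h2
    linarith
  have h7 : 0 ≤ kw W N k0 k0 * W k0 := by positivity
  exact mul_nonpos_of_nonneg_of_nonpos h7 h6

/-- the symmetrised inequality -/
theorem mk_sym (W : ℕ → ℝ) (N k0 : ℕ) (h2 : 2 * k0 ≤ N)
    (hW : ∀ k ∈ Icc k0 (N - k0), 0 < W k) (m : ℕ) (hm : Odd m) :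
    ∑ k ∈ Icc k0 (N - k0), kw W N k0 k * ((W k - W (N - k)) *
      (((((k : ℝ) - N / 2) + 1 / 2) ^ m + (((k : ℝ) - N / 2) - 1 / 2) ^ m) / 2)) ≤
    ∑ k ∈ Icc k0 (N - k0), kw W N k0 k * ((W k + W (N - k)) *
      (((((k : ℝ) - N / 2) + 1 / 2) ^ m - (((k : ℝ) - N / 2) - 1 / 2) ^ m) / 2)) := by
  have h1 := mk_stepA W N k0 h2 hW m hm
  have h3 : ∑ k ∈ Icc k0 (N - k0), kw W N k0 k * W (N - k) * (-(((k : ℝ) - N / 2) + 1 / 2) ^ m) ≤ 0 := by
    rw [← mk_refl N k0 (by omega)] at h1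
    refine le_trans (le_of_eq ?_) h1
    apply Finset.sum_congr rfl
    intro k hk
    rw [Finset.mem_Icc] at hk
    have hc : ((N - k : ℕ) : ℝ) = (N : ℝ) - k := by
      rw [Nat.cast_sub (by omega)]
    rw [kw_symm W N k0 k (by omega), hc, ← hm.neg_pow]
    congr 2
    ring
  rw [← sub_nonpos, ← Finset.sum_sub_distrib]
  have h4 := add_nonpos h1 h3
  rw [← Finset.sum_add_distrib] at h4
  refine le_trans (le_of_eq ?_) h4
  apply Finset.sum_congr rfl
  intro k hk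
  ring

theorem mk_bnn (m : ℕ) (hm : Odd m) (s : ℝ) : 0 ≤ ((s + 1 / 2) ^ m - (s - 1 / 2) ^ m) / 2 := by
  have := (hm.strictMono_pow (R := ℝ)).monotone (show s - 1 / 2 ≤ s + 1 / 2 by linarith)
  linarith

theorem mk_main (N : ℕ) (hN : 4094 ≤ N) (W : ℕ → ℝ)
    (hpos : ∀ k ∈ Icc (N / 4 + 1) (N - (N / 4 + 1)), 0 < W k)
    (F1 : ∀ k ∈ Icc (N / 4 + 1) (N - (N / 4 + 1)), N ≤ 2 * k →
      2 * (997 / 1000) * tk N k ≤ W k - W (N - k))
    (F2 : ∀ k ∈ Icc (N / 4 + 1) (N - (N / 4 + 1)),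
      W k + W (N - k) ≤ 2 * (10005 / 10000) * th (xc N))
    (m : ℕ) (hm : Odd m)
    (Ha : ∀ s : ℝ, 0 ≤ s → s ^ m ≤ ((s + 1 / 2) ^ m + (s - 1 / 2) ^ m) / 2) :
    ∑ k ∈ Icc (N / 4 + 1) (N - (N / 4 + 1)), kw W N (N / 4 + 1) k *
      (2 * (997 / 1000) * tk N k * ((k : ℝ) - N / 2) ^ m) ≤
    ∑ k ∈ Icc (N / 4 + 1) (N - (N / 4 + 1)), kw W N (N / 4 + 1) k *
      (2 * (10005 / 10000) * th (xc N) *
      (((((k : ℝ) - N / 2) + 1 / 2) ^ m - (((k : ℝ) - N / 2) - 1 / 2) ^ m) / 2)) := by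
  have h2 : 2 * (N / 4 + 1) ≤ N := by omega
  have hW' : ∀ k ∈ Ioc (N / 4 + 1) (N - (N / 4 + 1)), 0 < W k := by
    intro k hk
    apply hpos
    rw [Finset.mem_Ioc] at hk
    rw [Finset.mem_Icc]
    omega
  have hx : 0 < xc N := by unfold xc; positivity
  refine le_trans ?_ (le_trans (mk_sym W N (N / 4 + 1) h2 hpos m hm) ?_)
  · apply Finset.sum_le_sum
    intro k hk
    have hkw := kw_pos W N (N / 4 + 1) k hW' hk
    apply mul_le_mul_of_nonneg_left _ hkw.le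
    rcases le_total N (2 * k) with hc | hc
    · have h3 := F1 k hk hc
      have h4 : (0 : ℝ) ≤ (k : ℝ) - N / 2 := by
        have : (N : ℝ) ≤ 2 * k := by exact_mod_cast hc
        linarith
      have h5 := Ha _ h4
      have h6 : 0 ≤ tk N k := by
        unfold tk
        positivity
      apply mul_le_mul h3 h5 (by positivity)
      nlinarith
    · have hk' := hk
      rw [Finset.mem_Icc] at hk'
      have hk2 : N - k ∈ Icc (N / 4 + 1) (N - (N / 4 + 1)) := by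
        rw [Finset.mem_Icc]; omega
      have h3 := F1 (N - k) hk2 (by omega)
      have hcast : ((N - k : ℕ) : ℝ) = (N : ℝ) - k := by
        rw [Nat.cast_sub (by omega)]
      have hnk : N - (N - k) = k := by omega
      have htk : tk N (N - k) = - tk N k := by
        unfold tk
        rw [hcast]
        ring
      rw [hnk, htk] at h3
      have h4 : (0 : ℝ) ≤ -((k : ℝ) - N / 2) := by
        have : (2 : ℝ) * k ≤ N := by exact_mod_cast hc
        linarith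
      have h5 := Ha _ h4
      have h6 : 0 ≤ - tk N k := by
        rw [← htk]
        unfold tk
        rw [hcast]
        have : (0 : ℝ) ≤ (N : ℝ) - k - N / 2 := by linarith
        positivity
      have e1 : (-((k : ℝ) - N / 2) + 1 / 2) ^ m = - (((k : ℝ) - N / 2) - 1 / 2) ^ m := by
        rw [← hm.neg_pow]; congr 1; ring
      have e2 : (-((k : ℝ) - N / 2) - 1 / 2) ^ m = - (((k : ℝ) - N / 2) + 1 / 2) ^ m := by
        rw [← hm.neg_pow]; congr 1; ring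
      have e3 : (-((k : ℝ) - N / 2)) ^ m = - ((k : ℝ) - N / 2) ^ m := hm.neg_pow _
      have h7 : 0 ≤ (-((k : ℝ) - N / 2)) ^ m := by positivity
      have h8 : 0 ≤ W (N - k) - W k := by nlinarith
      have h9 := mul_le_mul h3 h5 h7 h8
      rw [e1, e2, e3] at h9
      calc 2 * (997 / 1000) * tk N k * ((k : ℝ) - N / 2) ^ m
          = 2 * (997 / 1000) * (- tk N k) * (- ((k : ℝ) - N / 2) ^ m) := by ring
        _ ≤ _ := h9
        _ = _ := by ring
  · apply Finset.sum_le_sum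
    intro k hk
    have hkw := kw_pos W N (N / 4 + 1) k hW' hk
    apply mul_le_mul_of_nonneg_left _ hkw.le
    exact mul_le_mul_of_nonneg_right (F2 k hk) (mk_bnn m hm _)

/-- scaled and normalised version -/
theorem mk_scaled (N : ℕ) (hN : 4094 ≤ N) (W : ℕ → ℝ)
    (hpos : ∀ k ∈ Icc (N / 4 + 1) (N - (N / 4 + 1)), 0 < W k)
    (F1 : ∀ k ∈ Icc (N / 4 + 1) (N - (N / 4 + 1)), N ≤ 2 * k →
      2 * (997 / 1000) * tk N k ≤ W k - W (N - k))
    (F2 : ∀ k ∈ Icc (N / 4 + 1) (N - (N / 4 + 1)),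
      W k + W (N - k) ≤ 2 * (10005 / 10000) * th (xc N))
    (hS : 0 < Sw W N (N / 4 + 1))
    (m : ℕ) (hm : Odd m)
    (Ha : ∀ s : ℝ, 0 ≤ s → s ^ m ≤ ((s + 1 / 2) ^ m + (s - 1 / 2) ^ m) / 2) :
    (997 / 1000) * ∑ k ∈ Icc (N / 4 + 1) (N - (N / 4 + 1)),
      kw W N (N / 4 + 1) k / Sw W N (N / 4 + 1) * tk N k ^ (m + 1) ≤
    (10005 / 10000) * th (xc N) * ∑ k ∈ Icc (N / 4 + 1) (N - (N / 4 + 1)),
      kw W N (N / 4 + 1) k / Sw W N (N / 4 + 1) *
      (((tk N k + (xc N)⁻¹ / 2) ^ m - (tk N k - (xc N)⁻¹ / 2) ^ m) / 2) := by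
  have hx : 0 < xc N := by unfold xc; positivity
  have h1 := mk_main N hN W hpos F1 F2 m hm Ha
  have hs : ∀ k : ℕ, ((k : ℝ) - N / 2) = xc N * tk N k := by
    intro k
    unfold tk
    field_simp
  set x := xc N with hxdef
  have hxm : 0 < x ^ m := by positivity
  have hc : 0 < 2 * (x ^ m * Sw W N (N / 4 + 1)) := by positivity
  rw [← mul_le_mul_iff_right₀ hc]
  refine le_trans (le_of_eq ?_) (le_trans h1 (le_of_eq ?_))
  · rw [Finset.mul_sum, Finset.mul_sum]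
    apply Finset.sum_congr rfl
    intro k hk
    rw [hs k, mul_pow, pow_succ]
    field_simp
  · rw [Finset.mul_sum, Finset.mul_sum]
    apply Finset.sum_congr rfl
    intro k hk
    have e1 : ((k : ℝ) - N / 2) + 1 / 2 = x * (tk N k + x⁻¹ / 2) := by
      rw [hs k]; field_simp
    have e2 : ((k : ℝ) - N / 2) - 1 / 2 = x * (tk N k - x⁻¹ / 2) := by
      rw [hs k]; field_simp
    rw [e1, e2, mul_pow, mul_pow]
    field_simp

theorem mk_Ha1 (s : ℝ) (hs : 0 ≤ s) : s ^ 1 ≤ ((s + 1 / 2) ^ 1 + (s - 1 / 2) ^ 1) / 2 := by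
  rw [← sub_nonneg]
  have : ((s + 1 / 2) ^ 1 + (s - 1 / 2) ^ 1) / 2 - s ^ 1 = 0 := by ring
  rw [this]

theorem mk_Ha3 (s : ℝ) (hs : 0 ≤ s) : s ^ 3 ≤ ((s + 1 / 2) ^ 3 + (s - 1 / 2) ^ 3) / 2 := by
  rw [← sub_nonneg]
  have : ((s + 1 / 2) ^ 3 + (s - 1 / 2) ^ 3) / 2 - s ^ 3 = 3 / 4 * s := by ring
  rw [this]; positivity

theorem mk_Ha5 (s : ℝ) (hs : 0 ≤ s) : s ^ 5 ≤ ((s + 1 / 2) ^ 5 + (s - 1 / 2) ^ 5) / 2 := by
  rw [← sub_nonneg]
  have : ((s + 1 / 2) ^ 5 + (s - 1 / 2) ^ 5) / 2 - s ^ 5 = 10 / 4 * s ^ 3 + 5 / 16 * s := by ring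
  rw [this]; positivity

theorem mk_Ha7 (s : ℝ) (hs : 0 ≤ s) : s ^ 7 ≤ ((s + 1 / 2) ^ 7 + (s - 1 / 2) ^ 7) / 2 := by
  rw [← sub_nonneg]
  have : ((s + 1 / 2) ^ 7 + (s - 1 / 2) ^ 7) / 2 - s ^ 7 =
    21 / 4 * s ^ 5 + 35 / 16 * s ^ 3 + 7 / 64 * s := by ring
  rw [this]; positivity

theorem mk_Ha9 (s : ℝ) (hs : 0 ≤ s) : s ^ 9 ≤ ((s + 1 / 2) ^ 9 + (s - 1 / 2) ^ 9) / 2 := by
  rw [← sub_nonneg]
  have : ((s + 1 / 2) ^ 9 + (s - 1 / 2) ^ 9) / 2 - s ^ 9 =
    36 / 4 * s ^ 7 + 126 / 16 * s ^ 5 + 84 / 64 * s ^ 3 + 9 / 256 * s := by ring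
  rw [this]; positivity

theorem mk_Ha11 (s : ℝ) (hs : 0 ≤ s) : s ^ 11 ≤ ((s + 1 / 2) ^ 11 + (s - 1 / 2) ^ 11) / 2 := by
  rw [← sub_nonneg]
  have : ((s + 1 / 2) ^ 11 + (s - 1 / 2) ^ 11) / 2 - s ^ 11 =
    55 / 4 * s ^ 9 + 330 / 16 * s ^ 7 + 462 / 64 * s ^ 5 + 165 / 256 * s ^ 3 + 11 / 1024 * s := by ring
  rw [this]; positivity

/-! TARGET -/
theorem mom_kernel (N : ℕ) (hN : 4094 ≤ N) (W : ℕ → ℝ)
    (hpos : ∀ k ∈ Icc (N / 4 + 1) (N - (N / 4 + 1)), 0 < W k)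
    (F1 : ∀ k ∈ Icc (N / 4 + 1) (N - (N / 4 + 1)), N ≤ 2 * k →
      2 * (997 / 1000) * tk N k ≤ W k - W (N - k))
    (F2 : ∀ k ∈ Icc (N / 4 + 1) (N - (N / 4 + 1)),
      W k + W (N - k) ≤ 2 * (10005 / 10000) * th (xc N)) :
    MomOK (Icc (N / 4 + 1) (N - (N / 4 + 1)))
      (fun k => kw W N (N / 4 + 1) k / Sw W N (N / 4 + 1)) (tk N) (xc N) := by
  set k0 := N / 4 + 1 with hk0def
  set x := xc N with hxdef
  have hx : 0 < x := by rw [hxdef]; unfold xc; positivity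
  have hx2 : 2048 ≤ x := by
    rw [hxdef]; unfold xc
    have : (4094 : ℝ) ≤ N := by exact_mod_cast hN
    linarith
  have hW' : ∀ k ∈ Ioc k0 (N - k0), 0 < W k := by
    intro k hk
    apply hpos
    rw [Finset.mem_Ioc] at hk
    rw [Finset.mem_Icc]
    omega
  have hkw : ∀ k ∈ Icc k0 (N - k0), 0 < kw W N k0 k := fun k hk => kw_pos W N k0 k hW' hk
  have hS : 0 < Sw W N k0 := by
    unfold Sw
    apply Finset.sum_pos hkw
    refine ⟨k0, ?_⟩
    rw [Finset.mem_Icc]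
    omega
  have hsum : ∑ k ∈ Icc k0 (N - k0), kw W N k0 k / Sw W N k0 = 1 := by
    rw [← Finset.sum_div]
    exact div_self hS.ne'
  have hth : 72 / 10 ≤ th x := by
    unfold th c1
    have h1 : Real.log 2048 ≤ Real.log x := Real.log_le_log (by norm_num) hx2
    have h2 : Real.log 2048 = 11 * Real.log 2 := by
      rw [show (2048 : ℝ) = 2 ^ 11 by norm_num, Real.log_pow]
      norm_num
    have h3 := Real.log_two_gt_d9
    linarith
  refine ⟨fun k hk => (div_pos (hkw k hk) hS).le, hsum, ?_, ?_, ?_⟩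
  · intro k hk
    rw [Finset.mem_Icc] at hk
    unfold tk
    rw [abs_div, abs_of_pos hx, div_le_iff₀ hx, abs_le]
    have h1 : (N : ℝ) ≤ 4 * k := by
      have : N ≤ 4 * k := by omega
      exact_mod_cast this
    have h2 : (4 : ℝ) * k ≤ 3 * N := by
      have : 4 * k ≤ 3 * N := by omega
      exact_mod_cast this
    have h3 : x = ((N : ℝ) + 2) / 2 := rfl
    rw [h3]
    constructor <;> linarith
  · intro p hp
    have h1 := mk_refl N k0 (by omega) (fun k => kw W N k0 k / Sw W N k0 * tk N k ^ p)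
    have h2 : ∑ k ∈ Icc k0 (N - k0), kw W N k0 (N - k) / Sw W N k0 * tk N (N - k) ^ p
        = - ∑ k ∈ Icc k0 (N - k0), kw W N k0 k / Sw W N k0 * tk N k ^ p := by
      rw [← Finset.sum_neg_distrib]
      apply Finset.sum_congr rfl
      intro k hk
      rw [Finset.mem_Icc] at hk
      have hcast : ((N - k : ℕ) : ℝ) = (N : ℝ) - k := by
        rw [Nat.cast_sub (by omega)]
      have htk : tk N (N - k) = - tk N k := by
        unfold tk
        rw [hcast]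
        ring
      rw [kw_symm W N k0 k (by omega), htk, hp.neg_pow]
      ring
    linarith
  · -- even moments
    set r := th x / x with hr
    set u := x⁻¹ with hu
    have hu0 : 0 < u := by rw [hu]; positivity
    have hr0 : 0 < r := by rw [hr]; positivity
    have hru : th x * u = r := by rw [hr, hu]; rfl
    have hv : u ^ 2 ≤ r / 14000 := by
      rw [← hru]
      have h1 : u * x = 1 := by rw [hu]; exact inv_mul_cancel₀ hx.ne'
      have h2 : u * 2048 ≤ 1 := by rw [← h1]; exact mul_le_mul_of_nonneg_left hx2 hu0.le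
      nlinarith
    set v := u ^ 2 with hvdef
    have hv0 : 0 ≤ v := by positivity
    obtain ⟨μ, hμ⟩ : ∃ μ : ℕ → ℝ, ∀ j, μ j = ∑ k ∈ Icc k0 (N - k0),
      kw W N k0 k / Sw W N k0 * tk N k ^ (2 * j) := ⟨_, fun j => rfl⟩
    have hμ0 : μ 0 = 1 := by
      rw [hμ]
      simpa using hsum
    have hμnn : ∀ j, 0 ≤ μ j := by
      intro j
      rw [hμ]
      apply Finset.sum_nonneg
      intro k hk
      have := (div_pos (hkw k hk) hS).le
      have h2 : 0 ≤ tk N k ^ (2 * j) := by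
        rw [pow_mul]; positivity
      positivity
    have S1 := mk_scaled N hN W hpos F1 F2 hS 1 (by decide) mk_Ha1
    have S3 := mk_scaled N hN W hpos F1 F2 hS 3 (by decide) mk_Ha3
    have S5 := mk_scaled N hN W hpos F1 F2 hS 5 (by decide) mk_Ha5
    have S7 := mk_scaled N hN W hpos F1 F2 hS 7 (by decide) mk_Ha7
    have S9 := mk_scaled N hN W hpos F1 F2 hS 9 (by decide) mk_Ha9
    have S11 := mk_scaled N hN W hpos F1 F2 hS 11 (by decide) mk_Ha11
    rw [← hk0def, ← hxdef, ← hu] at S1 S3 S5 S7 S9 S11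
    have R1 : ∑ k ∈ Icc k0 (N - k0), kw W N k0 k / Sw W N k0 *
        (((tk N k + u / 2) ^ 1 - (tk N k - u / 2) ^ 1) / 2) = u * (1 / 2 * μ 0) := by
      simp only [hμ]
      simp only [Finset.mul_sum, ← Finset.sum_add_distrib]
      apply Finset.sum_congr rfl
      intro k hk
      ring
    have R3 : ∑ k ∈ Icc k0 (N - k0), kw W N k0 k / Sw W N k0 *
        (((tk N k + u / 2) ^ 3 - (tk N k - u / 2) ^ 3) / 2) =
        u * (3 / 2 * μ 1 + 1 / 8 * (v * μ 0)) := by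
      simp only [hμ, hvdef]
      simp only [Finset.mul_sum, ← Finset.sum_add_distrib]
      apply Finset.sum_congr rfl
      intro k hk
      ring
    have R5 : ∑ k ∈ Icc k0 (N - k0), kw W N k0 k / Sw W N k0 *
        (((tk N k + u / 2) ^ 5 - (tk N k - u / 2) ^ 5) / 2) =
        u * (5 / 2 * μ 2 + 10 / 8 * (v * μ 1) + 1 / 32 * (v ^ 2 * μ 0)) := by
      simp only [hμ, hvdef]
      simp only [Finset.mul_sum, ← Finset.sum_add_distrib]
      apply Finset.sum_congr rfl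
      intro k hk
      ring
    have R7 : ∑ k ∈ Icc k0 (N - k0), kw W N k0 k / Sw W N k0 *
        (((tk N k + u / 2) ^ 7 - (tk N k - u / 2) ^ 7) / 2) =
        u * (7 / 2 * μ 3 + 35 / 8 * (v * μ 2) + 21 / 32 * (v ^ 2 * μ 1) + 1 / 128 * (v ^ 3 * μ 0)) := by
      simp only [hμ, hvdef]
      simp only [Finset.mul_sum, ← Finset.sum_add_distrib]
      apply Finset.sum_congr rfl
      intro k hk
      ring
    have R9 : ∑ k ∈ Icc k0 (N - k0), kw W N k0 k / Sw W N k0 *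
        (((tk N k + u / 2) ^ 9 - (tk N k - u / 2) ^ 9) / 2) =
        u * (9 / 2 * μ 4 + 84 / 8 * (v * μ 3) + 126 / 32 * (v ^ 2 * μ 2) + 36 / 128 * (v ^ 3 * μ 1)
          + 1 / 512 * (v ^ 4 * μ 0)) := by
      simp only [hμ, hvdef]
      simp only [Finset.mul_sum, ← Finset.sum_add_distrib]
      apply Finset.sum_congr rfl
      intro k hk
      ring
    have R11 : ∑ k ∈ Icc k0 (N - k0), kw W N k0 k / Sw W N k0 *
        (((tk N k + u / 2) ^ 11 - (tk N k - u / 2) ^ 11) / 2) =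
        u * (11 / 2 * μ 5 + 165 / 8 * (v * μ 4) + 462 / 32 * (v ^ 2 * μ 3) + 330 / 128 * (v ^ 3 * μ 2)
          + 55 / 512 * (v ^ 4 * μ 1) + 1 / 2048 * (v ^ 5 * μ 0)) := by
      simp only [hμ, hvdef]
      simp only [Finset.mul_sum, ← Finset.sum_add_distrib]
      apply Finset.sum_congr rfl
      intro k hk
      ring
    rw [R1, ← mul_assoc, mul_assoc _ (th x) u, hru] at S1
    rw [R3, ← mul_assoc, mul_assoc _ (th x) u, hru] at S3
    rw [R5, ← mul_assoc, mul_assoc _ (th x) u, hru] at S5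
    rw [R7, ← mul_assoc, mul_assoc _ (th x) u, hru] at S7
    rw [R9, ← mul_assoc, mul_assoc _ (th x) u, hru] at S9
    rw [R11, ← mul_assoc, mul_assoc _ (th x) u, hru] at S11
    have M1 : (997 / 1000) * μ 1 ≤ 10005 / 10000 * r * (1 / 2 * μ 0) := by rw [hμ 1]; exact S1
    have M2 : (997 / 1000) * μ 2 ≤ 10005 / 10000 * r * (3 / 2 * μ 1 + 1 / 8 * (v * μ 0)) := by
      rw [hμ 2]; exact S3
    have M3 : (997 / 1000) * μ 3 ≤ 10005 / 10000 * r *
        (5 / 2 * μ 2 + 10 / 8 * (v * μ 1) + 1 / 32 * (v ^ 2 * μ 0)) := by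
      rw [hμ 3]; exact S5
    have M4 : (997 / 1000) * μ 4 ≤ 10005 / 10000 * r *
        (7 / 2 * μ 3 + 35 / 8 * (v * μ 2) + 21 / 32 * (v ^ 2 * μ 1) + 1 / 128 * (v ^ 3 * μ 0)) := by
      rw [hμ 4]; exact S7
    have M5 : (997 / 1000) * μ 5 ≤ 10005 / 10000 * r *
        (9 / 2 * μ 4 + 84 / 8 * (v * μ 3) + 126 / 32 * (v ^ 2 * μ 2) + 36 / 128 * (v ^ 3 * μ 1)
          + 1 / 512 * (v ^ 4 * μ 0)) := by
      rw [hμ 5]; exact S9
    have M6 : (997 / 1000) * μ 6 ≤ 10005 / 10000 * r *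
        (11 / 2 * μ 5 + 165 / 8 * (v * μ 4) + 462 / 32 * (v ^ 2 * μ 3) + 330 / 128 * (v ^ 3 * μ 2)
          + 55 / 512 * (v ^ 4 * μ 1) + 1 / 2048 * (v ^ 5 * μ 0)) := by
      rw [hμ 6]; exact S11
    clear S1 S3 S5 S7 S9 S11 R1 R3 R5 R7 R9 R11
    have key : ∀ (i a : ℕ) (c : ℝ), 0 ≤ c → μ a ≤ c * r ^ a →
        v ^ i * μ a ≤ (1 / 14000) ^ i * c * r ^ (a + i) := by
      intro i a c hc ha
      have h1 : v ^ i ≤ (r / 14000) ^ i := pow_le_pow_left₀ hv0 hv i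
      calc v ^ i * μ a ≤ (r / 14000) ^ i * (c * r ^ a) :=
            mul_le_mul h1 ha (hμnn a) (by positivity)
        _ = (1 / 14000) ^ i * c * r ^ (a + i) := by
            rw [div_eq_mul_inv, mul_pow, pow_add]
            ring
    have B0 : μ 0 ≤ 1 * r ^ 0 := by rw [hμ0]; norm_num
    have B1 : μ 1 ≤ (502 / 1000) * r ^ 1 := by
      rw [hμ0] at M1
      nlinarith
    have B2 : μ 2 ≤ (756 / 1000) * r ^ 2 := by
      have k1 := key 1 0 1 (by norm_num) B0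
      have k2 : r * (3 / 2 * μ 1 + 1 / 8 * (v * μ 0)) ≤
          r * (3 / 2 * ((502 / 1000) * r ^ 1) + 1 / 8 * ((1 / 14000) ^ 1 * 1 * r ^ (0 + 1))) := by
        apply mul_le_mul_of_nonneg_left _ hr0.le
        rw [pow_one] at k1
        linarith
      have k3 : 0 ≤ r ^ 2 := by positivity
      have k4 : r * (3 / 2 * ((502 / 1000) * r ^ 1) + 1 / 8 * ((1 / 14000) ^ 1 * 1 * r ^ (0 + 1)))
        = (3 / 2 * (502 / 1000) + 1 / 8 * (1 / 14000)) * r ^ 2 := by ring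
      rw [k4] at k2
      linarith
    have B3 : μ 3 ≤ (1898 / 1000) * r ^ 3 := by
      have k1 := key 1 1 _ (by norm_num) B1
      have k2 := key 2 0 _ (by norm_num) B0
      have k5 : r * (5 / 2 * μ 2 + 10 / 8 * (v * μ 1) + 1 / 32 * (v ^ 2 * μ 0)) ≤
          r * (5 / 2 * ((756 / 1000) * r ^ 2) + 10 / 8 * ((1 / 14000) ^ 1 * (502 / 1000) * r ^ (1 + 1))
            + 1 / 32 * ((1 / 14000) ^ 2 * 1 * r ^ (0 + 2))) := by
        apply mul_le_mul_of_nonneg_left _ hr0.le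
        rw [pow_one] at k1
        linarith
      have k3 : 0 ≤ r ^ 3 := by positivity
      have k4 : r * (5 / 2 * ((756 / 1000) * r ^ 2) + 10 / 8 * ((1 / 14000) ^ 1 * (502 / 1000) * r ^ (1 + 1))
            + 1 / 32 * ((1 / 14000) ^ 2 * 1 * r ^ (0 + 2)))
        = (5 / 2 * (756 / 1000) + 10 / 8 * (1 / 14000) * (502 / 1000) + 1 / 32 * (1 / 14000) ^ 2) * r ^ 3 := by ring
      rw [k4] at k5
      linarith
    have B4 : μ 4 ≤ (667 / 100) * r ^ 4 := by
      have k1 := key 1 2 _ (by norm_num) B2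
      have k2 := key 2 1 _ (by norm_num) B1
      have k6 := key 3 0 _ (by norm_num) B0
      have k5 : r * (7 / 2 * μ 3 + 35 / 8 * (v * μ 2) + 21 / 32 * (v ^ 2 * μ 1) + 1 / 128 * (v ^ 3 * μ 0)) ≤
          r * (7 / 2 * ((1898 / 1000) * r ^ 3) + 35 / 8 * ((1 / 14000) ^ 1 * (756 / 1000) * r ^ (2 + 1))
            + 21 / 32 * ((1 / 14000) ^ 2 * (502 / 1000) * r ^ (1 + 2))
            + 1 / 128 * ((1 / 14000) ^ 3 * 1 * r ^ (0 + 3))) := by
        apply mul_le_mul_of_nonneg_left _ hr0.le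
        rw [pow_one] at k1
        linarith
      have k3 : 0 ≤ r ^ 4 := by positivity
      have k4 : r * (7 / 2 * ((1898 / 1000) * r ^ 3) + 35 / 8 * ((1 / 14000) ^ 1 * (756 / 1000) * r ^ (2 + 1))
            + 21 / 32 * ((1 / 14000) ^ 2 * (502 / 1000) * r ^ (1 + 2))
            + 1 / 128 * ((1 / 14000) ^ 3 * 1 * r ^ (0 + 3)))
        = (7 / 2 * (1898 / 1000) + 35 / 8 * (1 / 14000) * (756 / 1000) + 21 / 32 * (1 / 14000) ^ 2 * (502 / 1000)
          + 1 / 128 * (1 / 14000) ^ 3) * r ^ 4 := by ring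
      rw [k4] at k5
      linarith
    have B5 : μ 5 ≤ (3013 / 100) * r ^ 5 := by
      have k1 := key 1 3 _ (by norm_num) B3
      have k2 := key 2 2 _ (by norm_num) B2
      have k6 := key 3 1 _ (by norm_num) B1
      have k7 := key 4 0 _ (by norm_num) B0
      have k5 : r * (9 / 2 * μ 4 + 84 / 8 * (v * μ 3) + 126 / 32 * (v ^ 2 * μ 2) + 36 / 128 * (v ^ 3 * μ 1)
          + 1 / 512 * (v ^ 4 * μ 0)) ≤
          r * (9 / 2 * ((667 / 100) * r ^ 4) + 84 / 8 * ((1 / 14000) ^ 1 * (1898 / 1000) * r ^ (3 + 1))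
            + 126 / 32 * ((1 / 14000) ^ 2 * (756 / 1000) * r ^ (2 + 2))
            + 36 / 128 * ((1 / 14000) ^ 3 * (502 / 1000) * r ^ (1 + 3))
            + 1 / 512 * ((1 / 14000) ^ 4 * 1 * r ^ (0 + 4))) := by
        apply mul_le_mul_of_nonneg_left _ hr0.le
        rw [pow_one] at k1
        linarith
      have k3 : 0 ≤ r ^ 5 := by positivity
      have k4 : r * (9 / 2 * ((667 / 100) * r ^ 4) + 84 / 8 * ((1 / 14000) ^ 1 * (1898 / 1000) * r ^ (3 + 1))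
            + 126 / 32 * ((1 / 14000) ^ 2 * (756 / 1000) * r ^ (2 + 2))
            + 36 / 128 * ((1 / 14000) ^ 3 * (502 / 1000) * r ^ (1 + 3))
            + 1 / 512 * ((1 / 14000) ^ 4 * 1 * r ^ (0 + 4)))
        = (9 / 2 * (667 / 100) + 84 / 8 * (1 / 14000) * (1898 / 1000) + 126 / 32 * (1 / 14000) ^ 2 * (756 / 1000)
          + 36 / 128 * (1 / 14000) ^ 3 * (502 / 1000) + 1 / 512 * (1 / 14000) ^ 4) * r ^ 5 := by ring
      rw [k4] at k5
      linarith
    have B6 : μ 6 ≤ (1664 / 10) * r ^ 6 := by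
      have k1 := key 1 4 _ (by norm_num) B4
      have k2 := key 2 3 _ (by norm_num) B3
      have k6 := key 3 2 _ (by norm_num) B2
      have k7 := key 4 1 _ (by norm_num) B1
      have k8 := key 5 0 _ (by norm_num) B0
      have k5 : r * (11 / 2 * μ 5 + 165 / 8 * (v * μ 4) + 462 / 32 * (v ^ 2 * μ 3) + 330 / 128 * (v ^ 3 * μ 2)
          + 55 / 512 * (v ^ 4 * μ 1) + 1 / 2048 * (v ^ 5 * μ 0)) ≤
          r * (11 / 2 * ((3013 / 100) * r ^ 5) + 165 / 8 * ((1 / 14000) ^ 1 * (667 / 100) * r ^ (4 + 1))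
            + 462 / 32 * ((1 / 14000) ^ 2 * (1898 / 1000) * r ^ (3 + 2))
            + 330 / 128 * ((1 / 14000) ^ 3 * (756 / 1000) * r ^ (2 + 3))
            + 55 / 512 * ((1 / 14000) ^ 4 * (502 / 1000) * r ^ (1 + 4))
            + 1 / 2048 * ((1 / 14000) ^ 5 * 1 * r ^ (0 + 5))) := by
        apply mul_le_mul_of_nonneg_left _ hr0.le
        rw [pow_one] at k1
        linarith
      have k3 : 0 ≤ r ^ 6 := by positivity
      have k4 : r * (11 / 2 * ((3013 / 100) * r ^ 5) + 165 / 8 * ((1 / 14000) ^ 1 * (667 / 100) * r ^ (4 + 1))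
            + 462 / 32 * ((1 / 14000) ^ 2 * (1898 / 1000) * r ^ (3 + 2))
            + 330 / 128 * ((1 / 14000) ^ 3 * (756 / 1000) * r ^ (2 + 3))
            + 55 / 512 * ((1 / 14000) ^ 4 * (502 / 1000) * r ^ (1 + 4))
            + 1 / 2048 * ((1 / 14000) ^ 5 * 1 * r ^ (0 + 5)))
        = (11 / 2 * (3013 / 100) + 165 / 8 * (1 / 14000) * (667 / 100) + 462 / 32 * (1 / 14000) ^ 2 * (1898 / 1000)
          + 330 / 128 * (1 / 14000) ^ 3 * (756 / 1000) + 55 / 512 * (1 / 14000) ^ 4 * (502 / 1000)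
          + 1 / 2048 * (1 / 14000) ^ 5) * r ^ 6 := by ring
      rw [k4] at k5
      linarith
    intro j hj1 hj6
    rw [← hμ j]
    interval_cases j
    · exact B1
    · exact B2
    · exact B3
    · exact B4
    · exact B5
    · exact B6

end MMom
end Pool.Agent.Helper155.Gil
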