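import Pool.Agent.Helper155.Gil.Defs

set_option autoImplicit false
open Finset Filter Topology

namespace Pool.Agent.Helper155.Gil
namespace MQJ
theorem sinb (v : ℝ) : |Real.sin v - v| ≤ |v| ^ 3 / 6 := by
  rcases le_total 0 v with h | h
  · have h1 := Real.sin_ge_sub_cube h
    have h2 := Real.sin_le h
    rw [abs_of_nonneg h, abs_le]
    constructor <;> linarith [pow_nonneg h 3]
  · have h' : 0 ≤ -v := by linarith
    have h1 := Real.sin_ge_sub_cube h'
    have h2 := Real.sin_le h'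
    rw [Real.sin_neg] at h1 h2
    rw [abs_of_nonpos h, abs_le]
    constructor <;> linarith [pow_nonneg h' 3]

theorem cosb (v : ℝ) : |Real.cos v - 1| ≤ v ^ 2 / 2 := by
  have h1 := Real.one_sub_sq_div_two_le_cos (x := v)
  have h2 := Real.cos_le_one v
  rw [abs_le]
  constructor <;> linarith [sq_nonneg v]

theorem logb {t : ℝ} (ht : |t| ≤ 1 / 2) :
    |Real.log (1 + t) - t + t ^ 2 / 2| ≤ 2 * |t| ^ 3 := by
  have h0 : |(-t)| < 1 := by rw [abs_neg]; linarith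
  have h1 := Real.abs_log_sub_add_sum_range_le h0 2
  simp only [Finset.sum_range_succ, Finset.sum_range_zero, abs_neg] at h1
  have e : Real.log (1 + t) - t + t ^ 2 / 2 =
      0 + (-t) ^ (0 + 1) / (((0 : ℕ) : ℝ) + 1) + (-t) ^ (1 + 1) / (((1 : ℕ) : ℝ) + 1)
        + Real.log (1 - -t) := by
    rw [sub_neg_eq_add]
    push_cast
    ring
  rw [e]
  refine h1.trans ?_
  rw [div_le_iff₀ (by linarith)]
  have h3 : 0 ≤ |t| ^ 3 := pow_nonneg (abs_nonneg t) 3
  norm_num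
  nlinarith

theorem omb : 0 < 2 * Real.pi / Real.log 2 ∧ 2 * Real.pi / Real.log 2 ≤ 9.065 := by
  have h1 := Real.log_two_gt_d9
  have h2 := Real.pi_lt_d6
  have h3 := Real.pi_pos
  constructor
  · positivity
  · rw [div_le_iff₀ (by linarith)]
    linarith

theorem thb {x : ℝ} (hx : 2048 ≤ x) : 7.28 ≤ th x ∧ th x / x ≤ 0.00356 := by
  have hx0 : 0 < x := by linarith
  have h1 := Real.log_two_gt_d9
  have h2 := Real.log_two_lt_d9
  have h3 : Real.log 2048 = 11 * Real.log 2 := by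
    rw [show (2048 : ℝ) = 2 ^ 11 by norm_num, Real.log_pow]
    norm_num
  have h4 : Real.log 2048 ≤ Real.log x := Real.log_le_log (by norm_num) hx
  have h5 : Real.log x ≤ Real.log 2048 + (x / 2048 - 1) := by
    have h6 := Real.log_le_sub_one_of_pos (x := x / 2048) (by positivity)
    rw [Real.log_div hx0.ne' (by norm_num)] at h6
    linarith
  constructor
  · unfold th c1
    linarith
  · rw [div_le_iff₀ hx0]
    unfold th c1
    linarith

/-- linear coefficient -/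
noncomputable def a1f (u θ : ℝ) : ℝ :=
  (-(1 / 2) + (θ / 8 - 40342641 / 200000000) * u + (1061407 / 5000000 * θ - 8147 / 100000) * u ^ 2
    + (-(781 / 50000) * θ ^ 3 - 33 / 12500 * θ ^ 2 + 4911 / 20000 * θ - 787 / 50000) * u ^ 3)

theorem Gb {u e θ τ : ℝ} (he : e = θ * u) (he0 : 0 ≤ e) (he1 : e ≤ 0.00356) (hu0 : 0 ≤ u)
    (hu1 : u ≤ 0.00049) (hτ : |τ| ≤ 0.501) :
    |a1f u θ| ≤ 0.501 ∧ |GG u θ τ - a1f u θ * τ| ≤ 0.0501 * τ ^ 2 ∧ |GG u θ τ| ≤ 0.53 * |τ| := by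
  have m1 : 0 ≤ e * u := mul_nonneg he0 hu0
  have m1' : e * u ≤ 0.00356 * 0.00049 := mul_le_mul he1 hu1 hu0 (by norm_num)
  have m2 : 0 ≤ u ^ 2 := sq_nonneg u
  have m2' : u ^ 2 ≤ 0.00049 ^ 2 := pow_le_pow_left₀ hu0 hu1 2
  have m3 : 0 ≤ e ^ 2 := sq_nonneg e
  have m3' : e ^ 2 ≤ 0.00356 ^ 2 := pow_le_pow_left₀ he0 he1 2
  have m4 : 0 ≤ u ^ 3 := pow_nonneg hu0 3
  have m4' : u ^ 3 ≤ 0.00049 ^ 3 := pow_le_pow_left₀ hu0 hu1 3
  have m5 : 0 ≤ e ^ 3 := pow_nonneg he0 3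
  have m5' : e ^ 3 ≤ 0.00356 ^ 3 := pow_le_pow_left₀ he0 he1 3
  have m6 : 0 ≤ e ^ 2 * u := mul_nonneg m3 hu0
  have m6' : e ^ 2 * u ≤ 0.00356 ^ 2 * 0.00049 := mul_le_mul m3' hu1 hu0 (by norm_num)
  have m7 : 0 ≤ e * u ^ 2 := mul_nonneg he0 m2
  have m7' : e * u ^ 2 ≤ 0.00356 * 0.00049 ^ 2 := mul_le_mul he1 m2' m2 (by norm_num)
  have ea1 : a1f u θ = -(1 / 2) + e / 8 - 40342641 / 200000000 * u + 1061407 / 5000000 * (e * u)
      - 8147 / 100000 * u ^ 2 - (781 / 50000) * e ^ 3 - 33 / 12500 * (e ^ 2 * u)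
      + 4911 / 20000 * (e * u ^ 2) - 787 / 50000 * u ^ 3 := by
    unfold a1f; rw [he]; ring
  set a3 : ℝ := -(1 / 12) + (5 / 72 * θ - 2050233 / 10000000) * u
    + (347 / 100000 * θ ^ 2 + 7143 / 25000 * θ - 16989 / 50000) * u ^ 2 with ha3
  set a5 : ℝ := -(7 / 180) + (2847 / 50000 * θ - 19719 / 100000) * u with ha5
  have ea3 : a3 = -(1 / 12) + 5 / 72 * e - 2050233 / 10000000 * u + 347 / 100000 * e ^ 2
      + 7143 / 25000 * (e * u) - 16989 / 50000 * u ^ 2 := by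
    rw [ha3, he]; ring
  have ea5 : a5 = -(7 / 180) + 2847 / 50000 * e - 19719 / 100000 * u := by
    rw [ha5, he]; ring
  have b1 : |a1f u θ| ≤ 0.501 := by
    rw [ea1, abs_le]
    constructor
    · norm_num at *; linarith
    · norm_num at *; linarith
  have b3 : |a3| ≤ 0.0844 := by
    rw [ea3, abs_le]
    constructor
    · norm_num at *; linarith
    · norm_num at *; linarith
  have b5 : |a5| ≤ 0.0399 := by
    rw [ea5, abs_le]
    constructor
    · norm_num at *; linarith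
    · norm_num at *; linarith
  have eG : GG u θ τ = a1f u θ * τ + (a3 * τ ^ 3 + a5 * τ ^ 5 - 181 / 7560 * τ ^ 7) := by
    rw [ha3, ha5]; unfold GG a1f; ring
  set T := |τ| with hT
  have hT0 : 0 ≤ T := abs_nonneg τ
  have hT2 : T ^ 2 = τ ^ 2 := sq_abs τ
  have hR : |a3 * τ ^ 3 + a5 * τ ^ 5 - 181 / 7560 * τ ^ 7| ≤ 0.1 * T ^ 3 := by
    have c1 : |a3 * τ ^ 3| ≤ 0.0844 * T ^ 3 := by
      rw [abs_mul, abs_pow]
      exact mul_le_mul_of_nonneg_right b3 (pow_nonneg hT0 3)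
    have c2 : |a5 * τ ^ 5| ≤ 0.0399 * T ^ 5 := by
      rw [abs_mul, abs_pow]
      exact mul_le_mul_of_nonneg_right b5 (pow_nonneg hT0 5)
    have c3 : |181 / 7560 * τ ^ 7| = 181 / 7560 * T ^ 7 := by
      rw [abs_mul, abs_pow, abs_of_pos (by norm_num : (0 : ℝ) < 181 / 7560)]
    have c4 : T ^ 2 ≤ 0.2511 := by
      have := pow_le_pow_left₀ hT0 hτ 2
      norm_num at this ⊢; linarith
    have c5 : T ^ 5 ≤ 0.2511 * T ^ 3 := by
      have : T ^ 5 = T ^ 2 * T ^ 3 := by ring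
      rw [this]; exact mul_le_mul_of_nonneg_right c4 (pow_nonneg hT0 3)
    have c6 : T ^ 7 ≤ 0.2511 * T ^ 5 := by
      have : T ^ 7 = T ^ 2 * T ^ 5 := by ring
      rw [this]; exact mul_le_mul_of_nonneg_right c4 (pow_nonneg hT0 5)
    have c7 : 0 ≤ T ^ 3 := pow_nonneg hT0 3
    calc |a3 * τ ^ 3 + a5 * τ ^ 5 - 181 / 7560 * τ ^ 7|
        ≤ |a3 * τ ^ 3 + a5 * τ ^ 5| + |181 / 7560 * τ ^ 7| := abs_sub _ _
      _ ≤ |a3 * τ ^ 3| + |a5 * τ ^ 5| + |181 / 7560 * τ ^ 7| := by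
          linarith [abs_add_le (a3 * τ ^ 3) (a5 * τ ^ 5)]
      _ ≤ 0.0844 * T ^ 3 + 0.0399 * T ^ 5 + 181 / 7560 * T ^ 7 := by rw [c3]; linarith
      _ ≤ 0.1 * T ^ 3 := by norm_num at *; linarith
  have hT3 : T ^ 3 ≤ 0.501 * T ^ 2 := by
    have : T ^ 3 = T * T ^ 2 := by ring
    rw [this]; exact mul_le_mul_of_nonneg_right hτ (sq_nonneg T)
  have hT3' : T ^ 3 ≤ 0.251001 * T := by
    have : T ^ 3 = T ^ 2 * T := by ring
    rw [this]
    apply mul_le_mul_of_nonneg_right _ hT0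
    have := pow_le_pow_left₀ hT0 hτ 2
    norm_num at this ⊢; linarith
  refine ⟨b1, ?_, ?_⟩
  · rw [eG, add_sub_cancel_left, ← hT2]
    linarith
  · rw [eG]
    have d1 : |a1f u θ * τ| ≤ 0.501 * T := by
      rw [abs_mul]; exact mul_le_mul_of_nonneg_right b1 hT0
    refine (abs_add_le _ _).trans ?_
    norm_num at *; linarith

theorem ptb {u e θ ω t : ℝ} (he : e = θ * u) (he0 : 0 ≤ e) (he1 : e ≤ 0.00356) (hu0 : 0 ≤ u)
    (hu1 : u ≤ 0.00049) (hω0 : 0 < ω) (hω : ω ≤ 9.065) (ht : |t| ≤ 1 / 2) :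
    |Real.cos (ω * Real.log (1 + t)) * (1 - GG u θ (t - u / 2)) - 1
        + a1f u θ * (t - u / 2)| +
    |Real.sin (ω * Real.log (1 + t)) * (1 - GG u θ (t - u / 2)) - ω * t| ≤
      58.6 * t ^ 2 - 41.09 * t ^ 3 + 2830 * t ^ 4 + 13 * u ^ 2 := by
  set l := Real.log (1 + t) with hl
  set τ := t - u / 2 with hτ
  set s := |t| with hs
  have hs0 : 0 ≤ s := abs_nonneg t
  have hT : |τ| ≤ s + u / 2 := by
    rw [hτ]
    refine (abs_sub _ _).trans ?_
    rw [abs_of_nonneg (by linarith : 0 ≤ u / 2)]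
  have hT1 : |τ| ≤ 0.501 := by norm_num at *; linarith
  obtain ⟨b1, b2, b3⟩ := Gb he he0 he1 hu0 hu1 hT1
  set G := GG u θ τ with hG
  set a1 := a1f u θ with ha1
  clear_value G a1
  have hr := logb ht
  rw [← hl, ← hs] at hr
  set r := l - t + t ^ 2 / 2 with hrdef
  have hl' : l = t - t ^ 2 / 2 + r := by rw [hrdef]; ring
  have hs2 : s ^ 2 = t ^ 2 := sq_abs t
  have hs3 : 0 ≤ s ^ 3 := pow_nonneg hs0 3
  have hs4 : s ^ 4 = t ^ 4 := by
    rw [show s ^ 4 = (s ^ 2) ^ 2 by ring, hs2]; ring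
  have hs4' : 0 ≤ s ^ 4 := pow_nonneg hs0 4
  have hs3h : s ^ 3 ≤ 1 / 2 * s ^ 2 := by
    have : s ^ 3 = s * s ^ 2 := by ring
    rw [this]; exact mul_le_mul_of_nonneg_right ht (sq_nonneg s)
  have hs5 : s ^ 5 ≤ 1 / 2 * s ^ 4 := by
    have : s ^ 5 = s * s ^ 4 := by ring
    rw [this]; exact mul_le_mul_of_nonneg_right ht hs4'
  have hs6 : s ^ 6 ≤ 1 / 4 * s ^ 4 := by
    have : s ^ 6 = s * s ^ 5 := by ring
    rw [this]
    have := mul_le_mul ht hs5 (pow_nonneg hs0 5) (by norm_num)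
    linarith
  -- |l - t|
  have hlt : |l - t| ≤ s ^ 2 / 2 + 2 * s ^ 3 := by
    have : l - t = r - t ^ 2 / 2 := by rw [hrdef]; ring
    rw [this]
    refine (abs_sub _ _).trans ?_
    rw [abs_of_nonneg (by positivity : 0 ≤ t ^ 2 / 2), hs2]
    linarith
  have hL : |l| ≤ s + 1.5 * s ^ 2 := by
    have : |l| ≤ |l - t| + |t| := by
      have := abs_add_le (l - t) t
      rwa [sub_add_cancel] at this
    rw [← hs] at this
    norm_num
    linarith
  have hl2 : l ^ 2 ≤ t ^ 2 - t ^ 3 + 6.25 * t ^ 4 := by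
    have e1 : l ^ 2 = t ^ 2 - t ^ 3 + t ^ 4 / 4 + 2 * (r * (t - t ^ 2 / 2)) + r ^ 2 := by
      rw [hl']; ring
    have e2 : r ^ 2 ≤ 4 * s ^ 6 := by
      have := pow_le_pow_left₀ (abs_nonneg r) hr 2
      rw [sq_abs] at this
      linarith [this, show (2 * s ^ 3) ^ 2 = 4 * s ^ 6 by ring]
    have e3 : |t - t ^ 2 / 2| ≤ s + s ^ 2 / 2 := by
      refine (abs_sub _ _).trans ?_
      rw [abs_of_nonneg (by positivity : 0 ≤ t ^ 2 / 2), hs2]
    have e4 : r * (t - t ^ 2 / 2) ≤ 2 * s ^ 3 * (s + s ^ 2 / 2) := by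
      refine (le_abs_self _).trans ?_
      rw [abs_mul]
      exact mul_le_mul hr e3 (abs_nonneg _) (by positivity)
    have e5 : 2 * s ^ 3 * (s + s ^ 2 / 2) = 2 * s ^ 4 + s ^ 5 := by ring
    rw [e1, ← hs4]
    norm_num
    linarith
  have hl2' : l ^ 2 ≤ 3.0625 * s ^ 2 := by
    have h1 : |l| ≤ 1.75 * s := by
      have : s ^ 2 ≤ 1 / 2 * s := by
        have : s ^ 2 = s * s := by ring
        rw [this]; exact mul_le_mul_of_nonneg_right ht hs0
      norm_num at *; linarith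
    have h2 := pow_le_pow_left₀ (abs_nonneg l) h1 2
    rw [sq_abs] at h2
    have h3 : (1.75 * s) ^ 2 = 3.0625 * s ^ 2 := by norm_num; ring
    rw [h3] at h2; exact h2
  have hl3 : |l| ^ 3 ≤ s ^ 3 + 8.72 * s ^ 4 := by
    have h1 := pow_le_pow_left₀ (abs_nonneg l) hL 3
    have h2 : (s + 1.5 * s ^ 2) ^ 3 = s ^ 3 + 4.5 * s ^ 4 + 6.75 * s ^ 5 + 3.375 * s ^ 6 := by
      norm_num; ring
    rw [h2] at h1
    norm_num at h1 ⊢
    linarith
  -- A
  have hω2 : ω ^ 2 / 2 ≤ 41.09 := by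
    have := pow_le_pow_left₀ hω0.le hω 2
    norm_num at this ⊢; linarith
  have hω3 : ω ^ 3 / 6 ≤ 124.17 := by
    have := pow_le_pow_left₀ hω0.le hω 3
    norm_num at this ⊢; linarith
  have hv2 : (ω * l) ^ 2 / 2 ≤ 41.09 * l ^ 2 := by
    have : (ω * l) ^ 2 / 2 = ω ^ 2 / 2 * l ^ 2 := by ring
    rw [this]; exact mul_le_mul_of_nonneg_right hω2 (sq_nonneg l)
  have hcos := cosb (ω * l)
  have hsin := sinb (ω * l)
  have hA : |Real.cos (ω * l) * (1 - G) - 1 + a1 * τ| ≤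
      41.09 * (t ^ 2 - t ^ 3 + 6.25 * t ^ 4) + 0.0501 * (2 * s ^ 2 + u ^ 2 / 2)
        + (66.7 * s ^ 3 + 33.4 * (s ^ 2 * u)) := by
    have e1 : Real.cos (ω * l) * (1 - G) - 1 + a1 * τ =
        (Real.cos (ω * l) - 1) - (G - a1 * τ) - (Real.cos (ω * l) - 1) * G := by ring
    have e2 : |(Real.cos (ω * l) - 1) * G| ≤ 66.7 * s ^ 3 + 33.4 * (s ^ 2 * u) := by
      rw [abs_mul]
      have f1 : |Real.cos (ω * l) - 1| ≤ 41.09 * (3.0625 * s ^ 2) := by
        refine hcos.trans (hv2.trans ?_)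
        exact mul_le_mul_of_nonneg_left hl2' (by norm_num)
      have f2 : |G| ≤ 0.53 * (s + u / 2) := b3.trans (mul_le_mul_of_nonneg_left hT (by norm_num))
      refine (mul_le_mul f1 f2 (abs_nonneg _) (by positivity)).trans ?_
      have f3 : 41.09 * (3.0625 * s ^ 2) * (0.53 * (s + u / 2)) =
        41.09 * 3.0625 * 0.53 * s ^ 3 + 41.09 * 3.0625 * 0.53 / 2 * (s ^ 2 * u) := by ring
      rw [f3]
      have f4 : 0 ≤ s ^ 2 * u := mul_nonneg (sq_nonneg s) hu0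
      norm_num
      linarith
    have e3 : τ ^ 2 ≤ 2 * s ^ 2 + u ^ 2 / 2 := by
      rw [hτ, hs2]; nlinarith [sq_nonneg (t + u / 2)]
    rw [e1]
    have e4 := abs_sub (Real.cos (ω * l) - 1 - (G - a1 * τ)) ((Real.cos (ω * l) - 1) * G)
    have e5 := abs_sub (Real.cos (ω * l) - 1) (G - a1 * τ)
    norm_num at *
    linarith
  have hB : |Real.sin (ω * l) * (1 - G) - ω * t| ≤
      124.17 * (s ^ 3 + 8.72 * s ^ 4) + 9.065 * (s ^ 2 / 2 + 2 * s ^ 3) +
        4.80445 * (1.025 * s ^ 2 + 1.5 * s ^ 3 + 2.5 * u ^ 2 + 0.75 * (s ^ 2 * u)) := by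
    have e1 : Real.sin (ω * l) * (1 - G) - ω * t =
        (Real.sin (ω * l) - ω * l) + ω * (l - t) - Real.sin (ω * l) * G := by ring
    have e2 : |Real.sin (ω * l) - ω * l| ≤ 124.17 * (s ^ 3 + 8.72 * s ^ 4) := by
      refine hsin.trans ?_
      rw [abs_mul, abs_of_pos hω0]
      have : (ω * |l|) ^ 3 / 6 = ω ^ 3 / 6 * |l| ^ 3 := by ring
      rw [this]
      exact mul_le_mul hω3 hl3 (pow_nonneg (abs_nonneg l) 3) (by norm_num)
    have e3 : |ω * (l - t)| ≤ 9.065 * (s ^ 2 / 2 + 2 * s ^ 3) := by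
      rw [abs_mul, abs_of_pos hω0]
      exact mul_le_mul hω hlt (abs_nonneg _) (by norm_num)
    have e4 : |Real.sin (ω * l) * G| ≤
        4.80445 * (1.025 * s ^ 2 + 1.5 * s ^ 3 + 2.5 * u ^ 2 + 0.75 * (s ^ 2 * u)) := by
      rw [abs_mul]
      have f1 : |Real.sin (ω * l)| ≤ 9.065 * (s + 1.5 * s ^ 2) := by
        refine (Real.abs_sin_le_abs).trans ?_
        rw [abs_mul, abs_of_pos hω0]
        exact mul_le_mul hω hL (abs_nonneg _) (by norm_num)
      have f2 : |G| ≤ 0.53 * (s + u / 2) := b3.trans (mul_le_mul_of_nonneg_left hT (by norm_num))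
      refine (mul_le_mul f1 f2 (abs_nonneg _) (by positivity)).trans ?_
      have f3 : 9.065 * (s + 1.5 * s ^ 2) * (0.53 * (s + u / 2)) =
        4.80445 * (s ^ 2 + 1.5 * s ^ 3 + s * u / 2 + 0.75 * (s ^ 2 * u)) := by ring
      rw [f3]
      apply mul_le_mul_of_nonneg_left _ (by norm_num)
      have f5 : s * u ≤ 0.05 * s ^ 2 + 5 * u ^ 2 := by nlinarith [sq_nonneg (s - 10 * u)]
      norm_num at *
      linarith
    rw [e1]
    have e5 := abs_sub (Real.sin (ω * l) - ω * l + ω * (l - t)) (Real.sin (ω * l) * G)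
    have e6 := abs_add_le (Real.sin (ω * l) - ω * l) (ω * (l - t))
    norm_num at *
    linarith
  have k1 : s ^ 3 ≤ 0.0365 * s ^ 2 + 6.85 * s ^ 4 := by
    nlinarith [sq_nonneg (s * (1 - 13.7 * s)), sq_nonneg s, sq_nonneg (s ^ 2)]
  have k2 : s ^ 2 * u ≤ 0.00049 * s ^ 2 := by
    rw [mul_comm]; exact mul_le_mul_of_nonneg_right hu1 (sq_nonneg s)
  have k3 : 0 ≤ s ^ 2 := sq_nonneg s
  have k4 : 0 ≤ u ^ 2 := sq_nonneg u
  rw [← hs4, ← hs2] at hA ⊢
  norm_num at *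
  linarith

/-! TARGET -/
theorem q_lemma {ι : Type} (s : Finset ι) (w t : ι → ℝ) (x : ℝ) (hx : 2048 ≤ x)
    (h : MomOK s w t x) :
    |∑ i ∈ s, w i * (qq (x * (1 + t i)) * (1 - GG (1 / x) (th x) (t i - 1 / (2 * x))))
      - qq x| ≤ 44 * (th x / x) := by
  obtain ⟨hw0, hw1, ht, hodd, hev⟩ := h
  obtain ⟨hθ, he1⟩ := thb hx
  obtain ⟨hω0, hω⟩ := omb
  have hx0 : 0 < x := by linarith
  set ω := 2 * Real.pi / Real.log 2 with hωd
  set θ := th x with hθd
  set e := θ / x with hed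
  set u := 1 / x with hud
  have he : e = θ * u := by rw [hed, hud]; ring
  have hu0 : 0 < u := by positivity
  have hu1 : u ≤ 0.00049 := by
    rw [hud, div_le_iff₀ hx0]; norm_num; linarith
  have he0 : 0 < e := by rw [hed]; apply div_pos _ hx0; norm_num at hθ; linarith
  have hue : u ≤ e * 0.1374 := by
    rw [he]
    have : 1 ≤ θ * 0.1374 := by norm_num at *; linarith
    nlinarith
  set α := ω * Real.log x with hα
  have hqq : qq x = Real.cos α := by
    unfold qq; rw [hα, hωd]; congr 1; ring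
  have hqi : ∀ i ∈ s, qq (x * (1 + t i)) = Real.cos (α + ω * Real.log (1 + t i)) := by
    intro i hi
    have h1 := abs_le.mp (ht i hi)
    have hne : (1 + t i) ≠ 0 := by
      intro h0; linarith [h1.1]
    unfold qq
    rw [Real.log_mul hx0.ne' hne, hα, hωd]
    congr 1; ring
  have hu2 : 1 / (2 * x) = u / 2 := by rw [hud]; field_simp
  set a1 := a1f u θ with ha1
  set A : ι → ℝ := fun i => Real.cos (ω * Real.log (1 + t i)) * (1 - GG u θ (t i - u / 2)) - 1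
        + a1 * (t i - u / 2) with hA
  set B : ι → ℝ := fun i => Real.sin (ω * Real.log (1 + t i)) * (1 - GG u θ (t i - u / 2))
        - ω * t i with hB
  have hodd1 : ∑ i ∈ s, w i * t i = 0 := by simpa using hodd 1 (by decide)
  have hodd3 : ∑ i ∈ s, w i * t i ^ 3 = 0 := hodd 3 (by decide)
  have key : ∑ i ∈ s, w i * (qq (x * (1 + t i)) * (1 - GG u θ (t i - 1 / (2 * x)))) - qq x =
      Real.cos α * (∑ i ∈ s, w i * A i + a1 * (u / 2)) - Real.sin α * ∑ i ∈ s, w i * B i := by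
    have e1 : ∀ i ∈ s, w i * (qq (x * (1 + t i)) * (1 - GG u θ (t i - 1 / (2 * x)))) =
        Real.cos α * (w i * A i) + Real.cos α * (1 + a1 * (u / 2)) * w i
          - Real.cos α * a1 * (w i * t i) - Real.sin α * (w i * B i)
          - Real.sin α * ω * (w i * t i) := by
      intro i hi
      rw [hqi i hi, hu2, Real.cos_add, hA, hB]
      ring
    rw [Finset.sum_congr rfl e1, Finset.sum_sub_distrib, Finset.sum_sub_distrib,
      Finset.sum_sub_distrib, Finset.sum_add_distrib, ← Finset.mul_sum, ← Finset.mul_sum,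
      ← Finset.mul_sum, ← Finset.mul_sum, ← Finset.mul_sum, hodd1, hw1, hqq]
    ring
  rw [key]
  have hca : |Real.cos α| ≤ 1 := Real.abs_cos_le_one α
  have hsa : |Real.sin α| ≤ 1 := Real.abs_sin_le_one α
  have hsum : |∑ i ∈ s, w i * A i| + |∑ i ∈ s, w i * B i| ≤
      58.6 * (∑ i ∈ s, w i * t i ^ 2) + 2830 * (∑ i ∈ s, w i * t i ^ 4) + 13 * u ^ 2 := by
    calc |∑ i ∈ s, w i * A i| + |∑ i ∈ s, w i * B i|
        ≤ ∑ i ∈ s, |w i * A i| + ∑ i ∈ s, |w i * B i| :=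
          add_le_add (Finset.abs_sum_le_sum_abs _ _) (Finset.abs_sum_le_sum_abs _ _)
      _ = ∑ i ∈ s, w i * (|A i| + |B i|) := by
          rw [← Finset.sum_add_distrib]
          apply Finset.sum_congr rfl
          intro i hi
          rw [abs_mul, abs_mul, abs_of_nonneg (hw0 i hi)]; ring
      _ ≤ ∑ i ∈ s, w i * (58.6 * t i ^ 2 - 41.09 * t i ^ 3 + 2830 * t i ^ 4 + 13 * u ^ 2) := by
          apply Finset.sum_le_sum
          intro i hi
          exact mul_le_mul_of_nonneg_left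
            (ptb he he0.le he1 hu0.le hu1 hω0 hω (ht i hi)) (hw0 i hi)
      _ = ∑ i ∈ s, (58.6 * (w i * t i ^ 2) - 41.09 * (w i * t i ^ 3) + 2830 * (w i * t i ^ 4)
            + 13 * u ^ 2 * w i) := by
          apply Finset.sum_congr rfl
          intro i _
          ring
      _ = _ := by
          rw [Finset.sum_add_distrib, Finset.sum_add_distrib, Finset.sum_sub_distrib,
            ← Finset.mul_sum, ← Finset.mul_sum, ← Finset.mul_sum, ← Finset.mul_sum, hodd3, hw1]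
          ring
  have hm1 : ∑ i ∈ s, w i * t i ^ 2 ≤ 502 / 1000 * e := by
    have := hev 1 (by norm_num) (by norm_num)
    simpa [Mc] using this
  have hm2 : ∑ i ∈ s, w i * t i ^ 4 ≤ 756 / 1000 * e ^ 2 := by
    have := hev 2 (by norm_num) (by norm_num)
    simpa [Mc] using this
  have hG := Gb (τ := 0) he he0.le he1 hu0.le hu1 (by norm_num)
  have ha1b : |a1| ≤ 0.501 := hG.1
  have he2 : e ^ 2 ≤ 0.00356 * e := by
    have : e ^ 2 = e * e := by ring
    rw [this]; exact mul_le_mul_of_nonneg_right he1 he0.le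
  have hu2' : u ^ 2 ≤ 0.00049 * (e * 0.1374) := by
    have : u ^ 2 = u * u := by ring
    rw [this]; exact mul_le_mul hu1 hue hu0.le (by norm_num)
  have f1 : |Real.cos α * (∑ i ∈ s, w i * A i + a1 * (u / 2))| ≤
      |∑ i ∈ s, w i * A i| + 0.501 * (u / 2) := by
    rw [abs_mul]
    have g1 : |a1 * (u / 2)| ≤ 0.501 * (u / 2) := by
      rw [abs_mul, abs_of_pos (by linarith : 0 < u / 2)]
      exact mul_le_mul_of_nonneg_right ha1b (by linarith)
    have g2 := abs_add_le (∑ i ∈ s, w i * A i) (a1 * (u / 2))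
    have g3 := mul_le_mul_of_nonneg_right hca (abs_nonneg (∑ i ∈ s, w i * A i + a1 * (u / 2)))
    linarith
  have f2 : |Real.sin α * ∑ i ∈ s, w i * B i| ≤ |∑ i ∈ s, w i * B i| := by
    rw [abs_mul]
    have := mul_le_mul_of_nonneg_right hsa (abs_nonneg (∑ i ∈ s, w i * B i))
    linarith
  have f3 := abs_sub (Real.cos α * (∑ i ∈ s, w i * A i + a1 * (u / 2)))
    (Real.sin α * ∑ i ∈ s, w i * B i)
  norm_num at *
  linarith

end MQJ
end Pool.Agent.Helper155.Gil
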