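import Pool.Agent.Helper155.Gil.Defs

set_option autoImplicit false
open Finset Filter Topology

namespace Pool.Agent.Helper155.Gil
namespace MWfG
/-- the small part of `Wf` -/
noncomputable def GR2 (σ y : ℝ) : ℝ :=
  P2 (th y) / y ^ 2 + P3 (th y) / y ^ 3 + P4 (th y) / y ^ 4 + σ * mm y - A0 * qq y

theorem G_Wf (σ y : ℝ) : Wf σ y = th y + P1 (th y) / y + GR2 σ y := by
  unfold Wf zz GR2; ring

theorem G_th (y : ℝ) (hy : 1024 ≤ y) : 659 / 100 ≤ th y ∧ th y ≤ 645 / 100000 * y := by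
  have h1 := Real.log_two_gt_d9
  have h2 := Real.log_two_lt_d9
  have hl : Real.log 1024 = 10 * Real.log 2 := by
    rw [show (1024:ℝ) = 2 ^ 10 by norm_num, Real.log_pow]; norm_num
  have h3 : Real.log 1024 ≤ Real.log y := Real.log_le_log (by norm_num) hy
  have h4 : Real.log y = Real.log 1024 + Real.log (y / 1024) := by
    rw [← Real.log_mul (by norm_num) (by positivity)]; congr 1; field_simp
  have h5 : Real.log (y / 1024) ≤ y / 1024 - 1 := Real.log_le_sub_one_of_pos (by positivity)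
  unfold th c1
  constructor
  · linarith
  · linarith

theorem G_thx (x : ℝ) (hx : 2048 ≤ x) : 728 / 100 ≤ th x ∧ th x ≤ 356 / 100000 * x := by
  have h1 := Real.log_two_gt_d9
  have h2 := Real.log_two_lt_d9
  have hl : Real.log 2048 = 11 * Real.log 2 := by
    rw [show (2048:ℝ) = 2 ^ 11 by norm_num, Real.log_pow]; norm_num
  have h3 : Real.log 2048 ≤ Real.log x := Real.log_le_log (by norm_num) hx
  have h4 : Real.log x = Real.log 2048 + Real.log (x / 2048) := by
    rw [← Real.log_mul (by norm_num) (by positivity)]; congr 1; field_simp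
  have h5 : Real.log (x / 2048) ≤ x / 2048 - 1 := Real.log_le_sub_one_of_pos (by positivity)
  unfold th c1
  constructor
  · linarith
  · linarith

/-- bounds for the monomials in `r = θ/y`, `v = 1/y` -/
theorem G_rv (y : ℝ) (hy : 1024 ≤ y) : 0 ≤ th y / y ∧ th y / y ≤ 65 / 10000 ∧ 0 ≤ 1 / y ∧ 1 / y ≤ 1 / 1000 := by
  obtain ⟨h1, h2⟩ := G_th y hy
  have hy0 : 0 < y := by linarith
  refine ⟨by apply div_nonneg <;> linarith, ?_, by positivity, ?_⟩
  · rw [div_le_iff₀ hy0]; linarith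
  · rw [div_le_div_iff₀ hy0 (by norm_num)]; linarith

theorem G_mono (r v : ℝ) (hr0 : 0 ≤ r) (hr : r ≤ 65 / 10000) (hv0 : 0 ≤ v) (hv : v ≤ 1 / 1000) (i j : ℕ) :
    0 ≤ r ^ i * v ^ j ∧ r ^ i * v ^ j ≤ (65 / 10000) ^ i * (1 / 1000) ^ j := by
  constructor
  · positivity
  · apply mul_le_mul (pow_le_pow_left₀ hr0 hr i) (pow_le_pow_left₀ hv0 hv j) (by positivity) (by positivity)

theorem G_R2_abs (σ y : ℝ) (hσ : |σ| ≤ 1) (hy : 1024 ≤ y) : |GR2 σ y| ≤ 1 / 10000 := by
  obtain ⟨hr0, hr, hv0, hv⟩ := G_rv y hy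
  have hy0 : 0 < y := by linarith
  set r := th y / y with hrdef
  set v := 1 / y with hvdef
  have hth : th y = r * y := by rw [hrdef]; field_simp
  have hvy : v * y = 1 := by rw [hvdef]; field_simp
  have e2 : P2 (th y) / y ^ 2 = -(r ^ 2) / 12 + 6565849 / 25000000 * (r ^ 1 * v ^ 1) + 162859943 / 1000000000 * v ^ 2 := by
    rw [hth, hvdef]; unfold P2; field_simp
  have e3 : P3 (th y) / y ^ 3 = -(72331 / 400000) * (r ^ 2 * v ^ 1) + 130563 / 1000000 * (r ^ 1 * v ^ 2) + 869963 / 10000000 * v ^ 3 := by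
    rw [hth, hvdef]; unfold P3; field_simp
  have e4 : P4 (th y) / y ^ 4 = r ^ 4 / 120 + 17 / 2000 * (r ^ 3 * v ^ 1) - 13437 / 50000 * (r ^ 2 * v ^ 2) +
      5271 / 100000 * (r ^ 1 * v ^ 3) + 5377 / 100000 * v ^ 4 := by
    rw [hth, hvdef]; unfold P4; field_simp
  have e5 : mm y = ep0 - kap * (r + v) := by
    unfold mm; rw [hth, hvdef]; field_simp
  have hm := fun i j => G_mono r v hr0 hr hv0 hv i j
  have m20 := hm 2 0
  have m11 := hm 1 1
  have m02 := hm 0 2
  have m21 := hm 2 1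
  have m12 := hm 1 2
  have m03 := hm 0 3
  have m40 := hm 4 0
  have m31 := hm 3 1
  have m22 := hm 2 2
  have m13 := hm 1 3
  have m04 := hm 0 4
  rw [pow_zero, mul_one] at m20 m40
  rw [pow_zero, one_mul] at m02 m03 m04
  norm_num at m20 m11 m02 m21 m12 m03 m40 m31 m22 m13 m04
  have hmm : |mm y| ≤ 1 / 10 ^ 8 := by
    rw [e5, abs_le]
    unfold ep0 kap
    constructor <;> norm_num <;> nlinarith
  have hσm : |σ * mm y| ≤ 1 / 10 ^ 8 := by
    rw [abs_mul]
    calc |σ| * |mm y| ≤ 1 * (1 / 10 ^ 8) := mul_le_mul hσ hmm (abs_nonneg _) (by norm_num)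
      _ = _ := one_mul _
  have hq : |A0 * qq y| ≤ 1 / 10 ^ 9 := by
    rw [abs_mul]
    have : |qq y| ≤ 1 := Real.abs_cos_le_one _
    unfold A0
    rw [abs_of_pos (by norm_num)]
    linarith
  have h1 := abs_le.1 hσm
  have h2 := abs_le.1 hq
  unfold GR2
  rw [e2, e3, e4, abs_le]
  norm_num
  norm_num at h1 h2
  constructor <;> linarith


/-- `y` times the derivative of `GR2` -/
noncomputable def GD2 (σ y : ℝ) : ℝ :=
  (-(th y) / 6 + 6565849 / 25000000 - 2 * P2 (th y)) / y ^ 2 +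
  (-(72331 / 200000) * th y + 130563 / 1000000 - 3 * P3 (th y)) / y ^ 3 +
  (th y ^ 3 / 30 + 51 / 2000 * th y ^ 2 - 13437 / 25000 * th y + 5271 / 100000 - 4 * P4 (th y)) / y ^ 4 +
  σ * (kap * (th y / y)) + A0 * (Real.sin (2 * Real.pi * (Real.log y / Real.log 2)) * (2 * Real.pi / Real.log 2))

theorem G_th_deriv (y : ℝ) (hy : 0 < y) : HasDerivAt th (1 / y) y := by
  unfold th
  have := (Real.hasDerivAt_log hy.ne').add_const c1
  simpa using this

theorem G_R2_deriv (σ y : ℝ) (hy : 0 < y) : HasDerivAt (GR2 σ) (GD2 σ y / y) y := by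
  have h := G_th_deriv y hy
  have hp2 : HasDerivAt (fun y => P2 (th y)) ((-(th y) / 6 + 6565849 / 25000000) * (1 / y)) y := by
    have h1 := (((h.pow 2).neg.div_const 12).add (h.const_mul (6565849 / 25000000))).add_const (162859943 / 1000000000)
    refine (h1.congr_deriv ?_)
    simp only [Nat.cast_ofNat]
    ring
  have hp3 : HasDerivAt (fun y => P3 (th y)) ((-(72331 / 200000) * th y + 130563 / 1000000) * (1 / y)) y := by
    have h1 := (((h.pow 2).const_mul (-(72331 / 400000))).add (h.const_mul (130563 / 1000000))).add_const (869963 / 10000000)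
    refine (h1.congr_deriv ?_)
    simp only [Nat.cast_ofNat]
    ring
  have hp4 : HasDerivAt (fun y => P4 (th y)) ((th y ^ 3 / 30 + 51 / 2000 * th y ^ 2 - 13437 / 25000 * th y + 5271 / 100000) * (1 / y)) y := by
    have h1 := (((((h.pow 4).div_const 120).add ((h.pow 3).const_mul (17 / 2000))).sub ((h.pow 2).const_mul (13437 / 50000))).add
      (h.const_mul (5271 / 100000))).add_const (5377 / 100000)
    refine (h1.congr_deriv ?_)
    simp only [Nat.cast_ofNat]
    ring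
  have hq : HasDerivAt qq (-(Real.sin (2 * Real.pi * (Real.log y / Real.log 2)) * (2 * Real.pi * (1 / y / Real.log 2)))) y := by
    have h1 := (((Real.hasDerivAt_log hy.ne').div_const (Real.log 2)).const_mul (2 * Real.pi)).cos
    refine h1.congr_deriv ?_
    rw [one_div]
    ring
  have hm : HasDerivAt mm (-((kap * (1 / y) * y - kap * (th y + 1) * 1) / y ^ 2)) y := by
    have h1 := ((h.add_const 1).const_mul kap).div (hasDerivAt_id y) hy.ne'
    have h2 := h1.const_sub ep0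
    exact h2
  have i2 := hp2.div (hasDerivAt_pow 2 y) (by positivity)
  have i3 := hp3.div (hasDerivAt_pow 3 y) (by positivity)
  have i4 := hp4.div (hasDerivAt_pow 4 y) (by positivity)
  have htot := (((i2.add i3).add i4).add (hm.const_mul σ)).sub (hq.const_mul A0)
  refine htot.congr_deriv ?_
  unfold GD2
  simp only [Nat.cast_ofNat]
  have hl : Real.log 2 ≠ 0 := (Real.log_pos (by norm_num)).ne'
  generalize Real.sin (2 * Real.pi * (Real.log y / Real.log 2)) = S
  generalize P2 (th y) = p2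
  generalize P3 (th y) = p3
  generalize P4 (th y) = p4
  generalize th y = θ
  field_simp
  ring

theorem G_D2_abs (σ y : ℝ) (hσ : |σ| ≤ 1) (hy : 1024 ≤ y) : |GD2 σ y| ≤ 1 / 10000 := by
  obtain ⟨hr0, hr, hv0, hv⟩ := G_rv y hy
  have hy0 : 0 < y := by linarith
  set r := th y / y with hrdef
  set v := 1 / y with hvdef
  have hth : th y = r * y := by rw [hrdef]; field_simp
  have hvy : v * y = 1 := by rw [hvdef]; field_simp
  have e2 : (-(th y) / 6 + 6565849 / 25000000 - 2 * P2 (th y)) / y ^ 2 = r ^ 2 / 6 - (1/6 + 6565849 / 12500000) * (r ^ 1 * v ^ 1) +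
      (6565849 / 25000000 - 2 * (162859943 / 1000000000)) * v ^ 2 := by
    rw [hth, hvdef]; unfold P2; field_simp; ring
  have e3 : (-(72331 / 200000) * th y + 130563 / 1000000 - 3 * P3 (th y)) / y ^ 3 = 3 * (72331 / 400000) * (r ^ 2 * v ^ 1)
      - (72331 / 200000 + 3 * (130563 / 1000000)) * (r ^ 1 * v ^ 2) + (130563 / 1000000 - 3 * (869963 / 10000000)) * v ^ 3 := by
    rw [hth, hvdef]; unfold P3; field_simp; ring
  have e4 : (th y ^ 3 / 30 + 51 / 2000 * th y ^ 2 - 13437 / 25000 * th y + 5271 / 100000 - 4 * P4 (th y)) / y ^ 4 =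
      -(r ^ 4 / 30) + (1 / 30 - 17 / 500) * (r ^ 3 * v ^ 1) + (51 / 2000 + 4 * (13437 / 50000)) * (r ^ 2 * v ^ 2) -
      (13437 / 25000 + 4 * (5271 / 100000)) * (r ^ 1 * v ^ 3) + (5271 / 100000 - 4 * (5377 / 100000)) * v ^ 4 := by
    rw [hth, hvdef]; unfold P4; field_simp; ring
  have hm := fun i j => G_mono r v hr0 hr hv0 hv i j
  have m20 := hm 2 0
  have m11 := hm 1 1
  have m02 := hm 0 2
  have m21 := hm 2 1
  have m12 := hm 1 2
  have m03 := hm 0 3
  have m40 := hm 4 0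
  have m31 := hm 3 1
  have m22 := hm 2 2
  have m13 := hm 1 3
  have m04 := hm 0 4
  rw [pow_zero, mul_one] at m20 m40
  rw [pow_zero, one_mul] at m02 m03 m04
  norm_num at m20 m11 m02 m21 m12 m03 m40 m31 m22 m13 m04
  have hσm : |σ * (kap * r)| ≤ 1 / 10 ^ 8 := by
    rw [abs_mul]
    have h3 : |kap * r| ≤ 1 / 10 ^ 8 := by
      unfold kap
      rw [abs_of_nonneg (by positivity)]
      norm_num
      linarith
    calc |σ| * |kap * r| ≤ 1 * (1 / 10 ^ 8) := mul_le_mul hσ h3 (abs_nonneg _) (by norm_num)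
      _ = _ := one_mul _
  have hq : |A0 * (Real.sin (2 * Real.pi * (Real.log y / Real.log 2)) * (2 * Real.pi / Real.log 2))| ≤ 1 / 10 ^ 8 := by
    rw [abs_mul, abs_mul]
    have h1 : |Real.sin (2 * Real.pi * (Real.log y / Real.log 2))| ≤ 1 := Real.abs_sin_le_one _
    have h2 : |2 * Real.pi / Real.log 2| ≤ 10 := by
      have h3 := Real.log_two_gt_d9
      rw [abs_of_nonneg (by positivity), div_le_iff₀ (by linarith)]
      have := Real.pi_lt_d2
      linarith
    have h3 : |A0| = 23 / 10 ^ 11 := by unfold A0; rw [abs_of_pos (by norm_num)]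
    rw [h3]
    calc (23 / 10 ^ 11 : ℝ) * (|Real.sin (2 * Real.pi * (Real.log y / Real.log 2))| * |2 * Real.pi / Real.log 2|) ≤
          (23 / 10 ^ 11 : ℝ) * (1 * 10) := by
            apply mul_le_mul_of_nonneg_left _ (by norm_num)
            exact mul_le_mul h1 h2 (abs_nonneg _) (by norm_num)
      _ ≤ 1 / 10 ^ 8 := by norm_num
  have h1 := abs_le.1 hσm
  have h2 := abs_le.1 hq
  unfold GD2
  rw [e2, e3, e4, abs_le]
  norm_num
  norm_num at h1 h2
  constructor <;> linarith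

theorem G_R2_diff (σ a b : ℝ) (hσ : |σ| ≤ 1) (ha : 1024 ≤ a) (hab : a ≤ b) :
    -(1 / 10000 * (Real.log b - Real.log a)) ≤ GR2 σ b - GR2 σ a := by
  have hmono : MonotoneOn (fun y => GR2 σ y + 1 / 10000 * Real.log y) (Set.Ici 1024) := by
    have hd : ∀ y : ℝ, 1024 ≤ y → HasDerivAt (fun y => GR2 σ y + 1 / 10000 * Real.log y) (GD2 σ y / y + 1 / 10000 * y⁻¹) y := by
      intro y hy
      exact (G_R2_deriv σ y (by linarith)).add ((Real.hasDerivAt_log (by linarith : y ≠ 0)).const_mul _)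
    apply monotoneOn_of_deriv_nonneg (convex_Ici 1024)
    · intro y hy
      exact (hd y hy).continuousAt.continuousWithinAt
    · intro y hy
      exact (hd y (interior_subset hy)).differentiableAt.differentiableWithinAt
    · intro y hy
      have hy' : (1024:ℝ) ≤ y := interior_subset hy
      rw [(hd y hy').deriv]
      have := (abs_le.1 (G_D2_abs σ y hσ hy')).1
      have hy0 : 0 < y := by linarith
      have h2 : GD2 σ y / y + 1 / 10000 * y⁻¹ = (GD2 σ y + 1 / 10000) / y := by field_simp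
      rw [h2]
      apply div_nonneg _ hy0.le
      linarith
  have := hmono (show a ∈ Set.Ici 1024 from ha) (show b ∈ Set.Ici 1024 from ha.trans hab) hab
  simp only at this
  linarith

/-! TARGETS -/

theorem G_th_mul (x s : ℝ) (hx : 0 < x) (hs : 0 < s) : th (x * s) = th x + Real.log s := by
  unfold th
  rw [Real.log_mul hx.ne' hs.ne']
  ring

theorem G_log (t : ℝ) (ht0 : 0 ≤ t) (ht : t ≤ 1 / 2) :
    2 * t ≤ Real.log (1 + t) - Real.log (1 - t) ∧ 0 ≤ Real.log (1 + t) ∧ Real.log (1 + t) ≤ t ∧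
      Real.log (1 - t) ≤ -t := by
  refine ⟨?_, Real.log_nonneg (by linarith), ?_, ?_⟩
  · have h := Real.hasSum_log_sub_log_of_abs_lt_one (x := t) (by rw [abs_of_nonneg ht0]; linarith)
    have h1 := le_hasSum h 0 (fun j _ => by positivity)
    norm_num at h1
    exact h1
  · have := Real.log_le_sub_one_of_pos (show (0:ℝ) < 1 + t by linarith)
    linarith
  · have := Real.log_le_sub_one_of_pos (show (0:ℝ) < 1 - t by linarith)
    linarith

theorem Wf_F1 (σ x t : ℝ) (hσ : |σ| ≤ 1) (hx : 2048 ≤ x) (ht0 : 0 ≤ t) (ht : t ≤ 1 / 2) :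
    2 * (997 / 1000) * t ≤ Wf σ (x * (1 + t)) - Wf σ (x * (1 - t)) := by
  have hx0 : 0 < x := by linarith
  have hp : 0 < 1 + t := by linarith
  have hm : 0 < 1 - t := by linarith
  obtain ⟨hθ1, hθ2⟩ := G_thx x hx
  obtain ⟨hl, hlp, hlp2, hlm⟩ := G_log t ht0 ht
  have hym : 1024 ≤ x * (1 - t) := by nlinarith
  have hyy : x * (1 - t) ≤ x * (1 + t) := by nlinarith
  have hR := G_R2_diff σ (x * (1 - t)) (x * (1 + t)) hσ hym hyy
  rw [Real.log_mul hx0.ne' hp.ne', Real.log_mul hx0.ne' hm.ne'] at hR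
  rw [G_Wf, G_Wf, G_th_mul x _ hx0 hp, G_th_mul x _ hx0 hm]
  set Lp := Real.log (1 + t)
  set Lm := Real.log (1 - t)
  set θ := th x
  have hD1 : -(2 * t * (26 / 10000)) ≤ P1 (θ + Lp) / (x * (1 + t)) - P1 (θ + Lm) / (x * (1 - t)) := by
    have h1 : P1 (θ + Lp) / (x * (1 + t)) - P1 (θ + Lm) / (x * (1 - t)) =
        (-(2 * t * (θ / 2 + 8664339757 / 25000000000)) + (Lp * (1 - t) / 2 - Lm * (1 + t) / 2)) / (x * (1 - t ^ 2)) := by
      unfold P1
      have : (1 - t ^ 2 : ℝ) = (1 - t) * (1 + t) := by ring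
      rw [this]
      field_simp
      ring
    rw [h1]
    have hden : 0 < x * (1 - t ^ 2) := by
      have : 0 < 1 - t ^ 2 := by nlinarith
      positivity
    rw [le_div_iff₀ hden]
    have h2 : 0 ≤ Lp * (1 - t) / 2 - Lm * (1 + t) / 2 := by nlinarith
    have h3 : θ / 2 + 8664339757 / 25000000000 ≤ 26 / 10000 * (x * (1 - t ^ 2)) := by
      have h4 : x * (3 / 4) ≤ x * (1 - t ^ 2) := by
        apply mul_le_mul_of_nonneg_left _ hx0.le
        nlinarith
      nlinarith
    have h5 := mul_le_mul_of_nonneg_left h3 (show 0 ≤ 2 * t by linarith)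
    nlinarith
  nlinarith

theorem Wf_F2 (σ x t : ℝ) (hσ : |σ| ≤ 1) (hx : 2048 ≤ x) (ht0 : 0 ≤ t) (ht : t ≤ 1 / 2) :
    Wf σ (x * (1 + t)) + Wf σ (x * (1 - t)) ≤ 2 * (10005 / 10000) * th x := by
  have hx0 : 0 < x := by linarith
  have hp : 0 < 1 + t := by linarith
  have hm : 0 < 1 - t := by linarith
  obtain ⟨hθ1, hθ2⟩ := G_thx x hx
  obtain ⟨hl, hlp, hlp2, hlm⟩ := G_log t ht0 ht
  have hym : 1024 ≤ x * (1 - t) := by nlinarith
  have hyp : 1024 ≤ x * (1 + t) := by nlinarith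
  have hR1 := (abs_le.1 (G_R2_abs σ _ hσ hym)).2
  have hR2 := (abs_le.1 (G_R2_abs σ _ hσ hyp)).2
  have hsum : Real.log (1 + t) + Real.log (1 - t) ≤ -t ^ 2 := by
    rw [← Real.log_mul hp.ne' hm.ne']
    have := Real.log_le_sub_one_of_pos (show (0:ℝ) < (1 + t) * (1 - t) by positivity)
    nlinarith
  rw [G_Wf, G_Wf, G_th_mul x _ hx0 hp, G_th_mul x _ hx0 hm]
  set Lp := Real.log (1 + t)
  set Lm := Real.log (1 - t)
  set θ := th x
  have hden : 0 < x * (1 - t ^ 2) := by
    have : 0 < 1 - t ^ 2 := by nlinarith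
    positivity
  have hD1 : P1 (θ + Lp) / (x * (1 + t)) + P1 (θ + Lm) / (x * (1 - t)) ≤
      (θ + 2 * (8664339757 / 25000000000)) / (x * (1 - t ^ 2)) := by
    have h1 : P1 (θ + Lp) / (x * (1 + t)) + P1 (θ + Lm) / (x * (1 - t)) =
        ((θ + 2 * (8664339757 / 25000000000)) + (Lp * (1 - t) / 2 + Lm * (1 + t) / 2)) / (x * (1 - t ^ 2)) := by
      unfold P1
      have : (1 - t ^ 2 : ℝ) = (1 - t) * (1 + t) := by ring
      rw [this]
      field_simp
      ring
    rw [h1]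
    apply div_le_div_of_nonneg_right _ hden.le
    have h2 : Lp * (1 - t) / 2 + Lm * (1 + t) / 2 ≤ 0 := by nlinarith
    linarith
  have hD2 : (θ + 2 * (8664339757 / 25000000000)) / (x * (1 - t ^ 2)) ≤ 55 / 100000 * θ + t ^ 2 := by
    rw [div_le_iff₀ hden]
    -- θ + 2p ≤ (0.00055 θ + t²) x (1 - t²)
    have h3 : θ + 2 * (8664339757 / 25000000000) ≤ 54 / 100000 * θ * x := by nlinarith
    have h6 : θ + 2 * (8664339757 / 25000000000) ≤ 39 / 10000 * x := by linarith
    have hw0 : 0 ≤ t ^ 2 := sq_nonneg t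
    have hw1 : t ^ 2 ≤ 1 / 4 := by nlinarith
    have h7 := mul_le_mul_of_nonneg_right h3 (show 0 ≤ 1 - t ^ 2 by linarith)
    have h8 := mul_le_mul_of_nonneg_right h6 hw0
    have h9 : 39 / 10000 * x * t ^ 2 ≤ (1 - t ^ 2) * x * t ^ 2 := by
      apply mul_le_mul_of_nonneg_right _ hw0
      apply mul_le_mul_of_nonneg_right _ hx0.le
      linarith
    have h10 : 54 / 100000 * θ * x * (1 - t ^ 2) ≤ 55 / 100000 * θ * x * (1 - t ^ 2) := by
      apply mul_le_mul_of_nonneg_right _ (by linarith)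
      apply mul_le_mul_of_nonneg_right _ hx0.le
      linarith
    linarith
  linarith

theorem Wf_F3 (σ x t : ℝ) (hσ : |σ| ≤ 1) (hx : 2048 ≤ x) (ht : |t| ≤ 1 / 2) :
    1 ≤ Wf σ (x * (1 + t)) ∧ Wf σ (x * (1 + t)) ≤ th x + 1 := by
  have hx0 : 0 < x := by linarith
  obtain ⟨ht1, ht2⟩ := abs_le.1 ht
  have hp : 0 < 1 + t := by linarith
  have hy : 1024 ≤ x * (1 + t) := by nlinarith
  obtain ⟨h1, h2⟩ := G_th _ hy
  obtain ⟨hR1, hR2⟩ := abs_le.1 (G_R2_abs σ _ hσ hy)
  have hy0 : 0 < x * (1 + t) := by linarith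
  have hP1 : 0 ≤ P1 (th (x * (1 + t))) / (x * (1 + t)) := by
    apply div_nonneg _ hy0.le
    unfold P1; linarith
  have hP2 : P1 (th (x * (1 + t))) / (x * (1 + t)) ≤ 1 / 100 := by
    rw [div_le_iff₀ hy0]
    unfold P1; linarith
  have hlog : Real.log (1 + t) ≤ 1 / 2 := by
    have := Real.log_le_sub_one_of_pos hp
    linarith
  rw [G_Wf]
  constructor
  · linarith
  · have := G_th_mul x (1 + t) hx0 hp
    linarith

end MWfG
end Pool.Agent.Helper155.Gil
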