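import Pool.Agent.Helper155.Gil.Defs

set_option autoImplicit false
open Finset Filter Topology

namespace Pool.Agent.Helper155.Gil
namespace MWfH
/-- monomials -/
noncomputable def mo922 (a j : ℕ) (y : ℝ) : ℝ := th y ^ a * (y⁻¹) ^ j

theorem th_deriv922 {y : ℝ} (hy : 0 < y) : HasDerivAt th (y⁻¹) y := by
  have h := (Real.hasDerivAt_log hy.ne').add_const c1
  exact h

theorem mo_deriv922 (a j : ℕ) {y : ℝ} (hy : 0 < y) :
    HasDerivAt (mo922 a j) (a * mo922 (a - 1) (j + 1) y - j * mo922 a (j + 1) y) y := by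
  have h1 := (th_deriv922 hy).pow a
  have h2 := (hasDerivAt_inv hy.ne').pow j
  have h3 : HasDerivAt (mo922 a j) _ y := h1.mul h2
  refine h3.congr_deriv ?_
  unfold mo922
  simp only [Pi.pow_apply]
  rcases Nat.eq_zero_or_pos j with hj | hj
  · subst hj
    simp
    ring
  · obtain ⟨k, rfl⟩ : ∃ k, j = k + 1 := ⟨j - 1, by omega⟩
    have e1 : (y ^ 2)⁻¹ = (y⁻¹) ^ 2 := by rw [inv_pow]
    rw [e1]
    simp only [Nat.add_sub_cancel]
    ring

/-- frequency -/
noncomputable def om922 : ℝ := 2 * Real.pi / Real.log 2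

theorem om_nonneg922 : 0 ≤ om922 := by
  unfold om922
  have := Real.log_pos (show (1:ℝ) < 2 by norm_num)
  positivity

theorem om_le922 : om922 ≤ 10 := by
  unfold om922
  have h := Real.log_two_gt_d9
  have hp := Real.pi_lt_d2
  rw [div_le_iff₀ (by linarith)]
  linarith

theorem qq_eq922 (y : ℝ) : qq y = Real.cos (om922 * Real.log y) := by
  unfold qq om922
  congr 1
  ring

theorem cos_deriv922 {y : ℝ} (hy : 0 < y) :
    HasDerivAt (fun y => Real.cos (om922 * Real.log y))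
      (-(om922 * (Real.sin (om922 * Real.log y) * y⁻¹))) y := by
  have h := ((Real.hasDerivAt_log hy.ne').const_mul om922).cos
  refine h.congr_deriv ?_
  ring

theorem sin_deriv922 {y : ℝ} (hy : 0 < y) :
    HasDerivAt (fun y => Real.sin (om922 * Real.log y) * y⁻¹)
      (om922 * Real.cos (om922 * Real.log y) * (y⁻¹) ^ 2
        - Real.sin (om922 * Real.log y) * (y⁻¹) ^ 2) y := by
  have h : HasDerivAt (fun y => Real.sin (om922 * Real.log y) * y⁻¹) _ y :=
    (((Real.hasDerivAt_log hy.ne').const_mul om922).sin).mul (hasDerivAt_inv hy.ne')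
  refine h.congr_deriv ?_
  have e1 : (y ^ 2)⁻¹ = (y⁻¹) ^ 2 := by rw [inv_pow]
  rw [e1]
  ring

theorem Wf_eq922 (σ y : ℝ) : Wf σ y =
    1 * mo922 1 0 y
    + ((1 / 2) * mo922 1 1 y + (8664339757 / 25000000000) * mo922 0 1 y)
    + ((-1 / 12) * mo922 2 2 y + (6565849 / 25000000) * mo922 1 2 y
        + (162859943 / 1000000000) * mo922 0 2 y)
    + (-(72331 / 400000) * mo922 2 3 y + (130563 / 1000000) * mo922 1 3 y
        + (869963 / 10000000) * mo922 0 3 y)
    + ((1 / 120) * mo922 4 4 y + (17 / 2000) * mo922 3 4 y + (-(13437 / 50000)) * mo922 2 4 y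
        + (5271 / 100000) * mo922 1 4 y + (5377 / 100000) * mo922 0 4 y)
    + ((-(σ * kap)) * mo922 1 1 y + (-(σ * kap)) * mo922 0 1 y)
    + σ * ep0 - A0 * Real.cos (om922 * Real.log y) := by
  unfold Wf zz mm P1 P2 P3 P4 mo922
  rw [qq_eq922]
  simp only [div_eq_mul_inv, inv_pow]
  ring

/-- the first derivative -/
noncomputable def W1922 (σ y : ℝ) : ℝ :=
    1 * mo922 0 1 y
    + ((1 / 2) * (1 * mo922 0 2 y - 1 * mo922 1 2 y)
        + (8664339757 / 25000000000) * (- 1 * mo922 0 2 y))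
    + ((-1 / 12) * (2 * mo922 1 3 y - 2 * mo922 2 3 y)
        + (6565849 / 25000000) * (1 * mo922 0 3 y - 2 * mo922 1 3 y)
        + (162859943 / 1000000000) * (- 2 * mo922 0 3 y))
    + (-(72331 / 400000) * (2 * mo922 1 4 y - 3 * mo922 2 4 y)
        + (130563 / 1000000) * (1 * mo922 0 4 y - 3 * mo922 1 4 y)
        + (869963 / 10000000) * (- 3 * mo922 0 4 y))
    + ((1 / 120) * (4 * mo922 3 5 y - 4 * mo922 4 5 y)
        + (17 / 2000) * (3 * mo922 2 5 y - 4 * mo922 3 5 y)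
        + (-(13437 / 50000)) * (2 * mo922 1 5 y - 4 * mo922 2 5 y)
        + (5271 / 100000) * (1 * mo922 0 5 y - 4 * mo922 1 5 y)
        + (5377 / 100000) * (- 4 * mo922 0 5 y))
    + ((-(σ * kap)) * (1 * mo922 0 2 y - 1 * mo922 1 2 y) + (-(σ * kap)) * (- 1 * mo922 0 2 y))
    + (A0 * om922) * (Real.sin (om922 * Real.log y) * y⁻¹)

theorem Wf_deriv922 (σ : ℝ) {y : ℝ} (hy : 0 < y) : HasDerivAt (Wf σ) (W1922 σ y) y := by
  have h := (((((((mo_deriv922 1 0 hy).const_mul 1).add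
    (((mo_deriv922 1 1 hy).const_mul (1 / 2)).add
      ((mo_deriv922 0 1 hy).const_mul (8664339757 / 25000000000)))).add
    ((((mo_deriv922 2 2 hy).const_mul (-1 / 12)).add
      ((mo_deriv922 1 2 hy).const_mul (6565849 / 25000000))).add
      ((mo_deriv922 0 2 hy).const_mul (162859943 / 1000000000)))).add
    ((((mo_deriv922 2 3 hy).const_mul (-(72331 / 400000))).add
      ((mo_deriv922 1 3 hy).const_mul (130563 / 1000000))).add
      ((mo_deriv922 0 3 hy).const_mul (869963 / 10000000)))).add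
    ((((((mo_deriv922 4 4 hy).const_mul (1 / 120)).add
      ((mo_deriv922 3 4 hy).const_mul (17 / 2000))).add
      ((mo_deriv922 2 4 hy).const_mul (-(13437 / 50000)))).add
      ((mo_deriv922 1 4 hy).const_mul (5271 / 100000))).add
      ((mo_deriv922 0 4 hy).const_mul (5377 / 100000)))).add
    (((mo_deriv922 1 1 hy).const_mul (-(σ * kap))).add
      ((mo_deriv922 0 1 hy).const_mul (-(σ * kap))))).add_const (σ * ep0)
  have h2 := h.sub ((cos_deriv922 hy).const_mul A0)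
  have e : Wf σ = _ := funext (Wf_eq922 σ)
  rw [e]
  refine HasDerivAt.congr_deriv h2 ?_
  unfold W1922
  push_cast
  norm_num
  ring

/-- the second derivative -/
noncomputable def W2922 (σ y : ℝ) : ℝ :=
    1 * (- 1 * mo922 0 2 y)
    + ((1 / 2) * (1 * (- 2 * mo922 0 3 y) - 1 * (1 * mo922 0 3 y - 2 * mo922 1 3 y))
        + (8664339757 / 25000000000) * (- 1 * (- 2 * mo922 0 3 y)))
    + ((-1 / 12) * (2 * (1 * mo922 0 4 y - 3 * mo922 1 4 y) - 2 * (2 * mo922 1 4 y - 3 * mo922 2 4 y))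
        + (6565849 / 25000000) * (1 * (- 3 * mo922 0 4 y) - 2 * (1 * mo922 0 4 y - 3 * mo922 1 4 y))
        + (162859943 / 1000000000) * (- 2 * (- 3 * mo922 0 4 y)))
    + (-(72331 / 400000) * (2 * (1 * mo922 0 5 y - 4 * mo922 1 5 y) - 3 * (2 * mo922 1 5 y - 4 * mo922 2 5 y))
        + (130563 / 1000000) * (1 * (- 4 * mo922 0 5 y) - 3 * (1 * mo922 0 5 y - 4 * mo922 1 5 y))
        + (869963 / 10000000) * (- 3 * (- 4 * mo922 0 5 y)))
    + ((1 / 120) * (4 * (3 * mo922 2 6 y - 5 * mo922 3 6 y) - 4 * (4 * mo922 3 6 y - 5 * mo922 4 6 y))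
        + (17 / 2000) * (3 * (2 * mo922 1 6 y - 5 * mo922 2 6 y) - 4 * (3 * mo922 2 6 y - 5 * mo922 3 6 y))
        + (-(13437 / 50000)) * (2 * (1 * mo922 0 6 y - 5 * mo922 1 6 y) - 4 * (2 * mo922 1 6 y - 5 * mo922 2 6 y))
        + (5271 / 100000) * (1 * (- 5 * mo922 0 6 y) - 4 * (1 * mo922 0 6 y - 5 * mo922 1 6 y))
        + (5377 / 100000) * (- 4 * (- 5 * mo922 0 6 y)))
    + ((-(σ * kap)) * (1 * (- 2 * mo922 0 3 y) - 1 * (1 * mo922 0 3 y - 2 * mo922 1 3 y))
        + (-(σ * kap)) * (- 1 * (- 2 * mo922 0 3 y)))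
    + (A0 * om922) * (om922 * Real.cos (om922 * Real.log y) * (y⁻¹) ^ 2
        - Real.sin (om922 * Real.log y) * (y⁻¹) ^ 2)

theorem W1_deriv922 (σ : ℝ) {y : ℝ} (hy : 0 < y) : HasDerivAt (W1922 σ) (W2922 σ y) y := by
  have h := (((((((mo_deriv922 0 1 hy).const_mul 1).add
    (((((mo_deriv922 0 2 hy).const_mul 1).sub ((mo_deriv922 1 2 hy).const_mul 1)).const_mul (1 / 2)).add
      (((mo_deriv922 0 2 hy).const_mul (-1)).const_mul (8664339757 / 25000000000)))).add
    ((((((mo_deriv922 1 3 hy).const_mul 2).sub ((mo_deriv922 2 3 hy).const_mul 2)).const_mul (-1 / 12)).add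
      ((((mo_deriv922 0 3 hy).const_mul 1).sub ((mo_deriv922 1 3 hy).const_mul 2)).const_mul (6565849 / 25000000))).add
      (((mo_deriv922 0 3 hy).const_mul (-2)).const_mul (162859943 / 1000000000)))).add
    ((((((mo_deriv922 1 4 hy).const_mul 2).sub ((mo_deriv922 2 4 hy).const_mul 3)).const_mul (-(72331 / 400000))).add
      ((((mo_deriv922 0 4 hy).const_mul 1).sub ((mo_deriv922 1 4 hy).const_mul 3)).const_mul (130563 / 1000000))).add
      (((mo_deriv922 0 4 hy).const_mul (-3)).const_mul (869963 / 10000000)))).add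
    ((((((((mo_deriv922 3 5 hy).const_mul 4).sub ((mo_deriv922 4 5 hy).const_mul 4)).const_mul (1 / 120)).add
      ((((mo_deriv922 2 5 hy).const_mul 3).sub ((mo_deriv922 3 5 hy).const_mul 4)).const_mul (17 / 2000))).add
      ((((mo_deriv922 1 5 hy).const_mul 2).sub ((mo_deriv922 2 5 hy).const_mul 4)).const_mul (-(13437 / 50000)))).add
      ((((mo_deriv922 0 5 hy).const_mul 1).sub ((mo_deriv922 1 5 hy).const_mul 4)).const_mul (5271 / 100000))).add
      (((mo_deriv922 0 5 hy).const_mul (-4)).const_mul (5377 / 100000)))).add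
    (((((mo_deriv922 0 2 hy).const_mul 1).sub ((mo_deriv922 1 2 hy).const_mul 1)).const_mul (-(σ * kap))).add
      (((mo_deriv922 0 2 hy).const_mul (-1)).const_mul (-(σ * kap))))).add
    ((sin_deriv922 hy).const_mul (A0 * om922))
  have h' : HasDerivAt (W1922 σ) _ y := h
  refine h'.congr_deriv ?_
  unfold W2922
  push_cast
  norm_num

theorem th_bounds922 {y : ℝ} (hy : 1000 ≤ y) : 0 ≤ th y ∧ th y ≤ y / 100 := by
  unfold th c1
  have hlog2 := Real.log_two_lt_d9
  have hlog1000 : Real.log 1000 ≤ 7 := by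
    have h1 : Real.log 1000 ≤ Real.log ((2:ℝ) ^ 10) := Real.log_le_log (by norm_num) (by norm_num)
    rw [Real.log_pow] at h1
    push_cast at h1
    linarith
  have hlog1000' : 1 ≤ Real.log 1000 := by
    have h1 : Real.log ((2:ℝ) ^ 9) ≤ Real.log 1000 := Real.log_le_log (by norm_num) (by norm_num)
    rw [Real.log_pow] at h1
    push_cast at h1
    have := Real.log_two_gt_d9
    linarith
  have hy0 : 0 < y := by linarith
  have h2 : Real.log 1000 ≤ Real.log y := Real.log_le_log (by norm_num) hy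
  have h3 : Real.log y ≤ Real.log 1000 + (y / 1000 - 1) := by
    have h4 : Real.log y = Real.log 1000 + Real.log (y / 1000) := by
      rw [← Real.log_mul (by norm_num) (by positivity)]
      congr 1
      ring
    rw [h4]
    have := Real.log_le_sub_one_of_pos (show (0:ℝ) < y / 1000 by positivity)
    linarith
  constructor
  · linarith
  · linarith

theorem poly_bound922 {u v : ℝ} (hu0 : 0 ≤ u) (hu : u ≤ 1 / 1000) (hv0 : 0 ≤ v) (hv : v ≤ 1 / 100)
    (a b : ℕ) : 0 ≤ v ^ a * u ^ b ∧ (0 < a + b → v ^ a * u ^ b ≤ 1 / 100) := by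
  refine ⟨by positivity, fun h => ?_⟩
  rcases Nat.eq_zero_or_pos a with ha | ha
  · subst ha
    have hb : 0 < b := by omega
    rw [pow_zero, one_mul]
    calc u ^ b ≤ u ^ 1 := pow_le_pow_of_le_one hu0 (by linarith) hb
      _ ≤ 1 / 100 := by rw [pow_one]; linarith
  · calc v ^ a * u ^ b ≤ v ^ 1 * 1 := by
          refine mul_le_mul (pow_le_pow_of_le_one hv0 (by linarith) ha)
            (pow_le_one₀ hu0 (by linarith)) (by positivity) (by positivity)
      _ ≤ 1 / 100 := by rw [pow_one, mul_one]; exact hv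

theorem W1_nonneg922 (σ y : ℝ) (hσ : |σ| ≤ 1) (hy : 1000 ≤ y) : 0 ≤ W1922 σ y := by
  have hy0 : 0 < y := by linarith
  obtain ⟨ht0, ht⟩ := th_bounds922 hy
  set θ := th y with hθ
  set u := y⁻¹ with hu
  have hu0 : 0 < u := inv_pos.2 hy0
  have hu1 : u ≤ 1 / 1000 := by
    rw [hu, inv_le_comm₀ hy0 (by norm_num)]
    linarith
  set v := θ * u with hv
  have hv0 : 0 ≤ v := mul_nonneg ht0 hu0.le
  have hv1 : v ≤ 1 / 100 := by
    rw [hv, hu, ← div_eq_mul_inv, div_le_iff₀ hy0]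
    linarith
  have B := fun a b => poly_bound922 hu0.le hu1 hv0 hv1 a b
  have hs : |σ * kap * v| ≤ 1 / 100 := by
    have hk : |kap| ≤ 1 := by unfold kap; rw [abs_of_pos (by norm_num)]; norm_num
    rw [abs_mul, abs_mul, abs_of_nonneg hv0]
    calc |σ| * |kap| * v ≤ 1 * 1 * v := by gcongr
      _ ≤ 1 / 100 := by linarith
  have hsin : |A0 * om922 * Real.sin (om922 * Real.log y)| ≤ 1 / 100 := by
    rw [abs_mul, abs_mul, abs_of_nonneg om_nonneg922]
    have h1 := Real.abs_sin_le_one (om922 * Real.log y)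
    have h2 : |A0| ≤ 1 / 1000 := by unfold A0; rw [abs_of_pos (by norm_num)]; norm_num
    calc |A0| * om922 * |Real.sin (om922 * Real.log y)| ≤ 1 / 1000 * 10 * 1 := by
          gcongr
          · exact om_nonneg922
          · exact om_le922
      _ ≤ 1 / 100 := by norm_num
  have key : W1922 σ y = u * (1
      + ((1 / 2) * (v ^ 0 * u ^ 1 - v ^ 1 * u ^ 0) - (8664339757 / 25000000000) * (v ^ 0 * u ^ 1))
      + ((-1 / 12) * (2 * (v ^ 1 * u ^ 1) - 2 * (v ^ 2 * u ^ 0))
        + (6565849 / 25000000) * (v ^ 0 * u ^ 2 - 2 * (v ^ 1 * u ^ 1))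
        - (162859943 / 1000000000) * (2 * (v ^ 0 * u ^ 2)))
      + (-(72331 / 400000) * (2 * (v ^ 1 * u ^ 2) - 3 * (v ^ 2 * u ^ 1))
        + (130563 / 1000000) * (v ^ 0 * u ^ 3 - 3 * (v ^ 1 * u ^ 2))
        - (869963 / 10000000) * (3 * (v ^ 0 * u ^ 3)))
      + ((1 / 120) * (4 * (v ^ 3 * u ^ 1) - 4 * (v ^ 4 * u ^ 0))
        + (17 / 2000) * (3 * (v ^ 2 * u ^ 2) - 4 * (v ^ 3 * u ^ 1))
        - (13437 / 50000) * (2 * (v ^ 1 * u ^ 3) - 4 * (v ^ 2 * u ^ 2))
        + (5271 / 100000) * (v ^ 0 * u ^ 4 - 4 * (v ^ 1 * u ^ 3))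
        - (5377 / 100000) * (4 * (v ^ 0 * u ^ 4)))
      + σ * kap * v + A0 * om922 * Real.sin (om922 * Real.log y)) := by
    rw [hv]
    unfold W1922 mo922
    rw [← hθ, ← hu]
    ring
  rw [key]
  refine mul_nonneg hu0.le ?_
  have b01 := B 0 1
  have b10 := B 1 0
  have b11 := B 1 1
  have b20 := B 2 0
  have b02 := B 0 2
  have b12 := B 1 2
  have b21 := B 2 1
  have b03 := B 0 3
  have b31 := B 3 1
  have b40 := B 4 0
  have b22 := B 2 2
  have b13 := B 1 3
  have b04 := B 0 4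
  have h1 := abs_le.1 hs
  have h2 := abs_le.1 hsin
  have c01 := b01.2 (by norm_num)
  have c10 := b10.2 (by norm_num)
  have c11 := b11.2 (by norm_num)
  have c20 := b20.2 (by norm_num)
  have c02 := b02.2 (by norm_num)
  have c12 := b12.2 (by norm_num)
  have c21 := b21.2 (by norm_num)
  have c03 := b03.2 (by norm_num)
  have c31 := b31.2 (by norm_num)
  have c40 := b40.2 (by norm_num)
  have c22 := b22.2 (by norm_num)
  have c13 := b13.2 (by norm_num)
  have c04 := b04.2 (by norm_num)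
  linarith [b01.1, b10.1, b11.1, b20.1, b02.1, b12.1, b21.1, b03.1, b31.1, b40.1, b22.1, b13.1,
    b04.1, h1.1, h1.2, h2.1, h2.2]

theorem W2_nonpos922 (σ y : ℝ) (hσ : |σ| ≤ 1) (hy : 1000 ≤ y) : W2922 σ y ≤ 0 := by
  have hy0 : 0 < y := by linarith
  obtain ⟨ht0, ht⟩ := th_bounds922 hy
  set θ := th y with hθ
  set u := y⁻¹ with hu
  have hu0 : 0 < u := inv_pos.2 hy0
  have hu1 : u ≤ 1 / 1000 := by
    rw [hu, inv_le_comm₀ hy0 (by norm_num)]
    linarith
  set v := θ * u with hv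
  have hv0 : 0 ≤ v := mul_nonneg ht0 hu0.le
  have hv1 : v ≤ 1 / 100 := by
    rw [hv, hu, ← div_eq_mul_inv, div_le_iff₀ hy0]
    linarith
  have B := fun a b => poly_bound922 hu0.le hu1 hv0 hv1 a b
  have hk : |kap| ≤ 1 := by unfold kap; rw [abs_of_pos (by norm_num)]; norm_num
  have hs : |σ * kap * v| ≤ 1 / 100 := by
    rw [abs_mul, abs_mul, abs_of_nonneg hv0]
    calc |σ| * |kap| * v ≤ 1 * 1 * v := by gcongr
      _ ≤ 1 / 100 := by linarith
  have hs' : |σ * kap * u| ≤ 1 / 100 := by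
    rw [abs_mul, abs_mul, abs_of_nonneg hu0.le]
    calc |σ| * |kap| * u ≤ 1 * 1 * u := by gcongr
      _ ≤ 1 / 100 := by linarith
  have h2 : |A0| ≤ 1 / 10000 := by unfold A0; rw [abs_of_pos (by norm_num)]; norm_num
  have hsin : |A0 * om922 * Real.sin (om922 * Real.log y)| ≤ 1 / 1000 := by
    rw [abs_mul, abs_mul, abs_of_nonneg om_nonneg922]
    have h1 := Real.abs_sin_le_one (om922 * Real.log y)
    calc |A0| * om922 * |Real.sin (om922 * Real.log y)| ≤ 1 / 10000 * 10 * 1 := by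
          gcongr
          · exact om_nonneg922
          · exact om_le922
      _ ≤ 1 / 1000 := by norm_num
  have hcos : |A0 * om922 * (om922 * Real.cos (om922 * Real.log y))| ≤ 1 / 100 := by
    rw [abs_mul, abs_mul, abs_mul, abs_of_nonneg om_nonneg922]
    have h1 := Real.abs_cos_le_one (om922 * Real.log y)
    have ho := om_nonneg922
    calc |A0| * om922 * (om922 * |Real.cos (om922 * Real.log y)|) ≤ 1 / 10000 * 10 * (10 * 1) := by
          gcongr
          · exact om_le922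
          · exact om_le922
      _ ≤ 1 / 100 := by norm_num
  have key : W2922 σ y = u ^ 2 * (-1
      + ((1 / 2) * (-3 * (v ^ 0 * u ^ 1) + 2 * (v ^ 1 * u ^ 0))
          + (8664339757 / 25000000000) * (2 * (v ^ 0 * u ^ 1)))
      + ((-1 / 12) * (2 * (v ^ 0 * u ^ 2) - 10 * (v ^ 1 * u ^ 1) + 6 * (v ^ 2 * u ^ 0))
        + (6565849 / 25000000) * (-5 * (v ^ 0 * u ^ 2) + 6 * (v ^ 1 * u ^ 1))
        + (162859943 / 1000000000) * (6 * (v ^ 0 * u ^ 2)))
      + (-(72331 / 400000) * (2 * (v ^ 0 * u ^ 3) - 14 * (v ^ 1 * u ^ 2) + 12 * (v ^ 2 * u ^ 1))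
        + (130563 / 1000000) * (-7 * (v ^ 0 * u ^ 3) + 12 * (v ^ 1 * u ^ 2))
        + (869963 / 10000000) * (12 * (v ^ 0 * u ^ 3)))
      + ((1 / 120) * (12 * (v ^ 2 * u ^ 2) - 36 * (v ^ 3 * u ^ 1) + 20 * (v ^ 4 * u ^ 0))
        + (17 / 2000) * (6 * (v ^ 1 * u ^ 3) - 27 * (v ^ 2 * u ^ 2) + 20 * (v ^ 3 * u ^ 1))
        - (13437 / 50000) * (2 * (v ^ 0 * u ^ 4) - 18 * (v ^ 1 * u ^ 3) + 20 * (v ^ 2 * u ^ 2))
        + (5271 / 100000) * (-9 * (v ^ 0 * u ^ 4) + 20 * (v ^ 1 * u ^ 3))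
        + (5377 / 100000) * (20 * (v ^ 0 * u ^ 4)))
      + σ * kap * u - 2 * (σ * kap * v) + A0 * om922 * (om922 * Real.cos (om922 * Real.log y))
      - A0 * om922 * Real.sin (om922 * Real.log y)) := by
    rw [hv]
    unfold W2922 mo922
    rw [← hθ, ← hu]
    ring
  rw [key]
  refine mul_nonpos_of_nonneg_of_nonpos (by positivity) ?_
  have b01 := B 0 1
  have b10 := B 1 0
  have b11 := B 1 1
  have b20 := B 2 0
  have b02 := B 0 2
  have b12 := B 1 2
  have b21 := B 2 1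
  have b03 := B 0 3
  have b31 := B 3 1
  have b40 := B 4 0
  have b22 := B 2 2
  have b13 := B 1 3
  have b04 := B 0 4
  have h1 := abs_le.1 hs
  have h1' := abs_le.1 hs'
  have h2 := abs_le.1 hsin
  have h3 := abs_le.1 hcos
  have c01 := b01.2 (by norm_num)
  have c10 := b10.2 (by norm_num)
  have c11 := b11.2 (by norm_num)
  have c20 := b20.2 (by norm_num)
  have c02 := b02.2 (by norm_num)
  have c12 := b12.2 (by norm_num)
  have c21 := b21.2 (by norm_num)
  have c03 := b03.2 (by norm_num)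
  have c31 := b31.2 (by norm_num)
  have c40 := b40.2 (by norm_num)
  have c22 := b22.2 (by norm_num)
  have c13 := b13.2 (by norm_num)
  have c04 := b04.2 (by norm_num)
  linarith [b01.1, b10.1, b11.1, b20.1, b02.1, b12.1, b21.1, b03.1, b31.1, b40.1, b22.1, b13.1,
    b04.1, h1.1, h1.2, h1'.1, h1'.2, h2.1, h2.2, h3.1, h3.2]

theorem Wf_slope922 (σ : ℝ) {a : ℝ} (ha : 0 < a) :
    ∃ c ∈ Set.Ioo a (a + 1), W1922 σ c = Wf σ (a + 1) - Wf σ a := by
  obtain ⟨c, hc, h⟩ := exists_hasDerivAt_eq_slope (Wf σ) (W1922 σ) (show a < a + 1 by linarith)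
    (fun x hx => (Wf_deriv922 σ (lt_of_lt_of_le ha hx.1)).continuousAt.continuousWithinAt)
    (fun x hx => Wf_deriv922 σ (ha.trans hx.1))
  refine ⟨c, hc, ?_⟩
  rw [h]
  have : a + 1 - a = 1 := by ring
  rw [this, div_one]

/-! TARGETS -/
theorem Wf_mono (σ y : ℝ) (hσ : |σ| ≤ 1) (hy : 1000 ≤ y) : Wf σ y ≤ Wf σ (y + 1) := by
  obtain ⟨c, hc, h⟩ := Wf_slope922 σ (show 0 < y by linarith)
  have := W1_nonneg922 σ c hσ (hy.trans hc.1.le)
  linarith

theorem Wf_conc (σ y : ℝ) (hσ : |σ| ≤ 1) (hy : 1001 ≤ y) :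
    Wf σ (y + 1) + Wf σ (y - 1) ≤ 2 * Wf σ y := by
  obtain ⟨c, hc, h⟩ := Wf_slope922 σ (show 0 < y by linarith)
  obtain ⟨d, hd, h'⟩ := Wf_slope922 σ (show 0 < y - 1 by linarith)
  have e : y - 1 + 1 = y := by ring
  rw [e] at hd h'
  have hanti : AntitoneOn (W1922 σ) (Set.Ici 1000) := by
    refine antitoneOn_of_deriv_nonpos (convex_Ici _) ?_ ?_ ?_
    · intro x hx
      have hx' : (1000:ℝ) ≤ x := hx
      exact (W1_deriv922 σ (by linarith)).continuousAt.continuousWithinAt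
    · intro x hx
      rw [interior_Ici] at hx
      have hx' : (1000:ℝ) < x := hx
      exact (W1_deriv922 σ (by linarith)).differentiableAt.differentiableWithinAt
    · intro x hx
      rw [interior_Ici] at hx
      have hx' : (1000:ℝ) < x := hx
      rw [(W1_deriv922 σ (by linarith)).deriv]
      exact W2_nonpos922 σ x hσ hx'.le
  have h3 : W1922 σ c ≤ W1922 σ d := by
    refine hanti ?_ ?_ (hd.2.le.trans hc.1.le)
    · show (1000:ℝ) ≤ d
      linarith [hd.1]
    · show (1000:ℝ) ≤ c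
      linarith [hc.1]
  linarith

end MWfH
end Pool.Agent.Helper155.Gil
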