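import Pool.Agent.Helper155.Gil.Defs

set_option autoImplicit false
open Finset Filter Topology

namespace Pool.Agent.Helper155.Gil
namespace MZP
namespace Rf

section gen
variable {α : Type}

def ladd (add : α → α → α) : List α → List α → List α
  | [], q => q
  | a :: p, [] => a :: p
  | a :: p, b :: q => add a b :: ladd add p q

def lmul (zero : α) (add mul : α → α → α) : List α → List α → List α
  | [], _ => []
  | a :: p, q => ladd add (q.map (mul a)) (zero :: lmul zero add mul p q)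

noncomputable def ev (f : α → ℝ) (x : ℝ) : List α → ℝ
  | [] => 0
  | a :: p => f a + x * ev f x p

theorem ev_ladd (f : α → ℝ) (x : ℝ) (add : α → α → α) (hadd : ∀ a b, f (add a b) = f a + f b)
    (p q : List α) : ev f x (ladd add p q) = ev f x p + ev f x q := by
  induction p generalizing q with
  | nil => simp [ladd, ev]
  | cons a p ih =>
    cases q with
    | nil => simp [ladd, ev]
    | cons b q => simp only [ladd, ev, hadd, ih]; ring

theorem ev_map (f : α → ℝ) (x : ℝ) (mul : α → α → α) (hmul : ∀ a b, f (mul a b) = f a * f b)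
    (a : α) (q : List α) : ev f x (q.map (mul a)) = f a * ev f x q := by
  induction q with
  | nil => simp [ev]
  | cons b q ih => simp only [List.map, ev, hmul, ih]; ring

theorem ev_lmul (f : α → ℝ) (x : ℝ) (zero : α) (add mul : α → α → α) (h0 : f zero = 0)
    (hadd : ∀ a b, f (add a b) = f a + f b) (hmul : ∀ a b, f (mul a b) = f a * f b)
    (p q : List α) : ev f x (lmul zero add mul p q) = ev f x p * ev f x q := by
  induction p with
  | nil => simp [lmul, ev]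
  | cons a p ih =>
    simp only [lmul, ev, ev_ladd f x add hadd, ev_map f x mul hmul, ih, h0]; ring

end gen

/-- polynomials in θ -/
abbrev Q1 := List ℚ
/-- in u over θ -/
abbrev Q2 := List (List ℚ)
/-- in t over u, θ -/
abbrev Q3 := List (List (List ℚ))

def add1 : Q1 → Q1 → Q1 := ladd (· + ·)
def mul1 : Q1 → Q1 → Q1 := lmul 0 (· + ·) (· * ·)
def add2 : Q2 → Q2 → Q2 := ladd add1
def mul2 : Q2 → Q2 → Q2 := lmul [] add1 mul1
def add3 : Q3 → Q3 → Q3 := ladd add2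
def mul3 : Q3 → Q3 → Q3 := lmul [] add2 mul2

noncomputable def ev1 (θ : ℝ) : Q1 → ℝ := ev (fun q : ℚ => (q : ℝ)) θ
noncomputable def ev2 (u θ : ℝ) : Q2 → ℝ := ev (ev1 θ) u
noncomputable def ev3 (t u θ : ℝ) : Q3 → ℝ := ev (ev2 u θ) t

theorem ev1_add (θ : ℝ) (p q : Q1) : ev1 θ (add1 p q) = ev1 θ p + ev1 θ q :=
  ev_ladd _ _ _ (by intro a b; push_cast; rfl) p q
theorem ev1_mul (θ : ℝ) (p q : Q1) : ev1 θ (mul1 p q) = ev1 θ p * ev1 θ q :=
  ev_lmul _ _ _ _ _ (by simp) (by intro a b; push_cast; rfl) (by intro a b; push_cast; rfl) p q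
theorem ev2_add (u θ : ℝ) (p q : Q2) : ev2 u θ (add2 p q) = ev2 u θ p + ev2 u θ q :=
  ev_ladd _ _ _ (ev1_add θ) p q
theorem ev2_mul (u θ : ℝ) (p q : Q2) : ev2 u θ (mul2 p q) = ev2 u θ p * ev2 u θ q :=
  ev_lmul _ _ _ _ _ (by simp [ev1, ev]) (ev1_add θ) (ev1_mul θ) p q
theorem ev3_add (t u θ : ℝ) (p q : Q3) : ev3 t u θ (add3 p q) = ev3 t u θ p + ev3 t u θ q :=
  ev_ladd _ _ _ (ev2_add u θ) p q
theorem ev3_mul (t u θ : ℝ) (p q : Q3) : ev3 t u θ (mul3 p q) = ev3 t u θ p * ev3 t u θ q :=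
  ev_lmul _ _ _ _ _ (by simp [ev2, ev]) (ev2_add u θ) (ev2_mul u θ) p q

def cst (q : ℚ) : Q3 := [[[q]]]
def vT : Q3 := [[], [[1]]]
def vU : Q3 := [[[], [1]]]
def vH : Q3 := [[[0, 1]]]

theorem ev3_cst (t u θ : ℝ) (q : ℚ) : ev3 t u θ (cst q) = q := by
  simp [ev3, ev2, ev1, ev, cst]
theorem ev3_T (t u θ : ℝ) : ev3 t u θ vT = t := by
  simp [ev3, ev2, ev1, ev, vT]
theorem ev3_U (t u θ : ℝ) : ev3 t u θ vU = u := by
  simp [ev3, ev2, ev1, ev, vU]
theorem ev3_H (t u θ : ℝ) : ev3 t u θ vH = θ := by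
  simp [ev3, ev2, ev1, ev, vH]

def pow3 (p : Q3) : ℕ → Q3
  | 0 => cst 1
  | n + 1 => mul3 (pow3 p n) p

theorem ev3_pow (t u θ : ℝ) (p : Q3) (n : ℕ) : ev3 t u θ (pow3 p n) = ev3 t u θ p ^ n := by
  induction n with
  | zero => simp [pow3, ev3_cst]
  | succ n ih => rw [pow3, ev3_mul, ih, pow_succ]

def sm (q : ℚ) (p : Q3) : Q3 := mul3 (cst q) p
theorem ev3_sm (t u θ : ℝ) (q : ℚ) (p : Q3) : ev3 t u θ (sm q p) = q * ev3 t u θ p := by
  rw [sm, ev3_mul, ev3_cst]

end Rf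

namespace Rf

/-- `[[a0]], [[a1]], ...` constants polynomial in t -/
def tp (l : List ℚ) : Q3 := l.map (fun q => [[q]])

def lsT : ℕ → Q3
  | 15 => tp [0, 1, -1/2, 1/3, -1/4, 1/5, -1/6, 1/7, -1/8, 1/9, -1/10, 1/11, -1/12, 1/13, -1/14, 1/15]
  | 9 => tp [0, 1, -1/2, 1/3, -1/4, 1/5, -1/6, 1/7, -1/8, 1/9]
  | 7 => tp [0, 1, -1/2, 1/3, -1/4, 1/5, -1/6, 1/7]
  | 5 => tp [0, 1, -1/2, 1/3, -1/4, 1/5]
  | 3 => tp [0, 1, -1/2, 1/3]
  | _ => []

def rsT : ℕ → Q3
  | 9 => tp [1, -1, 1, -1, 1, -1, 1, -1, 1, -1]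
  | 7 => tp [1, -1, 1, -1, 1, -1, 1, -1]
  | 5 => tp [1, -1, 1, -1, 1, -1]
  | 3 => tp [1, -1, 1, -1]
  | _ => []

def p1 (x : Q3) : Q3 := add3 (sm (1/2) x) (cst (8664339757 / 25000000000))
def p2 (x : Q3) : Q3 := add3 (mul3 x (add3 (sm (-1/12) x) (cst (6565849 / 25000000)))) (cst (162859943 / 1000000000))
def p3 (x : Q3) : Q3 := add3 (mul3 x (add3 (sm (-(72331 / 400000)) x) (cst (130563 / 1000000)))) (cst (869963 / 10000000))
def p4 (x : Q3) : Q3 :=
  add3 (mul3 x (add3 (mul3 x (add3 (mul3 x (add3 (sm (1/120) x) (cst (17/2000)))) (cst (-13437 / 50000)))) (cst (5271 / 100000)))) (cst (5377 / 100000))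

def zA1 : Q3 := add3 vH (lsT 15)
def zA2 : Q3 := mul3 (mul3 vU (rsT 9)) (p1 (add3 vH (lsT 9)))
def zA3 : Q3 := mul3 (mul3 (pow3 vU 2) (pow3 (rsT 7) 2)) (p2 (add3 vH (lsT 7)))
def zA4 : Q3 := mul3 (mul3 (pow3 vU 3) (pow3 (rsT 5) 3)) (p3 (add3 vH (lsT 5)))
def zA5 : Q3 := mul3 (mul3 (pow3 vU 4) (pow3 (rsT 3) 4)) (p4 (add3 vH (lsT 3)))

def sz (p : Q3) : ℕ := (p.map (fun r => (r.map List.length).sum)).sum
def tot1 : Q1 → ℚ
  | [] => 0
  | a :: l => |a| + tot1 l
def tot (p : Q3) : ℚ := ((p.map (fun r => ((r.map tot1).sum))).sum)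


def zT : Q3 := add3 zA1 (add3 zA2 (add3 zA3 (add3 zA4 zA5)))

/-- τ = t - u/2 -/
def tauT : Q3 := add3 vT (sm (-1/2) vU)
/-- first coefficient -/
def g1 : Q3 := add3 (cst (-1/2)) (mul3 vU (add3 (add3 (sm (1/8) vH) (cst (-(40342641 / 200000000))))
  (mul3 vU (add3 (add3 (sm (1061407 / 5000000) vH) (cst (-(8147 / 100000))))
  (mul3 vU (add3 (mul3 vH (add3 (mul3 vH (add3 (sm (-(781/50000)) vH) (cst (-(33/12500))))) (cst (4911/20000)))) (cst (-(787/50000)))))))))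
def g3 : Q3 := add3 (cst (-1/12)) (mul3 vU (add3 (add3 (sm (5/72) vH) (cst (-(2050233 / 10000000))))
  (mul3 vU (add3 (mul3 vH (add3 (sm (347/100000) vH) (cst (7143/25000)))) (cst (-(16989/50000)))))))
def g5 : Q3 := add3 (cst (-7/180)) (mul3 vU (add3 (sm (2847/50000) vH) (cst (-(19719 / 100000)))))
def gT : Q3 := 
  let t2 := mul3 tauT tauT
  mul3 tauT (add3 g1 (mul3 t2 (add3 g3 (mul3 t2 (add3 g5 (sm (-181/7560) t2))))))

def oneG : Q3 := add3 (cst 1) (sm (-1) gT)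
def bT : Q3 := mul3 zT oneG
def hL : Q3 := add3 vH (cst (287209/414355))
def tgT : Q3 := add3 vH (mul3 vU (add3 (sm (1/2) (p1 hL)) (mul3 vU (add3 (sm (1/4) (p2 hL)) (mul3 vU (add3 (sm (1/8) (p3 hL)) (mul3 vU (sm (1/16) (p4 hL)))))))))
def dT : Q3 := add3 bT (sm (-1) tgT)

def mc : ℕ → ℚ
  | 0 => 1
  | 1 => 502 / 1000
  | 2 => 756 / 1000
  | 3 => 1898 / 1000
  | 4 => 667 / 100
  | 5 => 3013 / 100
  | 6 => 1664 / 10
  | _ => 0


def E0q : ℚ := 3559 / 1000000
def U0q : ℚ := 1 / 2048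

def wt (k i j : ℕ) : ℚ :=
  if k % 2 = 1 then 0 else
    if 1 ≤ min (k / 2) 6 + j then
      mc (min (k / 2) 6) / 4 ^ (k / 2 - 6) * E0q ^ (min (k / 2) 6 + j - 1) * U0q ^ (i - j)
    else U0q ^ (i - 1) / (728 / 100)

def okm (k i j : ℕ) (c : ℚ) : Bool :=
  decide (c = 0) || decide (k % 2 = 1) || (decide (j ≤ i) && (decide (k ≠ 0) || decide (i ≠ 0)))

def tH (k i : ℕ) : ℕ → Q1 → ℚ
  | _, [] => 0
  | j, c :: l => |c| * wt k i j + tH k i (j + 1) l
def tU (k : ℕ) : ℕ → Q2 → ℚ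
  | _, [] => 0
  | i, r :: l => tH k i 0 r + tU k (i + 1) l
def tT : ℕ → Q3 → ℚ
  | _, [] => 0
  | k, r :: l => tU k 0 r + tT (k + 1) l

def okH (k i : ℕ) : ℕ → Q1 → Bool
  | _, [] => true
  | j, c :: l => okm k i j c && okH k i (j + 1) l
def okU (k : ℕ) : ℕ → Q2 → Bool
  | _, [] => true
  | i, r :: l => okH k i 0 r && okU k (i + 1) l
def okT : ℕ → Q3 → Bool
  | _, [] => true
  | k, r :: l => okU k 0 r && okT (k + 1) l


theorem ev_pt (t u θ : ℝ) (n : ℕ) : ev3 t u θ (sm (n : ℚ) vT) = n * t := by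
  rw [ev3_sm, ev3_T]; push_cast; rfl

theorem ls15 (t u θ : ℝ) : ev3 t u θ (lsT 15) = ls 15 t := by
  simp [lsT, tp, ev3, ev2, ev1, ev, ls, Finset.sum_range_succ]; ring
theorem ls9 (t u θ : ℝ) : ev3 t u θ (lsT 9) = ls 9 t := by
  simp [lsT, tp, ev3, ev2, ev1, ev, ls, Finset.sum_range_succ]; ring
theorem ls7 (t u θ : ℝ) : ev3 t u θ (lsT 7) = ls 7 t := by
  simp [lsT, tp, ev3, ev2, ev1, ev, ls, Finset.sum_range_succ]; ring
theorem ls5 (t u θ : ℝ) : ev3 t u θ (lsT 5) = ls 5 t := by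
  simp [lsT, tp, ev3, ev2, ev1, ev, ls, Finset.sum_range_succ]; ring
theorem ls3 (t u θ : ℝ) : ev3 t u θ (lsT 3) = ls 3 t := by
  simp [lsT, tp, ev3, ev2, ev1, ev, ls, Finset.sum_range_succ]; ring
theorem rs9 (t u θ : ℝ) : ev3 t u θ (rsT 9) = rs 9 t := by
  simp [rsT, tp, ev3, ev2, ev1, ev, rs, Finset.sum_range_succ]; ring
theorem rs7 (t u θ : ℝ) : ev3 t u θ (rsT 7) = rs 7 t := by
  simp [rsT, tp, ev3, ev2, ev1, ev, rs, Finset.sum_range_succ]; ring
theorem rs5 (t u θ : ℝ) : ev3 t u θ (rsT 5) = rs 5 t := by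
  simp [rsT, tp, ev3, ev2, ev1, ev, rs, Finset.sum_range_succ]; ring
theorem rs3 (t u θ : ℝ) : ev3 t u θ (rsT 3) = rs 3 t := by
  simp [rsT, tp, ev3, ev2, ev1, ev, rs, Finset.sum_range_succ]; ring

theorem p1_ev (t u θ : ℝ) (p : Q3) : ev3 t u θ (p1 p) = P1 (ev3 t u θ p) := by
  simp only [p1, ev3_add, ev3_mul, ev3_sm, ev3_cst, P1]; push_cast; ring
theorem p2_ev (t u θ : ℝ) (p : Q3) : ev3 t u θ (p2 p) = P2 (ev3 t u θ p) := by
  simp only [p2, ev3_add, ev3_mul, ev3_sm, ev3_cst, P2]; push_cast; ring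
theorem p3_ev (t u θ : ℝ) (p : Q3) : ev3 t u θ (p3 p) = P3 (ev3 t u θ p) := by
  simp only [p3, ev3_add, ev3_mul, ev3_sm, ev3_cst, P3]; push_cast; ring
theorem p4_ev (t u θ : ℝ) (p : Q3) : ev3 t u θ (p4 p) = P4 (ev3 t u θ p) := by
  simp only [p4, ev3_add, ev3_mul, ev3_sm, ev3_cst, P4]; push_cast; ring

theorem zT_ev (t u θ : ℝ) : ev3 t u θ zT = Zp u θ t := by
  simp only [zT, zA1, zA2, zA3, zA4, zA5, ev3_add, ev3_mul, ev3_pow, ev3_H, ev3_U, p1_ev, p2_ev, p3_ev,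
    p4_ev, ls15, ls9, ls7, ls5, ls3, rs9, rs7, rs5, rs3, Zp]
  ring

theorem gT_ev (t u θ : ℝ) : ev3 t u θ gT = GG u θ (t - u / 2) := by
  simp only [gT, g1, g3, g5, tauT, ev3_add, ev3_mul, ev3_sm, ev3_cst, ev3_H, ev3_U, ev3_T, GG]
  push_cast
  ring

/-- the target with a parameter for `log 2` -/
noncomputable def tg (L u θ : ℝ) : ℝ :=
  θ + P1 (θ + L) * (u / 2) + P2 (θ + L) * (u / 2) ^ 2 + P3 (θ + L) * (u / 2) ^ 3 + P4 (θ + L) * (u / 2) ^ 4

theorem dT_ev (t u θ : ℝ) : ev3 t u θ dT =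
    Zp u θ t * (1 - GG u θ (t - u / 2)) - tg (287209 / 414355) u θ := by
  simp only [dT, bT, oneG, tgT, hL, ev3_add, ev3_mul, ev3_sm, ev3_cst, ev3_H, ev3_U, zT_ev, gT_ev,
    p1_ev, p2_ev, p3_ev, p4_ev, tg]
  push_cast
  ring

noncomputable def mT (M : ℕ → ℝ) (u θ : ℝ) : ℕ → Q3 → ℝ
  | _, [] => 0
  | k, r :: l => ev2 u θ r * M k + mT M u θ (k + 1) l

theorem sum_ev3 {ι : Type} (s : Finset ι) (w t : ι → ℝ) (u θ : ℝ) (D : Q3) (k : ℕ) :
    ∑ i ∈ s, w i * (t i ^ k * ev3 (t i) u θ D) = mT (fun k => ∑ i ∈ s, w i * t i ^ k) u θ k D := by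
  induction D generalizing k with
  | nil => simp [ev3, ev, mT]
  | cons r l ih =>
    rw [mT, ← ih (k + 1), Finset.mul_sum, ← Finset.sum_add_distrib]
    apply Finset.sum_congr rfl
    intro i _
    simp only [ev3, ev]
    ring

/-- hypotheses on the moments -/
structure Hyp (M : ℕ → ℝ) (u θ : ℝ) : Prop where
  u0 : 0 < u
  uU : u ≤ 1 / 2048
  th : 728 / 100 ≤ θ
  e0 : u * θ ≤ 3559 / 1000000
  odd : ∀ k, k % 2 = 1 → M k = 0
  even : ∀ k, k % 2 = 0 → |M k| ≤ (mc (min (k / 2) 6) : ℝ) / 4 ^ (k / 2 - 6) * (u * θ) ^ (min (k / 2) 6)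

theorem mc_nonneg (k : ℕ) : 0 ≤ mc k := by
  unfold mc; split <;> norm_num

theorem mono {M : ℕ → ℝ} {u θ : ℝ} (H : Hyp M u θ) (k i j : ℕ) (c : ℚ) (ok : okm k i j c = true) :
    |(c : ℝ) * (θ ^ j * (u ^ i * M k))| ≤ ((|c| * wt k i j : ℚ) : ℝ) * (u * θ) := by
  obtain ⟨hu0, huU, hth, he0, hodd, heven⟩ := H
  have hθ : 0 < θ := by linarith
  have hepos : 0 < u * θ := by positivity
  have key : c = 0 ∨ |θ ^ j * (u ^ i * M k)| ≤ ((wt k i j : ℚ) : ℝ) * (u * θ) := by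
    simp only [okm, Bool.or_eq_true, Bool.and_eq_true, decide_eq_true_eq] at ok
    rcases ok with (ok | ok) | ⟨hji, hk⟩
    · left; exact ok
    · right
      rw [hodd k ok, wt, if_pos ok]; simp
    · by_cases hk2 : k % 2 = 1
      · right
        rw [hodd k hk2, wt, if_pos hk2]; simp
      right
      have hk0 : k % 2 = 0 := by omega
      have hM := heven k hk0
      have h1 : θ ^ j * u ^ i = (u * θ) ^ j * u ^ (i - j) := by
        conv_lhs => rw [show i = j + (i - j) by omega]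
        rw [pow_add, mul_pow]; ring
      have h2 : |θ ^ j * (u ^ i * M k)| = (u * θ) ^ j * u ^ (i - j) * |M k| := by
        rw [← mul_assoc, h1, abs_mul, abs_of_pos (by positivity)]
      rw [h2, wt, if_neg hk2]
      split_ifs with h3
      · push_cast
        have h4 : u ^ (i - j) ≤ (U0q : ℝ) ^ (i - j) := by
          apply pow_le_pow_left₀ hu0.le
          rw [U0q]; push_cast; linarith
        have h5 : (u * θ) ^ (min (k / 2) 6 + j) ≤ (E0q : ℝ) ^ (min (k / 2) 6 + j - 1) * (u * θ) := by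
          obtain ⟨m, hm⟩ : ∃ m, min (k / 2) 6 + j = m + 1 := ⟨min (k / 2) 6 + j - 1, by omega⟩
          rw [hm, pow_succ, Nat.add_sub_cancel]
          apply mul_le_mul_of_nonneg_right _ hepos.le
          apply pow_le_pow_left₀ hepos.le
          rw [E0q]; push_cast; linarith
        have hmc : (0 : ℝ) ≤ (mc (min (k / 2) 6) : ℝ) := by exact_mod_cast mc_nonneg _
        calc (u * θ) ^ j * u ^ (i - j) * |M k|
            ≤ (u * θ) ^ j * u ^ (i - j) * ((mc (min (k / 2) 6) : ℝ) / 4 ^ (k / 2 - 6) * (u * θ) ^ (min (k / 2) 6)) := by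
              apply mul_le_mul_of_nonneg_left hM; positivity
          _ = (mc (min (k / 2) 6) : ℝ) / 4 ^ (k / 2 - 6) * ((u * θ) ^ (min (k / 2) 6 + j) * u ^ (i - j)) := by
              rw [pow_add]; ring
          _ ≤ (mc (min (k / 2) 6) : ℝ) / 4 ^ (k / 2 - 6) *
                (((E0q : ℝ) ^ (min (k / 2) 6 + j - 1) * (u * θ)) * (U0q : ℝ) ^ (i - j)) := by
              apply mul_le_mul_of_nonneg_left _ (by positivity)
              apply mul_le_mul h5 h4 (by positivity)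
              have : (0 : ℝ) ≤ (E0q : ℝ) := by rw [E0q]; push_cast; norm_num
              positivity
          _ = _ := by ring
      · have hj : j = 0 := by omega
        have hkk : k = 0 := by omega
        subst hj; subst hkk
        have hi : i ≠ 0 := by tauto
        obtain ⟨m, rfl⟩ := Nat.exists_eq_succ_of_ne_zero hi
        simp only [Nat.zero_div, Nat.zero_sub, mc, Nat.zero_min, pow_zero] at hM
        push_cast
        simp only [Nat.succ_eq_add_one, Nat.add_sub_cancel, Nat.sub_zero, pow_zero, one_mul]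
        have h4 : u ^ m ≤ (U0q : ℝ) ^ m := by
          apply pow_le_pow_left₀ hu0.le
          rw [U0q]; push_cast; linarith
        have h6 : |M 0| ≤ 1 := by
          refine hM.trans ?_
          norm_num
        have h7 : u ≤ (u * θ) / (728 / 100) := by
          rw [le_div_iff₀ (by norm_num)]
          exact mul_le_mul_of_nonneg_left hth hu0.le
        calc u ^ (m + 1) * |M 0| ≤ u ^ (m + 1) * 1 := mul_le_mul_of_nonneg_left h6 (by positivity)
          _ = u ^ m * u := by ring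
          _ ≤ (U0q : ℝ) ^ m * ((u * θ) / (728 / 100)) := by
              apply mul_le_mul h4 h7 hu0.le
              have : (0 : ℝ) ≤ (U0q : ℝ) := by rw [U0q]; push_cast; norm_num
              positivity
          _ = _ := by ring
  rcases key with h | h
  · subst h; simp
  · rw [abs_mul]
    push_cast
    rw [mul_assoc]
    exact mul_le_mul_of_nonneg_left h (abs_nonneg _)

theorem bndH {M : ℕ → ℝ} {u θ : ℝ} (H : Hyp M u θ) (k i : ℕ) (l : Q1) (j : ℕ)
    (ok : okH k i j l = true) :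
    |ev1 θ l * (θ ^ j * (u ^ i * M k))| ≤ (tH k i j l : ℝ) * (u * θ) := by
  induction l generalizing j with
  | nil => simp [ev1, ev, tH]
  | cons c l ih =>
    simp only [okH, Bool.and_eq_true] at ok
    have h1 := mono H k i j c ok.1
    have h2 := ih (j + 1) ok.2
    have h3 : ev1 θ (c :: l) * (θ ^ j * (u ^ i * M k)) =
      (c : ℝ) * (θ ^ j * (u ^ i * M k)) + ev1 θ l * (θ ^ (j + 1) * (u ^ i * M k)) := by
      simp only [ev1, ev]; ring
    rw [h3, tH]
    refine (abs_add_le _ _).trans ?_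
    push_cast at h1 ⊢
    linarith

theorem bndU {M : ℕ → ℝ} {u θ : ℝ} (H : Hyp M u θ) (k : ℕ) (l : Q2) (i : ℕ)
    (ok : okU k i l = true) :
    |ev2 u θ l * (u ^ i * M k)| ≤ (tU k i l : ℝ) * (u * θ) := by
  induction l generalizing i with
  | nil => simp [ev2, ev, tU]
  | cons r l ih =>
    simp only [okU, Bool.and_eq_true] at ok
    have h1 := bndH H k i r 0 ok.1
    have h2 := ih (i + 1) ok.2
    have h3 : ev2 u θ (r :: l) * (u ^ i * M k) =
      ev1 θ r * (θ ^ 0 * (u ^ i * M k)) + ev2 u θ l * (u ^ (i + 1) * M k) := by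
      simp only [ev2, ev]; ring
    rw [h3, tU]
    refine (abs_add_le _ _).trans ?_
    push_cast
    linarith

theorem bndT {M : ℕ → ℝ} {u θ : ℝ} (H : Hyp M u θ) (l : Q3) (k : ℕ)
    (ok : okT k l = true) :
    |mT M u θ k l| ≤ (tT k l : ℝ) * (u * θ) := by
  induction l generalizing k with
  | nil => simp [mT, tT]
  | cons r l ih =>
    simp only [okT, Bool.and_eq_true] at ok
    have h1 := bndU H k r 0 ok.1
    have h2 := ih (k + 1) ok.2
    rw [mT, tT]
    refine (abs_add_le _ _).trans ?_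
    push_cast
    rw [pow_zero, one_mul] at h1
    linarith


theorem check : (okT 0 dT && decide (tT 0 dT ≤ 45 / 100000000000)) = true := by decide +kernel

theorem mT_bound {M : ℕ → ℝ} {u θ : ℝ} (H : Hyp M u θ) :
    |mT M u θ 0 dT| ≤ 45 / 100000000000 * (u * θ) := by
  have h := check
  rw [Bool.and_eq_true, decide_eq_true_eq] at h
  refine (bndT H dT 0 h.1).trans ?_
  have h2 : ((tT 0 dT : ℚ) : ℝ) ≤ ((45 / 100000000000 : ℚ) : ℝ) := by exact_mod_cast h.2
  have h3 : 0 < u * θ := mul_pos H.u0 (by have := H.th; linarith)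
  push_cast at h2
  exact mul_le_mul_of_nonneg_right h2 h3.le

set_option maxHeartbeats 2000000 in
theorem tg_diff {u θ : ℝ} (hu0 : 0 < u) (hU : u ≤ 1 / 2048) (hth : 728 / 100 ≤ θ)
    (he : u * θ ≤ 3559 / 1000000) :
    |tg (287209 / 414355) u θ - tg (Real.log 2) u θ| ≤ 1 / 10 ^ 11 * (u * θ) := by
  set L := Real.log 2 with hL
  set K : ℝ := 287209 / 414355 with hK
  have hd : |K - L| ≤ 1 / 10 ^ 10 := by
    rw [abs_sub_comm]; exact Real.log_two_near_10
  have hL1 : L ≤ 0.6931471808 := Real.log_two_lt_d9.le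
  have hL0 : 0.6931471803 ≤ L := Real.log_two_gt_d9.le
  have hK1 : K ≤ 1 := by rw [hK]; norm_num
  have hK0 : 0 ≤ K := by rw [hK]; norm_num
  have hθ : 0 < θ := by linarith
  obtain ⟨a, ha⟩ : ∃ a, a = θ + K := ⟨_, rfl⟩
  obtain ⟨b, hb⟩ : ∃ b, b = θ + L := ⟨_, rfl⟩
  have hab : K - L = a - b := by rw [ha, hb]; ring
  have ha0 : 0 ≤ a := by rw [ha]; linarith
  have hb0 : 0 ≤ b := by rw [hb]; linarith
  have ha2 : a ≤ 2 * θ := by rw [ha]; linarith
  have hb2 : b ≤ 2 * θ := by rw [hb]; linarith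
  have e1 : P1 a - P1 b = (a - b) * (1 / 2) := by simp only [P1]; ring
  have e2 : P2 a - P2 b = (a - b) * (-(a + b) / 12 + 6565849 / 25000000) := by simp only [P2]; ring
  have e3 : P3 a - P3 b = (a - b) * (-(72331 / 400000) * (a + b) + 130563 / 1000000) := by
    simp only [P3]; ring
  have e4 : P4 a - P4 b = (a - b) * ((a ^ 3 + a ^ 2 * b + a * b ^ 2 + b ^ 3) / 120
      + 17 / 2000 * (a ^ 2 + a * b + b ^ 2) - 13437 / 50000 * (a + b) + 5271 / 100000) := by
    simp only [P4]; ring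
  have b2 : |-(a + b) / 12 + 6565849 / 25000000| ≤ θ := by
    rw [abs_le]; constructor <;> linarith
  have b3 : |-(72331 / 400000) * (a + b) + 130563 / 1000000| ≤ θ := by
    rw [abs_le]; constructor <;> linarith
  have b4 : |(a ^ 3 + a ^ 2 * b + a * b ^ 2 + b ^ 3) / 120
      + 17 / 2000 * (a ^ 2 + a * b + b ^ 2) - 13437 / 50000 * (a + b) + 5271 / 100000| ≤ θ ^ 3 := by
    have q1 : a ^ 2 ≤ (2 * θ) ^ 2 := pow_le_pow_left₀ ha0 ha2 2
    have q2 : b ^ 2 ≤ (2 * θ) ^ 2 := pow_le_pow_left₀ hb0 hb2 2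
    have q3 : a * b ≤ (2 * θ) ^ 2 := by
      rw [sq]; exact mul_le_mul ha2 hb2 hb0 (by linarith)
    have q4 : a ^ 3 ≤ (2 * θ) ^ 3 := pow_le_pow_left₀ ha0 ha2 3
    have q5 : b ^ 3 ≤ (2 * θ) ^ 3 := pow_le_pow_left₀ hb0 hb2 3
    have q6 : a ^ 2 * b ≤ (2 * θ) ^ 3 := by
      rw [pow_succ (2 * θ) 2]; exact mul_le_mul q1 hb2 hb0 (by positivity)
    have q7 : a * b ^ 2 ≤ (2 * θ) ^ 3 := by
      rw [pow_succ' (2 * θ) 2]; exact mul_le_mul ha2 q2 (by positivity) (by linarith)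
    have q0a : 0 ≤ a ^ 3 := by positivity
    have q0b : 0 ≤ b ^ 3 := by positivity
    have q0c : 0 ≤ a ^ 2 * b := by positivity
    have q0d : 0 ≤ a * b ^ 2 := by positivity
    have q0e : 0 ≤ a ^ 2 := by positivity
    have q0f : 0 ≤ a * b := by positivity
    have q0g : 0 ≤ b ^ 2 := by positivity
    have t2 : (728 / 100) * θ ≤ θ ^ 2 := by nlinarith
    have t3 : (728 / 100) * θ ^ 2 ≤ θ ^ 3 := by nlinarith [sq_nonneg θ]
    have w2 : (2 * θ) ^ 2 = 4 * θ ^ 2 := by ring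
    have w3 : (2 * θ) ^ 3 = 8 * θ ^ 3 := by ring
    rw [w2] at q1 q2 q3
    rw [w3] at q4 q5 q6 q7
    rw [abs_le]; constructor <;> linarith
  obtain ⟨d2, hd2⟩ : ∃ d, d = -(a + b) / 12 + 6565849 / 25000000 := ⟨_, rfl⟩
  obtain ⟨d3, hd3⟩ : ∃ d, d = -(72331 / 400000) * (a + b) + 130563 / 1000000 := ⟨_, rfl⟩
  obtain ⟨d4, hd4⟩ : ∃ d, d = (a ^ 3 + a ^ 2 * b + a * b ^ 2 + b ^ 3) / 120
      + 17 / 2000 * (a ^ 2 + a * b + b ^ 2) - 13437 / 50000 * (a + b) + 5271 / 100000 := ⟨_, rfl⟩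
  rw [← hd2] at e2 b2
  rw [← hd3] at e3 b3
  rw [← hd4] at e4 b4
  clear hd2 hd3 hd4
  have hE : tg K u θ - tg L u θ =
      (P1 a - P1 b) * (u / 2) + (P2 a - P2 b) * (u / 2) ^ 2 + (P3 a - P3 b) * (u / 2) ^ 3
        + (P4 a - P4 b) * (u / 2) ^ 4 := by
    simp only [tg, ← ha, ← hb]; ring
  rw [hE, e1, e2, e3, e4]
  have hd' : |a - b| ≤ 1 / 10 ^ 10 := by rw [← hab]; exact hd
  have hue : u ≤ (u * θ) / (728 / 100) := by
    rw [le_div_iff₀ (by norm_num)]
    exact mul_le_mul_of_nonneg_left hth hu0.le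
  have hF : (a - b) * (1 / 2) * (u / 2) + (a - b) * d2 * (u / 2) ^ 2 + (a - b) * d3 * (u / 2) ^ 3
      + (a - b) * d4 * (u / 2) ^ 4
      = (a - b) * (u * (1 / 4 + d2 * (u / 4) + d3 * (u ^ 2 / 8) + d4 * (u ^ 3 / 16))) := by
    ring
  rw [hF, abs_mul, abs_mul, abs_of_pos hu0]
  have hG : |1 / 4 + d2 * (u / 4) + d3 * (u ^ 2 / 8) + d4 * (u ^ 3 / 16)| ≤ 1 / 2 := by
    refine (abs_add_le _ _).trans ?_
    have s1 := abs_add_le (1 / 4 + d2 * (u / 4)) (d3 * (u ^ 2 / 8))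
    have s2 := abs_add_le (1 / 4) (d2 * (u / 4))
    rw [abs_mul d3, abs_of_nonneg (by positivity : 0 ≤ u ^ 2 / 8)] at s1
    rw [abs_mul d2, abs_of_nonneg (by positivity : 0 ≤ u / 4), abs_of_pos (by norm_num : (0 : ℝ) < 1 / 4)] at s2
    rw [abs_mul d4, abs_of_nonneg (by positivity : 0 ≤ u ^ 3 / 16)]
    have r2 := mul_le_mul_of_nonneg_right b2 (by positivity : 0 ≤ u / 4)
    have r3 := mul_le_mul_of_nonneg_right b3 (by positivity : 0 ≤ u ^ 2 / 8)
    have r4 := mul_le_mul_of_nonneg_right b4 (by positivity : 0 ≤ u ^ 3 / 16)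
    have v2 : θ * (u / 4) ≤ 1 / 100 := by linarith
    have v3 : θ * (u ^ 2 / 8) ≤ 1 / 100 := by
      have : θ * (u ^ 2 / 8) = (u * θ) * (u / 8) := by ring
      rw [this]
      calc (u * θ) * (u / 8) ≤ (3559 / 1000000) * (u / 8) := by
            apply mul_le_mul_of_nonneg_right he; positivity
        _ ≤ _ := by linarith
    have v4 : θ ^ 3 * (u ^ 3 / 16) ≤ 1 / 100 := by
      have h9 : (u * θ) ^ 3 ≤ (3559 / 1000000) ^ 3 := pow_le_pow_left₀ (by positivity) he 3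
      have : θ ^ 3 * (u ^ 3 / 16) = (u * θ) ^ 3 / 16 := by ring
      rw [this]; norm_num at h9 ⊢; linarith
    linarith
  calc |a - b| * (u * |1 / 4 + d2 * (u / 4) + d3 * (u ^ 2 / 8) + d4 * (u ^ 3 / 16)|)
      ≤ (1 / 10 ^ 10) * (((u * θ) / (728 / 100)) * (1 / 2)) := by
        apply mul_le_mul hd' _ (by positivity) (by positivity)
        apply mul_le_mul hue hG (abs_nonneg _) (by positivity)
    _ ≤ _ := by
        have : 0 < u * θ := by positivity
        linarith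

end Rf

open Rf in
set_option maxHeartbeats 2000000 in
theorem z_poly {ι : Type} (s : Finset ι) (w t : ι → ℝ) (x : ℝ) (hx : 2048 ≤ x)
    (h : MomOK s w t x) :
    |∑ i ∈ s, w i * (Zp (1 / x) (th x) (t i) * (1 - GG (1 / x) (th x) (t i - 1 / (2 * x))))
      - (zz (2 * x) - Real.log 2)| ≤ 3 * A0 * (th x / x) := by
  have hx0 : (0 : ℝ) < x := by linarith
  obtain ⟨hw0, hw1, ht, hodd, heven⟩ := h
  have hL1 : Real.log 2 ≤ 0.6931471808 := Real.log_two_lt_d9.le
  have hL0 : 0.6931471803 ≤ Real.log 2 := Real.log_two_gt_d9.le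
  have hlog2048 : Real.log 2048 = 11 * Real.log 2 := by
    rw [show (2048 : ℝ) = 2 ^ 11 by norm_num, Real.log_pow]; norm_num
  have hlow : 11 * Real.log 2 ≤ Real.log x := by
    rw [← hlog2048]; exact Real.log_le_log (by norm_num) hx
  have hup : Real.log x ≤ 11 * Real.log 2 + (x / 2048 - 1) := by
    have h1 : Real.log x = Real.log 2048 + Real.log (x / 2048) := by
      rw [← Real.log_mul (by norm_num) (by positivity)]; congr 1; field_simp
    rw [h1, hlog2048]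
    have := Real.log_le_sub_one_of_pos (by positivity : 0 < x / 2048)
    linarith
  have hth : 728 / 100 ≤ th x := by
    simp only [th, c1]; norm_num; linarith
  obtain ⟨u, hu⟩ : ∃ u, u = 1 / x := ⟨_, rfl⟩
  obtain ⟨θ, hθ⟩ : ∃ θ, θ = th x := ⟨_, rfl⟩
  have hu0 : 0 < u := by rw [hu]; positivity
  have hxu : x * u = 1 := by rw [hu]; field_simp
  have huU : u ≤ 1 / 2048 := by
    rw [hu]; exact one_div_le_one_div_of_le (by norm_num) hx
  have he : u * θ ≤ 3559 / 1000000 := by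
    have h1 : θ ≤ 628666 / 100000 + x / 2048 := by
      rw [hθ]; simp only [th, c1]; norm_num; linarith
    calc u * θ ≤ u * (628666 / 100000 + x / 2048) := mul_le_mul_of_nonneg_left h1 hu0.le
      _ = u * (628666 / 100000) + (x * u) / 2048 := by ring
      _ ≤ _ := by rw [hxu]; linarith
  rw [← hθ] at hth
  have hepos : 0 < u * θ := by
    have : 0 < θ := by linarith
    positivity
  have hquot : th x / x = u * θ := by rw [hu, hθ]; ring
  set M : ℕ → ℝ := fun k => ∑ i ∈ s, w i * t i ^ k with hM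
  have hnn : ∀ k, 0 ≤ M (2 * k) := by
    intro k
    apply Finset.sum_nonneg
    intro i hi
    apply mul_nonneg (hw0 i hi)
    rw [pow_mul]; positivity
  have hev6 : ∀ k, k ≤ 6 → M (2 * k) ≤ (mc k : ℝ) * (u * θ) ^ k := by
    intro k hk
    rcases Nat.eq_zero_or_pos k with rfl | hk1
    · simp only [hM, mul_zero, pow_zero, mul_one, hw1, mc]; norm_num
    · have := heven k hk1 hk
      rw [hquot] at this
      refine this.trans (le_of_eq ?_)
      congr 1
      interval_cases k <;> simp only [Mc, mc] <;> norm_num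
  have H : Hyp M u θ := by
    refine ⟨hu0, huU, hth, he, ?_, ?_⟩
    · intro k hk
      exact hodd k (Nat.odd_iff.mpr hk)
    · intro k hk
      obtain ⟨m, rfl⟩ : ∃ m, k = 2 * m := ⟨k / 2, by omega⟩
      have hm : 2 * m / 2 = m := by omega
      rw [hm, abs_of_nonneg (hnn m)]
      rcases le_or_gt m 6 with hm6 | hm6
      · rw [min_eq_left hm6, Nat.sub_eq_zero_of_le hm6, pow_zero, div_one]
        exact hev6 m hm6
      · rw [min_eq_right hm6.le]
        have h12 := hev6 6 le_rfl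
        have hpow : M (2 * m) ≤ M (2 * 6) / 4 ^ (m - 6) := by
          simp only [hM]
          rw [Finset.sum_div]
          apply Finset.sum_le_sum
          intro i hi
          rw [mul_div_assoc]
          apply mul_le_mul_of_nonneg_left _ (hw0 i hi)
          have h1 : t i ^ 2 ≤ 1 / 4 := by
            have := ht i hi
            rw [← sq_abs]
            calc |t i| ^ 2 ≤ (1 / 2) ^ 2 := pow_le_pow_left₀ (abs_nonneg _) this 2
              _ = 1 / 4 := by norm_num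
          have h2 : t i ^ (2 * m) = t i ^ (2 * 6) * (t i ^ 2) ^ (m - 6) := by
            rw [← pow_mul, ← pow_add]; congr 1; omega
          rw [h2, div_eq_mul_inv, ← inv_pow]
          apply mul_le_mul_of_nonneg_left
          · apply pow_le_pow_left₀ (sq_nonneg _); norm_num; linarith
          · rw [pow_mul]; positivity
        refine hpow.trans ?_
        rw [div_mul_eq_mul_div]
        exact div_le_div_of_nonneg_right h12 (by positivity)
  have h1 := mT_bound H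
  have h2 := tg_diff hu0 huU hth he
  have h3 := sum_ev3 s w t u θ dT 0
  have h4 : ∑ i ∈ s, w i * (Zp (1 / x) (th x) (t i) * (1 - GG (1 / x) (th x) (t i - 1 / (2 * x))))
      = mT M u θ 0 dT + tg (287209 / 414355) u θ := by
    rw [← h3]
    have h5 : tg (287209 / 414355) u θ = ∑ i ∈ s, w i * tg (287209 / 414355) u θ := by
      rw [← Finset.sum_mul, hw1, one_mul]
    rw [h5, ← Finset.sum_add_distrib]
    apply Finset.sum_congr rfl
    intro i _
    rw [dT_ev, ← hu, ← hθ, show 1 / (2 * x) = u / 2 by rw [hu]; field_simp]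
    ring
  have h6 : zz (2 * x) - Real.log 2 = tg (Real.log 2) u θ := by
    have h7 : th (2 * x) = θ + Real.log 2 := by
      rw [hθ]; simp only [th]; rw [Real.log_mul (by norm_num) hx0.ne']; ring
    simp only [zz, h7, tg]
    rw [hu]
    field_simp
    ring
  rw [h4, h6, hquot]
  have h8 : mT M u θ 0 dT + tg (287209 / 414355) u θ - tg (Real.log 2) u θ
    = mT M u θ 0 dT + (tg (287209 / 414355) u θ - tg (Real.log 2) u θ) := by ring
  rw [h8]
  refine (abs_add_le _ _).trans ?_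
  simp only [A0]
  norm_num at h1 h2 ⊢
  linarith


end MZP
end Pool.Agent.Helper155.Gil
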