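import Pool.Agent.Helper155.Gil.Defs

set_option autoImplicit false
open Finset Filter Topology

namespace Pool.Agent.Helper155.Gil
namespace MZT
theorem I1_log_lb (t : ℝ) (ht : |t| ≤ 1 / 2) : |Real.log (1 + t)| ≤ 7 / 10 := by
  rw [abs_le] at ht ⊢
  constructor
  · have h1 : Real.log (1 / 2) ≤ Real.log (1 + t) :=
      Real.log_le_log (by norm_num) (by linarith [ht.1])
    have h2 : Real.log (1 / 2) = - Real.log 2 := by
      rw [one_div, Real.log_inv]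
    have h3 := Real.log_two_lt_d9
    rw [h2] at h1
    linarith
  · have := Real.log_le_sub_one_of_pos (show 0 < 1 + t by linarith [ht.1])
    linarith [ht.2]

theorem I1_ls (n : ℕ) (t : ℝ) (ht : |t| ≤ 1 / 2) :
    |Real.log (1 + t) - ls n t| ≤ 2 * |t| ^ (n + 1) := by
  have h1 : |(-t)| < 1 := by rw [abs_neg]; linarith
  have h2 := Real.abs_log_sub_add_sum_range_le h1 n
  have h3 : (∑ i ∈ range n, (-t) ^ (i + 1) / (i + 1)) = - ls n t := by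
    unfold ls
    rw [← Finset.sum_neg_distrib]
    apply Finset.sum_congr rfl
    intro i _
    rw [neg_pow t (i + 1), pow_succ (-1 : ℝ) i]
    ring
  rw [h3, sub_neg_eq_add, abs_neg] at h2
  have h4 : Real.log (1 + t) - ls n t = - ls n t + Real.log (1 + t) := by ring
  rw [h4]
  refine h2.trans ?_
  rw [div_le_iff₀ (by linarith)]
  have h5 : 0 ≤ |t| ^ (n + 1) := by positivity
  nlinarith

theorem I1_rs (n : ℕ) (hn : Even (n + 1)) (t : ℝ) : (1 + t) * rs n t = 1 - t ^ (n + 1) := by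
  unfold rs
  have := mul_neg_geom_sum (-t) (n + 1)
  rw [sub_neg_eq_add, hn.neg_pow] at this
  exact this

theorem I1_blk (n : ℕ) (hn : Even (n + 1)) (hn3 : 3 ≤ n) (t : ℝ) (ht : |t| ≤ 1 / 2) :
    0 ≤ t ^ (n + 1) ∧ |Real.log (1 + t) - ls n t| ≤ 2 * t ^ (n + 1) ∧
      |1 / (1 + t) - rs n t| ≤ 2 * t ^ (n + 1) ∧ |rs n t| ≤ 2 ∧ |ls n t| ≤ 1 := by
  have h0 : 0 ≤ t ^ (n + 1) := hn.pow_nonneg t
  have ha : |t| ^ (n + 1) = t ^ (n + 1) := hn.pow_abs t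
  have hle : t ^ (n + 1) ≤ 1 / 16 := by
    rw [← ha]
    calc |t| ^ (n + 1) ≤ (1 / 2) ^ (n + 1) := pow_le_pow_left₀ (abs_nonneg t) ht _
      _ ≤ (1 / 2) ^ 4 := pow_le_pow_of_le_one (by norm_num) (by norm_num) (by omega)
      _ = 1 / 16 := by norm_num
  have h1 := I1_ls n t ht
  rw [ha] at h1
  have h2 := I1_rs n hn t
  have ht' := abs_le.1 ht
  have hp : 0 < 1 + t := by linarith [ht'.1]
  have hr : rs n t = (1 - t ^ (n + 1)) / (1 + t) := by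
    rw [eq_div_iff hp.ne', mul_comm]; exact h2
  have h3 : 1 / (1 + t) - rs n t = t ^ (n + 1) / (1 + t) := by
    rw [hr, ← sub_div]; congr 1; ring
  refine ⟨h0, h1, ?_, ?_, ?_⟩
  · rw [h3, abs_of_nonneg (div_nonneg h0 hp.le), div_le_iff₀ hp]
    nlinarith [ht'.1]
  · rw [hr, abs_of_nonneg (div_nonneg (by linarith) hp.le), div_le_iff₀ hp]
    linarith [ht'.1]
  · have h4 := I1_log_lb t ht
    have h5 : ls n t = Real.log (1 + t) - (Real.log (1 + t) - ls n t) := by ring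
    rw [h5]
    refine (abs_sub _ _).trans ?_
    linarith

theorem I1_prod (a b P Q A B C D : ℝ) (h1 : |a - b| ≤ A) (h2 : |P| ≤ B) (h3 : |b| ≤ C)
    (h4 : |P - Q| ≤ D) : |a * P - b * Q| ≤ A * B + C * D := by
  have e : a * P - b * Q = (a - b) * P + b * (P - Q) := by ring
  rw [e]
  refine (abs_add_le _ _).trans ?_
  rw [abs_mul, abs_mul]
  have hA : 0 ≤ A := (abs_nonneg _).trans h1
  have hC : 0 ≤ C := (abs_nonneg _).trans h3
  exact add_le_add (mul_le_mul h1 h2 (abs_nonneg _) hA) (mul_le_mul h3 h4 (abs_nonneg _) hC)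

theorem I1_sq (a b A : ℝ) (h : |a - b| ≤ A) (ha : |a| ≤ 2) (hb : |b| ≤ 2) :
    |a ^ 2 - b ^ 2| ≤ A * 4 := by
  have e : a ^ 2 - b ^ 2 = (a - b) * (a + b) := by ring
  rw [e, abs_mul]
  have hA : 0 ≤ A := (abs_nonneg _).trans h
  exact mul_le_mul h ((abs_add_le _ _).trans (by linarith)) (abs_nonneg _) hA

theorem I1_cb (a b A : ℝ) (h : |a - b| ≤ A) (ha : |a| ≤ 2) (hb : |b| ≤ 2) :
    |a ^ 3 - b ^ 3| ≤ A * 12 := by
  have e : a ^ 3 - b ^ 3 = (a - b) * (a ^ 2 + a * b + b ^ 2) := by ring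
  rw [e, abs_mul]
  have hA : 0 ≤ A := (abs_nonneg _).trans h
  apply mul_le_mul h _ (abs_nonneg _) hA
  have h1 := abs_le.1 ha
  have h2 := abs_le.1 hb
  rw [abs_le]
  constructor <;> nlinarith [h1.1, h1.2, h2.1, h2.2]

theorem I1_qr (a b A : ℝ) (h : |a - b| ≤ A) (ha : |a| ≤ 2) (hb : |b| ≤ 2) :
    |a ^ 4 - b ^ 4| ≤ A * 32 := by
  have e : a ^ 4 - b ^ 4 = (a ^ 2 - b ^ 2) * (a ^ 2 + b ^ 2) := by ring
  rw [e, abs_mul]
  have h1 := I1_sq a b A h ha hb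
  have hA : 0 ≤ A := (abs_nonneg _).trans h
  have h2 : |a ^ 2 + b ^ 2| ≤ 8 := by
    have h1 := sq_le_sq' (abs_le.1 ha).1 (abs_le.1 ha).2
    have h2 := sq_le_sq' (abs_le.1 hb).1 (abs_le.1 hb).2
    rw [abs_of_nonneg (by positivity)]
    linarith
  calc |a ^ 2 - b ^ 2| * |a ^ 2 + b ^ 2| ≤ (A * 4) * 8 :=
        mul_le_mul h1 h2 (abs_nonneg _) (by positivity)
    _ = A * 32 := by ring

theorem I1_P1 (a b T d : ℝ) (ha0 : 0 ≤ a) (haT : a ≤ T) (hd : |a - b| ≤ d) :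
    |P1 a| ≤ T / 2 + 35 / 100 ∧ |P1 a - P1 b| ≤ d / 2 := by
  unfold P1
  constructor
  · rw [abs_le]; constructor <;> linarith
  · rw [abs_le] at hd ⊢; constructor <;> linarith [hd.1, hd.2]

theorem I1_P2 (a b T d : ℝ) (ha0 : 0 ≤ a) (haT : a ≤ T) (hb0 : 0 ≤ b) (hbT : b ≤ T)
    (hd : |a - b| ≤ d) :
    |P2 a| ≤ T ^ 2 / 12 + 27 / 100 * T + 17 / 100 ∧ |P2 a - P2 b| ≤ d * (T / 6 + 27 / 100) := by
  have hT : 0 ≤ T := ha0.trans haT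
  have ha2 : a ^ 2 ≤ T ^ 2 := pow_le_pow_left₀ ha0 haT 2
  have ha2' : 0 ≤ a ^ 2 := sq_nonneg a
  have hT2 : 0 ≤ T ^ 2 := sq_nonneg T
  have hd0 : 0 ≤ d := (abs_nonneg _).trans hd
  constructor
  · unfold P2
    rw [abs_le]; constructor <;> nlinarith
  · have e : P2 a - P2 b = (a - b) * (-(a + b) / 12 + 6565849 / 25000000) := by
      unfold P2; ring
    rw [e, abs_mul]
    apply mul_le_mul hd _ (abs_nonneg _) hd0
    rw [abs_le]; constructor <;> linarith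

theorem I1_P3 (a b T d : ℝ) (ha0 : 0 ≤ a) (haT : a ≤ T) (hb0 : 0 ≤ b) (hbT : b ≤ T)
    (hd : |a - b| ≤ d) :
    |P3 a| ≤ 181 / 1000 * T ^ 2 + 131 / 1000 * T + 87 / 1000 ∧
      |P3 a - P3 b| ≤ d * (362 / 1000 * T + 131 / 1000) := by
  have hT : 0 ≤ T := ha0.trans haT
  have ha2 : a ^ 2 ≤ T ^ 2 := pow_le_pow_left₀ ha0 haT 2
  have ha2' : 0 ≤ a ^ 2 := sq_nonneg a
  have hT2 : 0 ≤ T ^ 2 := sq_nonneg T
  have hd0 : 0 ≤ d := (abs_nonneg _).trans hd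
  constructor
  · unfold P3
    rw [abs_le]; constructor <;> nlinarith
  · have e : P3 a - P3 b = (a - b) * (-(72331 / 400000) * (a + b) + 130563 / 1000000) := by
      unfold P3; ring
    rw [e, abs_mul]
    apply mul_le_mul hd _ (abs_nonneg _) hd0
    rw [abs_le]; constructor <;> linarith

theorem I1_P4 (a b T d : ℝ) (ha0 : 0 ≤ a) (haT : a ≤ T) (hb0 : 0 ≤ b) (hbT : b ≤ T)
    (hd : |a - b| ≤ d) :
    |P4 a| ≤ T ^ 4 / 120 + 17 / 2000 * T ^ 3 + 269 / 1000 * T ^ 2 + 53 / 1000 * T + 54 / 1000 ∧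
      |P4 a - P4 b| ≤ d * (T ^ 3 / 30 + 51 / 2000 * T ^ 2 + 538 / 1000 * T + 53 / 1000) := by
  have hT : 0 ≤ T := ha0.trans haT
  have ha2 : a ^ 2 ≤ T ^ 2 := pow_le_pow_left₀ ha0 haT 2
  have ha3 : a ^ 3 ≤ T ^ 3 := pow_le_pow_left₀ ha0 haT 3
  have ha4 : a ^ 4 ≤ T ^ 4 := pow_le_pow_left₀ ha0 haT 4
  have hb2 : b ^ 2 ≤ T ^ 2 := pow_le_pow_left₀ hb0 hbT 2
  have hb3 : b ^ 3 ≤ T ^ 3 := pow_le_pow_left₀ hb0 hbT 3
  have ha2' : 0 ≤ a ^ 2 := by positivity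
  have ha3' : 0 ≤ a ^ 3 := by positivity
  have ha4' : 0 ≤ a ^ 4 := by positivity
  have hb2' : 0 ≤ b ^ 2 := by positivity
  have hb3' : 0 ≤ b ^ 3 := by positivity
  have hT2 : 0 ≤ T ^ 2 := sq_nonneg T
  have hT3 : 0 ≤ T ^ 3 := by positivity
  have hT4 : 0 ≤ T ^ 4 := by positivity
  have hd0 : 0 ≤ d := (abs_nonneg _).trans hd
  constructor
  · unfold P4
    rw [abs_le]; constructor <;> linarith
  · have e : P4 a - P4 b = (a - b) * ((a ^ 3 + a ^ 2 * b + a * b ^ 2 + b ^ 3) / 120 +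
        17 / 2000 * (a ^ 2 + a * b + b ^ 2) - 13437 / 50000 * (a + b) + 5271 / 100000) := by
      unfold P4; ring
    rw [e, abs_mul]
    apply mul_le_mul hd _ (abs_nonneg _) hd0
    have m1 : a ^ 2 * b ≤ T ^ 3 := by
      calc a ^ 2 * b ≤ T ^ 2 * T := mul_le_mul ha2 hbT hb0 hT2
        _ = T ^ 3 := by ring
    have m2 : a * b ^ 2 ≤ T ^ 3 := by
      calc a * b ^ 2 ≤ T * T ^ 2 := mul_le_mul haT hb2 hb2' hT
        _ = T ^ 3 := by ring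
    have m3 : a * b ≤ T ^ 2 := by
      calc a * b ≤ T * T := mul_le_mul haT hbT hb0 hT
        _ = T ^ 2 := by ring
    have m1' : 0 ≤ a ^ 2 * b := by positivity
    have m2' : 0 ≤ a * b ^ 2 := by positivity
    have m3' : 0 ≤ a * b := by positivity
    rw [abs_le]; constructor <;> linarith

theorem I1_fin2 (θ : ℝ) (h : 728 / 100 ≤ θ) :
    8 * ((114 / 100 * θ) ^ 2 / 12 + 27 / 100 * (114 / 100 * θ) + 17 / 100) +
      8 * (114 / 100 * θ / 6 + 27 / 100) ≤ 3 * θ ^ 2 := by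
  have h2 : 728 / 100 * θ ≤ θ ^ 2 := by
    rw [sq]; exact mul_le_mul_of_nonneg_right h (by linarith)
  ring_nf
  linarith

theorem I1_fin3 (θ : ℝ) (h : 728 / 100 ≤ θ) :
    24 * (181 / 1000 * (114 / 100 * θ) ^ 2 + 131 / 1000 * (114 / 100 * θ) + 87 / 1000) +
          16 * (362 / 1000 * (114 / 100 * θ) + 131 / 1000) ≤ 6 * θ ^ 3 := by
  have h2 : 728 / 100 * θ ≤ θ ^ 2 := by
    rw [sq]; exact mul_le_mul_of_nonneg_right h (by linarith)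
  have h3 : 728 / 100 * θ ^ 2 ≤ θ ^ 3 := by
    rw [pow_succ' θ 2]; exact mul_le_mul_of_nonneg_right h (by positivity)
  ring_nf
  linarith

theorem I1_fin4 (θ : ℝ) (h : 728 / 100 ≤ θ) :
    64 * ((114 / 100 * θ) ^ 4 / 120 + 17 / 2000 * (114 / 100 * θ) ^ 3 +
        269 / 1000 * (114 / 100 * θ) ^ 2 + 53 / 1000 * (114 / 100 * θ) + 54 / 1000) +
      32 * ((114 / 100 * θ) ^ 3 / 30 + 51 / 2000 * (114 / 100 * θ) ^ 2 +
        538 / 1000 * (114 / 100 * θ) + 53 / 1000) ≤ 10 * θ ^ 4 := by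
  have h2 : 728 / 100 * θ ≤ θ ^ 2 := by
    rw [sq]; exact mul_le_mul_of_nonneg_right h (by linarith)
  have h3 : 728 / 100 * θ ^ 2 ≤ θ ^ 3 := by
    rw [pow_succ' θ 2]; exact mul_le_mul_of_nonneg_right h (by positivity)
  have h4 : 728 / 100 * θ ^ 3 ≤ θ ^ 4 := by
    rw [pow_succ' θ 3]; exact mul_le_mul_of_nonneg_right h (by positivity)
  ring_nf
  linarith

/-! TARGET -/
theorem z_taylor (x t : ℝ) (hx : 2048 ≤ x) (ht : |t| ≤ 1 / 2) :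
    |zz (x * (1 + t)) - Zp (1 / x) (th x) t| ≤ 2 * t ^ 16 + 8 / 5 * (th x / x) * t ^ 10
      + 3 * (th x / x) ^ 2 * t ^ 8 + 6 * (th x / x) ^ 3 * t ^ 6 + 10 * (th x / x) ^ 4 * t ^ 4 := by
  have hx0 : 0 < x := by linarith
  have ht' := abs_le.1 ht
  have hp : 0 < 1 + t := by linarith [ht'.1]
  have hth : 728 / 100 ≤ th x := by
    unfold th c1
    have h1 : Real.log 2048 ≤ Real.log x := Real.log_le_log (by norm_num) hx
    have h2 : Real.log 2048 = 11 * Real.log 2 := by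
      rw [show (2048 : ℝ) = 2 ^ 11 by norm_num, Real.log_pow]
      norm_num
    have h3 := Real.log_two_gt_d9
    rw [h2] at h1
    norm_num at h3 ⊢
    linarith
  set θ := th x with hθ
  set l := Real.log (1 + t) with hl
  set r := 1 / (1 + t) with hr
  set u := 1 / x with hu
  have hu0 : 0 < u := by positivity
  have hthx : th (x * (1 + t)) = θ + l := by
    rw [hθ, hl]
    unfold th
    rw [Real.log_mul hx0.ne' hp.ne']
    ring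
  have hr2 : |r| ≤ 2 := by
    rw [hr, abs_of_pos (by positivity), div_le_iff₀ hp]
    linarith [ht'.1]
  have hl7 : |l| ≤ 7 / 10 := I1_log_lb t ht
  have hl' := abs_le.1 hl7
  set T : ℝ := 114 / 100 * θ with hT
  have hlT0 : 0 ≤ θ + l := by linarith [hl'.1]
  have hlT : θ + l ≤ T := by linarith [hl'.2]
  have hlsT : ∀ n, |ls n t| ≤ 1 → 0 ≤ θ + ls n t ∧ θ + ls n t ≤ T := by
    intro n hn
    have := abs_le.1 hn
    constructor <;> linarith [this.1, this.2]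
  have hdiff : ∀ n, |(θ + l) - (θ + ls n t)| = |l - ls n t| := by
    intro n; congr 1; ring
  obtain ⟨s15, l15, _, _, _⟩ := I1_blk 15 (by decide) (by norm_num) t ht
  obtain ⟨s9, l9, r9, rr9, ll9⟩ := I1_blk 9 (by decide) (by norm_num) t ht
  obtain ⟨s7, l7, r7, rr7, ll7⟩ := I1_blk 7 (by decide) (by norm_num) t ht
  obtain ⟨s5, l5, r5, rr5, ll5⟩ := I1_blk 5 (by decide) (by norm_num) t ht
  obtain ⟨s3, l3, r3, rr3, ll3⟩ := I1_blk 3 (by decide) (by norm_num) t ht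
  norm_num at s15 l15 s9 l9 r9 s7 l7 r7 s5 l5 r5 s3 l3 r3
  rw [← hl] at l15 l9 l7 l5 l3
  have e1r : (1 + t)⁻¹ = r := by rw [hr, one_div]
  rw [e1r] at r9 r7 r5 r3
  have D1 : |r * P1 (θ + l) - rs 9 t * P1 (θ + ls 9 t)| ≤ 8 / 5 * θ * t ^ 10 := by
    have hd : |(θ + l) - (θ + ls 9 t)| ≤ 2 * t ^ 10 := by rw [hdiff]; exact l9
    obtain ⟨b1, b2⟩ := I1_P1 _ _ T _ hlT0 hlT hd
    refine (I1_prod _ _ _ _ _ _ _ _ r9 b1 rr9 b2).trans ?_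
    have : 2 * t ^ 10 * (T / 2 + 35 / 100) + 2 * (2 * t ^ 10 / 2) =
        (T + 27 / 10) * t ^ 10 := by ring
    rw [this]
    apply mul_le_mul_of_nonneg_right _ s9
    linarith
  have D2 : |r ^ 2 * P2 (θ + l) - rs 7 t ^ 2 * P2 (θ + ls 7 t)| ≤ 3 * θ ^ 2 * t ^ 8 := by
    have hd : |(θ + l) - (θ + ls 7 t)| ≤ 2 * t ^ 8 := by rw [hdiff]; exact l7
    obtain ⟨c0, cT⟩ := hlsT 7 ll7
    obtain ⟨b1, b2⟩ := I1_P2 _ _ T _ hlT0 hlT c0 cT hd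
    have q1 := I1_sq _ _ _ r7 hr2 rr7
    have q2 : |rs 7 t ^ 2| ≤ 4 := by
      rw [abs_pow]
      calc |rs 7 t| ^ 2 ≤ 2 ^ 2 := pow_le_pow_left₀ (abs_nonneg _) rr7 2
        _ = 4 := by norm_num
    refine (I1_prod _ _ _ _ _ _ _ _ q1 b1 q2 b2).trans ?_
    have : 2 * t ^ 8 * 4 * (T ^ 2 / 12 + 27 / 100 * T + 17 / 100) +
        4 * (2 * t ^ 8 * (T / 6 + 27 / 100)) =
        (8 * (T ^ 2 / 12 + 27 / 100 * T + 17 / 100) + 8 * (T / 6 + 27 / 100)) * t ^ 8 := by ring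
    rw [this]
    apply mul_le_mul_of_nonneg_right _ s7
    rw [hT]
    exact I1_fin2 θ hth
  have D3 : |r ^ 3 * P3 (θ + l) - rs 5 t ^ 3 * P3 (θ + ls 5 t)| ≤ 6 * θ ^ 3 * t ^ 6 := by
    have hd : |(θ + l) - (θ + ls 5 t)| ≤ 2 * t ^ 6 := by rw [hdiff]; exact l5
    obtain ⟨c0, cT⟩ := hlsT 5 ll5
    obtain ⟨b1, b2⟩ := I1_P3 _ _ T _ hlT0 hlT c0 cT hd
    have q1 := I1_cb _ _ _ r5 hr2 rr5
    have q2 : |rs 5 t ^ 3| ≤ 8 := by
      rw [abs_pow]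
      calc |rs 5 t| ^ 3 ≤ 2 ^ 3 := pow_le_pow_left₀ (abs_nonneg _) rr5 3
        _ = 8 := by norm_num
    refine (I1_prod _ _ _ _ _ _ _ _ q1 b1 q2 b2).trans ?_
    have : 2 * t ^ 6 * 12 * (181 / 1000 * T ^ 2 + 131 / 1000 * T + 87 / 1000) +
        8 * (2 * t ^ 6 * (362 / 1000 * T + 131 / 1000)) =
        (24 * (181 / 1000 * T ^ 2 + 131 / 1000 * T + 87 / 1000) +
          16 * (362 / 1000 * T + 131 / 1000)) * t ^ 6 := by ring
    rw [this]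
    apply mul_le_mul_of_nonneg_right _ s5
    rw [hT]
    exact I1_fin3 θ hth
  have D4 : |r ^ 4 * P4 (θ + l) - rs 3 t ^ 4 * P4 (θ + ls 3 t)| ≤ 10 * θ ^ 4 * t ^ 4 := by
    have hd : |(θ + l) - (θ + ls 3 t)| ≤ 2 * t ^ 4 := by rw [hdiff]; exact l3
    obtain ⟨c0, cT⟩ := hlsT 3 ll3
    obtain ⟨b1, b2⟩ := I1_P4 _ _ T _ hlT0 hlT c0 cT hd
    have q1 := I1_qr _ _ _ r3 hr2 rr3
    have q2 : |rs 3 t ^ 4| ≤ 16 := by
      rw [abs_pow]
      calc |rs 3 t| ^ 4 ≤ 2 ^ 4 := pow_le_pow_left₀ (abs_nonneg _) rr3 4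
        _ = 16 := by norm_num
    refine (I1_prod _ _ _ _ _ _ _ _ q1 b1 q2 b2).trans ?_
    have : 2 * t ^ 4 * 32 * (T ^ 4 / 120 + 17 / 2000 * T ^ 3 + 269 / 1000 * T ^ 2 + 53 / 1000 * T
          + 54 / 1000) +
        16 * (2 * t ^ 4 * (T ^ 3 / 30 + 51 / 2000 * T ^ 2 + 538 / 1000 * T + 53 / 1000)) =
        (64 * (T ^ 4 / 120 + 17 / 2000 * T ^ 3 + 269 / 1000 * T ^ 2 + 53 / 1000 * T
          + 54 / 1000) +
          32 * (T ^ 3 / 30 + 51 / 2000 * T ^ 2 + 538 / 1000 * T + 53 / 1000)) * t ^ 4 := by ring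
    rw [this]
    apply mul_le_mul_of_nonneg_right _ s3
    rw [hT]
    exact I1_fin4 θ hth
  have hzz : zz (x * (1 + t)) - Zp u θ t = (l - ls 15 t) +
      u * (r * P1 (θ + l) - rs 9 t * P1 (θ + ls 9 t)) +
      u ^ 2 * (r ^ 2 * P2 (θ + l) - rs 7 t ^ 2 * P2 (θ + ls 7 t)) +
      u ^ 3 * (r ^ 3 * P3 (θ + l) - rs 5 t ^ 3 * P3 (θ + ls 5 t)) +
      u ^ 4 * (r ^ 4 * P4 (θ + l) - rs 3 t ^ 4 * P4 (θ + ls 3 t)) := by
    unfold zz Zp
    rw [hthx]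
    have e1 : ∀ P : ℝ, P / (x * (1 + t)) = u * (r * P) := by
      intro P; rw [hu, hr]; field_simp
    have e2 : ∀ P : ℝ, P / (x * (1 + t)) ^ 2 = u ^ 2 * (r ^ 2 * P) := by
      intro P; rw [hu, hr]; field_simp
    have e3 : ∀ P : ℝ, P / (x * (1 + t)) ^ 3 = u ^ 3 * (r ^ 3 * P) := by
      intro P; rw [hu, hr]; field_simp
    have e4 : ∀ P : ℝ, P / (x * (1 + t)) ^ 4 = u ^ 4 * (r ^ 4 * P) := by
      intro P; rw [hu, hr]; field_simp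
    rw [e1, e2, e3, e4]
    ring
  rw [hzz]
  have hdiv : θ / x = θ * u := by rw [hu]; ring
  rw [hdiv]
  have t1 : |u * (r * P1 (θ + l) - rs 9 t * P1 (θ + ls 9 t))| ≤ u * (8 / 5 * θ * t ^ 10) := by
    rw [abs_mul, abs_of_pos hu0]; exact mul_le_mul_of_nonneg_left D1 hu0.le
  have t2 : |u ^ 2 * (r ^ 2 * P2 (θ + l) - rs 7 t ^ 2 * P2 (θ + ls 7 t))| ≤
      u ^ 2 * (3 * θ ^ 2 * t ^ 8) := by
    rw [abs_mul, abs_of_pos (by positivity : 0 < u ^ 2)]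
    exact mul_le_mul_of_nonneg_left D2 (by positivity)
  have t3 : |u ^ 3 * (r ^ 3 * P3 (θ + l) - rs 5 t ^ 3 * P3 (θ + ls 5 t))| ≤
      u ^ 3 * (6 * θ ^ 3 * t ^ 6) := by
    rw [abs_mul, abs_of_pos (by positivity : 0 < u ^ 3)]
    exact mul_le_mul_of_nonneg_left D3 (by positivity)
  have t4 : |u ^ 4 * (r ^ 4 * P4 (θ + l) - rs 3 t ^ 4 * P4 (θ + ls 3 t))| ≤
      u ^ 4 * (10 * θ ^ 4 * t ^ 4) := by
    rw [abs_mul, abs_of_pos (by positivity : 0 < u ^ 4)]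
    exact mul_le_mul_of_nonneg_left D4 (by positivity)
  have a1 := abs_add_le ((l - ls 15 t) +
      u * (r * P1 (θ + l) - rs 9 t * P1 (θ + ls 9 t)) +
      u ^ 2 * (r ^ 2 * P2 (θ + l) - rs 7 t ^ 2 * P2 (θ + ls 7 t)) +
      u ^ 3 * (r ^ 3 * P3 (θ + l) - rs 5 t ^ 3 * P3 (θ + ls 5 t)))
      (u ^ 4 * (r ^ 4 * P4 (θ + l) - rs 3 t ^ 4 * P4 (θ + ls 3 t)))
  have a2 := abs_add_le ((l - ls 15 t) +
      u * (r * P1 (θ + l) - rs 9 t * P1 (θ + ls 9 t)) +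
      u ^ 2 * (r ^ 2 * P2 (θ + l) - rs 7 t ^ 2 * P2 (θ + ls 7 t)))
      (u ^ 3 * (r ^ 3 * P3 (θ + l) - rs 5 t ^ 3 * P3 (θ + ls 5 t)))
  have a3 := abs_add_le ((l - ls 15 t) +
      u * (r * P1 (θ + l) - rs 9 t * P1 (θ + ls 9 t)))
      (u ^ 2 * (r ^ 2 * P2 (θ + l) - rs 7 t ^ 2 * P2 (θ + ls 7 t)))
  have a4 := abs_add_le (l - ls 15 t) (u * (r * P1 (θ + l) - rs 9 t * P1 (θ + ls 9 t)))
  have f1 : 8 / 5 * (θ * u) * t ^ 10 = u * (8 / 5 * θ * t ^ 10) := by ring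
  have f2 : 3 * (θ * u) ^ 2 * t ^ 8 = u ^ 2 * (3 * θ ^ 2 * t ^ 8) := by ring
  have f3 : 6 * (θ * u) ^ 3 * t ^ 6 = u ^ 3 * (6 * θ ^ 3 * t ^ 6) := by ring
  have f4 : 10 * (θ * u) ^ 4 * t ^ 4 = u ^ 4 * (10 * θ ^ 4 * t ^ 4) := by ring
  rw [f1, f2, f3, f4]
  linarith

end MZT
end Pool.Agent.Helper155.Gil
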