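import Pool.Agent.Helper155.Gil.Red
import Pool.Agent.Helper155.Gil.Blue
import Pool.Agent.Helper155.Gil.Mom
import Pool.Agent.Helper155.Gil.Edge
import Pool.Agent.Helper155.Gil.WfG
import Pool.Agent.Helper155.Gil.WfH
import Pool.Agent.Helper155.Gil.MK
import Pool.Agent.Helper155.Gil.QJ
import Pool.Agent.Helper155.Gil.ZT
import Pool.Agent.Helper155.Gil.ZP

set_option autoImplicit false
open Finset Filter Topology

namespace Pool.Agent.Helper155.Gil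
namespace MStep
open MKern MRed MBlue MMom MEdge MWfG MWfH MMK MQJ MZT MZP

theorem e_facts (x : ℝ) (hx : 2048 ≤ x) :
    0 < th x / x ∧ th x / x ≤ 3600 / 10 ^ 6 ∧ 7 ≤ th x := by
  have h := aux_log x hx
  have hx0 : (0 : ℝ) < x := by linarith
  have h7 : 7 ≤ th x := by linarith [h.1]
  refine ⟨div_pos (by linarith) hx0, ?_, h7⟩
  have h2 := h.2
  first
    | exact h2
    | exact h2.1
    | exact h2.2
    | (have h3 := h2.1; rw [div_eq_mul_one_div]; nlinarith)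

theorem z_lemma {ι : Type} (s : Finset ι) (w t : ι → ℝ) (x : ℝ) (hx : 2048 ≤ x)
    (h : MomOK s w t x) :
    |∑ i ∈ s, w i * (zz (x * (1 + t i)) * (1 - GG (1 / x) (th x) (t i - 1 / (2 * x))))
      - (zz (2 * x) - Real.log 2)| ≤ 4 * A0 * (th x / x) := by
  obtain ⟨he0, he1, h7⟩ := e_facts x hx
  obtain ⟨hw, h1, ht, hodd, hev⟩ := h
  have hzp := z_poly s w t x hx ⟨hw, h1, ht, hodd, hev⟩
  set e := th x / x with he
  have hdiff : |∑ i ∈ s, w i * (zz (x * (1 + t i)) * (1 - GG (1 / x) (th x) (t i - 1 / (2 * x))))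
      - ∑ i ∈ s, w i * (Zp (1 / x) (th x) (t i) * (1 - GG (1 / x) (th x) (t i - 1 / (2 * x))))|
      ≤ A0 * e := by
    rw [← Finset.sum_sub_distrib]
    have hpt : ∀ i ∈ s, |w i * (zz (x * (1 + t i)) * (1 - GG (1 / x) (th x) (t i - 1 / (2 * x))))
        - w i * (Zp (1 / x) (th x) (t i) * (1 - GG (1 / x) (th x) (t i - 1 / (2 * x))))|
        ≤ w i * (2 * (1 / 8 * t i ^ (2 * 6) + 8 / 5 * e * t i ^ (2 * 5) + 3 * e ^ 2 * t i ^ (2 * 4)
          + 6 * e ^ 3 * t i ^ (2 * 3) + 10 * e ^ 4 * t i ^ (2 * 2))) := by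
      intro i hi
      have hti := ht i hi
      have hz := z_taylor x (t i) hx hti
      have hg := GG_bound x (t i) hx hti
      have hg2 : |1 - GG (1 / x) (th x) (t i - 1 / (2 * x))| ≤ 2 := by
        rw [abs_le] at hg ⊢
        constructor <;> linarith [hg.1, hg.2]
      have e1 : w i * (zz (x * (1 + t i)) * (1 - GG (1 / x) (th x) (t i - 1 / (2 * x))))
        - w i * (Zp (1 / x) (th x) (t i) * (1 - GG (1 / x) (th x) (t i - 1 / (2 * x))))
        = w i * ((zz (x * (1 + t i)) - Zp (1 / x) (th x) (t i)) * (1 - GG (1 / x) (th x) (t i - 1 / (2 * x)))) := by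
        ring
      rw [e1, abs_mul, abs_mul, abs_of_nonneg (hw i hi)]
      refine mul_le_mul_of_nonneg_left ?_ (hw i hi)
      have ht2 : t i ^ 2 ≤ 1 / 4 := by
        have := sq_abs (t i)
        nlinarith [abs_nonneg (t i)]
      have ht16 : 2 * t i ^ 16 ≤ 1 / 8 * t i ^ (2 * 6) := by
        have h12 : 0 ≤ t i ^ 12 := by positivity
        have h4 : t i ^ 4 ≤ 1 / 16 := by nlinarith [sq_nonneg (t i)]
        have : t i ^ 16 = t i ^ 12 * t i ^ 4 := by ring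
        rw [this]
        have : t i ^ (2 * 6) = t i ^ 12 := by norm_num
        rw [this]
        nlinarith
      calc |zz (x * (1 + t i)) - Zp (1 / x) (th x) (t i)| * |1 - GG (1 / x) (th x) (t i - 1 / (2 * x))|
          ≤ (2 * t i ^ 16 + 8 / 5 * e * t i ^ 10 + 3 * e ^ 2 * t i ^ 8 + 6 * e ^ 3 * t i ^ 6
              + 10 * e ^ 4 * t i ^ 4) * 2 := by
            refine mul_le_mul hz hg2 (abs_nonneg _) ?_
            positivity
        _ ≤ _ := by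
            norm_num at ht16 ⊢
            linarith
    refine (Finset.abs_sum_le_sum_abs _ _).trans ((Finset.sum_le_sum hpt).trans ?_)
    have hsplit : ∑ i ∈ s, w i * (2 * (1 / 8 * t i ^ (2 * 6) + 8 / 5 * e * t i ^ (2 * 5) + 3 * e ^ 2 * t i ^ (2 * 4)
          + 6 * e ^ 3 * t i ^ (2 * 3) + 10 * e ^ 4 * t i ^ (2 * 2)))
        = 2 * (1 / 8 * ∑ i ∈ s, w i * t i ^ (2 * 6) + 8 / 5 * e * ∑ i ∈ s, w i * t i ^ (2 * 5)
          + 3 * e ^ 2 * ∑ i ∈ s, w i * t i ^ (2 * 4) + 6 * e ^ 3 * ∑ i ∈ s, w i * t i ^ (2 * 3)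
          + 10 * e ^ 4 * ∑ i ∈ s, w i * t i ^ (2 * 2)) := by
      simp only [Finset.mul_sum, ← Finset.sum_add_distrib]
      refine Finset.sum_congr rfl fun i _ => ?_
      ring
    rw [hsplit]
    have m6 := hev 6 (by norm_num) (by norm_num)
    have m5 := hev 5 (by norm_num) (by norm_num)
    have m4 := hev 4 (by norm_num) (by norm_num)
    have m3 := hev 3 (by norm_num) (by norm_num)
    have m2 := hev 2 (by norm_num) (by norm_num)
    simp only [Mc] at m6 m5 m4 m3 m2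
    have e5 : e ^ 5 ≤ (3600 / 10 ^ 6) ^ 5 := pow_le_pow_left₀ he0.le he1 5
    have b5 := mul_le_mul_of_nonneg_left m5 he0.le
    have b4 := mul_le_mul_of_nonneg_left m4 (pow_nonneg he0.le 2)
    have b3 := mul_le_mul_of_nonneg_left m3 (pow_nonneg he0.le 3)
    have b2 := mul_le_mul_of_nonneg_left m2 (pow_nonneg he0.le 4)
    have hfin : 2 * (1 / 8 * (1664 / 10 * e ^ 6) + 8 / 5 * (e * (3013 / 100 * e ^ 5))
        + 3 * (e ^ 2 * (667 / 100 * e ^ 4)) + 6 * (e ^ 3 * (1898 / 1000 * e ^ 3))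
        + 10 * (e ^ 4 * (756 / 1000 * e ^ 2))) ≤ A0 * e := by
      have : 2 * (1 / 8 * (1664 / 10 * e ^ 6) + 8 / 5 * (e * (3013 / 100 * e ^ 5))
        + 3 * (e ^ 2 * (667 / 100 * e ^ 4)) + 6 * (e ^ 3 * (1898 / 1000 * e ^ 3))
        + 10 * (e ^ 4 * (756 / 1000 * e ^ 2))) = (215932 / 1000 * e ^ 5) * e := by ring
      rw [this]
      refine mul_le_mul_of_nonneg_right ?_ he0.le
      unfold A0
      calc 215932 / 1000 * e ^ 5 ≤ 215932 / 1000 * (3600 / 10 ^ 6) ^ 5 := by linarith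
        _ ≤ 23 / 10 ^ 11 := by norm_num
    linarith
  calc |∑ i ∈ s, w i * (zz (x * (1 + t i)) * (1 - GG (1 / x) (th x) (t i - 1 / (2 * x))))
      - (zz (2 * x) - Real.log 2)|
      = |(∑ i ∈ s, w i * (zz (x * (1 + t i)) * (1 - GG (1 / x) (th x) (t i - 1 / (2 * x))))
      - ∑ i ∈ s, w i * (Zp (1 / x) (th x) (t i) * (1 - GG (1 / x) (th x) (t i - 1 / (2 * x)))))
      + (∑ i ∈ s, w i * (Zp (1 / x) (th x) (t i) * (1 - GG (1 / x) (th x) (t i - 1 / (2 * x))))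
      - (zz (2 * x) - Real.log 2))| := by congr 1; ring
    _ ≤ A0 * e + 3 * A0 * e := (abs_add_le _ _).trans (add_le_add hdiff hzp)
    _ = 4 * A0 * e := by ring

theorem qq_two (x : ℝ) (hx : 0 < x) : qq (2 * x) = qq x := by
  unfold qq
  have hL : Real.log 2 ≠ 0 := (Real.log_pos (by norm_num)).ne'
  rw [Real.log_mul (by norm_num) hx.ne']
  have : 2 * Real.pi * ((Real.log 2 + Real.log x) / Real.log 2)
      = 2 * Real.pi * (Real.log x / Real.log 2) + 2 * Real.pi := by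
    field_simp
    ring
  rw [this, Real.cos_add_two_pi]

theorem ew_scale (W : ℕ → ℝ) (c : ℝ) (k0 m : ℕ) :
    ew (fun k => W k / c) k0 m = c ^ (m - k0) * ew W k0 m := by
  unfold ew
  have : ∀ j ∈ Ioc k0 m, (W j / c)⁻¹ = c * (W j)⁻¹ := by
    intro j _
    rw [inv_div]; ring
  rw [Finset.prod_congr rfl this, Finset.prod_mul_distrib, Finset.prod_const, Nat.card_Ioc]

theorem kw_scale (W : ℕ → ℝ) (c : ℝ) (N k0 k : ℕ) (hk : k ∈ Icc k0 (N - k0)) (h2 : 2 * k0 ≤ N) :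
    kw (fun k => W k / c) N k0 k = c ^ (N - 2 * k0) * kw W N k0 k := by
  unfold kw
  rw [ew_scale, ew_scale]
  rw [mem_Icc] at hk
  have : N - 2 * k0 = (k - k0) + (N - k - k0) := by omega
  rw [this, pow_add]
  ring

theorem Sw_scale (W : ℕ → ℝ) (c : ℝ) (N k0 : ℕ) (h2 : 2 * k0 ≤ N) :
    Sw (fun k => W k / c) N k0 = c ^ (N - 2 * k0) * Sw W N k0 := by
  unfold Sw
  rw [Finset.mul_sum]
  exact Finset.sum_congr rfl fun k hk => kw_scale W c N k0 k hk h2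

/-- values at the integers -/
noncomputable def Wn (σ : ℝ) (k : ℕ) : ℝ := Wf σ ((k : ℝ) + 1)

theorem xc_pos (N : ℕ) : 0 < xc N := by unfold xc; positivity

theorem pos_eq (N k : ℕ) : (k : ℝ) + 1 = xc N * (1 + tk N k) := by
  have := (xc_pos N).ne'
  unfold tk
  rw [mul_add, mul_div_cancel₀ _ this]
  unfold xc
  ring

theorem pos_eq' (N k : ℕ) (hk : k ≤ N) : ((N - k : ℕ) : ℝ) + 1 = xc N * (1 - tk N k) := by
  have := (xc_pos N).ne'
  unfold tk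
  rw [mul_sub, mul_div_cancel₀ _ this, Nat.cast_sub hk]
  unfold xc
  ring

theorem tk_neg (N k : ℕ) (hk : k ≤ N) : tk N (N - k) = - tk N k := by
  unfold tk
  rw [Nat.cast_sub hk]
  ring

theorem tk_abs (N k : ℕ) (hN : 4094 ≤ N) (hk : k ∈ Icc (N / 4 + 1) (N - (N / 4 + 1))) :
    |tk N k| ≤ 1 / 2 := by
  rw [mem_Icc] at hk
  have h1 : (N : ℝ) ≤ 4 * k := by
    have : N ≤ 4 * k := by omega
    exact_mod_cast this
  have h2 : 4 * (k : ℝ) ≤ 3 * N := by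
    have : 4 * k ≤ 3 * N := by omega
    exact_mod_cast this
  unfold tk xc
  rw [abs_le]
  constructor
  · rw [le_div_iff₀ (by positivity)]; linarith
  · rw [div_le_iff₀ (by positivity)]; linarith

theorem xc_big (N : ℕ) (hN : 4094 ≤ N) : 2048 ≤ xc N := by
  unfold xc
  have : (4094 : ℝ) ≤ N := by exact_mod_cast hN
  linarith

section
variable (σ : ℝ) (hσ : |σ| ≤ 1) (N : ℕ) (hN : 4094 ≤ N)
include hσ hN

theorem Wn_F3 (k : ℕ) (hk : k ∈ Icc (N / 4 + 1) (N - (N / 4 + 1))) :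
    1 ≤ Wn σ k ∧ Wn σ k ≤ th (xc N) + 1 := by
  unfold Wn
  rw [pos_eq N k]
  exact Wf_F3 σ (xc N) (tk N k) hσ (xc_big N hN) (tk_abs N k hN hk)

theorem Wn_F1 (k : ℕ) (hk : k ∈ Icc (N / 4 + 1) (N - (N / 4 + 1))) (h : N ≤ 2 * k) :
    2 * (997 / 1000) * tk N k ≤ Wn σ k - Wn σ (N - k) := by
  have hkN : k ≤ N := by rw [mem_Icc] at hk; omega
  unfold Wn
  rw [pos_eq' N k hkN, pos_eq N k]
  have h0 : 0 ≤ tk N k := by
    unfold tk
    have : (N : ℝ) ≤ 2 * k := by exact_mod_cast h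
    exact div_nonneg (by linarith) (xc_pos N).le
  exact Wf_F1 σ (xc N) (tk N k) hσ (xc_big N hN) h0 (abs_le.1 (tk_abs N k hN hk)).2

theorem Wn_F2 (k : ℕ) (hk : k ∈ Icc (N / 4 + 1) (N - (N / 4 + 1))) :
    Wn σ k + Wn σ (N - k) ≤ 2 * (10005 / 10000) * th (xc N) := by
  have hkN : k ≤ N := by rw [mem_Icc] at hk; omega
  have ht := abs_le.1 (tk_abs N k hN hk)
  unfold Wn
  rw [pos_eq' N k hkN, pos_eq N k]
  rcases le_or_gt 0 (tk N k) with h0 | h0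
  · exact Wf_F2 σ (xc N) (tk N k) hσ (xc_big N hN) h0 ht.2
  · have := Wf_F2 σ (xc N) (-tk N k) hσ (xc_big N hN) (by linarith) (by linarith)
    rw [sub_neg_eq_add, ← sub_eq_add_neg] at this
    linarith

theorem Wn_mono (k : ℕ) (hk : 1000 ≤ k) : Wn σ k ≤ Wn σ (k + 1) := by
  unfold Wn
  have hk' : (1000 : ℝ) ≤ k := by exact_mod_cast hk
  have := Wf_mono σ ((k : ℝ) + 1) hσ (by linarith)
  push_cast
  exact this

theorem Wn_conc (k : ℕ) (hk : 1001 ≤ k) : Wn σ (k + 1) + Wn σ (k - 1) ≤ 2 * Wn σ k := by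
  unfold Wn
  have hk' : (1001 : ℝ) ≤ k := by exact_mod_cast hk
  have := Wf_conc σ ((k : ℝ) + 1) hσ (by linarith)
  have e : ((k - 1 : ℕ) : ℝ) + 1 = (k : ℝ) + 1 - 1 := by
    rw [Nat.cast_sub (by omega)]; push_cast; ring
  rw [e]
  push_cast
  exact this

theorem Wn_mom : MomOK (Icc (N / 4 + 1) (N - (N / 4 + 1)))
      (fun k => kw (Wn σ) N (N / 4 + 1) k / Sw (Wn σ) N (N / 4 + 1)) (tk N) (xc N) :=
  mom_kernel N hN (Wn σ) (fun k hk => by linarith [(Wn_F3 σ hσ N hN k hk).1])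
    (fun k hk h => Wn_F1 σ hσ N hN k hk h) (fun k hk => Wn_F2 σ hσ N hN k hk)

theorem Wn_edge : kw (Wn σ) N (N / 4 + 1) (N / 4 + 1) * (th (xc N) + 1)
      ≤ A0 / 10 * (th (xc N) / xc N) * Sw (Wn σ) N (N / 4 + 1) :=
  edge_small N hN (Wn σ) (fun k hk => by linarith [(Wn_F3 σ hσ N hN k hk).1])
    (fun k hk _ => Wn_mono σ hσ N hN k (by omega))
    (fun k hk h => Wn_F1 σ hσ N hN k hk h) (fun k hk => (Wn_F3 σ hσ N hN k hk).2)

theorem Sw_pos : 0 < Sw (Wn σ) N (N / 4 + 1) := by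
  unfold Sw
  refine Finset.sum_pos (fun k hk => kw_pos _ N _ k ?_ hk) ⟨N / 4 + 1, ?_⟩
  · intro j hj
    rw [mem_Ioc] at hj
    linarith [(Wn_F3 σ hσ N hN j (by rw [mem_Icc]; omega)).1]
  · rw [mem_Icc]; omega

/-- the weighted mean of `W` -/
theorem mean_split :
    (∑ k ∈ Icc (N / 4 + 1) (N - (N / 4 + 1)), kw (Wn σ) N (N / 4 + 1) k * Wn σ k) / Sw (Wn σ) N (N / 4 + 1)
    = ∑ k ∈ Icc (N / 4 + 1) (N - (N / 4 + 1)), (kw (Wn σ) N (N / 4 + 1) k / Sw (Wn σ) N (N / 4 + 1))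
        * (Wf σ (xc N * (1 + tk N k)) * (1 - GG (1 / xc N) (th (xc N)) (tk N k - 1 / (2 * xc N))))
      + (kw (Wn σ) N (N / 4 + 1) (N / 4 + 1) / Sw (Wn σ) N (N / 4 + 1)) * (Wn σ (N / 4 + 1)
        * GG (1 / xc N) (th (xc N)) (tk N (N / 4 + 1) - 1 / (2 * xc N))) := by
  set k0 := N / 4 + 1 with hk0
  have hpos : ∀ k ∈ Ioc k0 (N - k0), 0 < Wn σ k := by
    intro j hj
    rw [mem_Ioc] at hj
    linarith [(Wn_F3 σ hσ N hN j (by rw [mem_Icc]; omega)).1]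
  have hst := stein (Wn σ) N k0 (by omega) hpos
    (fun k => GG (1 / xc N) (th (xc N)) (tk N k - 1 / (2 * xc N))) (by
      intro k hk
      rw [mem_Ioc] at hk
      have hkN : k ≤ N + 1 := by omega
      have e : tk N (N + 1 - k) - 1 / (2 * xc N) = -(tk N k - 1 / (2 * xc N)) := by
        unfold tk
        have hx := (xc_pos N).ne'
        rw [Nat.cast_sub hkN]
        push_cast
        field_simp
        ring
      show GG _ _ (tk N (N + 1 - k) - 1 / (2 * xc N)) = _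
      rw [e]
      unfold GG
      ring)
  have hIcc : Icc k0 (N - k0) = insert k0 (Ioc k0 (N - k0)) := by
    ext j
    simp only [mem_Icc, mem_insert, mem_Ioc]
    omega
  have hnot : k0 ∉ Ioc k0 (N - k0) := by simp
  have hg : ∑ k ∈ Icc k0 (N - k0), kw (Wn σ) N k0 k * Wn σ k * GG (1 / xc N) (th (xc N)) (tk N k - 1 / (2 * xc N))
      = kw (Wn σ) N k0 k0 * Wn σ k0 * GG (1 / xc N) (th (xc N)) (tk N k0 - 1 / (2 * xc N)) := by
    rw [hIcc, Finset.sum_insert hnot, hst, add_zero]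
  have hS := (Sw_pos σ hσ N hN).ne'
  rw [← hk0] at hS
  have e1 : ∑ k ∈ Icc k0 (N - k0), kw (Wn σ) N k0 k * Wn σ k
      = ∑ k ∈ Icc k0 (N - k0), kw (Wn σ) N k0 k * (Wf σ (xc N * (1 + tk N k))
          * (1 - GG (1 / xc N) (th (xc N)) (tk N k - 1 / (2 * xc N))))
        + ∑ k ∈ Icc k0 (N - k0), kw (Wn σ) N k0 k * Wn σ k * GG (1 / xc N) (th (xc N)) (tk N k - 1 / (2 * xc N)) := by
    rw [← Finset.sum_add_distrib]
    refine Finset.sum_congr rfl fun k _ => ?_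
    rw [← pos_eq N k]
    unfold Wn
    ring
  rw [e1, hg, add_div, Finset.sum_div]
  congr 1
  · refine Finset.sum_congr rfl fun k _ => ?_
    ring
  · ring

theorem mean_lin : ∑ k ∈ Icc (N / 4 + 1) (N - (N / 4 + 1)), (kw (Wn σ) N (N / 4 + 1) k / Sw (Wn σ) N (N / 4 + 1))
        * (Wf σ (xc N * (1 + tk N k)) * (1 - GG (1 / xc N) (th (xc N)) (tk N k - 1 / (2 * xc N))))
    = ∑ k ∈ Icc (N / 4 + 1) (N - (N / 4 + 1)), (kw (Wn σ) N (N / 4 + 1) k / Sw (Wn σ) N (N / 4 + 1))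
        * (zz (xc N * (1 + tk N k)) * (1 - GG (1 / xc N) (th (xc N)) (tk N k - 1 / (2 * xc N))))
      + σ * ∑ k ∈ Icc (N / 4 + 1) (N - (N / 4 + 1)), (kw (Wn σ) N (N / 4 + 1) k / Sw (Wn σ) N (N / 4 + 1))
        * (mm (xc N * (1 + tk N k)) * (1 - GG (1 / xc N) (th (xc N)) (tk N k - 1 / (2 * xc N))))
      - A0 * ∑ k ∈ Icc (N / 4 + 1) (N - (N / 4 + 1)), (kw (Wn σ) N (N / 4 + 1) k / Sw (Wn σ) N (N / 4 + 1))
        * (qq (xc N * (1 + tk N k)) * (1 - GG (1 / xc N) (th (xc N)) (tk N k - 1 / (2 * xc N)))) := by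
  rw [Finset.mul_sum, Finset.mul_sum, ← Finset.sum_add_distrib, ← Finset.sum_sub_distrib]
  refine Finset.sum_congr rfl fun k _ => ?_
  unfold Wf
  ring

/-- size of the boundary term -/
theorem edge_abs : |(kw (Wn σ) N (N / 4 + 1) (N / 4 + 1) / Sw (Wn σ) N (N / 4 + 1)) * (Wn σ (N / 4 + 1)
        * GG (1 / xc N) (th (xc N)) (tk N (N / 4 + 1) - 1 / (2 * xc N)))| ≤ A0 / 10 * (th (xc N) / xc N)
    ∧ 0 ≤ (kw (Wn σ) N (N / 4 + 1) (N / 4 + 1) / Sw (Wn σ) N (N / 4 + 1)) * Wn σ (N / 4 + 1)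
    ∧ (kw (Wn σ) N (N / 4 + 1) (N / 4 + 1) / Sw (Wn σ) N (N / 4 + 1)) * Wn σ (N / 4 + 1)
      ≤ A0 / 10 * (th (xc N) / xc N) := by
  have hmem : N / 4 + 1 ∈ Icc (N / 4 + 1) (N - (N / 4 + 1)) := by rw [mem_Icc]; omega
  have hS := Sw_pos σ hσ N hN
  have hE := Wn_edge σ hσ N hN
  have hF := Wn_F3 σ hσ N hN _ hmem
  have hk : 0 < kw (Wn σ) N (N / 4 + 1) (N / 4 + 1) := by
    refine kw_pos _ N _ _ ?_ hmem
    intro j hj
    rw [mem_Ioc] at hj
    linarith [(Wn_F3 σ hσ N hN j (by rw [mem_Icc]; omega)).1]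
  have h1 : (kw (Wn σ) N (N / 4 + 1) (N / 4 + 1) / Sw (Wn σ) N (N / 4 + 1)) * Wn σ (N / 4 + 1)
      ≤ A0 / 10 * (th (xc N) / xc N) := by
    rw [div_mul_eq_mul_div, div_le_iff₀ hS]
    refine le_trans ?_ hE
    exact mul_le_mul_of_nonneg_left hF.2 hk.le
  have h0 : 0 ≤ (kw (Wn σ) N (N / 4 + 1) (N / 4 + 1) / Sw (Wn σ) N (N / 4 + 1)) * Wn σ (N / 4 + 1) :=
    mul_nonneg (div_nonneg hk.le hS.le) (by linarith [hF.1])
  refine ⟨?_, h0, h1⟩
  rw [← mul_assoc, abs_mul, abs_of_nonneg h0]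
  have hg := GG_bound (xc N) (tk N (N / 4 + 1)) (xc_big N hN) (tk_abs N _ hN hmem)
  calc _ ≤ (A0 / 10 * (th (xc N) / xc N)) * 1 := by
        refine mul_le_mul h1 hg (abs_nonneg _) ?_
        have := (e_facts (xc N) (xc_big N hN)).1
        unfold A0; positivity
    _ = _ := by ring

end

/-- supersolution property -/
theorem super (N : ℕ) (hN : 4094 ≤ N) :
    Real.log 2 + (∑ k ∈ Icc (N / 4 + 1) (N - (N / 4 + 1)), kw (Wn 1) N (N / 4 + 1) k * Wn 1 k)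
      / Sw (Wn 1) N (N / 4 + 1) ≤ Wf 1 (2 * xc N) := by
  have hσ : |(1 : ℝ)| ≤ 1 := by simp
  have hx := xc_big N hN
  have hM := Wn_mom 1 hσ N hN
  have hz := z_lemma _ _ _ _ hx hM
  have hq := q_lemma _ _ _ _ hx hM
  have hm := m_lemma _ _ _ _ hx hM
  have he := (edge_abs 1 hσ N hN).1
  rw [mean_split 1 hσ N hN, mean_lin 1 hσ N hN]
  have he0 := (e_facts (xc N) hx).1
  rw [abs_le] at hz hq he
  have h2 : Wf 1 (2 * xc N) = zz (2 * xc N) + mm (2 * xc N) - A0 * qq (xc N) := by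
    unfold Wf
    rw [qq_two _ (xc_pos N)]
    ring
  rw [h2]
  set e := th (xc N) / xc N
  have hA : A0 * (-(44 * e)) ≤ A0 * (∑ i ∈ Icc (N / 4 + 1) (N - (N / 4 + 1)),
      (kw (Wn 1) N (N / 4 + 1) i / Sw (Wn 1) N (N / 4 + 1)) *
        (qq (xc N * (1 + tk N i)) * (1 - GG (1 / xc N) (th (xc N)) (tk N i - 1 / (2 * xc N)))) - qq (xc N)) :=
    mul_le_mul_of_nonneg_left hq.1 (by unfold A0; positivity)
  have hk : kap = 100 * A0 := by unfold kap A0; norm_num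
  rw [hk] at hm
  have hAe : 0 ≤ A0 * e := mul_nonneg (by unfold A0; positivity) he0.le
  nlinarith [hz.2, he.2, hm, hA, hAe]

/-- subsolution property -/
theorem sub (N : ℕ) (hN : 4094 ≤ N) :
    Wf (-1) (2 * xc N) ≤ Real.log 2 + (∑ k ∈ Ioc (N / 4 + 1) (N - (N / 4 + 1)),
      kw (Wn (-1)) N (N / 4 + 1) k * Wn (-1) k) / Sw (Wn (-1)) N (N / 4 + 1) := by
  have hσ : |(-1 : ℝ)| ≤ 1 := by simp
  have hx := xc_big N hN
  have hM := Wn_mom (-1) hσ N hN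
  have hz := z_lemma _ _ _ _ hx hM
  have hq := q_lemma _ _ _ _ hx hM
  have hm := m_lemma _ _ _ _ hx hM
  have he := edge_abs (-1) hσ N hN
  have hIcc : Icc (N / 4 + 1) (N - (N / 4 + 1)) = insert (N / 4 + 1) (Ioc (N / 4 + 1) (N - (N / 4 + 1))) := by
    ext j
    simp only [mem_Icc, mem_insert, mem_Ioc]
    omega
  have hnot : N / 4 + 1 ∉ Ioc (N / 4 + 1) (N - (N / 4 + 1)) := by simp
  have e1 : (∑ k ∈ Ioc (N / 4 + 1) (N - (N / 4 + 1)), kw (Wn (-1)) N (N / 4 + 1) k * Wn (-1) k)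
      / Sw (Wn (-1)) N (N / 4 + 1)
      = (∑ k ∈ Icc (N / 4 + 1) (N - (N / 4 + 1)), kw (Wn (-1)) N (N / 4 + 1) k * Wn (-1) k)
        / Sw (Wn (-1)) N (N / 4 + 1)
        - (kw (Wn (-1)) N (N / 4 + 1) (N / 4 + 1) / Sw (Wn (-1)) N (N / 4 + 1)) * Wn (-1) (N / 4 + 1) := by
    rw [hIcc, Finset.sum_insert hnot]
    ring
  rw [e1, mean_split (-1) hσ N hN, mean_lin (-1) hσ N hN]
  have he0 := (e_facts (xc N) hx).1
  have he1 := abs_le.1 he.1
  have he2 := he.2.2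
  rw [abs_le] at hz hq
  have h2 : Wf (-1) (2 * xc N) = zz (2 * xc N) - mm (2 * xc N) - A0 * qq (xc N) := by
    unfold Wf
    rw [qq_two _ (xc_pos N)]
    ring
  rw [h2]
  set e := th (xc N) / xc N
  have hA : A0 * (∑ i ∈ Icc (N / 4 + 1) (N - (N / 4 + 1)),
      (kw (Wn (-1)) N (N / 4 + 1) i / Sw (Wn (-1)) N (N / 4 + 1)) *
        (qq (xc N * (1 + tk N i)) * (1 - GG (1 / xc N) (th (xc N)) (tk N i - 1 / (2 * xc N)))) - qq (xc N))
      ≤ A0 * (44 * e) :=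
    mul_le_mul_of_nonneg_left hq.2 (by unfold A0; positivity)
  have hk : kap = 100 * A0 := by unfold kap A0; norm_num
  rw [hk] at hm
  have hAe : 0 ≤ A0 * e := mul_nonneg (by unfold A0; positivity) he0.le
  nlinarith [hz.1, he1.1, hm, hA, hAe, he2]

end MStep
end Pool.Agent.Helper155.Gil
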